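import Pool.Agent.SCF.PartIII

/-!
# Project SCF: transversality in terms of tangent spaces, open Schubert cells, the generic number
-/

set_option autoImplicit false

namespace SCF

open Module Filter Topology Matrix

namespace TR_

/-- the span of `m ≤ n` independent vectors -/
theorem finrank_Fs_eq {n : ℕ} (g : Fin n → Fin n → ℂ) (hg : LinearIndependent ℂ g) (m : ℕ)
    (hm : m ≤ n) : finrank ℂ (Fs g m) = m := by
  classical
  have h : (g '' {a : Fin n | (a : ℕ) < m}) =
      Set.range (fun a : Fin m => g (Fin.castLE hm a)) := by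
    ext v
    constructor
    · rintro ⟨a, ha, rfl⟩
      exact ⟨⟨a, ha⟩, rfl⟩
    · rintro ⟨a, rfl⟩
      exact ⟨Fin.castLE hm a, a.2, rfl⟩
  unfold Fs
  rw [h, finrank_span_eq_card, Fintype.card_fin]
  exact hg.comp _ (Fin.castLE_injective hm)

/-- functionals on the quotient vanishing on the image of `F` -/
noncomputable def XX {n : ℕ} (H F : Submodule ℂ (Fin n → ℂ)) :
    Submodule ℂ (Module.Dual ℂ ((Fin n → ℂ) ⧸ H)) := (F.map H.mkQ).dualAnnihilator

theorem finrank_XX {n k : ℕ} (H F : Submodule ℂ (Fin n → ℂ)) (hH : finrank ℂ H = k) :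
    finrank ℂ (XX H F) + finrank ℂ F + k = n + finrank ℂ ↥(H ⊓ F) := by
  have h1 := Subspace.finrank_add_finrank_dualAnnihilator_eq (F.map H.mkQ)
  have h2 := Submodule.finrank_quotient_add_finrank H
  have h3 := LinearMap.finrank_range_add_finrank_ker (H.mkQ ∘ₗ F.subtype)
  have h4 : finrank ℂ (LinearMap.range (H.mkQ ∘ₗ F.subtype)) = finrank ℂ (F.map H.mkQ) := by
    rw [LinearMap.range_comp, Submodule.range_subtype]
  have h5 : finrank ℂ (LinearMap.ker (H.mkQ ∘ₗ F.subtype)) = finrank ℂ ↥(H ⊓ F) := by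
    rw [LinearMap.ker_comp, Submodule.ker_mkQ]
    have h6 : (H.comap F.subtype).map F.subtype = H ⊓ F := by
      rw [Submodule.map_comap_subtype, inf_comm]
    rw [← h6]
    exact (LinearEquiv.finrank_eq (Submodule.equivMapOfInjective F.subtype
      F.injective_subtype _))
  rw [Module.finrank_fin_fun] at h2
  rw [hH] at h2
  have h7 : finrank ℂ (XX H F) = finrank ℂ ↥(F.map H.mkQ).dualAnnihilator := rfl
  omega

/-- The map of the pair lemma for `H = H'` and arbitrary positions `m`. -/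
noncomputable def Psi {n k r : ℕ} (H : Submodule ℂ (Fin n → ℂ)) (G : Fl n r)
    (m : Fin r → Fin k → ℕ) (h : Fin r → Fin k → H) :
    ((p : Fin r × Fin k) → XX H (Fs (G p.1) (m p.1 p.2))) →ₗ[ℂ]
      (((Fin n → ℂ) ⧸ H) →ₗ[ℂ] H) where
  toFun ξ := ∑ p, ((ξ p : Module.Dual ℂ ((Fin n → ℂ) ⧸ H))).smulRight (h p.1 p.2)
  map_add' ξ ξ' := by
    rw [← Finset.sum_add_distrib]
    refine Finset.sum_congr rfl fun p _ => ?_
    refine LinearMap.ext fun v => ?_
    simp [add_smul]
  map_smul' c ξ := by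
    rw [RingHom.id_apply, Finset.smul_sum]
    refine Finset.sum_congr rfl fun p _ => ?_
    refine LinearMap.ext fun v => ?_
    simp [mul_smul]

theorem Psi_inj {n k r : ℕ} (H : Submodule ℂ (Fin n → ℂ)) (G : Fl n r)
    (hno : ∀ B, IsRel G H H B → B = 0) (m : Fin r → Fin k → ℕ) (h : Fin r → Fin k → H)
    (hind : ∀ j, LinearIndependent ℂ (fun i => (h j i : Fin n → ℂ)))
    (hmem : ∀ j i, (h j i : Fin n → ℂ) ∈ Fs (G j) (m j i)) :
    Function.Injective (Psi H G m h) := by
  classical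
  rw [injective_iff_map_eq_zero]
  intro ξ hξ
  -- the relation
  set L : Fin r → ((Fin n → ℂ) →ₗ[ℂ] (Fin n → ℂ)) := fun j =>
    H.subtype ∘ₗ (∑ i, ((ξ (j, i) : Module.Dual ℂ ((Fin n → ℂ) ⧸ H))).smulRight (h j i)) ∘ₗ
      H.mkQ with hL
  have hLv : ∀ j v, L j v = ∑ i, ((ξ (j, i) : Module.Dual ℂ ((Fin n → ℂ) ⧸ H))) (H.mkQ v) •
      (h j i : Fin n → ℂ) := by
    intro j v
    simp [hL]
  have hrel : IsRel G H H (fun j => LinearMap.toMatrix' (L j)) := by
    refine ⟨?_, ?_, ?_, ?_⟩
    · intro j v hv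
      rw [LinearMap.toMatrix'_mulVec, hLv]
      have h0 : H.mkQ v = 0 := by simpa using hv
      rw [h0]
      simp
    · intro j v
      rw [LinearMap.toMatrix'_mulVec, hLv]
      exact Submodule.sum_mem _ fun i _ => H.smul_mem _ (h j i).2
    · intro j a
      rw [LinearMap.toMatrix'_mulVec, hLv]
      refine Submodule.sum_mem _ fun i _ => ?_
      by_cases ha : (a : ℕ) < m j i
      · have h1 : G j a ∈ Fs (G j) (m j i) := Submodule.subset_span ⟨a, ha, rfl⟩
        have h2 := (Submodule.mem_dualAnnihilator _).1 (ξ (j, i)).2 _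
          (Submodule.mem_map_of_mem (f := H.mkQ) h1)
        rw [h2, zero_smul]
        exact Submodule.zero_mem _
      · refine Submodule.smul_mem _ _ ?_
        have h1 : Fs (G j) (m j i) ≤ Fs (G j) (a : ℕ) := by
          unfold Fs
          refine Submodule.span_mono (Set.image_mono ?_)
          intro b hb
          exact lt_of_lt_of_le hb (not_lt.1 ha)
        exact h1 (hmem j i)
    · have h1 : ∑ j, L j = 0 := by
        refine LinearMap.ext fun v => ?_
        rw [LinearMap.sum_apply]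
        simp only [hLv]
        have h2 := congrArg (fun f => ((f (H.mkQ v) : H) : Fin n → ℂ)) hξ
        simp only [Psi, LinearMap.coe_mk, AddHom.coe_mk, LinearMap.sum_apply,
          LinearMap.smulRight_apply, LinearMap.zero_apply, Submodule.coe_zero] at h2
        rw [Fintype.sum_prod_type] at h2
        rw [LinearMap.zero_apply, ← h2]
        simp
      have h2 := congrArg LinearMap.toMatrix' h1
      rw [map_sum, map_zero] at h2
      exact h2
  have hB := hno _ hrel
  funext p
  obtain ⟨j, i⟩ := p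
  have hLj : L j = 0 := by
    have := congrFun hB j
    exact (LinearMap.toMatrix' (R := ℂ)).injective (by rw [map_zero]; exact this)
  have hz : ∀ v, ((ξ (j, i) : Module.Dual ℂ ((Fin n → ℂ) ⧸ H))) (H.mkQ v) = 0 := by
    intro v
    have h1 := hLv j v
    rw [hLj, LinearMap.zero_apply] at h1
    exact (Fintype.linearIndependent_iff.1 (hind j)) _ h1.symm i
  apply Subtype.ext
  refine LinearMap.ext fun w => ?_
  obtain ⟨v, rfl⟩ := H.mkQ_surjective w
  exact hz v

theorem surj_aux {Q W V : Type} [AddCommGroup Q] [Module ℂ Q] [AddCommGroup W] [Module ℂ W]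
    [FiniteDimensional ℂ Q] [FiniteDimensional ℂ W] [AddCommGroup V] [Module ℂ V]
    [FiniteDimensional ℂ V] (f : V →ₗ[ℂ] (Q →ₗ[ℂ] W))
    (h : finrank ℂ V = finrank ℂ (Q →ₗ[ℂ] W)) (hf : Function.Injective f) :
    Function.Surjective f :=
  (LinearMap.injective_iff_surjective_of_finrank_eq_finrank h).1 hf

/-- the sum of the dimensions is at most `(n - k) k` -/
theorem sum_le {n k r : ℕ} (H : Submodule ℂ (Fin n → ℂ)) (hH : finrank ℂ H = k) (G : Fl n r)
    (hno : ∀ B, IsRel G H H B → B = 0) (m : Fin r → Fin k → ℕ)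
    (hm : ∀ j (i : Fin k), (i : ℕ) + 1 ≤ finrank ℂ ↥(H ⊓ Fs (G j) (m j i))) :
    ∃ h : Fin r → Fin k → H, (∀ j, LinearIndependent ℂ (fun i => (h j i : Fin n → ℂ))) ∧
      (∀ j i, (h j i : Fin n → ℂ) ∈ Fs (G j) (m j i)) ∧ Function.Injective (Psi H G m h) ∧
      ∑ p : Fin r × Fin k, finrank ℂ (XX H (Fs (G p.1) (m p.1 p.2))) ≤ (n - k) * k ∧
      (∑ p : Fin r × Fin k, finrank ℂ (XX H (Fs (G p.1) (m p.1 p.2))) = (n - k) * k →
        Function.Surjective (Psi H G m h)) := by
  classical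
  have hgr : ∀ j : Fin r, ∃ h : Fin k → Fin n → ℂ, LinearIndependent ℂ h ∧
      ∀ i : Fin k, h i ∈ H ⊓ Fs (G j) (m j i) := fun j => p_GR n k _ (hm j)
  choose h hind hmem using hgr
  have hinj := Psi_inj H G hno m (fun j i => ⟨h j i, (hmem j i).1⟩) hind
    (fun j i => (hmem j i).2)
  have hdim : finrank ℂ (((Fin n → ℂ) ⧸ H) →ₗ[ℂ] H) = (n - k) * k := by
    rw [Module.finrank_linearMap, hH]
    have h1 := Submodule.finrank_quotient_add_finrank H
    rw [hH, Module.finrank_fin_fun] at h1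
    have h2 : finrank ℂ ((Fin n → ℂ) ⧸ H) = n - k := by omega
    rw [h2]
  refine ⟨fun j i => ⟨h j i, (hmem j i).1⟩, hind, fun j i => (hmem j i).2, hinj, ?_, ?_⟩
  · have h1 := LinearMap.finrank_le_finrank_of_injective hinj
    rw [Module.finrank_pi_fintype, hdim] at h1
    exact h1
  · intro heq
    have h1 : finrank ℂ ((p : Fin r × Fin k) → XX H (Fs (G p.1) (m p.1 p.2))) =
        finrank ℂ (((Fin n → ℂ) ⧸ H) →ₗ[ℂ] H) := by
      rw [Module.finrank_pi_fintype, hdim, heq]
    exact surj_aux _ h1 hinj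

end TR_

open TR_

/-- At a solution of good flags: the solution is in the open Schubert cells and the tangent spaces
of the Schubert varieties meet in `0`. -/
theorem trans_of_good (k n r : ℕ) (lam : Fin r → Fin k → ℕ) (hS : SP k n r lam) (G : Fl n r)
    (hI : Ind G) (hg : Good k lam G) (H : Submodule ℂ (Fin n → ℂ)) (hH : H ∈ Sch k lam G) :
    (∀ (j : Fin r) (i : Fin k),
      finrank ℂ ↥(H ⊓ Fs (G j) (n - k + (i : ℕ) + 1 - lam j i)) = (i : ℕ) + 1 ∧
      finrank ℂ ↥(H ⊓ Fs (G j) (n - k + (i : ℕ) - lam j i)) = (i : ℕ)) ∧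
    ∀ φ : H →ₗ[ℂ] ((Fin n → ℂ) ⧸ H),
      (∀ (j : Fin r) (i : Fin k) (v : H),
        (v : Fin n → ℂ) ∈ Fs (G j) (n - k + (i : ℕ) + 1 - lam j i) →
        φ v ∈ (Fs (G j) (n - k + (i : ℕ) + 1 - lam j i)).map H.mkQ) → φ = 0 := by
  classical
  obtain ⟨hHk, hHs⟩ := hH
  have hno : ∀ B, IsRel G H H B → B = 0 := hg H ⟨hHk, hHs⟩
  have hsumlam : ∑ p : Fin r × Fin k, lam p.1 p.2 = (n - k) * k := by
    rw [Fintype.sum_prod_type, hS.sum, mul_comm]
  have hkn := hS.kn
  -- dimension of `X`
  have hX : ∀ (j : Fin r) (m : ℕ), m ≤ n →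
      finrank ℂ (XX H (Fs (G j) m)) + m + k = n + finrank ℂ ↥(H ⊓ Fs (G j) m) := by
    intro j m hm
    have h1 := finrank_XX H (Fs (G j) m) hHk
    rwa [finrank_Fs_eq (G j) (hI j) m hm] at h1
  have hm0 : ∀ (j : Fin r) (i : Fin k), n - k + (i : ℕ) + 1 - lam j i ≤ n := by
    intro j i
    have := i.2
    omega
  obtain ⟨h, hind, hmem, hinj, hle, hsurj⟩ := sum_le H hHk G hno
    (fun j i => n - k + (i : ℕ) + 1 - lam j i) hHs
  have hge : ∀ p : Fin r × Fin k, lam p.1 p.2 ≤
      finrank ℂ (XX H (Fs (G p.1) (n - k + (p.2 : ℕ) + 1 - lam p.1 p.2))) := by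
    intro p
    have h1 := hX p.1 _ (hm0 p.1 p.2)
    have h2 := hHs p.1 p.2
    have h3 := hS.le p.1 p.2
    omega
  have heqs : ∑ p : Fin r × Fin k,
      finrank ℂ (XX H (Fs (G p.1) (n - k + (p.2 : ℕ) + 1 - lam p.1 p.2))) = (n - k) * k := by
    refine le_antisymm hle ?_
    rw [← hsumlam]
    exact Finset.sum_le_sum fun p _ => hge p
  have hex : ∀ p : Fin r × Fin k, lam p.1 p.2 =
      finrank ℂ (XX H (Fs (G p.1) (n - k + (p.2 : ℕ) + 1 - lam p.1 p.2))) := by
    intro p
    exact (Finset.sum_eq_sum_iff_of_le (fun p _ => hge p)).1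
      (hsumlam.trans heqs.symm) p (Finset.mem_univ p)
  have hA : ∀ (j : Fin r) (i : Fin k),
      finrank ℂ ↥(H ⊓ Fs (G j) (n - k + (i : ℕ) + 1 - lam j i)) = (i : ℕ) + 1 := by
    intro j i
    have h1 := hX j _ (hm0 j i)
    have h2 := hex (j, i)
    simp only at h2
    have h3 := hS.le j i
    omega
  refine ⟨fun j i => ⟨hA j i, ?_⟩, ?_⟩
  · -- the open cell
    have hl := hS.le j i
    have hn1 : n - k + (i : ℕ) - lam j i ≤ n := by
      have := hm0 j i
      omega
    have hstep : n - k + (i : ℕ) + 1 - lam j i = (n - k + (i : ℕ) - lam j i) + 1 := by omega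
    refine le_antisymm ?_ ?_
    · by_contra hcon
      rw [not_le] at hcon
      obtain ⟨_, _, _, _, hle', _⟩ := sum_le H hHk G hno
        (fun j' i' => if j' = j ∧ i' = i then n - k + (i : ℕ) - lam j i
          else n - k + (i' : ℕ) + 1 - lam j' i')
        (by
          intro j' i'
          by_cases hc : j' = j ∧ i' = i
          · rw [if_pos hc]
            obtain ⟨rfl, rfl⟩ := hc
            exact hcon
          · rw [if_neg hc]
            exact hHs j' i')
      have hlt : ∑ p : Fin r × Fin k, lam p.1 p.2 < ∑ p : Fin r × Fin k,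
          finrank ℂ (XX H (Fs (G p.1) (if p.1 = j ∧ p.2 = i then n - k + (i : ℕ) - lam j i
            else n - k + (p.2 : ℕ) + 1 - lam p.1 p.2))) := by
        refine Finset.sum_lt_sum ?_ ⟨(j, i), Finset.mem_univ _, ?_⟩
        · rintro ⟨j', i'⟩ _
          show lam j' i' ≤ finrank ℂ (XX H (Fs (G j') (if j' = j ∧ i' = i then
            n - k + (i : ℕ) - lam j i else n - k + (i' : ℕ) + 1 - lam j' i')))
          by_cases hc : j' = j ∧ i' = i
          · rw [if_pos hc]
            obtain ⟨rfl, rfl⟩ := hc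
            have h1 := hX j' _ hn1
            omega
          · rw [if_neg hc]
            exact hge (j', i')
        · show lam j i < finrank ℂ (XX H (Fs (G j) (if j = j ∧ i = i then
            n - k + (i : ℕ) - lam j i else n - k + (i : ℕ) + 1 - lam j i)))
          rw [if_pos ⟨rfl, rfl⟩]
          have h1 := hX j _ hn1
          omega
      rw [hsumlam] at hlt
      exact absurd hle' (not_le.2 hlt)
    · have h1 := hX j _ hn1
      have h2 := hX j _ (hm0 j i)
      have h3 := hA j i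
      have h4 := hex (j, i)
      simp only at h4
      have hmono : XX H (Fs (G j) (n - k + (i : ℕ) + 1 - lam j i)) ≤
          XX H (Fs (G j) (n - k + (i : ℕ) - lam j i)) := by
        unfold XX
        apply Submodule.dualAnnihilator_anti
        apply Submodule.map_mono
        unfold Fs
        refine Submodule.span_mono (Set.image_mono ?_)
        intro b hb
        have hb' : (b : ℕ) < n - k + (i : ℕ) - lam j i := hb
        show (b : ℕ) < n - k + (i : ℕ) + 1 - lam j i
        omega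
      have h5 := Submodule.finrank_mono hmono
      omega
  · -- transversality
    intro φ hφ
    have hs := hsurj heqs
    by_contra hne
    obtain ⟨w, hw⟩ : ∃ w, φ w ≠ 0 := by
      by_contra hcon
      push Not at hcon
      exact hne (LinearMap.ext hcon)
    obtain ⟨η, hη⟩ : ∃ η : Module.Dual ℂ ((Fin n → ℂ) ⧸ H), η (φ w) ≠ 0 := by
      by_contra hcon
      push Not at hcon
      exact hw ((Module.forall_dual_apply_eq_zero_iff ℂ (φ w)).1 hcon)
    obtain ⟨ξ, hξ⟩ := hs (η.smulRight w)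
    have h1 : LinearMap.trace ℂ H ((η.smulRight w) ∘ₗ φ) = η (φ w) := by
      have : (η.smulRight w) ∘ₗ φ = (η ∘ₗ φ).smulRight w := by
        refine LinearMap.ext fun v => ?_
        simp
      rw [this]
      exact LinearMap.trace_smulRight (η ∘ₗ φ) w
    have h2 : LinearMap.trace ℂ H ((Psi H G (fun j i => n - k + (i : ℕ) + 1 - lam j i) h ξ) ∘ₗ
        φ) = 0 := by
      have : (Psi H G (fun j i => n - k + (i : ℕ) + 1 - lam j i) h ξ) ∘ₗ φ =
          ∑ p, ((ξ p : Module.Dual ℂ ((Fin n → ℂ) ⧸ H)) ∘ₗ φ).smulRight (h p.1 p.2) := by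
        refine LinearMap.ext fun v => ?_
        simp [Psi, LinearMap.sum_apply]
      rw [this, map_sum]
      refine Finset.sum_eq_zero fun p _ => ?_
      refine (LinearMap.trace_smulRight ((ξ p : Module.Dual ℂ ((Fin n → ℂ) ⧸ H)) ∘ₗ φ)
        (h p.1 p.2)).trans ?_
      exact (Submodule.mem_dualAnnihilator _).1 (ξ p).2 _ (hφ p.1 p.2 (h p.1 p.2)
        (hmem p.1 p.2))
    rw [hξ, h1] at h2
    exact hη h2

/-- the number of solutions of a disjoint secant problem is the number for generic flags -/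
theorem number_generic (k n r : ℕ) (lam : Fin r → Fin k → ℕ) (hS : SP k n r lam)
    (t : Fin r → Fin n → ℝ) (ht : Sep t) (G : Fl n r) (hG : Gen G) :
    (Sch k lam G).Finite ∧ (Sch k lam G).ncard = (Sch k lam (sec t)).ncard := by
  have hGEQ : T_GEQ := p_GEQ (p_FT2 q_FTE) q_SGS q_SGG p_SGB
  have hGDG : T_GDG := p_GDG q_GDN p_GIN hGEQ q_GO q_CARD q_FIN
  obtain ⟨h1, h2, h3⟩ := hGDG k n r lam hS (sec t) (p_SECI n r t ht) (q_GSEC k n r lam hS t ht)
    G hG
  refine ⟨h2, le_antisymm h3 ?_⟩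
  exact q_MXF k n r lam hS G (p_GIN n r G hG) h1 (sec t) (p_SECI n r t ht)
    (q_SF k n r lam hS t ht)

end SCF
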