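import Pool.Agent.SCF.TargetsAut

set_option autoImplicit false

/-!
# SCF, target CEB: automorphism from two transcendence bases
-/

namespace SCF

open Cardinal

theorem p_CEB : T_CEB := by
  intro F _ _ ι κ v w e hv hw
  have := IsAlgClosed.isAlgClosure_of_transcendence_basis v hv
  have := IsAlgClosed.isAlgClosure_of_transcendence_basis w hw
  let ψ : Algebra.adjoin F (Set.range v) ≃ₐ[F] Algebra.adjoin F (Set.range w) :=
    hv.1.aevalEquiv.symm.trans ((MvPolynomial.renameEquiv F e).trans hw.1.aevalEquiv)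
  have hσ : ∀ a : Algebra.adjoin F (Set.range v),
      IsAlgClosure.equivOfEquiv ℂ ℂ ψ.toRingEquiv (a : ℂ) = (ψ a : ℂ) :=
    fun a => IsAlgClosure.equivOfEquiv_algebraMap ℂ ℂ ψ.toRingEquiv a
  refine ⟨IsAlgClosure.equivOfEquiv ℂ ℂ ψ.toRingEquiv, ?_, ?_⟩
  · intro c
    have h := hσ (algebraMap F _ c)
    rw [ψ.commutes] at h
    exact h
  · intro i
    have h1 : hv.1.aevalEquiv (MvPolynomial.X i) = ⟨v i, Algebra.subset_adjoin ⟨i, rfl⟩⟩ := by
      apply Subtype.ext
      have h2 := hv.1.algebraMap_aevalEquiv (MvPolynomial.X i)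
      rw [MvPolynomial.aeval_X] at h2
      exact h2
    have h3 := hσ ⟨v i, Algebra.subset_adjoin ⟨i, rfl⟩⟩
    rw [← h1] at h3
    have h4 : ψ (hv.1.aevalEquiv (MvPolynomial.X i)) = hw.1.aevalEquiv (MvPolynomial.X (e i)) := by
      show hw.1.aevalEquiv (MvPolynomial.renameEquiv F e
        (hv.1.aevalEquiv.symm (hv.1.aevalEquiv (MvPolynomial.X i)))) = _
      rw [AlgEquiv.symm_apply_apply]
      simp
    rw [h4] at h3
    have h5 := hw.1.algebraMap_aevalEquiv (MvPolynomial.X (e i))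
    rw [MvPolynomial.aeval_X] at h5
    have h6 : ((hw.1.aevalEquiv (MvPolynomial.X (e i)) : Algebra.adjoin F (Set.range w)) : ℂ)
        = w (e i) := h5
    rw [h6, h1] at h3
    exact h3

end SCF
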