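import Pool.Agent.SCF.Targets

set_option autoImplicit false

namespace SCF

open Module Filter Topology Matrix

theorem p_INDO : T_INDO := by
  intro n r G0 h
  unfold Ind at *
  rw [Filter.eventually_all]
  intro j
  have h1 : IsOpen {g : Fin n → Fin n → ℂ | LinearIndependent ℂ g} := isOpen_setOfPred_linearIndependent
  have h2 : Tendsto (fun G : Fl n r => G j) (𝓝 G0) (𝓝 (G0 j)) := (continuous_apply j).tendsto G0
  exact h2.eventually (h1.mem_nhds (h j))

end SCF
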