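import Pool.Agent.SCF.TargetsTop

/-!
# SCF: STU (uniqueness of the standard form)
-/

set_option autoImplicit false

namespace SCF

open Module Filter Topology

namespace STU_

theorem key {k n : ℕ} (hk : k ≤ n) {M : Fin k → Fin n → ℂ} (hM : Std M) (c : Fin k → ℂ)
    (b : Fin k) : (∑ a, c a • M a) (Fin.castLE hk b) = c b := by
  rw [Finset.sum_apply, Finset.sum_eq_single b]
  · have h := hM b (Fin.castLE hk b) (by simp)
    rw [Pi.smul_apply, h]
    simp
  · intro a _ hab
    have h := hM a (Fin.castLE hk b) (by simp)
    rw [Pi.smul_apply, h, if_neg, smul_zero]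
    intro h'
    apply hab
    apply Fin.ext
    simpa using h'.symm
  · intro h
    exact absurd (Finset.mem_univ _) h

end STU_

theorem p_STU : T_STU := by
  intro k n M hk hM
  have h1 : LinearIndependent ℂ M := by
    rw [Fintype.linearIndependent_iff]
    intro g hg i
    have h := STU_.key hk hM g i
    rw [hg] at h
    simpa using h.symm
  refine ⟨h1, ?_, ?_, ?_⟩
  · rw [finrank_span_eq_card h1, Fintype.card_fin]
  · intro v hv h0
    obtain ⟨c, rfl⟩ := (Submodule.mem_span_range_iff_exists_fun ℂ).1 hv
    have hc : ∀ b, c b = 0 := by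
      intro b
      rw [← STU_.key hk hM c b]
      exact h0 _ (by simp)
    simp [hc]
  · intro M' hM' hs
    funext a
    have h2 : M' a ∈ Submodule.span ℂ (Set.range M) := by
      rw [← hs]
      exact Submodule.subset_span ⟨a, rfl⟩
    obtain ⟨c, hc⟩ := (Submodule.mem_span_range_iff_exists_fun ℂ).1 h2
    have h3 : ∀ b : Fin k, c b = if b = a then 1 else 0 := by
      intro b
      rw [← STU_.key hk hM c b, hc, hM' a (Fin.castLE hk b) (by simp)]
      simp [Fin.ext_iff]
    rw [← hc]
    simp [h3]

end SCF
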