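import Pool.Agent.SCF.ChtA
import Pool.Agent.SCF.P_STU
import Pool.Agent.SCF.P_INDO

/-!
# SCF, chart package: generic points near a given point of the incidence variety
-/

set_option autoImplicit false

namespace SCF

open Module Filter Topology

namespace CHT_

/-! ## Linear algebra -/

lemma span_coef {n : ℕ} (g : Fin n → Fin n → ℂ) (S : Set (Fin n)) (v : Fin n → ℂ)
    (hv : v ∈ Submodule.span ℂ (g '' S)) :
    ∃ y : Fin n → ℂ, (∀ b, b ∉ S → y b = 0) ∧ v = ∑ b, y b • g b := by
  refine Submodule.span_induction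
    (p := fun v _ => ∃ y : Fin n → ℂ, (∀ b, b ∉ S → y b = 0) ∧ v = ∑ b, y b • g b)
    ?_ ?_ ?_ ?_ hv
  · rintro _ ⟨b, hb, rfl⟩
    refine ⟨Pi.single b 1, fun b' hb' => ?_, ?_⟩
    · have hne : b' ≠ b := fun e => hb' (by rw [e]; exact hb)
      exact Pi.single_eq_of_ne hne 1
    · rw [Finset.sum_eq_single b]
      · rw [Pi.single_eq_same, one_smul]
      · intro c _ hc
        rw [Pi.single_eq_of_ne hc, zero_smul]
      · intro h
        exact absurd (Finset.mem_univ b) h
  · exact ⟨0, fun _ _ => rfl, by simp⟩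
  · rintro v w _ _ ⟨y, hy, rfl⟩ ⟨z, hz, rfl⟩
    refine ⟨y + z, fun b hb => by simp [hy b hb, hz b hb], ?_⟩
    simp only [Pi.add_apply, add_smul, Finset.sum_add_distrib]
  · rintro c v _ ⟨y, hy, rfl⟩
    refine ⟨c • y, fun b hb => by simp [hy b hb], ?_⟩
    simp only [Finset.smul_sum, Pi.smul_apply, smul_smul, smul_eq_mul]

lemma elim {n k : ℕ} (H : Submodule ℂ (Fin n → ℂ)) (g : Fin n → Fin n → ℂ)
    (p : Fin k → Fin n) (hp : StrictMono p)
    (h : ∀ i, ∃ w ∈ H, w - g (p i) ∈ Fs g (p i : ℕ)) :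
    ∀ i, ∃ w ∈ H, g (p i) - w ∈
      Submodule.span ℂ (g '' {b : Fin n | (b : ℕ) < (p i : ℕ) ∧ b ∉ Set.range p}) := by
  intro i
  induction i using WellFoundedLT.induction with
  | ind i ih =>
    obtain ⟨w, hw, hmem⟩ := h i
    set S : Set (Fin n) := {b : Fin n | (b : ℕ) < (p i : ℕ) ∧ b ∉ Set.range p} with hS
    have hle : Fs g (p i : ℕ) ≤ H ⊔ Submodule.span ℂ (g '' S) := by
      unfold Fs
      rw [Submodule.span_le]
      rintro _ ⟨b, hb, rfl⟩
      have hb' : (b : ℕ) < (p i : ℕ) := hb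
      by_cases hr : b ∈ Set.range p
      · obtain ⟨i', rfl⟩ := hr
        have hlt : i' < i := hp.lt_iff_lt.1 hb'
        obtain ⟨w', hw', hm'⟩ := ih i' hlt
        have hsub : g '' {b : Fin n | (b : ℕ) < (p i' : ℕ) ∧ b ∉ Set.range p} ⊆ g '' S := by
          apply Set.image_mono
          rintro c ⟨hc1, hc2⟩
          exact ⟨hc1.trans hb', hc2⟩
        have h1 := Submodule.span_mono (R := ℂ) hsub hm'
        have h2 : g (p i') = w' + (g (p i') - w') := by abel
        rw [h2]
        exact Submodule.add_mem_sup hw' h1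
      · exact Submodule.mem_sup_right (Submodule.subset_span ⟨b, ⟨hb', hr⟩, rfl⟩)
    have h1 := hle hmem
    have h2 : g (p i) ∈ H ⊔ Submodule.span ℂ (g '' S) := by
      have h3 : g (p i) = w - (w - g (p i)) := by abel
      rw [h3]
      exact Submodule.sub_mem _ (Submodule.mem_sup_left hw) h1
    obtain ⟨y, hy, z, hz, hyz⟩ := Submodule.mem_sup.1 h2
    refine ⟨y, hy, ?_⟩
    have h4 : g (p i) - y = z := by rw [← hyz]; abel
    rw [h4]
    exact hz

lemma indep {n k : ℕ} (g : Fin n → Fin n → ℂ) (hg : LinearIndependent ℂ g)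
    (p : Fin k → Fin n) (hp : Function.Injective p) (w : Fin k → Fin n → ℂ)
    (hw : ∀ i, g (p i) - w i ∈ Submodule.span ℂ (g '' (Set.range p)ᶜ)) (c : Fin k → ℂ)
    (hc : ∑ i, c i • w i ∈ Submodule.span ℂ (g '' (Set.range p)ᶜ)) : c = 0 := by
  have h1 : ∑ i, c i • g (p i) ∈ Submodule.span ℂ (g '' (Set.range p)ᶜ) := by
    have h2 : ∑ i, c i • g (p i) = ∑ i, c i • (g (p i) - w i) + ∑ i, c i • w i := by
      rw [← Finset.sum_add_distrib]
      refine Finset.sum_congr rfl fun i _ => ?_
      rw [← smul_add]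
      congr 1
      abel
    rw [h2]
    exact Submodule.add_mem _ (Submodule.sum_mem _ fun i _ => Submodule.smul_mem _ _ (hw i)) hc
  have h3 : ∑ i, c i • g (p i) ∈ Submodule.span ℂ (g '' (Set.range p)) :=
    Submodule.sum_mem _ fun i _ => Submodule.smul_mem _ _
      (Submodule.subset_span ⟨p i, ⟨i, rfl⟩, rfl⟩)
  have hd : Disjoint (Submodule.span ℂ (g '' (Set.range p)))
      (Submodule.span ℂ (g '' (Set.range p)ᶜ)) :=
    hg.disjoint_span_image disjoint_compl_right
  have h4 : ∑ i, c i • g (p i) = 0 := by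
    have := Submodule.disjoint_def.1 hd _ h3 h1
    exact this
  have h5 := Fintype.linearIndependent_iff.1 (hg.comp p hp) c h4
  funext i
  exact h5 i

/-! ## The parameters -/

section Par

variable {k n r : ℕ} (p : Fin r → Fin k → Fin n)

/-- parameters of one flag -/
abbrev PJ (j : Fin r) : Type :=
  ({b : Fin n // b ∉ Set.range (p j)} × Fin n) ⊕ ((Fin k × Fin k) ⊕
    {q : Fin k × Fin n // (q.2 : ℕ) < (p j q.1 : ℕ) ∧ q.2 ∉ Set.range (p j)})

/-- all parameters -/
abbrev PP : Type := (Fin k × {b : Fin n // k ≤ (b : ℕ)}) ⊕ (Σ j : Fin r, PJ p j)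

/-- the standard matrix -/
def parM (x : PP p → ℂ) : Fin k → Fin n → ℂ := fun a b =>
  if h : k ≤ (b : ℕ) then x (Sum.inl (a, ⟨b, h⟩)) else if (b : ℕ) = (a : ℕ) then 1 else 0

/-- coefficients in the subspace -/
def parX (x : PP p → ℂ) (j : Fin r) (i a : Fin k) : ℂ :=
  x (Sum.inr ⟨j, Sum.inr (Sum.inl (i, a))⟩)

open Classical in
/-- coefficients in the free vectors -/
noncomputable def parY (x : PP p → ℂ) (j : Fin r) (i : Fin k) (b : Fin n) : ℂ :=
  if h : (b : ℕ) < (p j i : ℕ) ∧ b ∉ Set.range (p j) then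
    x (Sum.inr ⟨j, Sum.inr (Sum.inr ⟨(i, b), h⟩)⟩) else 0

open Classical in
/-- free vectors -/
noncomputable def parF (x : PP p → ℂ) (j : Fin r) (b c : Fin n) : ℂ :=
  if h : b ∉ Set.range (p j) then x (Sum.inr ⟨j, Sum.inl (⟨b, h⟩, c)⟩) else 0

/-- vectors of the subspace -/
def parW (x : PP p → ℂ) (j : Fin r) (i : Fin k) (c : Fin n) : ℂ :=
  ∑ a, parX p x j i a * parM p x a c

/-- the flags -/
noncomputable def parG (x : PP p → ℂ) : Fl n r := fun j b c =>
  parF p x j b c + ∑ i, if p j i = b then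
    (parW p x j i c + ∑ b', parY p x j i b' * parF p x j b' c) else 0

lemma parG_free (x : PP p → ℂ) (j : Fin r) (b : Fin n) (hb : b ∉ Set.range (p j)) :
    parG p x j b = parF p x j b := by
  funext c
  unfold parG
  have : ∀ i, ¬ p j i = b := fun i h => hb ⟨i, h⟩
  simp [this]

lemma parW_eq (x : PP p → ℂ) (j : Fin r) (i : Fin k) :
    parW p x j i = ∑ a, parX p x j i a • parM p x a := by
  funext c
  rw [Finset.sum_apply]
  rfl

lemma parW_mem (x : PP p → ℂ) (j : Fin r) (i : Fin k) :
    parW p x j i ∈ Submodule.span ℂ (Set.range (parM p x)) := by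
  rw [parW_eq]
  exact Submodule.sum_mem _ fun a _ => Submodule.smul_mem _ _ (Submodule.subset_span ⟨a, rfl⟩)

lemma parG_pos (hp : ∀ j, Function.Injective (p j)) (x : PP p → ℂ) (j : Fin r) (i : Fin k) :
    parG p x j (p j i) = parW p x j i + ∑ b, parY p x j i b • parG p x j b := by
  have h1 : ∀ b, parY p x j i b • parG p x j b = parY p x j i b • parF p x j b := by
    intro b
    by_cases hb : (b : ℕ) < (p j i : ℕ) ∧ b ∉ Set.range (p j)
    · rw [parG_free p x j b hb.2]
    · unfold parY
      rw [dif_neg hb, zero_smul, zero_smul]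
  rw [Finset.sum_congr rfl fun b _ => h1 b]
  funext c
  rw [Pi.add_apply, Finset.sum_apply]
  have h2 : parF p x j (p j i) c = 0 := by
    unfold parF
    rw [dif_neg]
    intro h
    exact h ⟨i, rfl⟩
  show parF p x j (p j i) c + (∑ i', if p j i' = p j i then
    (parW p x j i' c + ∑ b', parY p x j i' b' * parF p x j b' c) else 0) = _
  rw [h2, zero_add, Finset.sum_eq_single i]
  · rw [if_pos rfl]
    rfl
  · intro i' _ hi'
    rw [if_neg]
    intro h
    exact hi' (hp j h)
  · intro h
    exact absurd (Finset.mem_univ i) h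

lemma parM_std (x : PP p → ℂ) : Std (parM p x) := by
  intro a b hb
  unfold parM
  rw [dif_neg (by omega)]

lemma parM_cont (a : Fin k) (b : Fin n) : Continuous fun x : PP p → ℂ => parM p x a b := by
  unfold parM
  by_cases h : k ≤ (b : ℕ)
  · simp only [h, dite_true]
    exact continuous_apply _
  · simp only [h, dite_false]
    exact continuous_const

lemma parX_cont (j : Fin r) (i a : Fin k) : Continuous fun x : PP p → ℂ => parX p x j i a := by
  unfold parX
  exact continuous_apply _

lemma parY_cont (j : Fin r) (i : Fin k) (b : Fin n) :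
    Continuous fun x : PP p → ℂ => parY p x j i b := by
  unfold parY
  by_cases h : (b : ℕ) < (p j i : ℕ) ∧ b ∉ Set.range (p j)
  · simp only [dif_pos h]
    exact continuous_apply _
  · simp only [dif_neg h]
    exact continuous_const

lemma parF_cont (j : Fin r) (b c : Fin n) : Continuous fun x : PP p → ℂ => parF p x j b c := by
  unfold parF
  by_cases h : b ∉ Set.range (p j)
  · simp only [dif_pos h]
    exact continuous_apply _
  · simp only [dif_neg h]
    exact continuous_const

lemma parG_cont (j : Fin r) (b c : Fin n) : Continuous fun x : PP p → ℂ => parG p x j b c := by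
  unfold parG
  refine (parF_cont p j b c).add ?_
  refine continuous_finsetSum _ fun i _ => ?_
  by_cases h : p j i = b
  · simp only [if_pos h]
    refine Continuous.add ?_ ?_
    · unfold parW
      exact continuous_finsetSum _ fun a _ => (parX_cont p j i a).mul (parM_cont p a c)
    · exact continuous_finsetSum _ fun b' _ => (parY_cont p j i b').mul (parF_cont p j b' c)
  · simp only [if_neg h]
    exact continuous_const

lemma parY_mem (x : PP p → ℂ) (j : Fin r) (i : Fin k) :
    ∑ b, parY p x j i b • parG p x j b ∈ Submodule.span ℂ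
      (parG p x j '' {b : Fin n | (b : ℕ) < (p j i : ℕ) ∧ b ∉ Set.range (p j)}) := by
  refine Submodule.sum_mem _ fun b _ => ?_
  by_cases hb : (b : ℕ) < (p j i : ℕ) ∧ b ∉ Set.range (p j)
  · exact Submodule.smul_mem _ _ (Submodule.subset_span ⟨b, hb, rfl⟩)
  · have : parY p x j i b = 0 := by
      unfold parY
      rw [dif_neg hb]
    rw [this, zero_smul]
    exact Submodule.zero_mem _

lemma parG_sub (hp : ∀ j, Function.Injective (p j)) (x : PP p → ℂ) (j : Fin r) (i : Fin k) :
    parG p x j (p j i) - parW p x j i ∈ Submodule.span ℂ (parG p x j '' (Set.range (p j))ᶜ) := by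
  have h1 : parG p x j (p j i) - parW p x j i = ∑ b, parY p x j i b • parG p x j b := by
    rw [parG_pos p hp x j i]
    abel
  rw [h1]
  refine Submodule.span_mono ?_ (parY_mem p x j i)
  apply Set.image_mono
  rintro b ⟨_, hb⟩
  exact hb

lemma parW_Fs (hp : ∀ j, Function.Injective (p j)) (x : PP p → ℂ) (j : Fin r) (i : Fin k) :
    parW p x j i ∈ Fs (parG p x j) ((p j i : ℕ) + 1) := by
  have h1 : parW p x j i = parG p x j (p j i) - ∑ b, parY p x j i b • parG p x j b := by
    rw [parG_pos p hp x j i]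
    abel
  rw [h1]
  refine Submodule.sub_mem _ ?_ ?_
  · exact Submodule.subset_span ⟨p j i, Nat.lt_succ_self _, rfl⟩
  · refine Submodule.span_mono ?_ (parY_mem p x j i)
    apply Set.image_mono
    rintro b ⟨hb, _⟩
    exact Nat.lt_succ_of_lt hb

lemma parW_indep (hp : ∀ j, Function.Injective (p j)) (x : PP p → ℂ) (j : Fin r)
    (hG : LinearIndependent ℂ (parG p x j)) : LinearIndependent ℂ (parW p x j) := by
  rw [Fintype.linearIndependent_iff]
  intro c hc i
  have h := indep (parG p x j) hG (p j) (hp j) (parW p x j) (parG_sub p hp x j) c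
    (by rw [hc]; exact Submodule.zero_mem _)
  rw [h]
  rfl

/-- determination of the parameters -/
lemma det_unique (hkn : k ≤ n) (hp : ∀ j, Function.Injective (p j)) (x : PP p → ℂ) (j : Fin r)
    (hG : LinearIndependent ℂ (parG p x j)) (δ : Fin k → ℂ) (η : Fin n → ℂ)
    (hη : ∀ b, b ∈ Set.range (p j) → η b = 0)
    (h0 : ∑ a, δ a • parM p x a + ∑ b, η b • parG p x j b = 0) : δ = 0 ∧ η = 0 := by
  obtain ⟨hMi, hMf, _, _⟩ := p_STU k n (parM p x) hkn (parM_std p x)
  have hWi := parW_indep p hp x j hG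
  have hspan : Submodule.span ℂ (Set.range (parW p x j)) =
      Submodule.span ℂ (Set.range (parM p x)) := by
    apply Submodule.eq_of_le_of_finrank_eq
    · rw [Submodule.span_le]
      rintro _ ⟨i, rfl⟩
      exact parW_mem p x j i
    · rw [hMf, finrank_span_eq_card hWi, Fintype.card_fin]
  have hu : ∑ a, δ a • parM p x a ∈ Submodule.span ℂ (Set.range (parW p x j)) := by
    rw [hspan]
    exact Submodule.sum_mem _ fun a _ => Submodule.smul_mem _ _ (Submodule.subset_span ⟨a, rfl⟩)
  obtain ⟨γ, hγ⟩ := (Submodule.mem_span_range_iff_exists_fun ℂ).1 hu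
  have hn : ∑ b, η b • parG p x j b ∈
      Submodule.span ℂ (parG p x j '' (Set.range (p j))ᶜ) := by
    refine Submodule.sum_mem _ fun b _ => ?_
    by_cases hb : b ∈ Set.range (p j)
    · rw [hη b hb, zero_smul]
      exact Submodule.zero_mem _
    · exact Submodule.smul_mem _ _ (Submodule.subset_span ⟨b, hb, rfl⟩)
  have hδ : ∑ a, δ a • parM p x a = -∑ b, η b • parG p x j b := eq_neg_of_add_eq_zero_left h0
  have hγ0 : γ = 0 := by
    apply indep (parG p x j) hG (p j) (hp j) (parW p x j) (parG_sub p hp x j) γ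
    rw [hγ, hδ]
    exact Submodule.neg_mem _ hn
  have h1 : ∑ a, δ a • parM p x a = 0 := by
    rw [← hγ, hγ0]
    simp
  have h2 : ∑ b, η b • parG p x j b = 0 := by
    rw [h1, zero_add] at h0
    exact h0
  constructor
  · funext a
    exact Fintype.linearIndependent_iff.1 hMi δ h1 a
  · funext b
    exact Fintype.linearIndependent_iff.1 hG η h2 b

lemma determined (hkn : k ≤ n) (hp : ∀ j, Function.Injective (p j)) (x : PP p → ℂ)
    (hG : Ind (parG p x)) (σ : ℂ ≃+* ℂ) (hσG : ∀ j a b, σ (parG p x j a b) = parG p x j a b)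
    (hσM : ∀ a b, σ (parM p x a b) = parM p x a b) : ∀ q, σ (x q) = x q := by
  have key : ∀ j i, (∀ a, σ (parX p x j i a) = parX p x j i a) ∧
      ∀ b, σ (parY p x j i b) = parY p x j i b := by
    intro j i
    have h1 := parG_pos p hp x j i
    rw [parW_eq] at h1
    have h2 : parG p x j (p j i) = ∑ a, σ (parX p x j i a) • parM p x a +
        ∑ b, σ (parY p x j i b) • parG p x j b := by
      funext c
      have h3 := congrFun h1 c
      rw [Pi.add_apply, Finset.sum_apply, Finset.sum_apply] at h3 ⊢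
      have h4 := congrArg σ h3
      rw [hσG, map_add, map_sum, map_sum] at h4
      rw [h4]
      congr 1
      · refine Finset.sum_congr rfl fun a _ => ?_
        show σ (parX p x j i a * parM p x a c) = σ (parX p x j i a) * parM p x a c
        rw [map_mul, hσM]
      · refine Finset.sum_congr rfl fun b _ => ?_
        show σ (parY p x j i b * parG p x j b c) = σ (parY p x j i b) * parG p x j b c
        rw [map_mul, hσG]
    have h5 : ∑ a, (σ (parX p x j i a) - parX p x j i a) • parM p x a +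
        ∑ b, (σ (parY p x j i b) - parY p x j i b) • parG p x j b = 0 := by
      simp only [sub_smul, Finset.sum_sub_distrib]
      have h6 := h2.symm.trans h1
      rw [sub_add_sub_comm, h6, sub_self]
    have h7 := det_unique p hkn hp x j (hG j) (fun a => σ (parX p x j i a) - parX p x j i a)
      (fun b => σ (parY p x j i b) - parY p x j i b) (by
        intro b hb
        have : parY p x j i b = 0 := by
          unfold parY
          rw [dif_neg]
          rintro ⟨_, h⟩
          exact h hb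
        simp [this]) h5
    constructor
    · intro a
      exact sub_eq_zero.1 (congrFun h7.1 a)
    · intro b
      exact sub_eq_zero.1 (congrFun h7.2 b)
  intro q
  rcases q with ⟨a, b, hb⟩ | ⟨j, (⟨⟨b, hb⟩, c⟩ | ⟨i, a⟩ | ⟨⟨i, b⟩, hb⟩)⟩
  · have h := hσM a b
    unfold parM at h
    rw [dif_pos hb] at h
    exact h
  · have h := hσG j b c
    rw [parG_free p x j b hb] at h
    unfold parF at h
    rw [dif_pos hb] at h
    exact h
  · exact (key j i).1 a
  · have h := (key j i).2 b
    unfold parY at h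
    rw [dif_pos hb] at h
    exact h

/-- a base point -/
lemma base (hp : ∀ j, Function.Injective (p j)) (M0 : Fin k → Fin n → ℂ) (hM : Std M0)
    (G : Fl n r) (h : ∀ j i, ∃ w ∈ Submodule.span ℂ (Set.range M0), G j (p j i) - w ∈
      Submodule.span ℂ (G j '' {b : Fin n | (b : ℕ) < (p j i : ℕ) ∧ b ∉ Set.range (p j)})) :
    ∃ x : PP p → ℂ, parM p x = M0 ∧ parG p x = G := by
  choose w hw hw2 using h
  have hX : ∀ j i, ∃ X : Fin k → ℂ, ∑ a, X a • M0 a = w j i := fun j i =>
    (Submodule.mem_span_range_iff_exists_fun ℂ).1 (hw j i)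
  choose X hX using hX
  choose Y hY hY2 using fun j i => span_coef (G j) _ _ (hw2 j i)
  let x : PP p → ℂ := Sum.elim (fun q => M0 q.1 q.2.1) (fun s =>
    Sum.elim (fun q => G s.1 q.1.1 q.2) (Sum.elim (fun q => X s.1 q.1 q.2)
      (fun q => Y s.1 q.1.1 q.1.2)) s.2)
  have hxM : parM p x = M0 := by
    funext a b
    unfold parM
    by_cases hb : k ≤ (b : ℕ)
    · rw [dif_pos hb]
      rfl
    · rw [dif_neg hb]
      rw [hM a b (by omega)]
  have hxF : ∀ j b, b ∉ Set.range (p j) → parF p x j b = G j b := by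
    intro j b hb
    funext c
    unfold parF
    rw [dif_pos hb]
    rfl
  have hxX : ∀ j i a, parX p x j i a = X j i a := fun j i a => rfl
  have hxY : ∀ j i b, parY p x j i b = Y j i b := by
    intro j i b
    unfold parY
    by_cases hb : (b : ℕ) < (p j i : ℕ) ∧ b ∉ Set.range (p j)
    · rw [dif_pos hb]
      rfl
    · rw [dif_neg hb]
      exact (hY j i b hb).symm
  refine ⟨x, hxM, ?_⟩
  have hfree : ∀ j b, b ∉ Set.range (p j) → parG p x j b = G j b := by
    intro j b hb
    rw [parG_free p x j b hb, hxF j b hb]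
  funext j b
  by_cases hb : b ∈ Set.range (p j)
  · obtain ⟨i, rfl⟩ := hb
    rw [parG_pos p hp x j i, parW_eq, hxM]
    have h1 : ∑ a, parX p x j i a • M0 a = w j i := by
      rw [← hX j i]
      exact Finset.sum_congr rfl fun a _ => by rw [hxX]
    rw [h1]
    have h2 : ∑ b, parY p x j i b • parG p x j b = ∑ b, Y j i b • G j b := by
      refine Finset.sum_congr rfl fun b _ => ?_
      rw [hxY]
      by_cases hb : (b : ℕ) < (p j i : ℕ) ∧ b ∉ Set.range (p j)
      · rw [hfree j b hb.2]
      · rw [hY j i b hb, zero_smul, zero_smul]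
    rw [h2, ← hY2 j i]
    abel
  · exact hfree j b hb

end Par

/-! ## Positions and counting -/

/-- leading positions -/
def pos {k n : ℕ} (l : Fin k → ℕ) (hkn : k ≤ n) (i : Fin k) : Fin n :=
  ⟨n - k + (i : ℕ) - l i, by have := i.2; omega⟩

lemma pos_mono {k n : ℕ} (l : Fin k → ℕ) (hkn : k ≤ n) (ha : Antitone l)
    (hl : ∀ i, l i ≤ n - k) : StrictMono (pos l hkn) := by
  intro i i' h
  have h1 := ha h.le
  have h2 := hl i
  have h3 : (i : ℕ) < (i' : ℕ) := h
  show n - k + (i : ℕ) - l i < n - k + (i' : ℕ) - l i'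
  omega

lemma count1 {k n : ℕ} (q : Fin k → Fin n) (hq : Function.Injective q) :
    Nat.card {b : Fin n // b ∉ Set.range q} = n - k := by
  have h1 : Nat.card {b : Fin n // b ∉ Set.range q} = ((Set.range q)ᶜ).ncard := rfl
  have h2 : (Set.range q).ncard = k := by
    rw [← Set.image_univ, Set.ncard_image_of_injective _ hq, Set.ncard_univ]
    simp
  rw [h1, Set.ncard_compl, h2]
  simp

lemma count2 {k n : ℕ} (l : Fin k → ℕ) (hkn : k ≤ n) (ha : Antitone l)
    (hl : ∀ i, l i ≤ n - k) (i : Fin k) :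
    n - k ≤ Nat.card {b : Fin n // (b : ℕ) < (pos l hkn i : ℕ) ∧ b ∉ Set.range (pos l hkn)} +
      l i := by
  have hm := pos_mono l hkn ha hl
  set A : Set (Fin n) := {b : Fin n | (b : ℕ) < (pos l hkn i : ℕ) ∧ b ∉ Set.range (pos l hkn)}
    with hA
  have h1 : Nat.card {b : Fin n // (b : ℕ) < (pos l hkn i : ℕ) ∧ b ∉ Set.range (pos l hkn)} =
      A.ncard := rfl
  have h2 : Set.Iio (pos l hkn i) ⊆ A ∪ (pos l hkn) '' Set.Iio i := by
    intro b hb
    by_cases hr : b ∈ Set.range (pos l hkn)
    · right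
      obtain ⟨i', rfl⟩ := hr
      exact ⟨i', hm.lt_iff_lt.1 hb, rfl⟩
    · left
      exact ⟨hb, hr⟩
  have h3 : (Set.Iio (pos l hkn i)).ncard = (pos l hkn i : ℕ) := by
    rw [← Finset.coe_Iio, Set.ncard_coe_finset, Fin.card_Iio]
  have h4 : ((pos l hkn) '' Set.Iio i).ncard = (i : ℕ) := by
    rw [Set.ncard_image_of_injective _ hm.injective, ← Finset.coe_Iio, Set.ncard_coe_finset,
      Fin.card_Iio]
  have h5 := (Set.ncard_le_ncard h2 (Set.toFinite _)).trans (Set.ncard_union_le _ _)
  rw [h3, h4] at h5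
  have h6 : (pos l hkn i : ℕ) = n - k + (i : ℕ) - l i := rfl
  have h7 := hl i
  rw [h1]
  omega

lemma count3 {k n : ℕ} (hkn : k ≤ n) : Nat.card {b : Fin n // k ≤ (b : ℕ)} = n - k := by
  have h1 : Nat.card {b : Fin n // k ≤ (b : ℕ)} = ((Set.range (Fin.castLE hkn))ᶜ).ncard := by
    have : (Set.range (Fin.castLE hkn))ᶜ = {b : Fin n | k ≤ (b : ℕ)} := by
      ext b
      constructor
      · intro h
        by_contra hc
        have hc' : (b : ℕ) < k := Nat.lt_of_not_le hc
        exact h ⟨⟨b, hc'⟩, Fin.ext rfl⟩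
      · rintro h ⟨a, rfl⟩
        have h2 : k ≤ (a : ℕ) := h
        have := a.2
        omega
    rw [this]
    rfl
  have h2 := count1 (Fin.castLE hkn) (Fin.castLE_injective hkn)
  rw [h1]
  exact h2

lemma card_PP {k n r : ℕ} (lam : Fin r → Fin k → ℕ) (hSP : SP k n r lam) :
    Nat.card (Fin r × Fin n × Fin n) ≤ Nat.card (PP (fun j => pos (lam j) hSP.kn)) := by
  have hkn := hSP.kn
  have hJ : ∀ j, (n - k) * n + k * k + k * (n - k) ≤
      Nat.card (PJ (fun j => pos (lam j) hSP.kn) j) + ∑ i, lam j i := by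
    intro j
    have h1 : Nat.card (PJ (fun j => pos (lam j) hSP.kn) j) = (n - k) * n + (k * k +
        Nat.card {q : Fin k × Fin n // (q.2 : ℕ) < (pos (lam j) hSP.kn q.1 : ℕ) ∧
          q.2 ∉ Set.range (pos (lam j) hSP.kn)}) := by
      rw [Nat.card_sum, Nat.card_sum, Nat.card_prod, Nat.card_prod]
      have := count1 (pos (lam j) hSP.kn) (pos_mono _ hSP.kn (hSP.anti j) (hSP.le j)).injective
      rw [this]
      simp
    have h2 : Nat.card {q : Fin k × Fin n // (q.2 : ℕ) < (pos (lam j) hSP.kn q.1 : ℕ) ∧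
          q.2 ∉ Set.range (pos (lam j) hSP.kn)} =
        ∑ i, Nat.card {b : Fin n // (b : ℕ) < (pos (lam j) hSP.kn i : ℕ) ∧
          b ∉ Set.range (pos (lam j) hSP.kn)} := by
      rw [← Nat.card_sigma]
      refine Nat.card_congr ⟨fun q => ⟨q.1.1, ⟨q.1.2, q.2⟩⟩, fun s => ⟨(s.1, s.2.1), s.2.2⟩,
        fun q => rfl, fun s => rfl⟩
    have h3 : k * (n - k) ≤ ∑ i, Nat.card {b : Fin n // (b : ℕ) < (pos (lam j) hSP.kn i : ℕ) ∧
          b ∉ Set.range (pos (lam j) hSP.kn)} + ∑ i, lam j i := by
      rw [← Finset.sum_add_distrib]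
      calc k * (n - k) = ∑ i : Fin k, (n - k) := by simp
        _ ≤ _ := Finset.sum_le_sum fun i _ => count2 (lam j) hSP.kn (hSP.anti j) (hSP.le j) i
    rw [h1, h2]
    omega
  have hS : Nat.card (Σ j : Fin r, PJ (fun j => pos (lam j) hSP.kn) j) =
      ∑ j, Nat.card (PJ (fun j => pos (lam j) hSP.kn) j) := Nat.card_sigma
  have hP : Nat.card (PP (fun j => pos (lam j) hSP.kn)) = k * (n - k) +
      ∑ j, Nat.card (PJ (fun j => pos (lam j) hSP.kn) j) := by
    rw [Nat.card_sum, hS, Nat.card_prod, count3 hSP.kn]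
    simp
  have hsum : ∑ j : Fin r, ((n - k) * n + k * k + k * (n - k)) ≤
      ∑ j, (Nat.card (PJ (fun j => pos (lam j) hSP.kn) j) + ∑ i, lam j i) :=
    Finset.sum_le_sum fun j _ => hJ j
  have hR : ∑ j, (Nat.card (PJ (fun j => pos (lam j) hSP.kn) j) + ∑ i, lam j i) =
      ∑ j, Nat.card (PJ (fun j => pos (lam j) hSP.kn) j) + k * (n - k) := by
    rw [Finset.sum_add_distrib, hSP.sum]
  rw [hR, Finset.sum_const, Finset.card_univ, Fintype.card_fin, smul_eq_mul] at hsum
  have hn : (n - k) * n + k * k + k * (n - k) = n * n := by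
    obtain ⟨m, rfl⟩ := Nat.exists_eq_add_of_le hkn
    have : k + m - k = m := by omega
    rw [this]
    ring
  rw [hn] at hsum
  rw [hP]
  simp only [Nat.card_eq_fintype_card, Fintype.card_prod, Fintype.card_fin] at *
  omega

end CHT_

open CHT_

/-- the statement of `T_GDN` -/
abbrev GDN0 : Prop := ∀ (ι : Type) [Fintype ι] (a : ι → ℂ) (ε : ℝ), 0 < ε →
  ∃ b : ι → ℂ, AlgebraicIndependent ℚ b ∧ ∀ i, ‖b i - a i‖ < ε

theorem p_CHT (h_GDN : GDN0) : T_CHT := by
  intro k n r lam hSP G0 hG0 M0 hM0 hmem ε hε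
  have hkn := hSP.kn
  set p : Fin r → Fin k → Fin n := fun j => pos (lam j) hSP.kn with hpdef
  have hpm : ∀ j, StrictMono (p j) := fun j => pos_mono _ hSP.kn (hSP.anti j) (hSP.le j)
  have hpi : ∀ j, Function.Injective (p j) := fun j => (hpm j).injective
  have hpos : ∀ (j : Fin r) (i : Fin k), n - k + (i : ℕ) + 1 - lam j i = (p j i : ℕ) + 1 := by
    intro j i
    have h1 := hSP.le j i
    have h2 : (p j i : ℕ) = n - k + (i : ℕ) - lam j i := rfl
    omega
  obtain ⟨hMi, hMf, _, _⟩ := p_STU k n M0 hkn hM0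
  set H0 := Submodule.span ℂ (Set.range M0) with hH0
  -- density
  have hd : ∀ j, ∃ g : Fin n → Fin n → ℂ, LinearIndependent ℂ g ∧
      (∀ a b, ‖g a b - G0 j a b‖ < ε / 2) ∧
      ∀ i, ∃ w ∈ H0, w - g (p j i) ∈ Fs g (p j i : ℕ) := by
    intro j
    obtain ⟨h, hh, hhm⟩ := p_GR n k (fun i => H0 ⊓ Fs (G0 j) ((p j i : ℕ) + 1)) (by
      intro i
      have h1 := hmem.2 j i
      rw [hpos j i] at h1
      exact h1)
    obtain ⟨g, hg, hgε, c, hc, hcm⟩ := dens (G0 j) (hG0 j) h hh (p j)
      (fun i => (hhm i).2) (ε / 2) (by linarith)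
    refine ⟨g, hg, hgε, fun i => ⟨(c i)⁻¹ • h i, Submodule.smul_mem _ _ (hhm i).1, ?_⟩⟩
    have h2 := Submodule.smul_mem _ (c i)⁻¹ (hcm i)
    rw [smul_sub, smul_smul, inv_mul_cancel₀ (hc i), one_smul] at h2
    exact h2
  choose G1 hG1 hG1ε hG1m using hd
  have hIndG1 : Ind G1 := fun j => hG1 j
  -- base point
  obtain ⟨x0, hx0M, hx0G⟩ := base p hpi M0 hM0 G1 (fun j i => elim H0 (G1 j) (p j) (hpm j)
    (hG1m j) i)
  -- continuity
  have hcG : Continuous fun x : PP p → ℂ => parG p x := by
    refine continuous_pi fun j => continuous_pi fun b => continuous_pi fun c => ?_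
    exact parG_cont p j b c
  have hev1 : ∀ᶠ x in 𝓝 x0, Ind (parG p x) := by
    have h1 := p_INDO n r (parG p x0) (by rw [hx0G]; exact hIndG1)
    exact hcG.continuousAt.eventually h1
  have hev2 : ∀ᶠ x in 𝓝 x0, ∀ j a b, ‖parG p x j a b - G1 j a b‖ < ε / 2 := by
    rw [Filter.eventually_all]
    intro j
    rw [Filter.eventually_all]
    intro a
    rw [Filter.eventually_all]
    intro b
    have h1 : Continuous fun x : PP p → ℂ => ‖parG p x j a b - G1 j a b‖ :=
      ((parG_cont p j a b).sub continuous_const).norm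
    have h2 : ‖parG p x0 j a b - G1 j a b‖ < ε / 2 := by
      rw [hx0G, sub_self, norm_zero]
      linarith
    exact h1.continuousAt.eventually (gt_mem_nhds h2)
  have hev3 : ∀ᶠ x in 𝓝 x0, ∀ a b, ‖parM p x a b - M0 a b‖ < ε := by
    rw [Filter.eventually_all]
    intro a
    rw [Filter.eventually_all]
    intro b
    have h1 : Continuous fun x : PP p → ℂ => ‖parM p x a b - M0 a b‖ :=
      ((parM_cont p a b).sub continuous_const).norm
    have h2 : ‖parM p x0 a b - M0 a b‖ < ε := by
      rw [hx0M, sub_self, norm_zero]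
      exact hε
    exact h1.continuousAt.eventually (gt_mem_nhds h2)
  have hfin : Fintype (PP p) := Fintype.ofFinite _
  obtain ⟨ρ, hρ, hball⟩ := Metric.eventually_nhds_iff.1 (hev1.and (hev2.and hev3))
  obtain ⟨x, hxa, hxn⟩ := h_GDN (PP p) x0 ρ hρ
  have hdist : dist x x0 < ρ := by
    rw [dist_pi_lt_iff hρ]
    intro q
    rw [dist_eq_norm]
    exact hxn q
  obtain ⟨hInd, hn1, hn2⟩ := hball hdist
  obtain ⟨e⟩ : Nonempty (Fin r × Fin n × Fin n ↪ PP p) := by
    rw [Function.Embedding.nonempty_iff_card_le]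
    have h1 := card_PP lam hSP
    rw [Nat.card_eq_fintype_card, Nat.card_eq_fintype_card] at h1
    exact h1
  refine ⟨parG p x, parM p x, fun q => x (e q), hInd, ?_, parM_std p x, hn2, ?_, ?_, ?_⟩
  · intro j a b
    calc ‖parG p x j a b - G0 j a b‖
        = ‖(parG p x j a b - G1 j a b) + (G1 j a b - G0 j a b)‖ := by congr 1; ring
      _ ≤ ‖parG p x j a b - G1 j a b‖ + ‖G1 j a b - G0 j a b‖ := norm_add_le _ _
      _ < ε / 2 + ε / 2 := add_lt_add (hn1 j a b) (hG1ε j a b)
      _ = ε := by ring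
  · obtain ⟨_, hxf, _, _⟩ := p_STU k n (parM p x) hkn (parM_std p x)
    refine ⟨hxf, ?_⟩
    intro j i
    rw [hpos j i]
    have hWi := parW_indep p hpi x j (hInd j)
    let f : Fin ((i : ℕ) + 1) → Fin k := fun a => ⟨a, by have := a.2; have := i.2; omega⟩
    have hf : Function.Injective f := by
      intro a b hab
      have := congrArg Fin.val hab
      exact Fin.ext this
    have hmemF : ∀ a, parW p x j (f a) ∈
        Submodule.span ℂ (Set.range (parM p x)) ⊓ Fs (parG p x j) ((p j i : ℕ) + 1) := by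
      intro a
      refine ⟨parW_mem p x j (f a), ?_⟩
      have h1 := parW_Fs p hpi x j (f a)
      have hle : f a ≤ i := by
        show (a : ℕ) ≤ (i : ℕ)
        have := a.2
        omega
      have h2 : (p j (f a) : ℕ) ≤ (p j i : ℕ) := (hpm j).monotone hle
      refine Submodule.span_mono ?_ h1
      apply Set.image_mono
      intro b hb
      have hb' : (b : ℕ) < (p j (f a) : ℕ) + 1 := hb
      show (b : ℕ) < (p j i : ℕ) + 1
      omega
    have hli : LinearIndependent ℂ (fun a => (⟨parW p x j (f a), hmemF a⟩ :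
        ↥(Submodule.span ℂ (Set.range (parM p x)) ⊓ Fs (parG p x j) ((p j i : ℕ) + 1)))) := by
      apply LinearIndependent.of_comp
        (Submodule.subtype (Submodule.span ℂ (Set.range (parM p x)) ⊓
          Fs (parG p x j) ((p j i : ℕ) + 1)))
      exact hWi.comp f hf
    have h3 := hli.fintype_card_le_finrank
    rw [Fintype.card_fin] at h3
    exact h3
  · exact hxa.comp e e.injective
  · intro σ hσG hσM q
    exact determined p hkn hpi x hInd σ hσG hσM (e q)

end SCF
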