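import Pool.Agent.SCF.TargetsAut

/-!
# Project SCF: target CMP (cardinality of the rest of a transcendence basis)
-/

set_option autoImplicit false

namespace SCF

open Cardinal

theorem p_CMP : T_CMP := by
  intro F _ _ _ ι _ x hx
  obtain ⟨t, ht, hb⟩ := exists_isTranscendenceBasis_superset hx.to_subtype_range
  refine ⟨t, ht, hb, ?_⟩
  have h1 : #ℂ = #t := by
    apply IsAlgClosed.cardinal_eq_cardinal_transcendence_basis_of_aleph0_lt' _ hb
    · exact Cardinal.mk_le_aleph0
    · rw [Cardinal.mk_complex]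
      exact Cardinal.aleph0_lt_continuum
  rw [Cardinal.mk_complex] at h1
  have h2 : #(t \ Set.range x : Set ℂ) + #(Set.range x) = #t := Cardinal.mk_sdiff_add_mk ht
  rw [← h1] at h2
  have h3 : #(Set.range x) < ℵ₀ := by
    have : Finite (Set.range x) := Set.finite_range x
    exact Cardinal.mk_lt_aleph0
  by_contra hne
  have h4 : #(t \ Set.range x : Set ℂ) ≤ 𝔠 := by
    rw [← h2]
    exact self_le_add_right _ _
  have h5 : #(t \ Set.range x : Set ℂ) < 𝔠 := lt_of_le_of_ne h4 hne
  have h6 := Cardinal.add_lt_of_lt Cardinal.aleph0_le_continuum h5 (h3.trans Cardinal.aleph0_lt_continuum)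
  rw [h2] at h6
  exact lt_irrefl _ h6

end SCF
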