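import Pool.Agent.SCF.TargetsAut

set_option autoImplicit false

namespace SCF

namespace CVX_

open Set Metric
open scoped Convex ENNReal

theorem joined {Ω : Set ℂ} (hO : IsOpen Ω) (hC : Convex ℝ Ω) {s : Set ℂ} (hs : s.Countable) {a b : ℂ}
    (haO : a ∈ Ω) (hbO : b ∈ Ω) (ha : a ∈ sᶜ) (hb : b ∈ sᶜ) : JoinedIn (Ω \ s) a b := by
  rcases eq_or_ne a b with rfl | hab
  · exact JoinedIn.refl ⟨haO, ha⟩
  have h : 1 < Module.rank ℝ ℂ := by
    rw [Complex.rank_real_complex]
    exact Cardinal.one_lt_two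
  let c := (2 : ℝ)⁻¹ • (a + b)
  let x := (2 : ℝ)⁻¹ • (b - a)
  have Ia : c - x = a := by
    simp only [c, x]
    module
  have Ib : c + x = b := by
    simp only [c, x]
    module
  have x_ne_zero : x ≠ 0 := by simpa [x] using sub_ne_zero.2 hab.symm
  obtain ⟨y, hy⟩ : ∃ y, LinearIndependent ℝ ![x, y] :=
    exists_linearIndependent_pair_of_one_lt_rank h x_ne_zero
  have A : Set.Countable {t : ℝ | ([c + x -[ℝ] c + t • y] ∩ s).Nonempty} := by
    apply countable_ofPred_nonempty_of_disjoint _ (fun t ↦ inter_subset_right) hs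
    intro t t' htt'
    apply disjoint_iff_inter_eq_empty.2
    have N : {c + x} ∩ s = ∅ := by
      simpa only [singleton_inter_eq_empty, mem_compl_iff, Ib] using hb
    rw [inter_assoc, inter_comm s, inter_assoc, inter_self, ← inter_assoc, ← subset_empty_iff, ← N]
    apply inter_subset_inter_left
    apply Eq.subset
    apply segment_inter_eq_endpoint_of_linearIndependent_of_ne hy htt'.symm
  have B : Set.Countable {t : ℝ | ([c - x -[ℝ] c + t • y] ∩ s).Nonempty} := by
    apply countable_ofPred_nonempty_of_disjoint _ (fun t ↦ inter_subset_right) hs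
    intro t t' htt'
    apply disjoint_iff_inter_eq_empty.2
    have N : {c - x} ∩ s = ∅ := by
      simpa only [singleton_inter_eq_empty, mem_compl_iff, Ia] using ha
    rw [inter_assoc, inter_comm s, inter_assoc, inter_self, ← inter_assoc, ← subset_empty_iff, ← N]
    apply inter_subset_inter_left
    rw [sub_eq_add_neg _ x]
    apply Eq.subset
    apply segment_inter_eq_endpoint_of_linearIndependent_of_ne _ htt'.symm
    convert! hy.units_smul ![-1, 1]
    simp [← List.ofFn_inj]
  have hcO : c ∈ Ω := by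
    have h2 : (2 : ℝ)⁻¹ • a + (2 : ℝ)⁻¹ • b ∈ Ω :=
      hC haO hbO (by norm_num) (by norm_num) (by norm_num)
    rw [← smul_add] at h2
    exact h2
  have hopen : IsOpen {t : ℝ | c + t • y ∈ Ω} := by
    refine hO.preimage ?_
    fun_prop
  have hne : ({t : ℝ | c + t • y ∈ Ω}).Nonempty := ⟨0, by simpa using hcO⟩
  obtain ⟨t, htO, ht⟩ : ({t : ℝ | c + t • y ∈ Ω} ∩ ({t : ℝ | ([c + x -[ℝ] c + t • y] ∩ s).Nonempty}
      ∪ {t : ℝ | ([c - x -[ℝ] c + t • y] ∩ s).Nonempty})ᶜ).Nonempty :=
    ((A.union B).dense_compl ℝ).inter_open_nonempty _ hopen hne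
  let z := c + t • y
  have hzO : z ∈ Ω := htO
  simp only [compl_union, mem_inter_iff, mem_compl_iff, mem_ofPred_eq, not_nonempty_iff_eq_empty]
    at ht
  have JA : JoinedIn (Ω \ s) a z := by
    apply JoinedIn.of_segment_subset
    refine subset_sdiff.2 ⟨hC.segment_subset haO hzO, ?_⟩
    rw [disjoint_iff_inter_eq_empty]
    convert! ht.2
    exact Ia.symm
  have JB : JoinedIn (Ω \ s) b z := by
    apply JoinedIn.of_segment_subset
    refine subset_sdiff.2 ⟨hC.segment_subset hbO hzO, ?_⟩
    rw [disjoint_iff_inter_eq_empty]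
    convert! ht.1
    exact Ib.symm
  exact JA.trans JB.symm

end CVX_

theorem p_CVX : T_CVX := by
  intro Ω hO hC S hS
  rcases Set.eq_empty_or_nonempty (Ω \ S) with h | ⟨a, haO, haS⟩
  · rw [h]
    exact isPreconnected_empty
  · have : IsPathConnected (Ω \ S) := by
      refine ⟨a, ⟨haO, haS⟩, fun {b} hb => ?_⟩
      exact CVX_.joined hO hC hS haO hb.1 haS hb.2
    exact this.isConnected.isPreconnected

end SCF
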