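import Pool.Agent.SCF.TargetsAut

set_option autoImplicit false

namespace SCF

theorem p_FT2 (h1 : T_FTE) : T_FT2 := by
  intro ι _ x y hx hy
  obtain ⟨σ, _, h⟩ := h1 ℚ ι x y hx hy
  exact ⟨σ, h⟩

end SCF
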