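import Pool.Agent.SCF.TargetsAut

/-!
# SCF-FT4: transcendence degree
-/

set_option autoImplicit false

namespace SCF

namespace FT4_

open scoped IntermediateField.algebraAdjoinAdjoin in
lemma alg_adjoin (s : Set ℂ) (a : ℂ) (h : IsAlgebraic (IntermediateField.adjoin ℚ s) a) :
    IsAlgebraic (Algebra.adjoin ℚ s) a :=
  (IsFractionRing.isAlgebraic_iff (Algebra.adjoin ℚ s) (IntermediateField.adjoin ℚ s) ℂ).mpr h

lemma encard_range {ι : Type} [Fintype ι] (x : ι → ℂ) (hx : Function.Injective x) :
    (Set.range x).encard = (Fintype.card ι : ℕ∞) := by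
  rw [← Set.image_univ, hx.encard_image, Set.encard_univ, ENat.card_eq_coe_fintype_card]

end FT4_

open FT4_ in
theorem p_FT4 : T_FT4 := by
  intro ι κ _ _ x y hx halg hcard
  have hI : (AlgebraicIndependent.matroid ℚ ℂ).Indep (Set.range x) :=
    AlgebraicIndependent.matroid_indep_iff.mpr hx.to_subtype_range
  have hsub : Set.range x ⊆ (AlgebraicIndependent.matroid ℚ ℂ).closure (Set.range y) := by
    rintro _ ⟨i, rfl⟩
    rw [AlgebraicIndependent.matroid_closure_eq]
    exact alg_adjoin _ _ (halg i)
  have h1 : (Set.range x).encard ≤ (AlgebraicIndependent.matroid ℚ ℂ).eRk (Set.range y) := by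
    rw [← Matroid.eRk_closure_eq]
    exact hI.encard_le_eRk_of_subset hsub
  rw [encard_range x hx.injective, Matroid.le_eRk_iff] at h1
  obtain ⟨I, hIs, hind, hcI⟩ := h1
  have hyle : (Set.range y).encard ≤ (Fintype.card κ : ℕ∞) := by
    rw [← Set.image_univ]
    refine (Set.encard_image_le _ _).trans ?_
    rw [Set.encard_univ, ENat.card_eq_coe_fintype_card]
  have hle : (Set.range y).encard ≤ I.encard := by
    rw [hcI]
    exact hyle.trans (by exact_mod_cast hcard)
  have hEq : I = Set.range y :=
    ((Set.finite_range y).subset hIs).eq_of_subset_of_encard_le hIs hle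
  subst hEq
  have hcy : (Set.range y).ncard = Fintype.card ι := by
    rw [Set.ncard_def, hcI]
    rfl
  have hinj : Function.Injective y := by
    classical
    have h2 : (Finset.univ.image y).card = Fintype.card κ := by
      refine le_antisymm (Finset.card_image_le) ?_
      have h3 : ((Finset.univ.image y : Finset ℂ) : Set ℂ) = Set.range y := by
        simp
      rw [← Set.ncard_coe_finset, h3, hcy]
      exact hcard
    have h4 := Finset.card_image_iff.mp h2
    exact fun a b hab => h4 (Finset.mem_coe.mpr (Finset.mem_univ a))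
      (Finset.mem_coe.mpr (Finset.mem_univ b)) hab
  refine AlgebraicIndependent.of_subtype_range hinj ?_
  exact AlgebraicIndependent.matroid_indep_iff.mp hind

end SCF
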