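import Pool.Agent.SCF.TargetsAut

set_option autoImplicit false

namespace SCF

theorem FT5_count (ι : Type) [Fintype ι] : Countable (MvPolynomial ι ℚ) := by
  rw [← Cardinal.mk_le_aleph0_iff]
  refine (MvPolynomial.cardinalMk_le_max (σ := ι) (R := ℚ)).trans ?_
  refine max_le (max_le ?_ ?_) le_rfl
  · exact Cardinal.mk_le_aleph0
  · exact Cardinal.mk_le_aleph0

theorem p_FT5 : T_FT5 := by
  intro ι _ a c ha
  classical
  have hsub : {z : ℂ | ¬ AlgebraicIndependent ℚ (fun i => a i + z * (c i - a i))} ⊆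
      ⋃ P : {P : MvPolynomial ι ℚ // P ≠ 0},
        {z : ℂ | MvPolynomial.aeval (fun i => a i + z * (c i - a i)) P.1 = 0} := by
    intro z hz
    have hz' : ¬ AlgebraicIndependent ℚ (fun i => a i + z * (c i - a i)) := hz
    rw [algebraicIndependent_iff] at hz'
    push Not at hz'
    obtain ⟨P, hP0, hP⟩ := hz'
    exact Set.mem_iUnion.2 ⟨⟨P, hP⟩, hP0⟩
  have := FT5_count ι
  refine Set.Countable.mono hsub (Set.countable_iUnion fun P => Set.Finite.countable ?_)
  let Q : Polynomial ℂ := MvPolynomial.aeval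
    (fun i => Polynomial.C (a i) + Polynomial.X * Polynomial.C (c i - a i)) P.1
  have hev : ∀ z : ℂ, Q.eval z = MvPolynomial.aeval (fun i => a i + z * (c i - a i)) P.1 := by
    intro z
    have h2 := MvPolynomial.comp_aeval_apply
      (φ := (Polynomial.aeval z : Polynomial ℂ →ₐ[ℂ] ℂ).restrictScalars ℚ)
      (f := fun i => Polynomial.C (a i) + Polynomial.X * Polynomial.C (c i - a i)) P.1
    have h3 : Q.eval z = ((Polynomial.aeval z : Polynomial ℂ →ₐ[ℂ] ℂ).restrictScalars ℚ) Q := by
      simp [Polynomial.coe_aeval_eq_eval]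
    rw [h3]
    refine h2.trans ?_
    simp
  have hQ0 : Q ≠ 0 := by
    intro h0
    have h1 := hev 0
    rw [h0, Polynomial.eval_zero] at h1
    have h2 : MvPolynomial.aeval a P.1 = 0 := by
      have h4 : (fun i => a i + 0 * (c i - a i)) = a := by
        ext i; ring
      rw [h4] at h1
      exact h1.symm
    exact P.2 (algebraicIndependent_iff.1 ha P.1 h2)
  have hfin : {z : ℂ | Q.IsRoot z}.Finite := Polynomial.finite_setOfPred_isRoot hQ0
  refine hfin.subset ?_
  intro z hz
  show Q.eval z = 0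
  rw [hev z]
  exact hz

end SCF
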