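import Pool.Agent.SCF.TargetsAut

/-!
# Project SCF (MP_0c25eb_ag, S00015): bounded orbit implies algebraic
-/

set_option autoImplicit false

namespace SCF

open Cardinal

namespace FTB_

theorem countable_adjoin (ι : Type) [Fintype ι] (y : ι → ℂ) :
    Countable (IntermediateField.adjoin ℚ (Set.range y)) := by
  rw [← Cardinal.mk_le_aleph0_iff]
  refine (IntermediateField.cardinalMk_adjoin_le ℚ (Set.range y)).trans ?_
  have h1 : #ℚ ≤ ℵ₀ := Cardinal.mk_le_aleph0
  have h2 : #(Set.range y) ≤ ℵ₀ := Cardinal.mk_le_aleph0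
  exact max_le (max_le h1 h2) le_rfl

end FTB_

/-- T_FTB -/
theorem p_FTB (h : T_FTE) : T_FTB := by
  intro ι _ y z R hb
  set F := IntermediateField.adjoin ℚ (Set.range y) with hF
  by_contra hz
  have : Countable F := FTB_.countable_adjoin ι y
  have hc : Set.Countable {w : ℂ | IsAlgebraic F w} := Algebraic.countable F ℂ
  have hd : Dense {w : ℂ | IsAlgebraic F w}ᶜ := hc.dense_compl ℝ
  have ho : IsOpen {w : ℂ | R < ‖w‖} := isOpen_lt continuous_const continuous_norm
  have hne : {w : ℂ | R < ‖w‖}.Nonempty := by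
    refine ⟨((|R| + 1 : ℝ) : ℂ), ?_⟩
    show R < ‖((|R| + 1 : ℝ) : ℂ)‖
    rw [Complex.norm_real, Real.norm_eq_abs, abs_of_nonneg (by positivity)]
    have := le_abs_self R
    linarith
  obtain ⟨w, hw1, hw2⟩ := hd.inter_open_nonempty _ ho hne
  have hzt : AlgebraicIndependent F (fun _ : Unit => z) :=
    algebraicIndependent_unique_type_iff.2 hz
  have hwt : AlgebraicIndependent F (fun _ : Unit => w) :=
    algebraicIndependent_unique_type_iff.2 hw2
  obtain ⟨σ, hσ1, hσ2⟩ := h F Unit (fun _ => z) (fun _ => w) hzt hwt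
  have h1 := hb σ (by
    intro i
    have hi : y i ∈ F := IntermediateField.subset_adjoin ℚ _ ⟨i, rfl⟩
    exact hσ1 ⟨y i, hi⟩)
  have h2 : σ z = w := hσ2 ()
  rw [h2] at h1
  exact absurd h1 (not_le.2 hw1)

end SCF
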