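import Pool.Agent.SCF.TargetsAut

set_option autoImplicit false

namespace SCF

open Cardinal

theorem p_FTE (hCEB : T_CEB) (hCMP : T_CMP) : T_FTE := by
  intro F _ _ _ ι _ x y hx hy
  obtain ⟨t, hxt, ht, htc⟩ := hCMP F ι x hx
  obtain ⟨u, hyu, hu, huc⟩ := hCMP F ι y hy
  have hxi : Function.Injective x := hx.injective
  have hyi : Function.Injective y := hy.injective
  classical
  -- equivalence of complements
  obtain ⟨e2⟩ : Nonempty ((t \ Set.range x : Set ℂ) ≃ (u \ Set.range y : Set ℂ)) :=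
    Cardinal.eq.1 (htc.trans huc.symm)
  have e1 : (Set.range x) ≃ (Set.range y) :=
    (Equiv.ofInjective x hxi).symm.trans (Equiv.ofInjective y hyi)
  let f1 : ι ⊕ (t \ Set.range x : Set ℂ) ≃ t :=
    Equiv.ofBijective (fun s => Sum.elim (fun i => ⟨x i, hxt ⟨i, rfl⟩⟩) (fun z => ⟨z.1, z.2.1⟩) s) (by
      constructor
      · rintro (i | z) (j | w) h
        · have := congrArg Subtype.val h
          simp only [Sum.elim_inl] at this
          rw [hxi this]
        · have := congrArg Subtype.val h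
          simp only [Sum.elim_inl, Sum.elim_inr] at this
          exact absurd ⟨i, this⟩ w.2.2
        · have := congrArg Subtype.val h
          simp only [Sum.elim_inl, Sum.elim_inr] at this
          exact absurd ⟨j, this.symm⟩ z.2.2
        · have := congrArg Subtype.val h
          simp only [Sum.elim_inr] at this
          rw [Subtype.ext this]
      · rintro ⟨z, hz⟩
        by_cases h : z ∈ Set.range x
        · obtain ⟨i, rfl⟩ := h
          exact ⟨Sum.inl i, rfl⟩
        · exact ⟨Sum.inr ⟨z, hz, h⟩, rfl⟩)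
  let f2 : ι ⊕ (u \ Set.range y : Set ℂ) ≃ u :=
    Equiv.ofBijective (fun s => Sum.elim (fun i => ⟨y i, hyu ⟨i, rfl⟩⟩) (fun z => ⟨z.1, z.2.1⟩) s) (by
      constructor
      · rintro (i | z) (j | w) h
        · have := congrArg Subtype.val h
          simp only [Sum.elim_inl] at this
          rw [hyi this]
        · have := congrArg Subtype.val h
          simp only [Sum.elim_inl, Sum.elim_inr] at this
          exact absurd ⟨i, this⟩ w.2.2
        · have := congrArg Subtype.val h
          simp only [Sum.elim_inl, Sum.elim_inr] at this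
          exact absurd ⟨j, this.symm⟩ z.2.2
        · have := congrArg Subtype.val h
          simp only [Sum.elim_inr] at this
          rw [Subtype.ext this]
      · rintro ⟨z, hz⟩
        by_cases h : z ∈ Set.range y
        · obtain ⟨i, rfl⟩ := h
          exact ⟨Sum.inl i, rfl⟩
        · exact ⟨Sum.inr ⟨z, hz, h⟩, rfl⟩)
  let e : t ≃ u := f1.symm.trans ((Equiv.sumCongr (Equiv.refl ι) e2).trans f2)
  obtain ⟨σ, hσ1, hσ2⟩ := hCEB F t u (fun z : t => (z : ℂ)) (fun z : u => (z : ℂ)) e ht hu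
  refine ⟨σ, hσ1, fun i => ?_⟩
  have h1 : f1 (Sum.inl i) = ⟨x i, hxt ⟨i, rfl⟩⟩ := rfl
  have h2 : f1.symm ⟨x i, hxt ⟨i, rfl⟩⟩ = Sum.inl i := by
    rw [← h1, Equiv.symm_apply_apply]
  have h3 := hσ2 ⟨x i, hxt ⟨i, rfl⟩⟩
  have h4 : (e ⟨x i, hxt ⟨i, rfl⟩⟩ : ℂ) = y i := by
    show ((f2 ((Equiv.sumCongr (Equiv.refl ι) e2) (f1.symm ⟨x i, hxt ⟨i, rfl⟩⟩)) : u) : ℂ) = y i
    rw [h2]
    rfl
  rw [← h4]
  exact h3

end SCF
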