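import Pool.Agent.SCF.TargetsAut

/-!
# SCF-FTF: finite orbit
-/

set_option autoImplicit false

namespace SCF

theorem p_FTF : T_FTF := by
  intro ι _ y z h
  obtain ⟨p, hp0, hpz⟩ := h
  have hfix : ∀ σ : ℂ ≃+* ℂ, (∀ i, σ (y i) = y i) →
      ((σ : ℂ →+* ℂ).comp (algebraMap (IntermediateField.adjoin ℚ (Set.range y)) ℂ)) =
        algebraMap (IntermediateField.adjoin ℚ (Set.range y)) ℂ := by
    intro σ hσ
    have key : ∀ c : ℂ, c ∈ IntermediateField.adjoin ℚ (Set.range y) → σ c = c := by
      intro c hc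
      induction hc using IntermediateField.adjoin_induction with
      | mem x hx =>
        obtain ⟨i, rfl⟩ := hx
        exact hσ i
      | algebraMap q =>
        rw [eq_ratCast]
        exact map_ratCast σ q
      | add a b _ _ ha hb => rw [map_add, ha, hb]
      | inv a _ ha => rw [map_inv₀, ha]
      | mul a b _ _ ha hb => rw [map_mul, ha, hb]
    ext c
    exact key c c.2
  refine (p.rootSet_finite ℂ).subset ?_
  rintro w ⟨σ, hσ, rfl⟩
  rw [Polynomial.mem_rootSet]
  refine ⟨hp0, ?_⟩
  have h1 := congrArg (σ : ℂ →+* ℂ) hpz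
  rw [Polynomial.aeval_def, Polynomial.hom_eval₂, hfix σ hσ, map_zero] at h1
  exact h1

end SCF
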