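import Pool.Agent.SCF.TargetsAut

/-!
# Project SCF (MP_0c25eb_ag, S00015), package AUT: generic points are dense (job GDN)
-/

set_option autoImplicit false

namespace SCF

open Cardinal

/-- There is a generic family. -/
theorem GDN_.exists_generic (hc : T_CMP) (ι : Type) [Fintype ι] :
    ∃ g : ι → ℂ, AlgebraicIndependent ℚ g := by
  obtain ⟨t, -, htb, hcard⟩ := hc ℚ Empty (fun x => x.elim) (by
    rw [algebraicIndependent_empty_type_iff]
    exact (algebraMap ℚ ℂ).injective)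
  rw [Set.range_eq_empty, Set.sdiff_empty] at hcard
  have hinf : Infinite t := by
    rw [Cardinal.infinite_iff, hcard]
    exact Cardinal.aleph0_le_continuum
  let f : ι ↪ t := ((Fintype.equivFin ι).toEmbedding.trans Fin.valEmbedding).trans
    (Infinite.natEmbedding t)
  exact ⟨fun i => (f i : ℂ), htb.1.comp f f.injective⟩

/-- **GDN.** Generic points are dense. -/
theorem p_GDN (h5 : T_FT5) (hc : T_CMP) : T_GDN := by
  intro ι _ a ε hε
  obtain ⟨g, hg⟩ := GDN_.exists_generic hc ι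
  have hS := h5 ι g a hg
  have hM : 0 ≤ ∑ i, ‖a i - g i‖ := Finset.sum_nonneg fun i _ => norm_nonneg _
  have hδ : 0 < ε / (∑ i, ‖a i - g i‖ + 1) := div_pos hε (by linarith)
  obtain ⟨z, hz, hz1⟩ := (hS.dense_compl ℂ).exists_dist_lt 1 hδ
  rw [Set.mem_compl_iff, Set.mem_ofPred_eq, not_not] at hz
  refine ⟨_, hz, fun i => ?_⟩
  have h1 : g i + z * (a i - g i) - a i = (z - 1) * (a i - g i) := by ring
  have h2 : ‖a i - g i‖ ≤ ∑ i, ‖a i - g i‖ :=
    Finset.single_le_sum (f := fun i => ‖a i - g i‖) (fun j _ => norm_nonneg _)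
      (Finset.mem_univ i)
  rw [dist_comm, dist_eq_norm] at hz1
  rw [h1, norm_mul]
  calc ‖z - 1‖ * ‖a i - g i‖ ≤ ‖z - 1‖ * ∑ i, ‖a i - g i‖ :=
        mul_le_mul_of_nonneg_left h2 (norm_nonneg _)
    _ ≤ ε / (∑ i, ‖a i - g i‖ + 1) * ∑ i, ‖a i - g i‖ :=
        mul_le_mul_of_nonneg_right hz1.le hM
    _ < ε := by
        rw [div_mul_eq_mul_div, div_lt_iff₀ (by linarith)]
        nlinarith

end SCF
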