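import Pool.Agent.SCF.PartII
import Pool.Agent.SCF.P_FT2
import Pool.Agent.SCF.P_FTB
import Pool.Agent.SCF.P_FTF
import Pool.Agent.SCF.P_FT4
import Pool.Agent.SCF.P_FT5
import Pool.Agent.SCF.P_GDN
import Pool.Agent.SCF.P_CVX
import Pool.Agent.SCF.P_CEB
import Pool.Agent.SCF.P_CMP
import Pool.Agent.SCF.P_FTE
import Pool.Agent.SCF.P_CHT

/-!
# Project SCF (MP_0c25eb_ag, S00015): the maximality clause without hypotheses
-/

set_option autoImplicit false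

namespace SCF

theorem q_FTE : T_FTE := p_FTE p_CEB p_CMP
theorem q_GDN : T_GDN := p_GDN p_FT5 p_CMP
theorem q_MXF : T_MXF :=
  q_MXF_of (p_FT2 q_FTE) (p_FTB q_FTE) p_FTF p_FT4 p_FT5 q_GDN p_CVX (p_CHT q_GDN)
theorem q_MAX : T_MAX := p_MAX q_MXF q_GSEC p_SECI

end SCF
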