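import Pool.Agent.SCF.Targets

/-!
# Project SCF (MP_0c25eb_ag, S00015): assembly of the frozen statement

`S15` is the frozen statement; `s15_of` derives it from finiteness, reality and maximality.
-/

set_option autoImplicit false

namespace SCF

open Module Filter Topology

/-- MAX: maximality clause (Part II). -/
def T_MAX : Prop := ∀ (k n r : ℕ) (lam : Fin r → Fin k → ℕ), SP k n r lam →
  ∀ t : Fin r → Fin n → ℝ, Sep t → ∀ G0 : Fl n r, Ind G0 → (Sch k lam G0).Finite →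
  (Sch k lam G0).ncard ≤ (Sch k lam (sec t)).ncard

/-- The frozen statement S00015 follows from FIN, GSEC, SECI, REAL, MAX. -/
theorem s15_of (h1 : T_FIN) (h2 : T_GSEC) (h3 : T_SECI) (h4 : T_REAL) (h5 : T_MAX) :
  ∀ (k n r : ℕ) (lam : Fin r → Fin k → ℕ),
    k ≤ n →
    (∀ j, Antitone (lam j)) →
    (∀ j i, lam j i ≤ n - k) →
    (∑ j, ∑ i, lam j i) = k * (n - k) →
    ∀ Sch : (Fin r → Fin n → Fin n → ℂ) → Set (Submodule ℂ (Fin n → ℂ)),
      (∀ G, Sch G = {H : Submodule ℂ (Fin n → ℂ) |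
          Module.finrank ℂ H = k ∧
          ∀ (j : Fin r) (i : Fin k), (i : ℕ) + 1 ≤
            Module.finrank ℂ ↥(H ⊓ Submodule.span ℂ
              (G j '' {a : Fin n | (a : ℕ) < n - k + (i : ℕ) + 1 - lam j i}))}) →
    ∀ t : Fin r → Fin n → ℝ,
      (∀ j, Function.Injective (t j)) →
      (∀ j j', j ≠ j' → (∀ a b, t j a < t j' b) ∨ (∀ a b, t j' a < t j b)) →
      ((Sch (fun j a b => ((t j a : ℂ)) ^ (b : ℕ))).Finite ∧
        (∀ G : Fin r → Fin n → Fin n → ℂ, (∀ j, LinearIndependent ℂ (G j)) →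
          (Sch G).Finite →
          (Sch G).ncard ≤ (Sch (fun j a b => ((t j a : ℂ)) ^ (b : ℕ))).ncard) ∧
        ∀ H ∈ Sch (fun j a b => ((t j a : ℂ)) ^ (b : ℕ)), ∀ v ∈ H, star v ∈ H) := by
  intro k n r lam hk hanti hle hsum Sch' hSch t hinj hsep
  have hS : Sch' = Sch k lam := funext fun G => hSch G
  subst hS
  have hSP : SP k n r lam := ⟨hk, hanti, hle, hsum⟩
  have hT : Sep t := ⟨hinj, hsep⟩
  have hI : Ind (sec t) := h3 n r t hT
  refine ⟨h1 k n r lam hSP (sec t) hI (h2 k n r lam hSP t hT), ?_, ?_⟩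
  · intro G hG hfin
    exact h5 k n r lam hSP t hT G hG hfin
  · intro H hH v hv
    have hc : cj H = H := h4 k n r lam hSP t hT H hH
    rw [← hc] at hv
    have := (mem_sg cjσ H v).1 hv
    exact this

end SCF
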