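import Pool.Agent.SCF.Targets

set_option autoImplicit false

namespace SCF

open Module Filter Topology

/-- greedy choice of a basis -/
theorem p_GR : T_GR := by
  intro n k
  induction k with
  | zero =>
    intro W _
    exact ⟨fun i => i.elim0, linearIndependent_empty_type, fun i => i.elim0⟩
  | succ k ih =>
    intro W hW
    obtain ⟨h, hli, hmem⟩ := ih (fun i => W i.castSucc) (fun i => by simpa using hW i.castSucc)
    have hlast : k + 1 ≤ finrank ℂ (W (Fin.last k)) := by simpa using hW (Fin.last k)
    have hsp : finrank ℂ (Submodule.span ℂ (Set.range h)) = k := by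
      rw [finrank_span_eq_card hli, Fintype.card_fin]
    obtain ⟨x, hx, hxn⟩ : ∃ x ∈ W (Fin.last k), x ∉ Submodule.span ℂ (Set.range h) := by
      by_contra hcon
      push Not at hcon
      have hle : W (Fin.last k) ≤ Submodule.span ℂ (Set.range h) := hcon
      have := Submodule.finrank_mono hle
      omega
    refine ⟨Fin.snoc h x, linearIndependent_finSnoc.2 ⟨hli, hxn⟩, ?_⟩
    intro i
    refine Fin.lastCases ?_ (fun i => ?_) i
    · simpa using hx
    · simpa using hmem i

end SCF
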