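import Pool.Agent.SCF.DefsB
import Pool.Agent.SCF.P_GR

/-!
# SCF, chart package, part A: moving a flag so that a subspace is in the open cell
-/

set_option autoImplicit false

namespace SCF

open Module Filter Topology

namespace CHT_

/-- adding one vector to the span -/
lemma Fs_succ {n : ℕ} (g : Fin n → Fin n → ℂ) (p : Fin n) (v : Fin n → ℂ)
    (hv : v ∈ Fs g ((p : ℕ) + 1)) : ∃ d : ℂ, v - d • g p ∈ Fs g (p : ℕ) := by
  unfold Fs at hv
  have hset : {a : Fin n | (a : ℕ) < (p : ℕ) + 1} = insert p {a : Fin n | (a : ℕ) < (p : ℕ)} := by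
    ext a
    show (a : ℕ) < (p : ℕ) + 1 ↔ a ∈ insert p {a : Fin n | (a : ℕ) < (p : ℕ)}
    rw [Set.mem_insert_iff]
    show (a : ℕ) < (p : ℕ) + 1 ↔ a = p ∨ (a : ℕ) < (p : ℕ)
    constructor
    · intro h
      rcases Nat.lt_or_ge (a : ℕ) (p : ℕ) with h1 | h1
      · exact Or.inr h1
      · left
        apply Fin.ext
        omega
    · rintro (h | h)
      · rw [h]; omega
      · omega
  rw [hset, Set.image_insert_eq, Submodule.mem_span_insert] at hv
  obtain ⟨d, z, hz, rfl⟩ := hv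
  refine ⟨d, ?_⟩
  have : d • g p + z - d • g p = z := by abel
  rw [this]
  exact hz

/-- a linear map with prescribed values on independent vectors -/
lemma ext_lin {n k : ℕ} (h : Fin k → Fin n → ℂ) (hh : LinearIndependent ℂ h)
    (w : Fin k → Fin n → ℂ) :
    ∃ T : (Fin n → ℂ) →ₗ[ℂ] (Fin n → ℂ), ∀ i, T (h i) = w i := by
  let b := Basis.span hh
  obtain ⟨T, hT⟩ := LinearMap.exists_extend (b.constr ℂ w)
  refine ⟨T, fun i => ?_⟩
  have h1 : T (h i) = (T ∘ₗ (Submodule.span ℂ (Set.range h)).subtype) (b i) := by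
    simp only [LinearMap.comp_apply, Submodule.subtype_apply, b]
    rw [Basis.span_apply hh]
  rw [h1, hT, Basis.constr_basis]

lemma dens {n k : ℕ} (g0 : Fin n → Fin n → ℂ) (hg : LinearIndependent ℂ g0)
    (h : Fin k → Fin n → ℂ) (hh : LinearIndependent ℂ h) (p : Fin k → Fin n)
    (hp : ∀ i, h i ∈ Fs g0 ((p i : ℕ) + 1)) (ε : ℝ) (hε : 0 < ε) :
    ∃ g : Fin n → Fin n → ℂ, LinearIndependent ℂ g ∧ (∀ a b, ‖g a b - g0 a b‖ < ε) ∧
      ∃ c : Fin k → ℂ, (∀ i, c i ≠ 0) ∧ ∀ i, h i - c i • g (p i) ∈ Fs g (p i : ℕ) := by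
  obtain ⟨T, hT⟩ := ext_lin h hh (fun i => g0 (p i))
  choose d hd using fun i => Fs_succ g0 (p i) (h i) (hp i)
  let T' : (Fin n → ℂ) →L[ℂ] (Fin n → ℂ) := LinearMap.toContinuousLinearMap T
  have hT' : ∀ v, T' v = T v := fun v => rfl
  let A : ℂ → ((Fin n → ℂ) →L[ℂ] (Fin n → ℂ)) := fun e => 1 + e • T'
  have hA0 : A 0 = 1 := by
    refine ContinuousLinearMap.ext fun v => ?_
    show v + (0 : ℂ) • (T' v) = v
    rw [zero_smul ℂ (T' v), add_zero]
  have hAc : Continuous A := by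
    show Continuous fun e : ℂ => (1 : (Fin n → ℂ) →L[ℂ] (Fin n → ℂ)) + e • T'
    fun_prop
  have hU : ∀ᶠ e in 𝓝 (0 : ℂ), IsUnit (A e) := by
    have h1 : {x : (Fin n → ℂ) →L[ℂ] (Fin n → ℂ) | IsUnit x} ∈ 𝓝 (A 0) := by
      rw [hA0]
      exact Units.isOpen.mem_nhds isUnit_one
    exact hAc.continuousAt.eventually h1
  have hF : ContinuousAt (fun e => Ring.inverse (A e)) 0 := by
    have h1 : ContinuousAt Ring.inverse (A 0) := by
      rw [hA0]
      exact NormedRing.inverse_continuousAt (1 : ((Fin n → ℂ) →L[ℂ] (Fin n → ℂ))ˣ)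
    exact ContinuousAt.comp h1 hAc.continuousAt
  have hF0 : Ring.inverse (A 0) = 1 := by rw [hA0, Ring.inverse_one]
  have hnear : ∀ᶠ e in 𝓝 (0 : ℂ), ∀ a b, ‖(Ring.inverse (A e)) (g0 a) b - g0 a b‖ < ε := by
    rw [Filter.eventually_all]
    intro a
    rw [Filter.eventually_all]
    intro b
    have h1 : ContinuousAt (fun e => (Ring.inverse (A e)) (g0 a) b - g0 a b) 0 := by
      have h2 : ContinuousAt (fun e => (Ring.inverse (A e)) (g0 a)) 0 :=
        hF.clm_apply continuousAt_const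
      have h3 : ContinuousAt (fun e => (Ring.inverse (A e)) (g0 a) b) 0 :=
        (continuous_apply b).continuousAt.comp h2
      exact h3.sub continuousAt_const
    have h4 := h1.norm
    have h5 : ‖(Ring.inverse (A 0)) (g0 a) b - g0 a b‖ < ε := by
      rw [hF0]
      simpa using hε
    exact h4.eventually (gt_mem_nhds h5)
  have hall := hU.and hnear
  have hinf : Set.Infinite {e : ℂ | IsUnit (A e) ∧
      ∀ a b, ‖(Ring.inverse (A e)) (g0 a) b - g0 a b‖ < ε} := infinite_of_mem_nhds 0 hall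
  have hfin : Set.Finite (Set.range fun i => -d i) := Set.finite_range _
  obtain ⟨e, ⟨heU, he⟩, hne⟩ := (hinf.sdiff hfin).nonempty
  let F : (Fin n → ℂ) →L[ℂ] (Fin n → ℂ) := Ring.inverse (A e)
  have hFA : ∀ v, F (A e v) = v := by
    intro v
    have h1 : F * A e = 1 := Ring.inverse_mul_cancel _ heU
    have h2 := congrArg (fun X : (Fin n → ℂ) →L[ℂ] (Fin n → ℂ) => X v) h1
    simpa using h2
  have hAF : ∀ v, A e (F v) = v := by
    intro v
    have h1 : A e * F = 1 := Ring.mul_inverse_cancel _ heU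
    have h2 := congrArg (fun X : (Fin n → ℂ) →L[ℂ] (Fin n → ℂ) => X v) h1
    simpa using h2
  have hker : LinearMap.ker (F : (Fin n → ℂ) →ₗ[ℂ] (Fin n → ℂ)) = ⊥ := by
    rw [LinearMap.ker_eq_bot']
    intro v hv
    have h1 := hAF v
    have h2 : F v = 0 := hv
    rw [h2, map_zero] at h1
    exact h1.symm
  refine ⟨fun a => F (g0 a), ?_, fun a b => he a b, fun i => d i + e, ?_, ?_⟩
  · exact hg.map' (F : (Fin n → ℂ) →ₗ[ℂ] (Fin n → ℂ)) hker
  · intro i h0
    apply hne
    refine ⟨i, ?_⟩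
    show -d i = e
    exact neg_eq_of_add_eq_zero_right h0
  · intro i
    have h1 : h i = F (h i + e • g0 (p i)) := by
      rw [← hT i, ← hT', ← hFA (h i)]
      congr 1
      rw [hFA]
      rfl
    have h2 : h i - (d i + e) • F (g0 (p i)) = F (h i - d i • g0 (p i)) := by
      conv_lhs => rw [h1]
      simp only [map_add, map_sub, map_smul]
      rw [add_smul]
      abel
    show h i - (d i + e) • F (g0 (p i)) ∈ _
    rw [h2]
    have h3 : Fs (fun a => F (g0 a)) (p i : ℕ) =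
        (Fs g0 (p i : ℕ)).map (F : (Fin n → ℂ) →ₗ[ℂ] (Fin n → ℂ)) := by
      unfold Fs
      rw [Submodule.map_span, ← Set.image_comp]
      rfl
    rw [h3]
    exact ⟨_, hd i, rfl⟩

end CHT_

end SCF
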