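import Mathlib

/-!
# Project SCF (MP_0c25eb_ag, S00015: the secant conjecture): definitions

Paper proof: ideas rows 1807 (reality, transversality) and 1818 (maximality clause).
-/

set_option autoImplicit false

namespace SCF

open Module Filter Topology

/-- `r` tuples of `n` vectors of `ℂ^n` : `G j a` is the `a`-th vector of the `j`-th one. -/
abbrev Fl (n r : ℕ) := Fin r → Fin n → Fin n → ℂ

/-- the span of the first `m` vectors of a tuple -/
def Fs {n : ℕ} (g : Fin n → Fin n → ℂ) (m : ℕ) : Submodule ℂ (Fin n → ℂ) :=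
  Submodule.span ℂ (g '' {a : Fin n | (a : ℕ) < m})

/-- solutions of the Schubert problem (verbatim as in `S00015`) -/
def Sch (k : ℕ) {n r : ℕ} (lam : Fin r → Fin k → ℕ) (G : Fl n r) :
    Set (Submodule ℂ (Fin n → ℂ)) :=
  {H : Submodule ℂ (Fin n → ℂ) |
    Module.finrank ℂ H = k ∧
    ∀ (j : Fin r) (i : Fin k), (i : ℕ) + 1 ≤
      Module.finrank ℂ ↥(H ⊓ Fs (G j) (n - k + (i : ℕ) + 1 - lam j i))}

/-- the hypotheses on a Schubert problem -/
structure SP (k n r : ℕ) (lam : Fin r → Fin k → ℕ) : Prop where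
  kn : k ≤ n
  anti : ∀ j, Antitone (lam j)
  le : ∀ j i, lam j i ≤ n - k
  sum : (∑ j, ∑ i, lam j i) = k * (n - k)

/-- all the tuples are linearly independent -/
def Ind {n r : ℕ} (G : Fl n r) : Prop := ∀ j, LinearIndependent ℂ (G j)

/-- A relation for `(G; H, H')`: matrices `B j` with `B j H = 0`, `B j (ℂ^n) ⊆ H'`, strictly
triangular with respect to the `j`-th flag, with sum `0`. -/
structure IsRel {n r : ℕ} (G : Fl n r) (H H' : Submodule ℂ (Fin n → ℂ))
    (B : Fin r → Matrix (Fin n) (Fin n) ℂ) : Prop where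
  ker : ∀ j, ∀ v ∈ H, (B j).mulVec v = 0
  im : ∀ j v, (B j).mulVec v ∈ H'
  tri : ∀ (j : Fin r) (a : Fin n), (B j).mulVec (G j a) ∈ Fs (G j) (a : ℕ)
  sum : ∑ j, B j = 0

/-- `G` is good: every relation at a solution is `0` (transversality). -/
def Good (k : ℕ) {n r : ℕ} (lam : Fin r → Fin k → ℕ) (G : Fl n r) : Prop :=
  ∀ H ∈ Sch k lam G, ∀ B, IsRel G H H B → B = 0

/-- the image of a subspace under a field automorphism applied to the coordinates -/
def sg {n : ℕ} (σ : ℂ ≃+* ℂ) (H : Submodule ℂ (Fin n → ℂ)) : Submodule ℂ (Fin n → ℂ) where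
  carrier := {v | (fun b => σ.symm (v b)) ∈ H}
  add_mem' := by
    intro v w hv hw
    have h := H.add_mem hv hw
    have e : (fun b => σ.symm ((v + w) b)) = (fun b => σ.symm (v b)) + (fun b => σ.symm (w b)) := by
      funext b; simp
    show (fun b => σ.symm ((v + w) b)) ∈ H
    rw [e]; exact h
  zero_mem' := by
    have e : (fun b => σ.symm ((0 : Fin n → ℂ) b)) = (0 : Fin n → ℂ) := by
      funext b; simp
    show (fun b => σ.symm ((0 : Fin n → ℂ) b)) ∈ H
    rw [e]; exact H.zero_mem
  smul_mem' := by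
    intro c v hv
    have h := H.smul_mem (σ.symm c) hv
    have e : (fun b => σ.symm ((c • v) b)) = σ.symm c • (fun b => σ.symm (v b)) := by
      funext b; simp
    show (fun b => σ.symm ((c • v) b)) ∈ H
    rw [e]; exact h

theorem mem_sg {n : ℕ} (σ : ℂ ≃+* ℂ) (H : Submodule ℂ (Fin n → ℂ)) (v : Fin n → ℂ) :
    v ∈ sg σ H ↔ (fun b => σ.symm (v b)) ∈ H := Iff.rfl

/-- `σ` applied to all the entries of the flags -/
def sgF {n r : ℕ} (σ : ℂ ≃+* ℂ) (G : Fl n r) : Fl n r := fun j a b => σ (G j a b)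

/-- complex conjugation -/
noncomputable def cjσ : ℂ ≃+* ℂ := starRingAut

/-- the conjugate subspace -/
noncomputable def cj {n : ℕ} (H : Submodule ℂ (Fin n → ℂ)) : Submodule ℂ (Fin n → ℂ) := sg cjσ H

/-- the secant flags (verbatim as in `S00015`) -/
def sec {n r : ℕ} (t : Fin r → Fin n → ℝ) : Fl n r := fun j a b => ((t j a : ℂ)) ^ (b : ℕ)

/-- the hypotheses on the points of secancy -/
structure Sep {n r : ℕ} (t : Fin r → Fin n → ℝ) : Prop where
  inj : ∀ j, Function.Injective (t j)
  sep : ∀ j j', j ≠ j' → (∀ a b, t j a < t j' b) ∨ (∀ a b, t j' a < t j b)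

/-- `P` is the orthogonal projection onto `H` -/
structure IsPr {n : ℕ} (P : Matrix (Fin n) (Fin n) ℂ) (H : Submodule ℂ (Fin n → ℂ)) : Prop where
  herm : P.conjTranspose = P
  idem : P * P = P
  mem : ∀ v, v ∈ H ↔ P.mulVec v = v

open Classical in
/-- the matrix of the orthogonal projection onto `H` (it exists: target `T_pr`). The topology on the
set of subspaces is the one induced by `pr` (into `Matrix (Fin n) (Fin n) ℂ`, product topology). -/
noncomputable def pr {n : ℕ} (H : Submodule ℂ (Fin n → ℂ)) : Matrix (Fin n) (Fin n) ℂ :=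
  if h : ∃ P, IsPr P H then h.choose else 0

/-- all the entries of `G` are algebraically independent over `ℚ` -/
def Gen {n r : ℕ} (G : Fl n r) : Prop :=
  AlgebraicIndependent ℚ (fun p : Fin r × Fin n × Fin n => G p.1 p.2.1 p.2.2)

/-- value at `z` of the polynomial with coefficient vector `v` -/
def ev {n : ℕ} (v : Fin n → ℂ) (z : ℂ) : ℂ := ∑ b, v b * z ^ (b : ℕ)

end SCF
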