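import Pool.Agent.SCF.Defs

/-!
# Project SCF (MP_0c25eb_ag, S00015), Part II: definitions and the chart interface
-/

set_option autoImplicit false

namespace SCF

open Module Filter Topology

/-- `M` is in standard form: its first `k` columns are the identity -/
def Std {k n : ℕ} (M : Fin k → Fin n → ℂ) : Prop :=
  ∀ (a : Fin k) (b : Fin n), (b : ℕ) < k → M a b = if (b : ℕ) = (a : ℕ) then 1 else 0

/-- `H` meets the vectors with vanishing first `k` coordinates only in `0` -/
def Cht {n : ℕ} (k : ℕ) (H : Submodule ℂ (Fin n → ℂ)) : Prop :=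
  ∀ v ∈ H, (∀ c : Fin n, (c : ℕ) < k → v c = 0) → v = 0

/-- SCF-CHT, the only export of the chart package (helper58, proof from the targets of TargetsChart). Near a solution
`(G0, span M0)` there is a solution `(G, span M)` together with `r n ^ 2` algebraically independent numbers `x`
(the chart parameters) which are determined by `(G, M)`: every field automorphism fixing all entries of `G` and `M`
fixes all the `x i`. -/
def T_CHT : Prop := ∀ (k n r : ℕ) (lam : Fin r → Fin k → ℕ), SP k n r lam →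
  ∀ G0 : Fl n r, Ind G0 → ∀ M0 : Fin k → Fin n → ℂ, Std M0 →
  Submodule.span ℂ (Set.range M0) ∈ Sch k lam G0 → ∀ ε : ℝ, 0 < ε →
  ∃ (G : Fl n r) (M : Fin k → Fin n → ℂ) (x : Fin r × Fin n × Fin n → ℂ),
    Ind G ∧ (∀ j a b, ‖G j a b - G0 j a b‖ < ε) ∧ Std M ∧ (∀ a b, ‖M a b - M0 a b‖ < ε) ∧
    Submodule.span ℂ (Set.range M) ∈ Sch k lam G ∧ AlgebraicIndependent ℚ x ∧
    ∀ σ : ℂ ≃+* ℂ, (∀ j a b, σ (G j a b) = G j a b) → (∀ a b, σ (M a b) = M a b) → ∀ i, σ (x i) = x i

end SCF
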