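import Pool.Agent.SCF.Defs
import Pool.Agent.SCF.DefsB

/-!
# Project SCF (MP_0c25eb_ag, S00015), Part II, package TOP: the maximality clause (ideas row 1818)

Every target has its complete proof in the docstring. The word uses lists the targets that may be taken as hypotheses
(targets of Part I are in SCF/Targets.lean, T_FT2 T_FTB T_FTF T_FT4 T_FT5 T_GDN T_CVX in SCF/TargetsAut.lean, T_CHT in
SCF/DefsB.lean); any other target may be taken too as long as no circle arises.

Statements of the field theory targets (TargetsAut, owner helper10), all inside namespace SCF: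
* T_FT2: for `ι : Type`, `Fintype ι`, `x y : ι → ℂ`, both `AlgebraicIndependent ℚ`: there is `σ : ℂ ≃+* ℂ` with `σ (x i) = y i`.
* T_FTB: for `y : ι → ℂ`, `z : ℂ`, `R : ℝ`: if `‖σ z‖ ≤ R` for all `σ : ℂ ≃+* ℂ` with `∀ i, σ (y i) = y i`, then
  `IsAlgebraic (IntermediateField.adjoin ℚ (Set.range y)) z`.
* T_FTF: if `z` is algebraic over that field, the set of all `σ z` with such `σ` is finite.
* T_FT4: `x : ι → ℂ` algebraically independent over `ℚ`, all `x i` algebraic over `ℚ(y)`, `y : κ → ℂ`,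
  `Fintype.card κ ≤ Fintype.card ι`, then `y` is algebraically independent over `ℚ`.
* T_FT5: `a` algebraically independent, then the `z : ℂ` for which `fun i => a i + z * (c i - a i)` is not, are countable.
* T_GDN: near every point there is an algebraically independent one. T_CVX: a convex open subset of `ℂ` minus a countable
  set is preconnected.
-/

set_option autoImplicit false

namespace SCF

open Module Filter Topology

/-! ## Standard form -/

/-- SCF-STD. PROOF. The linear map `H → (Fin k → ℂ)`, `v ↦ (a ↦ v (Fin.castLE _ a))` (first `k` coordinates) is injective by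
`Cht`, and `finrank H = k`, so it is bijective (`LinearMap.injective_iff_surjective_of_finrank_eq_finrank`). Let `M a ∈ H` be
the preimage of `Pi.single a 1`. Then `Std M`. The rows are independent (their first `k` coordinates are), their span is
contained in `H` and has dimension `k = finrank H` (`finrank_span_eq_card`, `Submodule.eq_of_le_of_finrank_eq`). -/
def T_STD : Prop := ∀ (k n : ℕ) (H : Submodule ℂ (Fin n → ℂ)), k ≤ n → finrank ℂ H = k → Cht k H →
  ∃ M : Fin k → Fin n → ℂ, Std M ∧ Submodule.span ℂ (Set.range M) = H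

/-- SCF-STU. PROOF. If `M` is standard and `v = ∑ c a • M a` then `v b = c b` for `b < k` (evaluate). So (1) the rows are
independent; (2) the span has dimension `k`; (3) the span satisfies `Cht`; (4) uniqueness: `M' a` is in the span of the rows
of `M`, `M' a = ∑ c b • M b`, the first `k` coordinates give `c b = if b = a then 1 else 0`, so `M' a = M a`. -/
def T_STU : Prop := ∀ (k n : ℕ) (M : Fin k → Fin n → ℂ), k ≤ n → Std M →
  LinearIndependent ℂ M ∧ finrank ℂ ↥(Submodule.span ℂ (Set.range M)) = k ∧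
  Cht k (Submodule.span ℂ (Set.range M)) ∧
  ∀ M' : Fin k → Fin n → ℂ, Std M' → Submodule.span ℂ (Set.range M') = Submodule.span ℂ (Set.range M) → M' = M

/-- SCF-CCP (common complement). PROOF. If `S` is empty take the identity. Otherwise `k ≤ n`. Induction on `l ≤ n - k`: there
are `w 0, ..., w (l-1)` such that for all `H ∈ S` the space `H ⊔ span w` has dimension `k + l`. Step: the finitely
many spaces `H ⊔ span w` have dimension `k + l < n`, so they are proper, and a finite union of proper subspaces over an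
infinite field is not everything (`Subspace.biUnion_ne_univ_of_top_notMem` or `Subspace.exists_eq_top_of_iUnion_eq_univ`): take
`w l` outside of the union. For `l = n - k` let `C = span w`: `finrank C ≤ n - k` and `finrank (H ⊔ C) = n`, so
`finrank C = n - k` and `H ⊓ C = ⊥` for all `H ∈ S`. There is a linear automorphism `g` which maps `C` into
`D = {v | v c = 0 for c < k}`, `finrank D = n - k` (complements `C'` of `C` and `D'` of `D` exist, `C ≃ D` and `C' ≃ D'` by
dimension, `Submodule.prodEquivOfIsCompl`); then `g C = D` by dimension. If `v = g h`, `h ∈ H`, has vanishing first `k`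
coordinates, then `g h ∈ D = g C`, so `h ∈ C ⊓ H = ⊥`. -/
def T_CCP : Prop := ∀ (k n : ℕ) (S : Set (Submodule ℂ (Fin n → ℂ))), S.Finite →
  (∀ H ∈ S, finrank ℂ H = k) →
  ∃ g : (Fin n → ℂ) ≃ₗ[ℂ] (Fin n → ℂ), ∀ H ∈ S, Cht k (H.map (g : (Fin n → ℂ) →ₗ[ℂ] (Fin n → ℂ)))

/-- SCF-GLS (linear automorphisms). PROOF. `finrank (H.map g) = finrank H` (`LinearEquiv.finrank_map_eq`),
`(H ⊓ K).map g = H.map g ⊓ K.map g` (`Submodule.map_inf`), `(Fs (G j) m).map g = Fs (fun a => g (G j a)) m`
(`Submodule.map_span`, `Set.image_image`). So `H ∈ Sch G ↔ H.map g ∈ Sch (g G)`, and every `K` is `(K.map g.symm).map g`.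
The map `H ↦ H.map g` is injective (`Submodule.map_injective_of_injective`): `Set.ncard_image_of_injective`,
`Set.Finite.image`. `LinearIndependent.map'` for the last part. -/
def T_GLS : Prop := ∀ (k n r : ℕ) (lam : Fin r → Fin k → ℕ) (G : Fl n r) (g : (Fin n → ℂ) ≃ₗ[ℂ] (Fin n → ℂ)),
  Sch k lam (fun j a => g (G j a)) =
    (fun H : Submodule ℂ (Fin n → ℂ) => H.map (g : (Fin n → ℂ) →ₗ[ℂ] (Fin n → ℂ))) '' Sch k lam G ∧
  (Sch k lam (fun j a => g (G j a))).ncard = (Sch k lam G).ncard ∧
  ((Sch k lam G).Finite → (Sch k lam (fun j a => g (G j a))).Finite) ∧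
  (Ind G → Ind (fun j a => g (G j a) : Fl n r))

/-! ## Generic points -/

/-- SCF-GIN. PROOF. Fix `j`. The determinant of the matrix `G j` is `aeval y P`, `y` = the family of the entries of `G`,
`P` = the determinant of the matrix of variables `MvPolynomial.X (j, a, b)` over `ℚ` (`Matrix.det_mvPolynomialX_ne_zero` and
an injective renaming, or evaluate `P` at the identity matrix: value `1`). `P ≠ 0`, so `det ≠ 0` by algebraic
independence (`RingHom.map_det`, `AlgHom.map_det`); then the rows are independent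
(`Matrix.linearIndependent_rows_of_det_ne_zero`). -/
def T_GIN : Prop := ∀ (n r : ℕ) (G : Fl n r), Gen G → Ind G

/-- SCF-GEQ (uses T_FT2, T_SGS, T_SGG, T_SGB). All generic points are conjugate. PROOF. T_FT2 for the families of the entries
gives `σ` with `sgF σ G = G'`. T_SGS: `Sch G' = sg σ '' Sch G`, and `sg σ` is injective (T_SGB: left inverse `sg σ.symm`), so the
`ncard` agree. T_SGG: goodness. -/
def T_GEQ : Prop := ∀ (k n r : ℕ) (lam : Fin r → Fin k → ℕ) (G G' : Fl n r), Gen G → Gen G' →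
  (Sch k lam G').ncard = (Sch k lam G).ncard ∧ (Good k lam G → Good k lam G')

/-- SCF-GDG (uses T_GDN, T_GIN, T_GEQ, T_GO, T_CARD, T_FIN). PROOF. By T_GO and T_CARD there is `ε > 0` such that every `G1` with
all entries closer than `ε` to those of `s` is good and `(Sch G1).ncard ≤ (Sch s).ncard` (neighbourhoods in the product
topology: `Metric.eventually_nhds_iff`, `dist_pi_lt_iff`). T_GDN gives such a `G1` which is generic. By T_GEQ every generic `G`
is good and has the same `ncard` as `G1`. Finiteness: T_GIN and T_FIN. -/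
def T_GDG : Prop := ∀ (k n r : ℕ) (lam : Fin r → Fin k → ℕ), SP k n r lam →
  ∀ s : Fl n r, Ind s → Good k lam s → ∀ G : Fl n r, Gen G →
  Good k lam G ∧ (Sch k lam G).Finite ∧ (Sch k lam G).ncard ≤ (Sch k lam s).ncard

/-- SCF-DET (uses T_FTB, T_FTF, T_FT4). PROOF. Let `A` be the set of the `σ` with `σ (y i) = y i` for all `i`. By T_FTB every
`w m` is algebraic over `ℚ(y)`, so by T_FTF the set `{σ (w m) | σ ∈ A}` is finite. Hence the set of the functions
`m ↦ σ (w m)`, `σ ∈ A`, is finite (`Set.Finite.pi`). Fix `i`. If `σ, τ ∈ A` and `σ (w m) = τ (w m)` for all `m` then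
`τ⁻¹ σ` (that is `σ.trans τ.symm`) fixes all `y` and `w`, so it fixes `x i`: `σ (x i) = τ (x i)`. So
`{σ (x i) | σ ∈ A}` is finite, hence bounded, and by T_FTB `x i` is algebraic over `ℚ(y)`. T_FT4. -/
def T_DET : Prop := ∀ (ι κ μ : Type) [Fintype ι] [Fintype κ] [Fintype μ] (x : ι → ℂ) (y : κ → ℂ) (w : μ → ℂ) (R : ℝ),
  (∀ σ : ℂ ≃+* ℂ, (∀ i, σ (y i) = y i) → ∀ m, ‖σ (w m)‖ ≤ R) →
  (∀ σ : ℂ ≃+* ℂ, (∀ i, σ (y i) = y i) → (∀ m, σ (w m) = w m) → ∀ i, σ (x i) = x i) →
  AlgebraicIndependent ℚ x → Fintype.card κ ≤ Fintype.card ι → AlgebraicIndependent ℚ y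

/-- SCF-SPG. PROOF. `sg σ` of a span: both inclusions by `Submodule.span_le` (or `span_induction`): `σ M a ∈ sg σ (span M)`
since `σ.symm (σ (M a b)) = M a b`; conversely if `σ.symm v ∈ span (range M)`, `σ.symm v = ∑ c a • M a`
(`Submodule.mem_span_range_iff_exists_fun`), then `v = ∑ σ (c a) • σ M a`. `Std` is clear: `σ 1 = 1`, `σ 0 = 0`. -/
def T_SPG : Prop := ∀ (k n : ℕ) (σ : ℂ ≃+* ℂ) (M : Fin k → Fin n → ℂ),
  sg σ (Submodule.span ℂ (Set.range M)) = Submodule.span ℂ (Set.range (fun a b => σ (M a b))) ∧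
  (Std M → Std (fun a b => σ (M a b)))

/-- SCF-GNR (uses T_CHT, T_DET, T_BND, T_PRC, T_STD, T_STU, T_SGS, T_SPG). Generic points near `(G0, H0)`. PROOF. T_STD: `M0`
standard with span `H0`. T_BND: `C > 0` such that for `G` near `G0` and every standard `M` with `span M ∈ Sch G`:
`‖M a b‖ ≤ C` (take `v = M a`, `R = 1`). T_PRC (T_STU: `M0` is independent): for `M` near `M0`, `pr (span M) ∈ U`. Choose
`ε > 0` accordingly (`G` with all entries closer than `ε` to those of `G0` is in `V` and in the neighbourhood of T_BND) and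
take `(G, M, x)` from T_CHT. To show `Gen G` apply T_DET with `y` = the entries of `G`, `w` = the entries of `M` (index
`Fin k × Fin n`), `R = C`: if `σ` fixes all the entries of `G` then `sgF σ G = G`, by T_SPG and T_SGS
`span (σ M) = sg σ (span M) ∈ Sch (sgF σ G) = Sch G` and `σ M` is standard, so `‖σ (M a b)‖ ≤ C`. -/
def T_GNR : Prop := ∀ (k n r : ℕ) (lam : Fin r → Fin k → ℕ), SP k n r lam →
  ∀ G0 : Fl n r, Ind G0 → (∀ H ∈ Sch k lam G0, Cht k H) →
  ∀ H0 ∈ Sch k lam G0, ∀ U ∈ 𝓝 (pr H0), ∀ V ∈ 𝓝 G0,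
  ∃ G ∈ V, Gen G ∧ ∃ H ∈ Sch k lam G, pr H ∈ U

/-! ## Transport of solutions -/

/-- SCF-SPN (uses T_PR, T_NEAR). PROOF. `pr` is injective on subspaces (T_PR: `v ∈ H ↔ (pr H).mulVec v = v`). The finitely many
points `pr H`, `H ∈ Sch G0`, have pairwise disjoint open neighbourhoods (`Set.Finite.t2_separation` for the image set); let
`U H` be that of `pr H`. T_NEAR for the open set `⋃ H ∈ Sch G0, U H`. -/
def T_SPN : Prop := ∀ (k n r : ℕ) (lam : Fin r → Fin k → ℕ) (G0 : Fl n r), Ind G0 → (Sch k lam G0).Finite →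
  ∃ U : Submodule ℂ (Fin n → ℂ) → Set (Matrix (Fin n) (Fin n) ℂ),
    (∀ H ∈ Sch k lam G0, IsOpen (U H) ∧ pr H ∈ U H) ∧
    (∀ H ∈ Sch k lam G0, ∀ H' ∈ Sch k lam G0, H ≠ H' → Disjoint (U H) (U H')) ∧
    ∀ᶠ G in 𝓝 G0, ∀ K ∈ Sch k lam G, ∃ H ∈ Sch k lam G0, pr K ∈ U H

/-- SCF-LCL (uses T_GDG, T_GEQ, T_GIN, T_PERS, T_NEAR). Local constancy. PROOF. `G` is good (T_GDG) and `Ind` (T_GIN). Case 1: some
`H ∈ Sch G` has `pr H ∈ U`. T_PERS: for `G'` near `G` with `(Sch G).ncard ≤ (Sch G').ncard` (equality for generic `G'` by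
T_GEQ) there is `H' ∈ Sch G'` with `pr H' ∈ U`: both sides true. Case 2: no `H ∈ Sch G` has `pr H ∈ U`; then all have
`pr H ∈ W`, by T_NEAR the same for `G'` near `G`, and `U`, `W` are disjoint: both sides false. -/
def T_LCL : Prop := ∀ (k n r : ℕ) (lam : Fin r → Fin k → ℕ), SP k n r lam →
  ∀ s : Fl n r, Ind s → Good k lam s →
  ∀ U W : Set (Matrix (Fin n) (Fin n) ℂ), IsOpen U → IsOpen W → Disjoint U W →
  ∀ G : Fl n r, Gen G → (∀ H ∈ Sch k lam G, pr H ∈ U ∪ W) →
  ∀ᶠ G' in 𝓝 G, Gen G' → ((∃ H ∈ Sch k lam G', pr H ∈ U) ↔ ∃ H ∈ Sch k lam G, pr H ∈ U)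

/-- SCF-LNE (uses T_LCL, T_FT5, T_CVX). Transport along a complex line. PROOF. `ℓ z = A + z • (C - A)` is continuous in
`z ∈ ℂ`. `Ω = {z | ‖ℓ z - G0‖ < ε}` is open and convex (preimage of a ball under a real affine map:
`(convex_ball G0 ε).affine_preimage` or directly from the triangle inequality), contains `0` and `1`.
`S = {z | ¬ Gen (ℓ z)}` is countable (T_FT5 for the families of the entries). By T_CVX `Ω \ S` is preconnected; it contains `0`
and `1`. The sets of the `z ∈ Ω \ S` for which `Sch (ℓ z)` has, respectively has not, an element with `pr ∈ U` are relatively open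
in `Ω \ S` by T_LCL (compose with the continuous `ℓ`), disjoint, and cover it; the first contains `0`, so
it is everything (`IsPreconnected`; for example the function `z ↦ (∃ ..)` into `Prop` with the discrete topology, or
`IsPreconnected.subset_of_disjoint`, or the definition of `IsPreconnected` with open sets `O1`, `O2` = unions of the
neighbourhoods). -/
def T_LNE : Prop := ∀ (k n r : ℕ) (lam : Fin r → Fin k → ℕ), SP k n r lam →
  ∀ s : Fl n r, Ind s → Good k lam s →
  ∀ U W : Set (Matrix (Fin n) (Fin n) ℂ), IsOpen U → IsOpen W → Disjoint U W →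
  ∀ (G0 : Fl n r) (ε : ℝ), (∀ G : Fl n r, ‖G - G0‖ < ε → ∀ H ∈ Sch k lam G, pr H ∈ U ∪ W) →
  ∀ A C : Fl n r, Gen A → Gen C → ‖A - G0‖ < ε → ‖C - G0‖ < ε →
  (∃ H ∈ Sch k lam A, pr H ∈ U) → ∃ H ∈ Sch k lam C, pr H ∈ U

/-- SCF-MXC (uses T_SPN, T_GNR, T_LNE, T_GDG). Maximality in the chart. PROOF. If `Sch G0` is empty, `ncard = 0`. T_SPN gives `U` and
`ε > 0` with the last property for `‖G - G0‖ < ε`. For `H ∈ Sch G0` let `W H = ⋃ H' ∈ Sch G0, H' ≠ H, U H'`, open, disjoint from
`U H`. T_GNR: for every `H ∈ Sch G0` there is a generic `A H`, `‖A H - G0‖ < ε`, with some `K ∈ Sch (A H)`,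
`pr K ∈ U H`. Fix `H1 ∈ Sch G0` and `C = A H1`. T_LNE from `A H` to `C`: there is `K H ∈ Sch C` with
`pr (K H) ∈ U H`. The map `K` is injective on `Sch G0` (the `U H` are pairwise disjoint), `Sch C` is finite (T_GDG), so
`(Sch G0).ncard ≤ (Sch C).ncard ≤ (Sch s).ncard` (`Set.ncard_le_ncard_of_injOn`, T_GDG). -/
def T_MXC : Prop := ∀ (k n r : ℕ) (lam : Fin r → Fin k → ℕ), SP k n r lam →
  ∀ s : Fl n r, Ind s → Good k lam s → ∀ G0 : Fl n r, Ind G0 → (Sch k lam G0).Finite →
  (∀ H ∈ Sch k lam G0, Cht k H) → (Sch k lam G0).ncard ≤ (Sch k lam s).ncard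

/-- SCF-MXF (uses T_MXC, T_CCP, T_GLS). PROOF. T_CCP for `S = Sch G0` gives `g`; by T_GLS the flags `g G0` are `Ind`, their
solutions are the `H.map g`, finitely many, all satisfy `Cht k`, and the `ncard` is the same. T_MXC. -/
def T_MXF : Prop := ∀ (k n r : ℕ) (lam : Fin r → Fin k → ℕ), SP k n r lam →
  ∀ s : Fl n r, Ind s → Good k lam s → ∀ G0 : Fl n r, Ind G0 → (Sch k lam G0).Finite →
  (Sch k lam G0).ncard ≤ (Sch k lam s).ncard

end SCF
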