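import Pool.Agent.SCF.Asm
import Pool.Agent.SCF.TargetsTop

/-!
# Project SCF (MP_0c25eb_ag, S00015): the maximality clause for the secant flags
-/

set_option autoImplicit false

namespace SCF

theorem p_MAX (h1 : T_MXF) (h2 : T_GSEC) (h3 : T_SECI) : T_MAX := by
  intro k n r lam hSP t ht G0 hI hfin
  exact h1 k n r lam hSP (sec t) (h3 n r t ht) (h2 k n r lam hSP t ht) G0 hI hfin

end SCF
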