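import Pool.Agent.SCF.TargetsChart

set_option autoImplicit false

namespace SCF

open Module Filter Topology

namespace BAS_

open Classical in
theorem card_nonlead (k n r : ℕ) (lam : Fin r → Fin k → ℕ) (j : Fin r)
    (hmono : StrictMono (pos k n lam j)) (hlt : ∀ i, pos k n lam j i < n) :
    Fintype.card (Fin k ⊕ {b : Fin n // ¬ Jm k n lam j b}) = n := by
  have h1 : Fintype.card {b : Fin n // Jm k n lam j b} = k := by
    have e : Fin k ≃ {b : Fin n // Jm k n lam j b} := by
      refine Equiv.ofBijective (fun i => ⟨⟨pos k n lam j i, hlt i⟩, ⟨i, rfl⟩⟩) ⟨?_, ?_⟩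
      · intro i i' h
        have h2 : pos k n lam j i = pos k n lam j i' := by
          have := congrArg (fun x : {b : Fin n // Jm k n lam j b} => ((x : Fin n) : ℕ)) h
          exact this
        exact hmono.injective h2
      · rintro ⟨b, i, hi⟩
        refine ⟨i, ?_⟩
        apply Subtype.ext
        apply Fin.ext
        exact hi.symm
    rw [← Fintype.card_congr e, Fintype.card_fin]
  have h2 := Fintype.card_subtype_compl (fun b : Fin n => Jm k n lam j b)
  have h3 : Fintype.card {b : Fin n // Jm k n lam j b} ≤ Fintype.card (Fin n) := Fintype.card_subtype_le _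
  rw [Fintype.card_sum, Fintype.card_fin, h2, h1, Fintype.card_fin]
  rw [h1, Fintype.card_fin] at h3
  omega

end BAS_

open BAS_ in
open Classical in
theorem p_BAS (h_POS : T_POS) : T_BAS := by
  intro k n r lam hSP G M C E hInd hF j c c' e e' he heq
  obtain ⟨hmono, hlt, -, -⟩ := h_POS k n r lam hSP j
  set v : Fin k ⊕ {b : Fin n // ¬ Jm k n lam j b} → Fin n → ℂ :=
    Sum.elim M (fun b => G j b) with hv
  have hM : ∀ l, M l ∈ Submodule.span ℂ (Set.range v) := fun l =>
    Submodule.subset_span ⟨Sum.inl l, rfl⟩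
  have hN : ∀ b : Fin n, ¬ Jm k n lam j b → G j b ∈ Submodule.span ℂ (Set.range v) := fun b hb =>
    Submodule.subset_span ⟨Sum.inr ⟨b, hb⟩, rfl⟩
  have hA : ∀ b : Fin n, G j b ∈ Submodule.span ℂ (Set.range v) := by
    intro b
    by_cases hb : Jm k n lam j b
    · obtain ⟨i, hi⟩ := hb
      rw [hF j i b hi]
      refine Submodule.add_mem _ (Submodule.sum_mem _ fun l _ => Submodule.smul_mem _ _ (hM l))
        (Submodule.sum_mem _ fun b' _ => ?_)
      by_cases hB : Bf k n lam j i b'
      · rw [if_pos hB]
        exact Submodule.smul_mem _ _ (hN b' hB.2)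
      · rw [if_neg hB, zero_smul]
        exact Submodule.zero_mem _
    · exact hN b hb
  have htop : (⊤ : Submodule ℂ (Fin n → ℂ)) ≤ Submodule.span ℂ (Set.range v) := by
    have h1 : Submodule.span ℂ (Set.range (G j)) = ⊤ :=
      (hInd j).span_eq_top_of_card_eq_finrank' (by simp)
    rw [← h1, Submodule.span_le]
    rintro _ ⟨b, rfl⟩
    exact hA b
  have hli : LinearIndependent ℂ v :=
    linearIndependent_of_top_le_span_of_card_eq_finrank htop (by
      rw [card_nonlead k n r lam j hmono hlt]; simp)
  rw [Fintype.linearIndependent_iff] at hli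
  have hsplit : ∀ f : Fin n → ℂ, (∀ b, Jm k n lam j b → f b = 0) →
      ∑ b, f b • G j b = ∑ b : {b : Fin n // ¬ Jm k n lam j b}, f b • G j b := by
    intro f hf
    rw [← Finset.sum_subtype (Finset.univ.filter fun b : Fin n => ¬ Jm k n lam j b) (by simp)
      (fun b => f b • G j b)]
    refine (Finset.sum_filter_of_ne fun b _ hb => ?_).symm
    intro hJ
    apply hb
    rw [hf b hJ, zero_smul]
  have hz := hli (Sum.elim (fun l => c l - c' l) (fun b => e b - e' b)) (by
    rw [Fintype.sum_sum_type]
    simp only [Sum.elim_inl, Sum.elim_inr, hv]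
    rw [← hsplit (fun b => e b - e' b) (fun b hb => by rw [(he b hb).1, (he b hb).2, sub_zero])]
    simp only [sub_smul, Finset.sum_sub_distrib]
    have := sub_eq_zero.mpr heq
    rw [← this]
    abel)
  constructor
  · funext l
    exact sub_eq_zero.mp (hz (Sum.inl l))
  · funext b
    by_cases hb : Jm k n lam j b
    · rw [(he b hb).1, (he b hb).2]
    · exact sub_eq_zero.mp (hz (Sum.inr ⟨b, hb⟩))

end SCF
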