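import Pool.Agent.SCF.Targets

set_option autoImplicit false

namespace SCF

open Module Filter Topology

theorem mulVec_lim {n : ℕ} (P : ℕ → Matrix (Fin n) (Fin n) ℂ) (P0 : Matrix (Fin n) (Fin n) ℂ)
    (x : ℕ → Fin n → ℂ) (x0 : Fin n → ℂ) (hP : Tendsto P atTop (𝓝 P0))
    (hx : Tendsto x atTop (𝓝 x0)) :
    Tendsto (fun ν => (P ν).mulVec (x ν)) atTop (𝓝 (P0.mulVec x0)) := by
  rw [tendsto_pi_nhds]
  intro a
  simp only [Matrix.mulVec, dotProduct]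
  refine tendsto_finsetSum _ fun b _ => ?_
  have e1 : Tendsto (fun ν => P ν a b) atTop (𝓝 (P0 a b)) :=
    (tendsto_pi_nhds.mp ((tendsto_pi_nhds.mp hP) a)) b
  have e2 : Tendsto (fun ν => x ν b) atTop (𝓝 (x0 b)) := (tendsto_pi_nhds.mp hx) b
  exact e1.mul e2

theorem p_BND (h1 : T_PR) (h2 : T_CPT) : T_BND := by
  intro k n r lam G0 hI hyp
  by_contra hcon
  push Not at hcon
  -- a bad sequence
  have hseq : ∀ ν : ℕ, ∃ (G : Fl n r) (H : Submodule ℂ (Fin n → ℂ)) (v : Fin n → ℂ),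
      dist G G0 < 1 / ((ν : ℝ) + 1) ∧ H ∈ Sch k lam G ∧ v ∈ H ∧ ‖v‖ = 1 ∧
      ∀ c : Fin n, (c : ℕ) < k → ‖v c‖ * ((ν : ℝ) + 1) ≤ 1 := by
    intro ν
    have hpos : (0 : ℝ) < (ν : ℝ) + 1 := by positivity
    have h3 := hcon ((ν : ℝ) + 1) hpos
    have h4 : ∀ᶠ G in 𝓝 G0, dist G G0 < 1 / ((ν : ℝ) + 1) :=
      Metric.ball_mem_nhds G0 (by positivity)
    obtain ⟨G, ⟨H, hH, v, hv, R, hR, hc, b, hb⟩, hG⟩ := (h3.and_eventually h4).exists
    have hvb : ‖v b‖ ≤ ‖v‖ := norm_le_pi_norm v b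
    have hv0 : 0 < ‖v‖ := lt_of_le_of_lt (by positivity) (hb.trans_le hvb)
    refine ⟨G, H, ((‖v‖⁻¹ : ℝ) : ℂ) • v, hG, hH, H.smul_mem _ hv, ?_, ?_⟩
    · rw [norm_smul, Complex.norm_real, norm_inv, norm_norm, inv_mul_cancel₀ hv0.ne']
    · intro c hck
      rw [Pi.smul_apply, norm_smul, Complex.norm_real, norm_inv, norm_norm]
      have := hc c hck
      rw [mul_assoc, inv_mul_le_iff₀ hv0, mul_one]
      calc ‖v c‖ * ((ν : ℝ) + 1) ≤ R * ((ν : ℝ) + 1) := by gcongr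
        _ = ((ν : ℝ) + 1) * R := mul_comm _ _
        _ ≤ ‖v‖ := (hb.trans_le hvb).le
  choose G H v hG hH hv hn hc using hseq
  have hGt : Tendsto G atTop (𝓝 G0) := by
    rw [tendsto_iff_dist_tendsto_zero]
    exact squeeze_zero (fun _ => dist_nonneg) (fun ν => (hG ν).le)
      tendsto_one_div_add_atTop_nhds_zero_nat
  obtain ⟨H0, hH0, φ, hφ, hlim⟩ := h2 k n r lam G G0 hI hGt H hH
  have hcomp : IsCompact (Metric.sphere (0 : Fin n → ℂ) 1) := isCompact_sphere 0 1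
  obtain ⟨w, hw, ψ, hψ, hwlim⟩ := hcomp.tendsto_subseq (x := fun ν => v (φ ν))
    (fun ν => by simp [hn])
  have hw1 : ‖w‖ = 1 := by simpa using hw
  have hwH : w ∈ H0 := by
    rw [(h1 n H0).1.mem]
    have e0 : Tendsto (fun ν => pr (H (φ (ψ ν)))) atTop (𝓝 (pr H0)) :=
      hlim.comp hψ.tendsto_atTop
    have e0' : Tendsto (fun ν => v (φ (ψ ν))) atTop (𝓝 w) := hwlim
    have e1 := mulVec_lim _ _ _ _ e0 e0'
    have e2 : (fun ν => (pr (H (φ (ψ ν)))).mulVec (v (φ (ψ ν)))) = fun ν => v (φ (ψ ν)) := by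
      funext ν
      exact ((h1 n _).1.mem _).mp (hv _)
    rw [e2] at e1
    exact tendsto_nhds_unique e1 hwlim
  have hw0 : w = 0 := by
    apply hyp H0 hH0 w hwH
    intro c hck
    have e1 : Tendsto (fun ν => ‖v (φ (ψ ν)) c‖) atTop (𝓝 ‖w c‖) :=
      ((continuous_apply c).tendsto w |>.comp hwlim).norm
    have e2 : Tendsto (fun ν => ‖v (φ (ψ ν)) c‖) atTop (𝓝 0) := by
      have e3 : Tendsto (fun ν : ℕ => 1 / (((φ (ψ ν) : ℕ) : ℝ) + 1)) atTop (𝓝 0) :=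
        tendsto_one_div_add_atTop_nhds_zero_nat.comp
          (hφ.tendsto_atTop.comp hψ.tendsto_atTop)
      refine squeeze_zero (fun _ => norm_nonneg _) (fun ν => ?_) e3
      rw [le_div_iff₀ (by positivity)]
      exact hc _ c hck
    have := tendsto_nhds_unique e1 e2
    exact norm_eq_zero.mp this
  rw [hw0, norm_zero] at hw1
  exact zero_ne_one hw1

end SCF
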