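import Pool.Agent.SCF.Targets

set_option autoImplicit false

namespace SCF

open Module Filter Topology Matrix

namespace CARD_

/-- the common part of CARD and PERS: neighbourhoods `U H` of the solutions with at most one nearby
solution in each, covering all nearby solutions -/
theorem main (h1 : T_FIN) (h2 : T_NEAR) (h3 : T_UNI) (k n r : ℕ) (lam : Fin r → Fin k → ℕ)
    (hS : SP k n r lam) (G0 : Fl n r) (hI : Ind G0) (hg : Good k lam G0)
    (V : Submodule ℂ (Fin n → ℂ) → Set (Matrix (Fin n) (Fin n) ℂ))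
    (hV : ∀ H ∈ Sch k lam G0, V H ∈ 𝓝 (pr H)) :
    ∀ᶠ G in 𝓝 G0, ∃ f : Submodule ℂ (Fin n → ℂ) → Submodule ℂ (Fin n → ℂ),
      (∀ H ∈ Sch k lam G, f H ∈ Sch k lam G0 ∧ pr H ∈ V (f H)) ∧
      Set.InjOn f (Sch k lam G) := by
  classical
  have hfin := h1 k n r lam hS G0 hI hg
  have hU : ∀ H : Submodule ℂ (Fin n → ℂ), ∃ U : Set (Matrix (Fin n) (Fin n) ℂ),
      H ∈ Sch k lam G0 → IsOpen U ∧ pr H ∈ U ∧ U ⊆ V H ∧
      ∀ᶠ G in 𝓝 G0, ∀ K ∈ Sch k lam G, ∀ K' ∈ Sch k lam G, pr K ∈ U → pr K' ∈ U → K = K' := by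
    intro H
    by_cases hH : H ∈ Sch k lam G0
    · obtain ⟨U, hU, hU2⟩ := h3 k n r lam hS G0 hI hg H hH
      obtain ⟨W, hW1, hW2, hW3⟩ := mem_nhds_iff.mp (inter_mem hU (hV H hH))
      refine ⟨W, fun _ => ⟨hW2, hW3, fun x hx => (hW1 hx).2, ?_⟩⟩
      filter_upwards [hU2] with G hG K hK K' hK' h h'
      exact hG K hK K' hK' (hW1 h).1 (hW1 h').1
    · exact ⟨Set.univ, fun h => absurd h hH⟩
  choose U hU using hU
  have hcov := h2 k n r lam G0 hI (⋃ H ∈ Sch k lam G0, U H)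
    (isOpen_biUnion fun H hH => (hU H hH).1)
    (fun H hH => Set.mem_biUnion hH (hU H hH).2.1)
  have huni : ∀ᶠ G in 𝓝 G0, ∀ H ∈ Sch k lam G0, ∀ K ∈ Sch k lam G, ∀ K' ∈ Sch k lam G,
      pr K ∈ U H → pr K' ∈ U H → K = K' := by
    rw [Filter.eventually_all_finite hfin]
    intro H hH
    exact (hU H hH).2.2.2
  filter_upwards [hcov, huni] with G hG1 hG2
  have h4 : ∀ H : Submodule ℂ (Fin n → ℂ), ∃ H0 : Submodule ℂ (Fin n → ℂ),
      H ∈ Sch k lam G → H0 ∈ Sch k lam G0 ∧ pr H ∈ U H0 := by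
    intro H
    by_cases hH : H ∈ Sch k lam G
    · have := hG1 H hH
      simp only [Set.mem_iUnion] at this
      obtain ⟨H0, hH0, h5⟩ := this
      exact ⟨H0, fun _ => ⟨hH0, h5⟩⟩
    · exact ⟨H, fun h => absurd h hH⟩
  choose f hf using h4
  refine ⟨f, fun H hH => ⟨(hf H hH).1, (hU _ (hf H hH).1).2.2.1 (hf H hH).2⟩, ?_⟩
  intro H hH H' hH' hff
  refine hG2 (f H) (hf H hH).1 H hH H' hH' (hf H hH).2 ?_
  rw [hff]
  exact (hf H' hH').2

end CARD_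

theorem p_CARD (h1 : T_FIN) (h2 : T_NEAR) (h3 : T_UNI) : T_CARD := by
  intro k n r lam hS G0 hI hg
  have hfin := h1 k n r lam hS G0 hI hg
  filter_upwards [CARD_.main h1 h2 h3 k n r lam hS G0 hI hg (fun _ => Set.univ)
    (fun H _ => univ_mem)] with G hG
  obtain ⟨f, hf1, hf2⟩ := hG
  have hmaps : Set.MapsTo f (Sch k lam G) (Sch k lam G0) := fun H hH => (hf1 H hH).1
  refine ⟨Set.Finite.of_injOn hmaps hf2 hfin, ?_⟩
  exact Set.ncard_le_ncard_of_injOn f hmaps hf2 hfin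

end SCF
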