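import Pool.Agent.SCF.TargetsTop

/-!
# Project SCF (MP_0c25eb_ag, S00015): common complement of finitely many subspaces
-/

set_option autoImplicit false

namespace SCF

open Module

namespace CCP_

/-- a common complement of dimension `l` -/
theorem compl {n k : ℕ} (S : Set (Submodule ℂ (Fin n → ℂ))) (hS : S.Finite)
    (hk : ∀ H ∈ S, finrank ℂ H = k) (l : ℕ) (hl : k + l ≤ n) :
    ∃ C : Submodule ℂ (Fin n → ℂ), finrank ℂ C = l ∧ ∀ H ∈ S, Disjoint H C := by
  classical
  induction l with
  | zero => exact ⟨⊥, finrank_bot ℂ _, fun H _ => disjoint_bot_right⟩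
  | succ l ih =>
    obtain ⟨C, hC, hdis⟩ := ih (by omega)
    set T : Finset (Submodule ℂ (Fin n → ℂ)) := insert C (hS.toFinset.image fun H => H ⊔ C) with hT
    have htop : (⊤ : Submodule ℂ (Fin n → ℂ)) ∉ T := by
      intro h
      have hn : finrank ℂ (⊤ : Submodule ℂ (Fin n → ℂ)) = n := by
        rw [finrank_top, Module.finrank_fin_fun]
      rcases Finset.mem_insert.1 h with h | h
      · rw [h, hC] at hn
        omega
      · obtain ⟨H, hH, hHC⟩ := Finset.mem_image.1 h
        have h1 := Submodule.finrank_sup_add_finrank_inf_eq H C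
        rw [hHC, hn, (hdis H (hS.mem_toFinset.1 hH)).eq_bot, finrank_bot, hC, hk H (hS.mem_toFinset.1 hH)] at h1
        omega
    have hne := Subspace.biUnion_ne_univ_of_top_notMem (k := ℂ) (s := T) htop
    obtain ⟨w, hw⟩ := (Set.ne_univ_iff_exists_notMem _).1 hne
    have hw' : ∀ p ∈ T, w ∉ p := by
      intro p hp hwp
      exact hw (Set.mem_biUnion hp hwp)
    have hwC : w ∉ C := hw' C (Finset.mem_insert_self _ _)
    refine ⟨C ⊔ Submodule.span ℂ {w}, ?_, ?_⟩
    · have hw0 : w ≠ 0 := by
        intro h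
        exact hwC (h ▸ C.zero_mem)
      have hd : C ⊓ Submodule.span ℂ {w} = ⊥ := by
        rw [← disjoint_iff, Submodule.disjoint_span_singleton' hw0]
        exact hwC
      have h1 := Submodule.finrank_sup_add_finrank_inf_eq C (Submodule.span ℂ {w})
      rw [hd, finrank_bot, hC, finrank_span_singleton hw0] at h1
      exact h1
    · intro H hH
      rw [Submodule.disjoint_def]
      intro x hx hxC
      obtain ⟨c, hc, y, hy, rfl⟩ := Submodule.mem_sup.1 hxC
      obtain ⟨a, rfl⟩ := Submodule.mem_span_singleton.1 hy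
      by_cases ha : a = 0
      · subst ha
        rw [zero_smul, add_zero] at hx ⊢
        exact (Submodule.disjoint_def.1 (hdis H hH)) c hx hc
      · exfalso
        have h1 : w ∉ H ⊔ C := hw' _ (Finset.mem_insert_of_mem (Finset.mem_image_of_mem _ (hS.mem_toFinset.2 hH)))
        apply h1
        have h2 : w = a⁻¹ • ((c + a • w) - c) := by
          rw [add_sub_cancel_left, smul_smul, inv_mul_cancel₀ ha, one_smul]
        rw [h2]
        exact Submodule.smul_mem _ _ (Submodule.sub_mem _ (Submodule.mem_sup_left hx) (Submodule.mem_sup_right hc))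

end CCP_

/-- T_CCP -/
theorem p_CCP : T_CCP := by
  classical
  intro k n S hS hk
  by_cases hkn : k ≤ n
  swap
  · refine ⟨LinearEquiv.refl ℂ _, fun H hH => ?_⟩
    have h1 := Submodule.finrank_le H
    rw [hk H hH, Module.finrank_fin_fun] at h1
    exact absurd h1 hkn
  obtain ⟨C, hC, hdis⟩ := CCP_.compl S hS hk (n - k) (by omega)
  obtain ⟨C', hcompl⟩ := Submodule.exists_isCompl C
  have hC' : finrank ℂ C' = k := by
    have h1 := Submodule.finrank_add_eq_of_isCompl hcompl
    rw [hC, Module.finrank_fin_fun] at h1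
    omega
  let b1 : Basis (Fin k) ℂ C' := finBasisOfFinrankEq ℂ C' hC'
  let b2 : Basis (Fin (n - k)) ℂ C := finBasisOfFinrankEq ℂ C hC
  let e := Submodule.prodEquivOfIsCompl C' C hcompl.symm
  let b : Basis (Fin k ⊕ Fin (n - k)) ℂ (Fin n → ℂ) := (b1.prod b2).map e
  have hnk : k + (n - k) = n := by omega
  let ι : Fin k ⊕ Fin (n - k) ≃ Fin n := finSumFinEquiv.trans (finCongr hnk)
  let b' := b.reindex ι
  have hb' : ∀ c : Fin n, k ≤ (c : ℕ) → b' c ∈ C := by
    intro c hc
    have h1 : b' c = b (ι.symm c) := Module.Basis.reindex_apply b ι c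
    rw [h1]
    obtain ⟨s, hs⟩ : ∃ s, ι s = c := ⟨ι.symm c, ι.apply_symm_apply c⟩
    have h2 : ι.symm c = s := by rw [← hs, ι.symm_apply_apply]
    rw [h2]
    rcases s with a | j
    · exfalso
      rw [← hs] at hc
      have h3 : ((ι (Sum.inl a) : Fin n) : ℕ) = a := by
        simp [ι]
      have := a.2
      omega
    · have h4 : b (Sum.inr j) = (b2 j : Fin n → ℂ) := by
        have h5 : b (Sum.inr j) = e (0, b2 j) := by
          simp [b]
        rw [h5]
        have h6 := Submodule.coe_prodEquivOfIsCompl' C' C hcompl.symm (0, b2 j)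
        rw [h6]
        simp
      rw [h4]
      exact (b2 j).2
  refine ⟨b'.equivFun, fun H hH v hv hv0 => ?_⟩
  obtain ⟨h, hh, rfl⟩ := Submodule.mem_map.1 hv
  have h1 : h ∈ C := by
    rw [← b'.sum_equivFun h]
    refine Submodule.sum_mem _ fun c _ => ?_
    by_cases hc : (c : ℕ) < k
    · have h2 : b'.equivFun h c = 0 := hv0 c hc
      rw [h2, zero_smul]
      exact C.zero_mem
    · exact Submodule.smul_mem _ _ (hb' c (not_lt.1 hc))
  have h2 : h = 0 := Submodule.disjoint_def.1 (hdis H hH) h hh h1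
  rw [h2, map_zero]

end SCF
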