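import Pool.Agent.SCF.Targets

/-!
# SCF: the key theorem (T_CORE, helper5)
-/

set_option autoImplicit false

namespace SCF

open ComplexConjugate

namespace CORE_

/-- a polynomial of degree less than `n` which vanishes on a half line is zero -/
theorem ev_zero {n : ℕ} (v : Fin n → ℂ) (s : ℝ)
    (h : ∀ η : ℝ, 0 < η → ev v (s - Complex.I * η) = 0) : v = 0 := by
  set P : Polynomial ℂ := ∑ b : Fin n, Polynomial.C (v b) * Polynomial.X ^ (b : ℕ) with hP
  have hev : ∀ z, P.eval z = ev v z := by
    intro z
    rw [hP, Polynomial.eval_finsetSum]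
    unfold ev
    refine Finset.sum_congr rfl fun b _ => ?_
    simp
  have h0 : P = 0 := by
    apply Polynomial.eq_zero_of_infinite_isRoot
    refine Set.Infinite.mono (s := (fun η : ℝ => (s : ℂ) - Complex.I * η) '' Set.Ioi 0) ?_ ?_
    · rintro _ ⟨η, hη, rfl⟩
      change P.eval _ = 0
      rw [hev]
      exact h η hη
    · apply Set.Infinite.image
      · intro x _ y _ hxy
        have : Complex.I * (x : ℂ) = Complex.I * y := by
          have := sub_right_injective hxy
          exact this
        have := mul_left_cancel₀ Complex.I_ne_zero this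
        exact_mod_cast this
      · exact Set.Ioi_infinite 0
  funext b
  have h1 : P.coeff b = v b := by
    rw [hP, Polynomial.finsetSum_coeff]
    rw [Finset.sum_eq_single b]
    · simp
    · intro c _ hc
      rw [Polynomial.coeff_C_mul_X_pow, if_neg]
      intro h
      exact hc (Fin.ext h.symm)
    · intro h
      exact absurd (Finset.mem_univ b) h
  rw [← h1, h0]
  simp

end CORE_

theorem p_CORE (h1 : T_PSD) (h2 : T_ID) (h3 : T_MONO) : T_CORE := by
  intro ι _ n r t ht blk hblk ν ha hb hm
  set c : ι → ι → ℂ := fun p q => ev (ν p) (t q) * conj (ev (ν q) (t p)) with hc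
  have hcc : ∀ p q, conj (c p q) = c q p := by
    intro p q
    simp only [hc, map_mul, Complex.conj_conj]
    ring
  have hb1 : ∀ p j, ∑ q with blk q = j, c p q = 0 := hb
  have hb2 : ∀ q j, ∑ p with blk p = j, c p q = 0 := by
    intro q j
    have := congrArg conj (hb1 q j)
    rw [map_sum, map_zero] at this
    rw [← this]
    exact Finset.sum_congr rfl fun p _ => (hcc q p).symm
  have hsplit : ∀ f : ι → ℂ, ∑ q, f q = ∑ j, ∑ q with blk q = j, f q := by
    intro f
    exact (Finset.sum_fiberwise Finset.univ blk f).symm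
  -- sum of `c`
  have hs0 : ∑ p, ∑ q, c p q = 0 := by
    refine Finset.sum_eq_zero fun p _ => ?_
    rw [hsplit]
    exact Finset.sum_eq_zero fun j _ => hb1 p j
  -- sum of `c |t p - t q|`
  have hs1 : ∑ p, ∑ q, c p q * ((|t p - t q| : ℝ) : ℂ) = 0 := by
    have hsgn : ∀ i j : Fin r, ∃ s : ℂ, ∀ p q, blk p = i → blk q = j →
        c p q * ((|t p - t q| : ℝ) : ℂ) = s * (c p q * t p - c p q * t q) := by
      intro i j
      by_cases hij : i = j
      · refine ⟨0, fun p q hp hq => ?_⟩
        have : c p q = 0 := ha p q (by rw [hp, hq, hij])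
        rw [this]
        ring
      · rcases hblk i j hij with h | h
        · refine ⟨-1, fun p q hp hq => ?_⟩
          rw [abs_of_neg (sub_neg.2 (h p q hp hq))]
          push_cast
          ring
        · refine ⟨1, fun p q hp hq => ?_⟩
          rw [abs_of_pos (sub_pos.2 (h p q hp hq))]
          push_cast
          ring
    rw [hsplit]
    refine Finset.sum_eq_zero fun i _ => ?_
    have h4 : ∀ p, ∑ q, c p q * ((|t p - t q| : ℝ) : ℂ) =
        ∑ j, ∑ q with blk q = j, c p q * ((|t p - t q| : ℝ) : ℂ) := fun p => hsplit _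
    rw [Finset.sum_congr rfl fun p _ => h4 p, Finset.sum_comm]
    refine Finset.sum_eq_zero fun j _ => ?_
    obtain ⟨s, hs⟩ := hsgn i j
    have h5 : ∑ p with blk p = i, ∑ q with blk q = j, c p q * ((|t p - t q| : ℝ) : ℂ) =
        ∑ p with blk p = i, ∑ q with blk q = j, s * (c p q * t p - c p q * t q) := by
      refine Finset.sum_congr rfl fun p hp => Finset.sum_congr rfl fun q hq => ?_
      exact hs p q (Finset.mem_filter.1 hp).2 (Finset.mem_filter.1 hq).2
    rw [h5]
    simp only [← Finset.mul_sum, Finset.sum_sub_distrib]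
    have h6 : ∑ p with blk p = i, ∑ q with blk q = j, c p q * (t p : ℂ) = 0 := by
      refine Finset.sum_eq_zero fun p _ => ?_
      rw [← Finset.sum_mul, hb1, zero_mul]
    have h7 : ∑ p with blk p = i, ∑ q with blk q = j, c p q * (t q : ℂ) = 0 := by
      rw [Finset.sum_comm]
      refine Finset.sum_eq_zero fun q _ => ?_
      rw [← Finset.sum_mul, hb2, zero_mul]
    rw [h6, h7, sub_zero, mul_zero]
  have htne : ∀ (η : ℝ), η ≠ 0 → ∀ x : ℝ, (η : ℂ) + Complex.I * x ≠ 0 := by
    intro η hη x h
    have := congrArg Complex.re h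
    simp at this
    exact hη this
  -- the two positive sums
  have hpos1 : ∀ η : ℝ, 0 < η → 0 ≤ (∑ p, ∑ q, c p q / (η + Complex.I * (t p - t q))).re := by
    intro η hη
    have := (h1 ι t ht (fun p => ev (ν p) (t p - Complex.I * η)) η hη).1
    rw [← h2 ι n t ν hm η hη.ne'] at this
    exact this
  have hpos2 : ∀ η : ℝ, 0 < η → 0 ≤ (∑ p, ∑ q, c p q / (η - Complex.I * (t p - t q))).re := by
    intro η hη
    have ht' : Function.Injective fun p => -t p := fun p q h => ht (neg_injective h)
    have h4 := (h1 ι (fun p => -t p) ht' (fun p => ev (ν p) (t p + Complex.I * η)) η hη).1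
    have h5 := h2 ι n t ν hm (-η) (neg_ne_zero.2 hη.ne')
    have h6 : ∑ p, ∑ q, c p q / (η - Complex.I * (t p - t q)) =
        ∑ p, ∑ q, ev (ν p) (t p + Complex.I * η) * conj (ev (ν q) (t q + Complex.I * η)) /
          (η + Complex.I * (((-t p : ℝ) : ℂ) - ((-t q : ℝ) : ℂ))) := by
      have e1 : ∀ p q : ι, ((((-η : ℝ)) : ℂ) + Complex.I * (t p - t q)) =
          -(η - Complex.I * (t p - t q)) := by
        intro p q
        push_cast
        ring
      have e2 : ∀ p q : ι, ((η : ℂ) + Complex.I * (((-t p : ℝ) : ℂ) - ((-t q : ℝ) : ℂ))) =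
          η - Complex.I * (t p - t q) := by
        intro p q
        push_cast
        ring
      have e3 : ∀ p : ι, (t p : ℂ) - Complex.I * ((-η : ℝ) : ℂ) = t p + Complex.I * η := by
        intro p
        push_cast
        ring
      simp only [e1, e3, div_neg, Finset.sum_neg_distrib] at h5
      simp only [e2]
      exact neg_injective h5
    rw [h6]
    exact h4
  have hsum : ∀ η : ℝ, 0 < η →
      (∑ p, ∑ q, c p q / (η + Complex.I * (t p - t q))).re +
      (∑ p, ∑ q, c p q / (η - Complex.I * (t p - t q))).re =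
      2 / η * ∑ m : ι × ι, (c m.1 m.2).re * η ^ 2 / (η ^ 2 + |t m.1 - t m.2| ^ 2) := by
    intro η hη
    rw [← Complex.add_re, ← Finset.sum_add_distrib, Finset.mul_sum, Fintype.sum_prod_type,
      Complex.re_sum]
    refine Finset.sum_congr rfl fun p _ => ?_
    rw [← Finset.sum_add_distrib, Complex.re_sum]
    refine Finset.sum_congr rfl fun q _ => ?_
    have e1 : c p q / (η + Complex.I * (t p - t q)) + c p q / (η - Complex.I * (t p - t q)) =
        c p q * ((2 * η / (η ^ 2 + (t p - t q) ^ 2) : ℝ) : ℂ) := by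
      have n1 : (η : ℂ) + Complex.I * (t p - t q) ≠ 0 := by
        have := htne η hη.ne' (t p - t q)
        push_cast at this
        exact this
      have n2 : (η : ℂ) - Complex.I * (t p - t q) ≠ 0 := by
        have := htne η hη.ne' (t q - t p)
        push_cast at this
        intro h
        apply this
        rw [← h]
        ring
      have n3 : ((η : ℂ) ^ 2 + (t p - t q) ^ 2) ≠ 0 := by
        have : ((η : ℂ) ^ 2 + (t p - t q) ^ 2) =
            (η + Complex.I * (t p - t q)) * (η - Complex.I * (t p - t q)) := by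
          have hI : Complex.I ^ 2 = -1 := Complex.I_sq
          linear_combination ((t p : ℂ) - t q) ^ 2 * hI
        rw [this]
        exact mul_ne_zero n1 n2
      push_cast
      rw [div_add_div _ _ n1 n2, mul_div_assoc', div_eq_div_iff (mul_ne_zero n1 n2) n3]
      have hI : Complex.I ^ 2 = -1 := Complex.I_sq
      linear_combination (2 * c p q * η * ((t p : ℂ) - t q) ^ 2) * hI
    rw [e1, Complex.re_mul_ofReal, sq_abs]
    field_simp
  have hη0 : ∀ η : ℝ, 0 < η → ∑ m : ι × ι, (c m.1 m.2).re * η ^ 2 /
      (η ^ 2 + |t m.1 - t m.2| ^ 2) = 0 := by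
    refine h3 (ι × ι) (fun m => (c m.1 m.2).re) (fun m => |t m.1 - t m.2|)
      (fun m => abs_nonneg _) ?_ ?_ ?_
    · rw [Fintype.sum_prod_type]
      have := congrArg Complex.re hs0
      simpa using this
    · rw [Fintype.sum_prod_type]
      have := congrArg Complex.re hs1
      simp only [Complex.re_sum, Complex.re_mul_ofReal, Complex.zero_re] at this
      exact this
    · intro η hη
      have h4 := hsum η hη
      have h5 := hpos1 η hη
      have h6 := hpos2 η hη
      have h7 : 0 ≤ 2 / η * ∑ m : ι × ι, (c m.1 m.2).re * η ^ 2 /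
          (η ^ 2 + |t m.1 - t m.2| ^ 2) := by
        rw [← h4]
        linarith
      exact nonneg_of_mul_nonneg_right h7 (by positivity)
  have hfin : ∀ η : ℝ, 0 < η → ∀ p, ev (ν p) (t p - Complex.I * η) = 0 := by
    intro η hη p
    have h4 := hsum η hη
    rw [hη0 η hη, mul_zero] at h4
    have h5 := hpos1 η hη
    have h6 := hpos2 η hη
    have h7 : (∑ p, ∑ q, c p q / (η + Complex.I * (t p - t q))).re = 0 := by linarith
    have h8 := (h1 ι t ht (fun p => ev (ν p) (t p - Complex.I * η)) η hη).2
    rw [← h2 ι n t ν hm η hη.ne'] at h8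
    exact congrFun (h8 h7) p
  funext p
  exact CORE_.ev_zero (ν p) (t p) fun η hη => hfin η hη p

end SCF
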