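import Pool.Agent.SCF.Targets

/-!
# Project SCF, job CPT: compactness of the set of solutions
-/

set_option autoImplicit false

namespace SCF

open Module Filter Topology

/-- the set of matrices with entries of norm at most one is compact -/
theorem CPT_compact (n : ℕ) :
    IsCompact {P : Matrix (Fin n) (Fin n) ℂ | ∀ a b, ‖P a b‖ ≤ 1} := by
  have h : IsCompact (Set.pi Set.univ
      (fun _ : Fin n => Set.pi Set.univ (fun _ : Fin n => Metric.closedBall (0 : ℂ) 1))) :=
    isCompact_univ_pi (fun _ => isCompact_univ_pi (fun _ => isCompact_closedBall _ _))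
  have e : {P : Matrix (Fin n) (Fin n) ℂ | ∀ a b, ‖P a b‖ ≤ 1} =
      (Set.pi Set.univ
      (fun _ : Fin n => Set.pi Set.univ (fun _ : Fin n => Metric.closedBall (0 : ℂ) 1)) :
        Set (Fin n → Fin n → ℂ)) := by
    ext P
    constructor
    · intro hP a _ b _
      simpa using hP a b
    · intro hP a b
      simpa using hP a trivial b trivial
  rw [e]
  exact h

/-- a sequence of orthogonal projection matrices has a convergent subsequence -/
theorem CPT_subseq (n : ℕ) (P : ℕ → Matrix (Fin n) (Fin n) ℂ) (hP : ∀ ν a b, ‖P ν a b‖ ≤ 1) :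
    ∃ Q : Matrix (Fin n) (Fin n) ℂ, ∃ φ : ℕ → ℕ, StrictMono φ ∧
      Tendsto (fun ν => P (φ ν)) atTop (𝓝 Q) := by
  have : FirstCountableTopology (Matrix (Fin n) (Fin n) ℂ) :=
    inferInstanceAs (FirstCountableTopology (Fin n → Fin n → ℂ))
  obtain ⟨Q, _, φ, hφ, h⟩ := (CPT_compact n).tendsto_subseq (x := P) (fun ν => hP ν)
  exact ⟨Q, φ, hφ, h⟩

/-- the fixed space of a matrix -/
def CPT_fix {n : ℕ} (P : Matrix (Fin n) (Fin n) ℂ) : Submodule ℂ (Fin n → ℂ) where
  carrier := {v | P.mulVec v = v}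
  add_mem' := by
    intro v w hv hw
    show P.mulVec (v + w) = v + w
    rw [Matrix.mulVec_add]
    have h1 : P.mulVec v = v := hv
    have h2 : P.mulVec w = w := hw
    rw [h1, h2]
  zero_mem' := by
    show P.mulVec 0 = 0
    exact Matrix.mulVec_zero P
  smul_mem' := by
    intro c v hv
    show P.mulVec (c • v) = c • v
    have h1 : P.mulVec v = v := hv
    rw [Matrix.mulVec_smul, h1]

theorem CPT_mem_fix {n : ℕ} (P : Matrix (Fin n) (Fin n) ℂ) (v : Fin n → ℂ) :
    v ∈ CPT_fix P ↔ P.mulVec v = v := Iff.rfl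

theorem CPT_isPr {n : ℕ} (P : Matrix (Fin n) (Fin n) ℂ) (h1 : P.conjTranspose = P)
    (h2 : P * P = P) : IsPr P (CPT_fix P) :=
  ⟨h1, h2, fun v => CPT_mem_fix P v⟩

theorem p_CPT (h1 : T_PR) (h2 : T_TRK) (h3 : T_LD) : T_CPT := by
  intro k n r lam G G0 hG0 hG H hH
  obtain ⟨Q, φ, hφ, hQ⟩ := CPT_subseq n (fun ν => pr (H ν)) (fun ν => (h1 n (H ν)).2.2)
  -- `Q` is hermitian
  have hQh : Q.conjTranspose = Q := by
    have hc : Tendsto (fun ν => (pr (H (φ ν))).conjTranspose) atTop (𝓝 Q.conjTranspose) :=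
      (Continuous.tendsto (by fun_prop : Continuous
        (fun M : Matrix (Fin n) (Fin n) ℂ => M.conjTranspose)) Q).comp hQ
    have e : (fun ν => (pr (H (φ ν))).conjTranspose) = (fun ν => pr (H (φ ν))) := by
      funext ν
      exact (h1 n (H (φ ν))).1.herm
    rw [e] at hc
    exact tendsto_nhds_unique hc hQ
  have hQi : Q * Q = Q := by
    have hc : Tendsto (fun ν => pr (H (φ ν)) * pr (H (φ ν))) atTop (𝓝 (Q * Q)) :=
      (Continuous.tendsto (by fun_prop : Continuous
        (fun M : Matrix (Fin n) (Fin n) ℂ => M * M)) Q).comp hQ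
    have e : (fun ν => pr (H (φ ν)) * pr (H (φ ν))) = (fun ν => pr (H (φ ν))) := by
      funext ν
      exact (h1 n (H (φ ν))).1.idem
    rw [e] at hc
    exact tendsto_nhds_unique hc hQ
  have hPr : Q = pr (CPT_fix Q) := (h1 n (CPT_fix Q)).2.1 Q (CPT_isPr Q hQh hQi)
  have hlim : Tendsto (fun ν => pr (H (φ ν))) atTop (𝓝 (pr (CPT_fix Q))) := by
    rw [← hPr]; exact hQ
  refine ⟨CPT_fix Q, ⟨?_, ?_⟩, φ, hφ, hlim⟩
  · -- the dimension
    have ht : Tendsto (fun ν => Matrix.trace (pr (H (φ ν)))) atTop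
        (𝓝 (Matrix.trace (pr (CPT_fix Q)))) :=
      (Continuous.tendsto (by fun_prop : Continuous
        (fun M : Matrix (Fin n) (Fin n) ℂ => Matrix.trace M)) _).comp hlim
    have e : (fun ν => Matrix.trace (pr (H (φ ν)))) = (fun _ => (k : ℂ)) := by
      funext ν
      rw [h2 n (H (φ ν)), (hH (φ ν)).1]
    rw [e, h2] at ht
    have := tendsto_nhds_unique ht tendsto_const_nhds
    exact_mod_cast this
  · intro j i
    have hGj : Tendsto (fun ν => G (φ ν) j) atTop (𝓝 (G0 j)) :=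
      (tendsto_pi_nhds.1 (hG.comp hφ.tendsto_atTop) j)
    exact h3 n (fun ν => G (φ ν) j) (G0 j) (hG0 j) hGj (fun ν => H (φ ν)) (CPT_fix Q) hlim
      (n - k + (i : ℕ) + 1 - lam j i) ((i : ℕ) + 1) (fun ν => (hH (φ ν)).2 j i)

end SCF
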