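import Pool.Agent.SCF.TargetsTop

set_option autoImplicit false

namespace SCF

/-- The hypotheses are `T_FTB`, `T_FTF`, `T_FT4` of `TargetsAut`, unfolded (so that this file does not
depend on `TargetsAut`): `p_DET h1 h2 h3` typechecks for `h1 : T_FTB`, `h2 : T_FTF`, `h3 : T_FT4`. -/
theorem p_DET
    (h1 : ∀ (ι : Type) [Fintype ι] (y : ι → ℂ) (z : ℂ) (R : ℝ),
      (∀ σ : ℂ ≃+* ℂ, (∀ i, σ (y i) = y i) → ‖σ z‖ ≤ R) →
      IsAlgebraic (IntermediateField.adjoin ℚ (Set.range y)) z)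
    (h2 : ∀ (ι : Type) [Fintype ι] (y : ι → ℂ) (z : ℂ),
      IsAlgebraic (IntermediateField.adjoin ℚ (Set.range y)) z →
      {w : ℂ | ∃ σ : ℂ ≃+* ℂ, (∀ i, σ (y i) = y i) ∧ w = σ z}.Finite)
    (h3 : ∀ (ι κ : Type) [Fintype ι] [Fintype κ] (x : ι → ℂ) (y : κ → ℂ),
      AlgebraicIndependent ℚ x →
      (∀ i, IsAlgebraic (IntermediateField.adjoin ℚ (Set.range y)) (x i)) →
      Fintype.card κ ≤ Fintype.card ι → AlgebraicIndependent ℚ y) : T_DET := by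
  intro ι κ μ _ _ _ x y w R hw hx hxi hcard
  refine h3 ι κ x y hxi ?_ hcard
  intro i
  have f1 : ∀ m, {v : ℂ | ∃ σ : ℂ ≃+* ℂ, (∀ i, σ (y i) = y i) ∧ v = σ (w m)}.Finite :=
    fun m => h2 κ y (w m) (h1 κ y (w m) R (fun σ hσ => hw σ hσ m))
  have f2 := Set.Finite.pi' f1
  have f3 : {v : μ → ℂ | ∃ σ : ℂ ≃+* ℂ, (∀ i, σ (y i) = y i) ∧ v = fun m => σ (w m)}.Finite := by
    refine f2.subset ?_
    rintro v ⟨σ, hσ, rfl⟩ m
    exact ⟨σ, hσ, rfl⟩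
  classical
  let g : (μ → ℂ) → ℂ := fun v =>
    if h : ∃ σ : ℂ ≃+* ℂ, (∀ i, σ (y i) = y i) ∧ v = fun m => σ (w m) then h.choose (x i) else 0
  have f4 : {v : ℂ | ∃ σ : ℂ ≃+* ℂ, (∀ i, σ (y i) = y i) ∧ v = σ (x i)}.Finite := by
    refine (f3.image g).subset ?_
    rintro v ⟨σ, hσ, rfl⟩
    have h : ∃ τ : ℂ ≃+* ℂ, (∀ i, τ (y i) = y i) ∧ (fun m => σ (w m)) = fun m => τ (w m) :=
      ⟨σ, hσ, rfl⟩
    refine ⟨fun m => σ (w m), ⟨σ, hσ, rfl⟩, ?_⟩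
    have e : g (fun m => σ (w m)) = h.choose (x i) := dif_pos h
    rw [e]
    obtain ⟨c1, c2⟩ := h.choose_spec
    generalize h.choose = τ at c1 c2
    have k := hx (σ.trans τ.symm) (fun i => by
      rw [RingEquiv.trans_apply, hσ i]
      exact τ.symm_apply_eq.2 (c1 i).symm) (fun m => by
      rw [RingEquiv.trans_apply, congrFun c2 m]
      exact τ.symm_apply_apply _) i
    rw [RingEquiv.trans_apply, RingEquiv.symm_apply_eq] at k
    exact k.symm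
  obtain ⟨R', hR'⟩ := f4.isBounded.exists_norm_le
  exact h1 κ y (x i) R' (fun σ hσ => hR' _ ⟨σ, hσ, rfl⟩)

end SCF
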