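import Pool.Agent.SCF.TargetsChart

set_option autoImplicit false

/-!
# SCF, target ELM: elimination
-/

namespace SCF

namespace ELM_

open Module

variable {k n r : ℕ}

/-- The span of the rows of `M` and of the vectors at the earlier other positions. -/
def Sb (lam : Fin r → Fin k → ℕ) (G : Fl n r) (M : Fin k → Fin n → ℂ) (j : Fin r) (i : Fin k) :
    Submodule ℂ (Fin n → ℂ) :=
  Submodule.span ℂ (Set.range M) ⊔ Submodule.span ℂ (G j '' {b : Fin n | Bf k n lam j i b})

theorem Sb_mono (lam : Fin r → Fin k → ℕ) (G : Fl n r) (M : Fin k → Fin n → ℂ) (j : Fin r)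
    {l i : Fin k} (h : pos k n lam j l ≤ pos k n lam j i) : Sb lam G M j l ≤ Sb lam G M j i := by
  unfold Sb
  refine sup_le_sup le_rfl (Submodule.span_mono (Set.image_mono ?_))
  intro b hb
  exact ⟨lt_of_lt_of_le hb.1 h, hb.2⟩

/-- All vectors at leading positions are in the span. -/
theorem mem_Sb (lam : Fin r → Fin k → ℕ) (G : Fl n r) (M : Fin k → Fin n → ℂ) (j : Fin r)
    (hmono : StrictMono (pos k n lam j)) (h : Fin k → Fin n → ℂ)
    (h1 : ∀ i, h i ∈ Submodule.span ℂ (Set.range M))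
    (h2 : ∀ (i : Fin k) (a : Fin n), (a : ℕ) = pos k n lam j i →
      h i - G j a ∈ Fs (G j) (pos k n lam j i)) :
    ∀ (N : ℕ) (i : Fin k), (i : ℕ) = N → ∀ a : Fin n, (a : ℕ) = pos k n lam j i →
      G j a ∈ Sb lam G M j i := by
  intro N
  induction N using Nat.strong_induction_on with
  | _ N ih =>
    intro i hi a ha
    have hF : Fs (G j) (pos k n lam j i) ≤ Sb lam G M j i := by
      unfold Fs
      rw [Submodule.span_le]
      rintro _ ⟨b, hb, rfl⟩
      have hb' : (b : ℕ) < pos k n lam j i := hb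
      by_cases hJ : Jm k n lam j b
      · obtain ⟨l, hl⟩ := hJ
        have hlt : pos k n lam j l < pos k n lam j i := by
          rw [← hl]
          exact hb'
        have hli : l < i := hmono.lt_iff_lt.1 hlt
        exact Sb_mono lam G M j hlt.le (ih (l : ℕ) (by rw [← hi]; exact hli) l rfl b hl)
      · exact Submodule.mem_sup_right (Submodule.subset_span ⟨b, ⟨hb', hJ⟩, rfl⟩)
    have e : G j a = h i - (h i - G j a) := by abel
    rw [e]
    exact Submodule.sub_mem _ (Submodule.mem_sup_left (h1 i)) (hF (h2 i a ha))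

open Classical in
/-- Coefficients of an element of the span. -/
theorem coeff (lam : Fin r → Fin k → ℕ) (G : Fl n r) (M : Fin k → Fin n → ℂ) (j : Fin r)
    (i : Fin k) (x : Fin n → ℂ) (hx : x ∈ Sb lam G M j i) :
    ∃ (c : Fin k → ℂ) (e : Fin n → ℂ),
      x = (∑ l, c l • M l) + ∑ b, (if Bf k n lam j i b then e b else 0) • G j b := by
  obtain ⟨y, hy, z, hz, rfl⟩ := Submodule.mem_sup.1 hx
  obtain ⟨c, hc⟩ := (Submodule.mem_span_range_iff_exists_fun ℂ).1 hy
  have hle : Submodule.span ℂ (G j '' {b : Fin n | Bf k n lam j i b}) ≤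
      Submodule.span ℂ (Set.range (fun b : Fin n => if Bf k n lam j i b then G j b else 0)) := by
    rw [Submodule.span_le]
    rintro _ ⟨b, hb, rfl⟩
    have hb' : Bf k n lam j i b := hb
    refine Submodule.subset_span ⟨b, ?_⟩
    simp only [if_pos hb']
  obtain ⟨e, he⟩ := (Submodule.mem_span_range_iff_exists_fun ℂ).1 (hle hz)
  refine ⟨c, e, ?_⟩
  rw [hc]
  congr 1
  rw [← he]
  refine Finset.sum_congr rfl (fun b _ => ?_)
  by_cases hb : Bf k n lam j i b
  · simp only [if_pos hb]
  · simp only [if_neg hb, smul_zero, zero_smul]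

end ELM_

open ELM_ in
theorem p_ELM (hpos : T_POS) : T_ELM := by
  intro k n r lam hS G M hh
  have key : ∀ (j : Fin r) (i : Fin k), ∃ (c : Fin k → ℂ) (e : Fin n → ℂ), ∀ a : Fin n,
      (a : ℕ) = pos k n lam j i →
      G j a = (∑ l, c l • M l) + ∑ b, (open Classical in if Bf k n lam j i b then e b else 0) • G j b := by
    intro j i
    obtain ⟨hmono, hlt, -, -⟩ := hpos k n r lam hS j
    obtain ⟨h, h1, h2⟩ := hh j
    have hm := mem_Sb lam G M j hmono h h1 h2 (i : ℕ) i rfl ⟨pos k n lam j i, hlt i⟩ rfl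
    obtain ⟨c, e, hce⟩ := coeff lam G M j i _ hm
    refine ⟨c, e, ?_⟩
    intro a ha
    have ea : a = ⟨pos k n lam j i, hlt i⟩ := Fin.ext ha
    rw [ea]
    exact hce
  choose C E hCE using key
  exact ⟨C, E, fun j i a ha => hCE j i a ha⟩

end SCF
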