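import Pool.Agent.SCF.Targets

set_option autoImplicit false

namespace SCF

open Module Filter Topology

theorem p_FIN (h1 : T_L1) (h2 : T_CPT) (h3 : T_LR) : T_FIN := by
  intro k n r lam hsp G hG hgood
  by_contra hinf
  have hinf' : (Sch k lam G).Infinite := hinf
  let e := hinf'.natEmbedding
  let H : ℕ → Submodule ℂ (Fin n → ℂ) := fun ν => (e ν : Submodule ℂ (Fin n → ℂ))
  have hHinj : Function.Injective H := fun a b hab => e.injective (Subtype.ext hab)
  have hHmem : ∀ ν, H ν ∈ Sch k lam G := fun ν => (e ν).2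
  obtain ⟨H0, hH0, φ, hφ, hlim⟩ :=
    h2 k n r lam (fun _ => G) G hG tendsto_const_nhds H hHmem
  have hN : ∃ N, ∀ ν, N ≤ ν → H (φ ν) ≠ H0 := by
    by_cases hex : ∃ ν0, H (φ ν0) = H0
    · obtain ⟨ν0, hν0⟩ := hex
      refine ⟨ν0 + 1, fun ν hν h => ?_⟩
      have : φ ν = φ ν0 := hHinj (h.trans hν0.symm)
      have : ν = ν0 := hφ.injective this
      omega
    · push Not at hex
      exact ⟨0, fun ν _ => hex ν⟩
  obtain ⟨N, hN⟩ := hN
  have hB : ∀ ν, ∃ B, IsRel G (H (φ (ν + N))) H0 B ∧ B ≠ 0 := fun ν =>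
    h1 k n r lam hsp G hG _ (hHmem _) H0 hH0 (hN _ (Nat.le_add_left N ν))
  choose B hB using hB
  have hlim' : Tendsto (fun ν => pr (H (φ (ν + N)))) atTop (𝓝 (pr H0)) :=
    (tendsto_add_atTop_iff_nat (f := fun ν => pr (H (φ ν))) N).2 hlim
  obtain ⟨B0, hB0, hne⟩ := h3 n r (fun _ => G) G hG tendsto_const_nhds
    (fun ν => H (φ (ν + N))) (fun _ => H0) H0 H0 hlim' tendsto_const_nhds B hB
  exact hne (hgood H0 hH0 B0 hB0)

end SCF
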