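import Pool.Agent.SCF.Defs

/-!
# Project SCF (MP_0c25eb_ag, S00015), Part I: targets

Paper proof: ideas row 1807. In all proofs below `F j m = Fs (G j) m`.
-/

set_option autoImplicit false

namespace SCF

open Module Filter Topology
open scoped ComplexConjugate

/-! ## A. The pair lemma (L1) -/

/-- GR (greedy basis). PROOF. Induction on `k` (`Fin.induction` / `Fin.snoc`): if `h 0, ..., h (i-1)`
are independent in `W 0, ..., W (i-1)`, their span has `finrank = i < finrank (W i)`, so some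
`h i ∈ W i` is outside the span (`linearIndependent_fin_snoc` or `linearIndependent_fin_succ'`). -/
def T_GR : Prop := ∀ (n k : ℕ) (W : Fin k → Submodule ℂ (Fin n → ℂ)),
  (∀ i : Fin k, (i : ℕ) + 1 ≤ finrank ℂ (W i)) →
  ∃ h : Fin k → Fin n → ℂ, LinearIndependent ℂ h ∧ ∀ i, h i ∈ W i

/-- L1 (pair lemma). PROOF. `V = Fin n → ℂ`, `m i j = n - k + i + 1 - lam j i`, `F = Fs (G j) (m i j)`
has `finrank = m i j` (`Ind`; `m i j ≤ n`). By GR choose for each `j` independent vectors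
`h j i ∈ H' ⊓ Fs (G j) (m i j)`. Let `X j i` = functionals (`Module.Dual ℂ V`, or vectors `ξ` acting
by `⬝ᵥ`) vanishing on `H ⊔ Fs (G j) (m i j)`:
`finrank (X j i) = n - finrank (H ⊔ F) = n - (k + m i j - finrank (H ⊓ F)) ≥ n - k - m i j + i + 1
= lam j i`. `Ψ : (Π j, Π i, X j i) → Y`, `Y = {B : V → V linear, B H = 0, im B ⊆ H'} ≃ Hom(V/H, H')`,
`finrank Y = (n - k) * k`, `Ψ ξ = ∑ j, ∑ i, ξ j i ⊗ h j i` (rank one maps `v ↦ ξ j i (v) • h j i`).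
The domain has `finrank ≥ ∑ j, ∑ i, lam j i = k (n - k)`.
`Ψ` is not surjective: `H' ≠ H`, same finrank, so some `v0 ∈ H'`, `v0 ∉ H`, some functional `ξ0` with
`ξ0 H = 0`, `ξ0 v0 = 1`; `B0 = ξ0 ⊗ v0 ∈ Y` has trace `ξ0 v0 = 1`, but every `Ψ ξ` has trace
`∑ ξ j i (h j i) = 0` since `h j i ∈ Fs (G j) (m i j)`.
So `Ψ` is not injective: `ξ ≠ 0` with `Ψ ξ = 0`. `B j := ∑ i, ξ j i ⊗ h j i` (as matrices:
`∑ i, vecMulVec (h j i) (ξ j i)`): kernel, image, sum clear; `tri`: if `a < m i j` then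
`ξ j i (G j a) = 0`; if `a ≥ m i j` then `h j i ∈ Fs (G j) (m i j) ⊆ Fs (G j) a`. `B ≠ 0` because
`h j ·` is independent and some `ξ j i ≠ 0`. -/
def T_L1 : Prop := ∀ (k n r : ℕ) (lam : Fin r → Fin k → ℕ), SP k n r lam →
  ∀ G : Fl n r, Ind G → ∀ H ∈ Sch k lam G, ∀ H' ∈ Sch k lam G, H ≠ H' →
  ∃ B, IsRel G H H' B ∧ B ≠ 0

/-! ## B. The key theorem (L2) -/

/-- PSD. PROOF. For `z p = η / 2 + i t p` (real part > 0):
`1 / (η + i (t p - t q)) = ∫ u in Ioi 0, exp (-(z p + conj (z q)) u)` (`integral_exp_mul_complex_Ioi`),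
so the double sum is `∫ u in Ioi 0, ‖∑ p, g p * exp (- z p u)‖ ^ 2 ≥ 0`. If it is `0` the continuous
integrand vanishes on `Ioi 0`, so `∑ p, g p * exp (- i t p u) = 0` for `u > 0`, and `g = 0` by
independence of exponentials (e.g. `linearIndependent_monoidHom`, or Vandermonde at
`u = δ, 2 δ, ..., ` with `exp (-i t p δ)` distinct for small `δ`, or induction by differentiation).
(Any other proof of positive definiteness of the Cauchy kernel is fine.) -/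
def T_PSD : Prop := ∀ (ι : Type) [Fintype ι] (t : ι → ℝ), Function.Injective t →
  ∀ (g : ι → ℂ) (η : ℝ), 0 < η →
  0 ≤ (∑ p, ∑ q, g p * conj (g q) / (η + Complex.I * (t p - t q))).re ∧
  ((∑ p, ∑ q, g p * conj (g q) / (η + Complex.I * (t p - t q))).re = 0 → g = 0)

/-- ID (the identity (d) of row 1807). Hypothesis (iv): the coefficient vectors satisfy
`∑ p, ν p c * (t p) ^ b = 0` for all `c b : Fin n`; hence `∑ p, ν p c * e (t p) = 0` for every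
polynomial `e` of degree `< n` with complex coefficients.
PROOF. `1 / (η + i (t - s)) = - i / (t - b)`, `b = s + i η` (`t ≠ b` as `t` real, `η ≠ 0`).
`ν̄_q (x) := ∑ b, conj (ν q b) x ^ b`, so `conj (ev (ν q) z) = ν̄_q (conj z)`.
Step 1, `q` fixed, `s = t q`: `e (x) = (ν̄_q (x) - ν̄_q (b)) / (x - b)` is a polynomial in `x` of degree
`≤ n - 2` (`(x^k - b^k)/(x - b) = ∑ x^l b^(k-1-l)`), so by (iv)
`∑ p, ν_p (s) (ν̄_q (t p) - ν̄_q (b)) / (t p - b) = 0`, i.e.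
`∑ p, ν_p (s) ν̄_q (t p) / (t p - b) = ν̄_q (b) ∑ p, ν_p (s) / (t p - b)`, and
`ν̄_q (b) = conj (ν_q (s - i η)) = conj (g q)`.
Step 2: `∑ p, (ν_p (s) - ν_p (t p - i η)) / (t p - i η - s) = 0`, because
`(s^k - τ^k) / (τ - s) = - ∑ s^l τ^(k-1-l)`, `τ = t p - i η`, and `τ^(k-1-l)` is a polynomial in `t p` of
degree `≤ n - 2`, so (iv) applies for each coefficient `c = k`. Since `t p - i η - s = t p - b`:
`∑ p, ν_p (s) / (t p - b) = ∑ p, g p / (t p - b)`. Sum over `q`, multiply by `- i`. -/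
def T_ID : Prop := ∀ (ι : Type) [Fintype ι] (n : ℕ) (t : ι → ℝ) (ν : ι → Fin n → ℂ),
  (∀ c b : Fin n, ∑ p, ν p c * ((t p : ℂ)) ^ (b : ℕ) = 0) →
  ∀ η : ℝ, η ≠ 0 →
  ∑ p, ∑ q, ev (ν p) (t q) * conj (ev (ν q) (t p)) / (η + Complex.I * (t p - t q)) =
  ∑ p, ∑ q, ev (ν p) (t p - Complex.I * η) * conj (ev (ν q) (t q - Complex.I * η)) /
    (η + Complex.I * (t p - t q))

/-- MONO (step (f) of row 1807, real analysis). PROOF. Terms with `d m = 0` contribute `a m` to the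
sum. `F Y = - ∑ a m * d m * arctan (Y / d m)` (Lean: for `d m = 0` the term is `0`), for `Y > 0`
`F' Y = - ∑ a m * d m ^ 2 / (Y ^ 2 + d m ^ 2) = ∑ a m * Y ^ 2 / (Y ^ 2 + d m ^ 2)` (as `∑ a m = 0`;
true also for `d m = 0`) `≥ 0`. So `F` is monotone on `[0, ∞)`, `F 0 = 0`,
`F Y → - (π / 2) ∑ a m * d m = 0` for `Y → ∞`: `F = 0` on `[0, ∞)`, so `F' = 0`. -/
def T_MONO : Prop := ∀ (ι : Type) [Fintype ι] (a d : ι → ℝ), (∀ m, 0 ≤ d m) →
  ∑ m, a m = 0 → ∑ m, a m * d m = 0 →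
  (∀ η : ℝ, 0 < η → 0 ≤ ∑ m, a m * η ^ 2 / (η ^ 2 + d m ^ 2)) →
  ∀ η : ℝ, 0 < η → ∑ m, a m * η ^ 2 / (η ^ 2 + d m ^ 2) = 0

/-- CORE. PROOF. `c p q := ev (ν p) (t q) * conj (ev (ν q) (t p))`, `c q p = conj (c p q)`.
(1) `∑ q with blk q = j, c p q = 0` is `hb`; conjugating, `∑ p with blk p = j, c p q = 0`.
(2) So `∑ p q, c p q = 0` (sum over the blocks), and `∑ p q, c p q * |t p - t q| = 0`: split into pairs
of blocks `(i, j)`; `i = j`: all terms `0` by `ha`; `i ≠ j`: `|t p - t q| = ± (t p - t q)` with constant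
sign, and `∑ c p q * t p`, `∑ c p q * t q` over the pair of blocks vanish by (1).
(3) For `η > 0`: PSD and ID give `0 ≤ Re ∑ c p q / (η + i (t p - t q))`. ID for `-η` and PSD for the
points `- t p` give `0 ≤ Re ∑ c p q / (η - i (t p - t q))`. The sum of the two is
`∑ (Re c p q) * 2 η / (η ^ 2 + (t p - t q) ^ 2)` (real part; `1/(η+ix) + 1/(η-ix) = 2η/(η²+x²)`).
(4) MONO for `ι × ι`, `a (p,q) = Re (c p q)`, `d (p,q) = |t p - t q|`: the sum in (3) is `0`, so both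
real parts in (3) are `0`, so by PSD `ev (ν p) (t p - i η) = 0` for every `p` and every `η > 0`.
A polynomial of degree `< n` with infinitely many roots is `0`: `ν p = 0`. -/
def T_CORE : Prop := ∀ (ι : Type) [Fintype ι] (n r : ℕ) (t : ι → ℝ), Function.Injective t →
  ∀ (blk : ι → Fin r), (∀ j j', j ≠ j' → (∀ p q, blk p = j → blk q = j' → t p < t q) ∨
    (∀ p q, blk p = j → blk q = j' → t q < t p)) →
  ∀ (ν : ι → Fin n → ℂ),
  (∀ p q, blk p = blk q → ev (ν p) (t q) * conj (ev (ν q) (t p)) = 0) →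
  (∀ p j, ∑ q with blk q = j, ev (ν p) (t q) * conj (ev (ν q) (t p)) = 0) →
  (∀ c b : Fin n, ∑ p, ν p c * ((t p : ℂ)) ^ (b : ℕ) = 0) →
  ν = 0

/-- SECI. PROOF. Vandermonde (`Matrix.det_vandermonde_ne_zero_iff`,
`Matrix.linearIndependent_rows_iff_isUnit` or similar). -/
def T_SECI : Prop := ∀ (n r : ℕ) (t : Fin r → Fin n → ℝ), Sep t → Ind (sec t)

/-- L2 (key theorem). PROOF. `Γ j` = matrix with rows `γ (t j a) = sec t j a` (invertible, SECI).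
There are unique `ν (j,a) : Fin n → ℂ` with `B j = ∑ a, vecMulVec (γ (t j a)) (ν (j,a))`, i.e.
`(B j).mulVec v = ∑ a, (ν (j,a) ⬝ᵥ v) • γ (t j a)` (`ν (j, ·) = ((Γ j)ᵀ)⁻¹ * B j`), and
`ν ⬝ᵥ γ s = ev ν s`. `blk (j,a) = j`, `ι = Fin r × Fin n`, the points `t j a` are distinct.
(i) `ν (j,a) ⬝ᵥ v = 0` for `v ∈ H` (`ker`, the `γ (t j a)` are independent);
(ii) for `e : Fin n → ℂ` with `e ⬝ᵥ w = 0` for all `w ∈ cj H` : `∑ a, (ev e (t j a)) • ν (j,a) = 0`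
(apply `e ⬝ᵥ ·` to `(B j).mulVec v ∈ cj H` for all `v`; `e ⬝ᵥ γ s = ev e s`);
(iii) `ev (ν (j,a)) (t j l) = 0` for `l ≤ a` (`tri` for `G j l`, independence);
(iv) `∑ (j,a), ν (j,a) c * (t j a) ^ b = 0` (entry `(b, c)` of `∑ B j = 0`).
CORE: `ha` from (iii) (`l ≤ a` or `a ≤ l`); `hb`: `e = conj (ν p)` (entrywise) satisfies
`e ⬝ᵥ w = conj (ν p ⬝ᵥ star w) = 0` for `w ∈ cj H` (`star w ∈ H`), and
`ev e (t q) = conj (ev (ν p) (t q))`; (ii) evaluated by `ev · (t p)` gives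
`∑ q with blk q = j, conj (ev (ν p) (t q)) * ev (ν q) (t p) = 0`; take conjugates. So `ν = 0`, `B = 0`. -/
def T_L2 : Prop := ∀ (n r : ℕ) (t : Fin r → Fin n → ℝ), Sep t →
  ∀ (H : Submodule ℂ (Fin n → ℂ)) (B : Fin r → Matrix (Fin n) (Fin n) ℂ),
  IsRel (sec t) H (cj H) B → B = 0

/-! ## C. Field automorphisms -/

/-- SGB (basic properties of `sg`). PROOF. (1) `rank_eq_of_equiv_equiv` (semilinear equivalence
`v ↦ fun b => σ (v b)` of `H` with `sg σ H`). (2), (3), (4), (5) by definition. (6) `Fs` = span of the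
image: if `v = ∑ c a g a` then `σ v = ∑ σ (c a) σ (g a)` (both inclusions, using `σ.symm`). -/
def T_SGB : Prop := ∀ (n r : ℕ) (σ : ℂ ≃+* ℂ),
  (∀ H : Submodule ℂ (Fin n → ℂ), finrank ℂ (sg σ H) = finrank ℂ H) ∧
  (∀ H K : Submodule ℂ (Fin n → ℂ), sg σ (H ⊓ K) = sg σ H ⊓ sg σ K) ∧
  (∀ H : Submodule ℂ (Fin n → ℂ), sg σ.symm (sg σ H) = H) ∧
  (∀ H : Submodule ℂ (Fin n → ℂ), sg σ (sg σ.symm H) = H) ∧
  (∀ G : Fl n r, sgF σ.symm (sgF σ G) = G) ∧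
  (∀ (g : Fin n → Fin n → ℂ) (m : ℕ), sg σ (Fs g m) = Fs (fun a b => σ (g a b)) m)

/-- SGS. PROOF. From SGB: `H ∈ Sch G → sg σ H ∈ Sch (sgF σ G)`, and the same for `σ.symm`. -/
def T_SGS : Prop := ∀ (k n r : ℕ) (lam : Fin r → Fin k → ℕ) (σ : ℂ ≃+* ℂ) (G : Fl n r),
  Sch k lam (sgF σ G) = sg σ '' Sch k lam G

/-- SGI. PROOF. `∑ c a σ (G j a) = 0 → ∑ σ.symm (c a) G j a = 0`. -/
def T_SGI : Prop := ∀ (n r : ℕ) (σ : ℂ ≃+* ℂ) (G : Fl n r), Ind G → Ind (sgF σ G)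

/-- SGG. PROOF. If `B` is a relation for `(sgF σ G; sg σ H, sg σ H)` then `σ.symm` applied to the
entries of `B` is a relation for `(G; H, H)`; use SGS, SGB. -/
def T_SGG : Prop := ∀ (k n r : ℕ) (lam : Fin r → Fin k → ℕ) (σ : ℂ ≃+* ℂ) (G : Fl n r),
  Good k lam G → Good k lam (sgF σ G)

/-- REAL. PROOF. `sgF cjσ (sec t) = sec t` (real entries), so by SGS `cj H ∈ Sch (sec t)`. If
`cj H ≠ H`, L1 for `(H, cj H)` and L2 contradict each other. -/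
def T_REAL : Prop := ∀ (k n r : ℕ) (lam : Fin r → Fin k → ℕ), SP k n r lam →
  ∀ t : Fin r → Fin n → ℝ, Sep t → ∀ H ∈ Sch k lam (sec t), cj H = H

/-- GSEC. PROOF. REAL and L2. -/
def T_GSEC : Prop := ∀ (k n r : ℕ) (lam : Fin r → Fin k → ℕ), SP k n r lam →
  ∀ t : Fin r → Fin n → ℝ, Sep t → Good k lam (sec t)

/-! ## D. Compactness -/

/-- PR. PROOF. Transport `H` to `EuclideanSpace ℂ (Fin n)`, matrix of the orthogonal projection
(`Submodule.starProjection` / `orthogonalProjection`, self-adjoint, idempotent), or: orthonormal basis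
`u_1, ..., u_k` of `H`, `P = ∑ vecMulVec (u_i) (star u_i)`. Then `pr H` is `choose`. Uniqueness: `P`, `P'`
with the same range: `P' P = P`, `P P' = P'`, take `conjTranspose`: `P = P P' = P'`. Bound: row norms:
`P a a = ∑ b, ‖P a b‖ ^ 2` (from `P = Pᴴ P`), so `P a a ≤ 1` and `‖P a b‖ ≤ 1`. -/
def T_PR : Prop := ∀ (n : ℕ) (H : Submodule ℂ (Fin n → ℂ)),
  IsPr (pr H) H ∧ (∀ P, IsPr P H → P = pr H) ∧ (∀ a b, ‖pr H a b‖ ≤ 1)

/-- LV. PROOF. `M ν` = matrix with rows `g ν a`; `det (M ν) → det (M) ≠ 0`, so eventually invertible,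
`c ν = ((M ν)ᵀ)⁻¹.mulVec (v ν)` (coordinates, `v ν = ∑ c ν a • g ν a`) `→ c = (Mᵀ)⁻¹.mulVec v`;
`c ν a = 0` for `a ≥ m` (eventually), so `c a = 0` for `a ≥ m` and `v ∈ Fs g0 m`. -/
def T_LV : Prop := ∀ (n : ℕ) (g : ℕ → Fin n → Fin n → ℂ) (g0 : Fin n → Fin n → ℂ),
  LinearIndependent ℂ g0 → Tendsto g atTop (𝓝 g0) →
  ∀ (v : ℕ → Fin n → ℂ) (v0 : Fin n → ℂ), Tendsto v atTop (𝓝 v0) →
  ∀ m : ℕ, (∀ ν, v ν ∈ Fs (g ν) m) → v0 ∈ Fs g0 m

/-- LD. PROOF. Choose orthonormal `w ν 0, ..., w ν (i-1)` in `H ν ⊓ Fs (g ν) m` (orthonormal for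
`∑ conj (x b) y b`), pass to a subsequence with `w ν l → w l` (bounded, finite dimensional). Then
`w` is orthonormal, so independent; `(pr H0).mulVec (w l) = w l` by continuity (PR), `w l ∈ Fs g0 m` by
LV. -/
def T_LD : Prop := ∀ (n : ℕ) (g : ℕ → Fin n → Fin n → ℂ) (g0 : Fin n → Fin n → ℂ),
  LinearIndependent ℂ g0 → Tendsto g atTop (𝓝 g0) →
  ∀ (H : ℕ → Submodule ℂ (Fin n → ℂ)) (H0 : Submodule ℂ (Fin n → ℂ)),
  Tendsto (fun ν => pr (H ν)) atTop (𝓝 (pr H0)) →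
  ∀ m i : ℕ, (∀ ν, i ≤ finrank ℂ ↥(H ν ⊓ Fs (g ν) m)) → i ≤ finrank ℂ ↥(H0 ⊓ Fs g0 m)

/-- TRK: `trace (pr H) = finrank H`. PROOF. `pr H` is the matrix of a projection onto `H`
(`LinearMap.IsProj.trace`), or rank of an idempotent. -/
def T_TRK : Prop := ∀ (n : ℕ) (H : Submodule ℂ (Fin n → ℂ)),
  Matrix.trace (pr H) = (finrank ℂ H : ℂ)

/-- CPT. PROOF. The matrices `pr (H ν)` have entries of norm `≤ 1` (PR), so a subsequence converges
to a matrix `P`; `P` is hermitian and idempotent, `H0 := {v | P.mulVec v = v}` (a submodule),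
`P = pr H0` (PR). `finrank H0 = k` by TRK (limit of the traces). The conditions pass to the limit by
LD (for the subsequence). -/
def T_CPT : Prop := ∀ (k n r : ℕ) (lam : Fin r → Fin k → ℕ) (G : ℕ → Fl n r) (G0 : Fl n r),
  Ind G0 → Tendsto G atTop (𝓝 G0) →
  ∀ H : ℕ → Submodule ℂ (Fin n → ℂ), (∀ ν, H ν ∈ Sch k lam (G ν)) →
  ∃ H0 ∈ Sch k lam G0, ∃ φ : ℕ → ℕ, StrictMono φ ∧
    Tendsto (fun ν => pr (H (φ ν))) atTop (𝓝 (pr H0))

/-- LR (limits of relations). PROOF. Scale `B ν` (a relation stays one) so that the largest entry has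
norm `1`; a subsequence converges to some `B0 ≠ 0`. `ker`: `B ν j * pr (H ν) = 0`, limit
`B0 j * pr H0 = 0`, and `v ∈ H0` is `(pr H0).mulVec v` (PR). `im`: `pr (H' ν) * B ν j = B ν j`. `tri`: LV
for `v ν = (B ν j).mulVec (G ν j a)`. -/
def T_LR : Prop := ∀ (n r : ℕ) (G : ℕ → Fl n r) (G0 : Fl n r),
  Ind G0 → Tendsto G atTop (𝓝 G0) →
  ∀ (H H' : ℕ → Submodule ℂ (Fin n → ℂ)) (H0 H0' : Submodule ℂ (Fin n → ℂ)),
  Tendsto (fun ν => pr (H ν)) atTop (𝓝 (pr H0)) →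
  Tendsto (fun ν => pr (H' ν)) atTop (𝓝 (pr H0')) →
  ∀ B : ℕ → Fin r → Matrix (Fin n) (Fin n) ℂ,
  (∀ ν, IsRel (G ν) (H ν) (H' ν) (B ν) ∧ B ν ≠ 0) →
  ∃ B0, IsRel G0 H0 H0' B0 ∧ B0 ≠ 0

/-- INDO. PROOF. Determinant is continuous (or `isOpen_setOf_linearIndependent`), finitely many `j`. -/
def T_INDO : Prop := ∀ (n r : ℕ) (G0 : Fl n r), Ind G0 → ∀ᶠ G in 𝓝 G0, Ind G

/-- FIN. PROOF. Otherwise there is an injective sequence `H ν ∈ Sch G`. CPT (constant `G`): a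
subsequence with `pr (H ν) → pr H0`, `H0 ∈ Sch G`; drop the at most one `ν` with `H ν = H0`. L1 for the
pairs `(H ν, H0)`, LR (constant `G`): a nonzero relation `(G; H0, H0)`, against `Good`. -/
def T_FIN : Prop := ∀ (k n r : ℕ) (lam : Fin r → Fin k → ℕ), SP k n r lam →
  ∀ G : Fl n r, Ind G → Good k lam G → (Sch k lam G).Finite

/-- GO (goodness is open). PROOF. Otherwise (`Fl n r` is first countable) `G ν → G0`, `G ν` not good:
`H ν ∈ Sch (G ν)`, relations `B ν ≠ 0` for `(G ν; H ν, H ν)`. CPT, then LR for the subsequence: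
a nonzero relation at `(G0; H0, H0)`. -/
def T_GO : Prop := ∀ (k n r : ℕ) (lam : Fin r → Fin k → ℕ) (G0 : Fl n r),
  Ind G0 → Good k lam G0 → ∀ᶠ G in 𝓝 G0, Good k lam G

/-- NEAR. PROOF. Otherwise `G ν → G0`, `H ν ∈ Sch (G ν)`, `pr (H ν) ∉ U`; CPT: limit `H0 ∈ Sch G0` of a
subsequence, `pr H0 ∉ U` as the complement of `U` is closed. -/
def T_NEAR : Prop := ∀ (k n r : ℕ) (lam : Fin r → Fin k → ℕ) (G0 : Fl n r), Ind G0 →
  ∀ U : Set (Matrix (Fin n) (Fin n) ℂ), IsOpen U → (∀ H ∈ Sch k lam G0, pr H ∈ U) →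
  ∀ᶠ G in 𝓝 G0, ∀ H ∈ Sch k lam G, pr H ∈ U

/-- UNI (local uniqueness). PROOF. Otherwise for a countable basis `U ν` of `𝓝 (pr H0)` and of
`𝓝 G0` there are `G ν → G0` (`Ind`, by INDO), `H ν ≠ H' ν` in `Sch (G ν)` with
`pr (H ν), pr (H' ν) → pr H0`. L1 and LR: nonzero relation for `(G0; H0, H0)`, against `Good`. -/
def T_UNI : Prop := ∀ (k n r : ℕ) (lam : Fin r → Fin k → ℕ), SP k n r lam →
  ∀ G0 : Fl n r, Ind G0 → Good k lam G0 → ∀ H0 ∈ Sch k lam G0,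
  ∃ U ∈ 𝓝 (pr H0), ∀ᶠ G in 𝓝 G0, ∀ H ∈ Sch k lam G, ∀ H' ∈ Sch k lam G,
    pr H ∈ U → pr H' ∈ U → H = H'

/-- CARD. PROOF. `Sch G0` finite (FIN). For each of its elements take the neighbourhood of UNI (open
subset). By NEAR, for `G` near `G0` every `H ∈ Sch G` has `pr H` in one of these neighbourhoods, and each
neighbourhood contains at most one: an injection `Sch G → Sch G0`. -/
def T_CARD : Prop := ∀ (k n r : ℕ) (lam : Fin r → Fin k → ℕ), SP k n r lam →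
  ∀ G0 : Fl n r, Ind G0 → Good k lam G0 →
  ∀ᶠ G in 𝓝 G0, (Sch k lam G).Finite ∧ (Sch k lam G).ncard ≤ (Sch k lam G0).ncard

/-- PERS (persistence by counting). PROOF. As CARD, but for `H0` use the neighbourhood
`U' = U ∩ (that of UNI)` and, for the other `H1 ∈ Sch G0`, neighbourhoods `U1` as in UNI. For `G` near
`G0` all `pr H`, `H ∈ Sch G`, lie in the union (NEAR) and there is at most one in each; if none is in
`U'` then `ncard (Sch G) ≤ ncard (Sch G0) - 1`. -/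
def T_PERS : Prop := ∀ (k n r : ℕ) (lam : Fin r → Fin k → ℕ), SP k n r lam →
  ∀ G0 : Fl n r, Ind G0 → Good k lam G0 → ∀ H0 ∈ Sch k lam G0, ∀ U ∈ 𝓝 (pr H0),
  ∀ᶠ G in 𝓝 G0, (Sch k lam G0).ncard ≤ (Sch k lam G).ncard → ∃ H ∈ Sch k lam G, pr H ∈ U

/-- PRC (continuity of `pr` of a span; used in Part II). PROOF. For `U` independent
`pr (span U) = Uᵀ * (conj U * Uᵀ)⁻¹ * conj U` (`U` as `k × n` matrix; hermitian, idempotent, range =
span of the rows; PR), the Gram determinant is nonzero near `U0` and everything is continuous.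
(Or by sequences and compactness.) -/
def T_PRC : Prop := ∀ (k n : ℕ) (U0 : Fin k → Fin n → ℂ), LinearIndependent ℂ U0 →
  ∀ W ∈ 𝓝 (pr (Submodule.span ℂ (Set.range U0))),
  ∀ᶠ U in 𝓝 U0, pr (Submodule.span ℂ (Set.range U)) ∈ W

/-- BND (a priori bound; used in Part II). PROOF. Otherwise `G ν → G0`, `H ν ∈ Sch (G ν)`,
`v ν ∈ H ν`, `‖v ν‖ = 1` (scaled), `‖v ν c‖ < 1 / ν` for all `c < k`. CPT: `pr (H ν) → pr H0` along a
subsequence, `v ν → v`, `‖v‖ = 1`, `v ∈ H0`, `v c = 0` for `c < k`, against the hypothesis. -/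
def T_BND : Prop := ∀ (k n r : ℕ) (lam : Fin r → Fin k → ℕ) (G0 : Fl n r), Ind G0 →
  (∀ H ∈ Sch k lam G0, ∀ v ∈ H, (∀ c : Fin n, (c : ℕ) < k → v c = 0) → v = 0) →
  ∃ C : ℝ, 0 < C ∧ ∀ᶠ G in 𝓝 G0, ∀ H ∈ Sch k lam G, ∀ v ∈ H, ∀ R : ℝ, 0 ≤ R →
    (∀ c : Fin n, (c : ℕ) < k → ‖v c‖ ≤ R) → ∀ b, ‖v b‖ ≤ C * R

end SCF
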