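import Pool.Agent.SCF.TargetsTop
import Pool.Agent.SCF.Targets

set_option autoImplicit false

/-!
# SCF-GDG: generic points are good. `h_GDN` is the statement of `T_GDN`.
-/

namespace SCF

open Module Filter Topology

theorem p_GDG
    (h_GDN : ∀ (ι : Type) [Fintype ι] (a : ι → ℂ) (ε : ℝ), 0 < ε →
      ∃ b : ι → ℂ, AlgebraicIndependent ℚ b ∧ ∀ i, ‖b i - a i‖ < ε)
    (h_GIN : T_GIN) (h_GEQ : T_GEQ) (h_GO : T_GO) (h_CARD : T_CARD) (h_FIN : T_FIN) : T_GDG := by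
  intro k n r lam hSP s hs hgood G hG
  have h1 := (h_GO k n r lam s hs hgood).and (h_CARD k n r lam hSP s hs hgood)
  rw [Metric.eventually_nhds_iff] at h1
  obtain ⟨ε, hε, h1⟩ := h1
  obtain ⟨b, hb, hbn⟩ := h_GDN (Fin r × Fin n × Fin n) (fun p => s p.1 p.2.1 p.2.2) ε hε
  have hG1 : Gen (fun j a c => b (j, a, c) : Fl n r) := hb
  have hd : dist (fun j a c => b (j, a, c) : Fl n r) s < ε := by
    rw [dist_pi_lt_iff hε]
    intro j
    rw [dist_pi_lt_iff hε]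
    intro a
    rw [dist_pi_lt_iff hε]
    intro c
    rw [dist_eq_norm]
    exact hbn (j, a, c)
  obtain ⟨g1, _, g3⟩ := h1 hd
  obtain ⟨e1, e2⟩ := h_GEQ k n r lam _ G hG1 hG
  have hgG := e2 g1
  exact ⟨hgG, h_FIN k n r lam hSP G (h_GIN n r G hG) hgG, by rw [e1]; exact g3⟩

end SCF
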