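import Pool.Agent.SCF.TargetsTop
import Pool.Agent.SCF.Targets

/-!
# SCF-GEQ: generic points are conjugate. `h1` is the statement of `T_FT2`.
-/

set_option autoImplicit false

namespace SCF

open Module Filter Topology

theorem p_GEQ (h1 : ∀ (ι : Type) [Fintype ι] (x y : ι → ℂ), AlgebraicIndependent ℚ x →
    AlgebraicIndependent ℚ y → ∃ σ : ℂ ≃+* ℂ, ∀ i, σ (x i) = y i)
    (h2 : T_SGS) (h3 : T_SGG) (h4 : T_SGB) : T_GEQ := by
  intro k n r lam G G' hG hG'
  obtain ⟨σ, hσ⟩ := h1 (Fin r × Fin n × Fin n) _ _ hG hG'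
  have e : sgF σ G = G' := by
    funext j a b
    exact hσ (j, a, b)
  have hinj : Function.Injective (sg σ : Submodule ℂ (Fin n → ℂ) → Submodule ℂ (Fin n → ℂ)) := by
    intro H K hHK
    have h5 := (h4 n r σ).2.2.1
    rw [← h5 H, ← h5 K, hHK]
  rw [← e]
  refine ⟨?_, h3 k n r lam σ G⟩
  rw [h2 k n r lam σ G]
  exact Set.ncard_image_of_injective _ hinj

end SCF
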