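import Pool.Agent.SCF.TargetsTop

/-!
# SCF-GIN: generic tuples are independent
-/

set_option autoImplicit false

namespace SCF

open Module Filter Topology

theorem p_GIN : T_GIN := by
  classical
  intro n r G hG j
  have hdet : (Matrix.of fun a b => G j a b).det ≠ 0 := by
    intro h0
    set P : MvPolynomial (Fin r × Fin n × Fin n) ℚ :=
      (Matrix.of fun a b : Fin n =>
        (MvPolynomial.X (j, a, b) : MvPolynomial (Fin r × Fin n × Fin n) ℚ)).det with hP
    have h1 : MvPolynomial.aeval (fun p : Fin r × Fin n × Fin n => G p.1 p.2.1 p.2.2) P = 0 := by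
      rw [hP, AlgHom.map_det, ← h0]
      congr 1
      ext a b
      simp
    have h2 : P = 0 := by
      have h3 : Function.Injective (MvPolynomial.aeval (R := ℚ)
        (fun p : Fin r × Fin n × Fin n => G p.1 p.2.1 p.2.2)) := hG
      apply h3
      rw [h1, map_zero]
    have h4 : MvPolynomial.aeval (R := ℚ)
        (fun p : Fin r × Fin n × Fin n => if p.2.1 = p.2.2 then (1 : ℚ) else 0) P = 1 := by
      rw [hP, AlgHom.map_det, ← Matrix.det_one (n := Fin n) (R := ℚ)]
      congr 1
      ext a b
      simp [Matrix.one_apply]
    rw [h2, map_zero] at h4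
    exact zero_ne_one h4
  exact Matrix.linearIndependent_rows_of_det_ne_zero hdet

end SCF
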