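import Pool.Agent.SCF.TargetsTop

/-!
# SCF-GLS: linear automorphisms (project SCF, MP_0c25eb_ag, S00015)
-/

set_option autoImplicit false

namespace SCF

open Module Filter Topology

theorem GLS_.Fs_map {n : ℕ} (g : (Fin n → ℂ) ≃ₗ[ℂ] (Fin n → ℂ)) (f : Fin n → Fin n → ℂ) (m : ℕ) :
    (Fs f m).map (g : (Fin n → ℂ) →ₗ[ℂ] (Fin n → ℂ)) = Fs (fun a => g (f a)) m := by
  unfold Fs
  rw [Submodule.map_span, Set.image_image]
  rfl

theorem GLS_.mem_iff {k n r : ℕ} (lam : Fin r → Fin k → ℕ) (G : Fl n r)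
    (g : (Fin n → ℂ) ≃ₗ[ℂ] (Fin n → ℂ)) (H : Submodule ℂ (Fin n → ℂ)) :
    H.map (g : (Fin n → ℂ) →ₗ[ℂ] (Fin n → ℂ)) ∈ Sch k lam (fun j a => g (G j a)) ↔
      H ∈ Sch k lam G := by
  have h1 : ∀ K : Submodule ℂ (Fin n → ℂ),
      finrank ℂ ↥(K.map (g : (Fin n → ℂ) →ₗ[ℂ] (Fin n → ℂ))) = finrank ℂ ↥K :=
    fun K => LinearEquiv.finrank_map_eq g K
  have h2 : ∀ (j : Fin r) (m : ℕ),
      H.map (g : (Fin n → ℂ) →ₗ[ℂ] (Fin n → ℂ)) ⊓ Fs (fun a => g (G j a)) m =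
        (H ⊓ Fs (G j) m).map (g : (Fin n → ℂ) →ₗ[ℂ] (Fin n → ℂ)) := by
    intro j m
    rw [Submodule.map_inf _ g.injective, GLS_.Fs_map]
  unfold Sch
  simp only [Set.mem_setOf_eq]
  rw [h1]
  constructor
  · rintro ⟨h, h'⟩
    refine ⟨h, fun j i => ?_⟩
    have h3 := h' j i
    rw [h2, h1] at h3
    exact h3
  · rintro ⟨h, h'⟩
    refine ⟨h, fun j i => ?_⟩
    rw [h2, h1]
    exact h' j i

theorem p_GLS : T_GLS := by
  intro k n r lam G g
  have hinj : Function.Injective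
      (fun H : Submodule ℂ (Fin n → ℂ) => H.map (g : (Fin n → ℂ) →ₗ[ℂ] (Fin n → ℂ))) :=
    Submodule.map_injective_of_injective g.injective
  have hset : Sch k lam (fun j a => g (G j a)) =
      (fun H : Submodule ℂ (Fin n → ℂ) => H.map (g : (Fin n → ℂ) →ₗ[ℂ] (Fin n → ℂ))) ''
        Sch k lam G := by
    ext K
    constructor
    · intro hK
      refine ⟨K.map (g.symm : (Fin n → ℂ) →ₗ[ℂ] (Fin n → ℂ)), ?_, ?_⟩
      · rw [← GLS_.mem_iff lam G g]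
        rw [← Submodule.map_comp]
        have e : ((g : (Fin n → ℂ) →ₗ[ℂ] (Fin n → ℂ)) ∘ₗ (g.symm : (Fin n → ℂ) →ₗ[ℂ] (Fin n → ℂ)))
            = LinearMap.id := by
          ext x
          simp
        rw [e, Submodule.map_id]
        exact hK
      · show (K.map (g.symm : (Fin n → ℂ) →ₗ[ℂ] (Fin n → ℂ))).map
          (g : (Fin n → ℂ) →ₗ[ℂ] (Fin n → ℂ)) = K
        rw [← Submodule.map_comp]
        have e : ((g : (Fin n → ℂ) →ₗ[ℂ] (Fin n → ℂ)) ∘ₗ (g.symm : (Fin n → ℂ) →ₗ[ℂ] (Fin n → ℂ)))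
            = LinearMap.id := by
          ext x
          simp
        rw [e, Submodule.map_id]
    · rintro ⟨H, hH, rfl⟩
      exact (GLS_.mem_iff lam G g H).2 hH
  refine ⟨hset, ?_, ?_, ?_⟩
  · rw [hset]
    exact Set.ncard_image_of_injective _ hinj
  · intro h
    rw [hset]
    exact h.image _
  · intro h j
    exact (h j).map' (g : (Fin n → ℂ) →ₗ[ℂ] (Fin n → ℂ)) g.ker

end SCF
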