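import Pool.Agent.SCF.TargetsTop
import Pool.Agent.SCF.Targets

/-!
# SCF: target GNR (generic points near a given solution)
-/

set_option autoImplicit false

namespace SCF

open Module Filter Topology

namespace GNR_

theorem dist_fl {n r : ℕ} {G G0 : Fl n r} {ε : ℝ} (hε : 0 < ε)
    (h : ∀ j a b, ‖G j a b - G0 j a b‖ < ε) : dist G G0 < ε := by
  rw [dist_pi_lt_iff hε]
  intro j
  rw [dist_pi_lt_iff hε]
  intro a
  rw [dist_pi_lt_iff hε]
  intro b
  rw [dist_eq_norm]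
  exact h j a b

theorem dist_mat {k n : ℕ} {M M0 : Fin k → Fin n → ℂ} {ε : ℝ} (hε : 0 < ε)
    (h : ∀ a b, ‖M a b - M0 a b‖ < ε) : dist M M0 < ε := by
  rw [dist_pi_lt_iff hε]
  intro a
  rw [dist_pi_lt_iff hε]
  intro b
  rw [dist_eq_norm]
  exact h a b

theorem std_norm {k n : ℕ} {M : Fin k → Fin n → ℂ} (hM : Std M) (a : Fin k) (c : Fin n)
    (hc : (c : ℕ) < k) : ‖M a c‖ ≤ 1 := by
  rw [hM a c hc]
  split_ifs <;> simp

end GNR_

open GNR_ in
theorem p_GNR (h_CHT : T_CHT) (h_DET : T_DET) (h_BND : T_BND) (h_PRC : T_PRC) (h_STD : T_STD)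
    (h_STU : T_STU) (h_SGS : T_SGS) (h_SPG : T_SPG) : T_GNR := by
  intro k n r lam hSP G0 hInd hCht H0 hH0 U hU V hV
  have hkn := hSP.kn
  obtain ⟨M0, hM0, hspan⟩ := h_STD k n H0 hkn hH0.1 (hCht H0 hH0)
  obtain ⟨hli, -, -, -⟩ := h_STU k n M0 hkn hM0
  have hU' : U ∈ 𝓝 (pr (Submodule.span ℂ (Set.range M0))) := by
    rw [hspan]
    exact hU
  have hev1 := h_PRC k n M0 hli U hU'
  obtain ⟨C, hC, hev2⟩ := h_BND k n r lam G0 hInd hCht
  obtain ⟨ε1, hε1, h1⟩ := Metric.eventually_nhds_iff.1 hev1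
  obtain ⟨ε2, hε2, h2⟩ := Metric.eventually_nhds_iff.1 (hev2.and (show ∀ᶠ G in 𝓝 G0, G ∈ V from hV))
  have hsol0 : Submodule.span ℂ (Set.range M0) ∈ Sch k lam G0 := by
    rw [hspan]
    exact hH0
  obtain ⟨G, M, x, hG1, hG2, hM1, hM2, hsol, hx, hfix⟩ :=
    h_CHT k n r lam hSP G0 hInd M0 hM0 hsol0 (min ε1 ε2) (lt_min hε1 hε2)
  have hdG : dist G G0 < ε2 := dist_fl hε2 fun j a b => (hG2 j a b).trans_le (min_le_right _ _)
  have hdM : dist M M0 < ε1 := dist_mat hε1 fun a b => (hM2 a b).trans_le (min_le_left _ _)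
  obtain ⟨hbd, hGV⟩ := h2 hdG
  refine ⟨G, hGV, ?_, _, hsol, h1 hdM⟩
  refine h_DET (Fin r × Fin n × Fin n) (Fin r × Fin n × Fin n) (Fin k × Fin n) x
    (fun p => G p.1 p.2.1 p.2.2) (fun q => M q.1 q.2) (C * 1) ?_ ?_ hx le_rfl
  · intro σ hσ q
    have hGσ : sgF σ G = G := by
      funext j a b
      exact hσ (j, a, b)
    obtain ⟨hs1, hs2⟩ := h_SPG k n σ M
    have hmem : Submodule.span ℂ (Set.range fun a b => σ (M a b)) ∈ Sch k lam G := by
      rw [← hs1]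
      have h3 : sg σ (Submodule.span ℂ (Set.range M)) ∈ Sch k lam (sgF σ G) := by
        rw [h_SGS k n r lam σ G]
        exact Set.mem_image_of_mem _ hsol
      rwa [hGσ] at h3
    exact hbd _ hmem (fun b => σ (M q.1 b))
      (Submodule.subset_span (Set.mem_range_self (f := fun a b => σ (M a b)) q.1)) 1 zero_le_one
      (fun c hc => std_norm (hs2 hM1) q.1 c hc) q.2
  · intro σ hσ hσ' i
    exact hfix σ (fun j a b => hσ (j, a, b)) (fun a b => hσ' (a, b)) i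

end SCF
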