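import Pool.Agent.SCF.Targets

set_option autoImplicit false

/-! # SCF-GO (MP_0c25eb_ag): goodness is open, limits of solutions -/

namespace SCF

open Module Filter Topology

theorem p_GO (h1 : T_CPT) (h2 : T_LR) : T_GO := by
  intro k n r lam G0 hI hG
  by_contra hcon
  have hfr : ∃ᶠ G in 𝓝 G0, ¬ Good k lam G := not_eventually.mp hcon
  obtain ⟨G, hGt, hGn⟩ := exists_seq_forall_of_frequently hfr
  have h3 : ∀ ν, ∃ H ∈ Sch k lam (G ν), ∃ B, IsRel (G ν) H H B ∧ B ≠ 0 := by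
    intro ν
    have h := hGn ν
    unfold Good at h
    push Not at h
    exact h
  choose H hH B hB using h3
  obtain ⟨H0, hH0, φ, hφ, hlim⟩ := h1 k n r lam G G0 hI hGt H hH
  obtain ⟨B0, hB0, hB0n⟩ := h2 n r (fun ν => G (φ ν)) G0 hI (hGt.comp hφ.tendsto_atTop)
    (fun ν => H (φ ν)) (fun ν => H (φ ν)) H0 H0 hlim hlim (fun ν => B (φ ν)) (fun ν => hB (φ ν))
  exact hB0n (hG H0 hH0 B0 hB0)

theorem p_NEAR (h1 : T_CPT) : T_NEAR := by
  intro k n r lam G0 hI U hU hall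
  by_contra hcon
  have hfr : ∃ᶠ G in 𝓝 G0, ¬ ∀ H ∈ Sch k lam G, pr H ∈ U := not_eventually.mp hcon
  obtain ⟨G, hGt, hGn⟩ := exists_seq_forall_of_frequently hfr
  have h3 : ∀ ν, ∃ H ∈ Sch k lam (G ν), pr H ∉ U := by
    intro ν
    have h := hGn ν
    push Not at h
    exact h
  choose H hH hHU using h3
  obtain ⟨H0, hH0, φ, hφ, hlim⟩ := h1 k n r lam G G0 hI hGt H hH
  have h4 : pr H0 ∈ Uᶜ :=
    hU.isClosed_compl.mem_of_tendsto hlim (Eventually.of_forall fun ν => hHU (φ ν))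
  exact h4 (hall H0 hH0)

end SCF
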