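import Pool.Agent.SCF.Targets

/-!
# SCF-ID: the algebraic identity
-/

set_option autoImplicit false

namespace SCF

open ComplexConjugate Finset

namespace ID_

/-- difference quotient of `ev` -/
theorem dq {n : ℕ} (v : Fin n → ℂ) (x y : ℂ) :
    ev v x - ev v y = (x - y) * ∑ c : Fin n, v c * ∑ l ∈ range (c : ℕ),
      x ^ l * y ^ ((c : ℕ) - 1 - l) := by
  unfold ev
  rw [← Finset.sum_sub_distrib, Finset.mul_sum]
  refine Finset.sum_congr rfl fun c _ => ?_
  have h := (Commute.all x y).geom_sum₂_mul (c : ℕ)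
  rw [← mul_sub, ← h]
  ring

variable {ι : Type} [Fintype ι] {n : ℕ} {t : ι → ℝ} {ν : ι → Fin n → ℂ}

theorem pw (h : ∀ c b : Fin n, ∑ p, ν p c * ((t p : ℂ)) ^ (b : ℕ) = 0) (s : ℂ) (l : ℕ)
    (hl : l < n) : ∑ p, ev (ν p) s * (t p : ℂ) ^ l = 0 := by
  have h1 : ∀ p, ev (ν p) s * (t p : ℂ) ^ l =
      ∑ c : Fin n, s ^ (c : ℕ) * (ν p c * (t p : ℂ) ^ l) := by
    intro p
    unfold ev
    rw [Finset.sum_mul]
    refine Finset.sum_congr rfl fun c _ => ?_
    ring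
  simp_rw [h1]
  rw [Finset.sum_comm]
  refine Finset.sum_eq_zero fun c _ => ?_
  rw [← Finset.mul_sum]
  have h2 := h c ⟨l, hl⟩
  simp only at h2
  rw [h2, mul_zero]

theorem sh (h : ∀ c b : Fin n, ∑ p, ν p c * ((t p : ℂ)) ^ (b : ℕ) = 0) (w : ℂ) (c : Fin n)
    (l : ℕ) (hl : l < n) : ∑ p, ν p c * ((t p : ℂ) - w) ^ l = 0 := by
  have h1 : ∀ p, ν p c * ((t p : ℂ) - w) ^ l = ∑ m ∈ range (l + 1),
      ((-w) ^ (l - m) * (l.choose m : ℂ)) * (ν p c * (t p : ℂ) ^ m) := by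
    intro p
    rw [sub_eq_add_neg, add_pow, Finset.mul_sum]
    refine Finset.sum_congr rfl fun m _ => ?_
    ring
  simp_rw [h1]
  rw [Finset.sum_comm]
  refine Finset.sum_eq_zero fun m hm => ?_
  rw [← Finset.mul_sum]
  have hm' : m < n := by
    rw [Finset.mem_range] at hm
    omega
  have h2 := h c ⟨m, hm'⟩
  simp only at h2
  rw [h2, mul_zero]

theorem cj_ev {n : ℕ} (v : Fin n → ℂ) (z : ℂ) :
    conj (ev v z) = ev (fun c => conj (v c)) (conj z) := by
  unfold ev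
  rw [map_sum]
  refine Finset.sum_congr rfl fun c _ => ?_
  rw [map_mul, map_pow]

theorem step1 (h : ∀ c b : Fin n, ∑ p, ν p c * ((t p : ℂ)) ^ (b : ℕ) = 0) (s : ℂ) (w : Fin n → ℂ)
    (b : ℂ) (hb : ∀ p, (t p : ℂ) - b ≠ 0) :
    ∑ p, ev (ν p) s * ev w (t p) / ((t p : ℂ) - b) =
      ev w b * ∑ p, ev (ν p) s / ((t p : ℂ) - b) := by
  rw [← sub_eq_zero, Finset.mul_sum, ← Finset.sum_sub_distrib]
  have h1 : ∀ p, ev (ν p) s * ev w (t p) / ((t p : ℂ) - b) - ev w b *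
      (ev (ν p) s / ((t p : ℂ) - b)) = ∑ c : Fin n, ∑ l ∈ range (c : ℕ),
        (w c * b ^ ((c : ℕ) - 1 - l)) * (ev (ν p) s * (t p : ℂ) ^ l) := by
    intro p
    have h2 : ev (ν p) s * ev w (t p) / ((t p : ℂ) - b) - ev w b *
        (ev (ν p) s / ((t p : ℂ) - b)) = ev (ν p) s * (ev w (t p) - ev w b) /
          ((t p : ℂ) - b) := by
      ring
    rw [h2, dq, mul_left_comm, mul_div_cancel_left₀ _ (hb p), Finset.mul_sum]
    refine Finset.sum_congr rfl fun c _ => ?_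
    rw [Finset.mul_sum, Finset.mul_sum]
    refine Finset.sum_congr rfl fun l _ => ?_
    ring
  simp_rw [h1]
  rw [Finset.sum_comm]
  refine Finset.sum_eq_zero fun c _ => ?_
  rw [Finset.sum_comm]
  refine Finset.sum_eq_zero fun l hl => ?_
  rw [← Finset.mul_sum, pw h s l (by rw [Finset.mem_range] at hl; omega), mul_zero]

theorem step2 (h : ∀ c b : Fin n, ∑ p, ν p c * ((t p : ℂ)) ^ (b : ℕ) = 0) (s w : ℂ)
    (hb : ∀ p, (t p : ℂ) - w - s ≠ 0) :
    ∑ p, ev (ν p) s / ((t p : ℂ) - w - s) =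
      ∑ p, ev (ν p) ((t p : ℂ) - w) / ((t p : ℂ) - w - s) := by
  rw [← sub_eq_zero, ← Finset.sum_sub_distrib]
  have h1 : ∀ p, ev (ν p) s / ((t p : ℂ) - w - s) - ev (ν p) ((t p : ℂ) - w) /
      ((t p : ℂ) - w - s) = ∑ c : Fin n, ∑ l ∈ range (c : ℕ),
        (-(s ^ ((c : ℕ) - 1 - l))) * (ν p c * ((t p : ℂ) - w) ^ l) := by
    intro p
    have h2 : ev (ν p) s / ((t p : ℂ) - w - s) - ev (ν p) ((t p : ℂ) - w) /
        ((t p : ℂ) - w - s) = -((ev (ν p) ((t p : ℂ) - w) - ev (ν p) s) /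
          ((t p : ℂ) - w - s)) := by
      ring
    rw [h2, dq, mul_div_cancel_left₀ _ (hb p), ← Finset.sum_neg_distrib]
    refine Finset.sum_congr rfl fun c _ => ?_
    rw [Finset.mul_sum, ← Finset.sum_neg_distrib]
    refine Finset.sum_congr rfl fun l _ => ?_
    ring
  simp_rw [h1]
  rw [Finset.sum_comm]
  refine Finset.sum_eq_zero fun c _ => ?_
  rw [Finset.sum_comm]
  refine Finset.sum_eq_zero fun l hl => ?_
  rw [← Finset.mul_sum, sh h w c l (by rw [Finset.mem_range] at hl; omega), mul_zero]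

end ID_

theorem p_ID : T_ID := by
  intro ι _ n t ν h η hη
  have hI := Complex.I_ne_zero
  have hη' : (η : ℂ) ≠ 0 := by exact_mod_cast hη
  have hne : ∀ p q, (t p : ℂ) - ((t q : ℂ) + Complex.I * η) ≠ 0 := by
    intro p q h0
    have h1 := congrArg Complex.im h0
    simp at h1
    exact hη h1
  have hne' : ∀ p q, (t p : ℂ) - Complex.I * η - (t q : ℂ) ≠ 0 := by
    intro p q h0
    apply hne p q
    rw [← h0]
    ring
  have hden : ∀ p q, (η : ℂ) + Complex.I * ((t p : ℂ) - (t q : ℂ)) =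
      Complex.I * ((t p : ℂ) - ((t q : ℂ) + Complex.I * η)) := by
    intro p q
    have h2 : Complex.I * (Complex.I * (η : ℂ)) = -(η : ℂ) := by
      rw [← mul_assoc, Complex.I_mul_I]
      ring
    rw [mul_sub, mul_sub, mul_add, h2]
    ring
  rw [Finset.sum_comm]
  nth_rewrite 2 [Finset.sum_comm]
  refine Finset.sum_congr rfl fun q _ => ?_
  have e1 : ∀ p, ev (ν p) (t q) * conj (ev (ν q) (t p)) / (η + Complex.I * (t p - t q)) =
      (Complex.I)⁻¹ * (ev (ν p) (t q) * ev (fun c => conj (ν q c)) (t p) /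
        ((t p : ℂ) - ((t q : ℂ) + Complex.I * η))) := by
    intro p
    rw [ID_.cj_ev, hden, Complex.conj_ofReal]
    have := hne p q
    field_simp
  have e2 : ∀ p, ev (ν p) (t p - Complex.I * η) * conj (ev (ν q) (t q - Complex.I * η)) /
      (η + Complex.I * (t p - t q)) =
      (Complex.I)⁻¹ * (ev (fun c => conj (ν q c)) ((t q : ℂ) + Complex.I * η) *
        (ev (ν p) ((t p : ℂ) - Complex.I * η) / ((t p : ℂ) - Complex.I * η - (t q : ℂ)))) := by
    intro p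
    have h3 : conj ((t q : ℂ) - Complex.I * η) = (t q : ℂ) + Complex.I * η := by
      simp
    rw [ID_.cj_ev, hden, h3]
    have h4 : (t p : ℂ) - ((t q : ℂ) + Complex.I * η) =
        (t p : ℂ) - Complex.I * η - (t q : ℂ) := by
      ring
    rw [h4]
    have := hne' p q
    field_simp
  simp_rw [e1, e2]
  rw [← Finset.mul_sum, ← Finset.mul_sum, ← Finset.mul_sum,
    ID_.step1 h (t q) _ _ (fun p => hne p q), ← ID_.step2 h (t q) _ (fun p => hne' p q)]
  congr 2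
  refine Finset.sum_congr rfl fun p _ => ?_
  congr 1
  ring

end SCF
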