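import Pool.Agent.SCF.TargetsChart

set_option autoImplicit false

/-!
# SCF, target IDX: the number of the free parameters
-/

namespace SCF

open Module Filter Topology

open Classical in
theorem IDX_.card_lt (n m : ℕ) (h : m ≤ n) :
    (Finset.univ.filter fun b : Fin n => (b : ℕ) < m).card = m := by
  have : (Finset.univ.filter fun b : Fin n => (b : ℕ) < m) =
      (Finset.univ : Finset (Fin m)).map (Fin.castLEEmb h) := by
    ext b
    simp only [Finset.mem_filter, Finset.mem_univ, true_and, Finset.mem_map, Fin.castLEEmb_apply]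
    constructor
    · intro hb
      exact ⟨⟨b, hb⟩, by ext; simp⟩
    · rintro ⟨a, rfl⟩
      simp
  rw [this, Finset.card_map, Finset.card_univ, Fintype.card_fin]

open Classical in
theorem IDX_.card_ge (n k : ℕ) (h : k ≤ n) :
    (Finset.univ.filter fun b : Fin n => k ≤ (b : ℕ)).card = n - k := by
  have h1 := Finset.card_filter_add_card_filter_not (s := (Finset.univ : Finset (Fin n))) (fun b : Fin n => (b : ℕ) < k)
  rw [IDX_.card_lt n k h, Finset.card_univ, Fintype.card_fin] at h1
  have h2 : (Finset.univ.filter fun b : Fin n => ¬ ((b : ℕ) < k)) = (Finset.univ.filter fun b : Fin n => k ≤ (b : ℕ)) := by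
    apply Finset.filter_congr
    intro b _
    exact not_lt
  rw [h2] at h1
  omega

open Classical in
theorem IDX_.card_Jm (k n r : ℕ) (lam : Fin r → Fin k → ℕ) (j : Fin r) (hm : StrictMono (pos k n lam j))
    (hn : ∀ i, pos k n lam j i < n) (m : ℕ) (hmk : m ≤ k) :
    (Finset.univ.filter fun b : Fin n => ∃ i : Fin k, (i : ℕ) < m ∧ (b : ℕ) = pos k n lam j i).card = m := by
  have : (Finset.univ.filter fun b : Fin n => ∃ i : Fin k, (i : ℕ) < m ∧ (b : ℕ) = pos k n lam j i) =
      (Finset.univ.filter fun i : Fin k => (i : ℕ) < m).image (fun i => (⟨pos k n lam j i, hn i⟩ : Fin n)) := by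
    ext b
    simp only [Finset.mem_filter, Finset.mem_univ, true_and, Finset.mem_image]
    constructor
    · rintro ⟨i, h1, h2⟩
      exact ⟨i, h1, by ext; exact h2.symm⟩
    · rintro ⟨i, h1, h2⟩
      exact ⟨i, h1, by rw [← h2]⟩
  rw [this, Finset.card_image_of_injective, IDX_.card_lt k m hmk]
  intro a b hab
  have : pos k n lam j a = pos k n lam j b := by
    have := congrArg Fin.val hab
    exact this
  exact hm.injective this

open Classical in
theorem IDX_.card_notJm (k n r : ℕ) (lam : Fin r → Fin k → ℕ) (j : Fin r) (hm : StrictMono (pos k n lam j))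
    (hn : ∀ i, pos k n lam j i < n) :
    (Finset.univ.filter fun b : Fin n => ¬ Jm k n lam j b).card = n - k := by
  have h1 := Finset.card_filter_add_card_filter_not (s := (Finset.univ : Finset (Fin n))) (fun b : Fin n => Jm k n lam j b)
  have h2 := IDX_.card_Jm k n r lam j hm hn k le_rfl
  have h3 : (Finset.univ.filter fun b : Fin n => ∃ i : Fin k, (i : ℕ) < k ∧ (b : ℕ) = pos k n lam j i) =
      (Finset.univ.filter fun b : Fin n => Jm k n lam j b) := by
    apply Finset.filter_congr
    intro b _
    unfold Jm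
    constructor
    · rintro ⟨i, _, h⟩; exact ⟨i, h⟩
    · rintro ⟨i, h⟩; exact ⟨i, i.2, h⟩
  rw [h3] at h2
  rw [h2, Finset.card_univ, Fintype.card_fin] at h1
  omega

open Classical in
theorem IDX_.card_Bf (k n r : ℕ) (lam : Fin r → Fin k → ℕ) (j : Fin r) (hm : StrictMono (pos k n lam j))
    (hn : ∀ i, pos k n lam j i < n) (i : Fin k) :
    (Finset.univ.filter fun b : Fin n => Bf k n lam j i b).card + (i : ℕ) = pos k n lam j i := by
  have h1 := Finset.card_filter_add_card_filter_not
    (s := (Finset.univ.filter fun b : Fin n => (b : ℕ) < pos k n lam j i)) (fun b : Fin n => Jm k n lam j b)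
  rw [IDX_.card_lt n _ (hn i).le, Finset.filter_filter, Finset.filter_filter] at h1
  have h2 := IDX_.card_Jm k n r lam j hm hn i i.2.le
  have h3 : (Finset.univ.filter fun b : Fin n => ∃ l : Fin k, (l : ℕ) < (i : ℕ) ∧ (b : ℕ) = pos k n lam j l) =
      (Finset.univ.filter fun b : Fin n => (b : ℕ) < pos k n lam j i ∧ Jm k n lam j b) := by
    apply Finset.filter_congr
    intro b _
    unfold Jm
    constructor
    · rintro ⟨l, h, h'⟩
      refine ⟨?_, l, h'⟩
      rw [h']
      exact hm h
    · rintro ⟨h, l, h'⟩
      refine ⟨l, ?_, h'⟩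
      rw [h'] at h
      exact hm.lt_iff_lt.mp h
  rw [h3] at h2
  rw [h2] at h1
  have h4 : (Finset.univ.filter fun b : Fin n => (b : ℕ) < pos k n lam j i ∧ ¬ Jm k n lam j b) =
      (Finset.univ.filter fun b : Fin n => Bf k n lam j i b) := by
    ext b
    simp only [Finset.mem_filter, Finset.mem_univ, true_and]
    exact Iff.rfl
  rw [h4] at h1
  omega

theorem p_IDX (h1 : T_POS) : T_IDX := by
  classical
  intro k n r lam hS
  have hkn := hS.kn
  have hm : ∀ j, StrictMono (pos k n lam j) := fun j => (h1 k n r lam hS j).1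
  have hn : ∀ j i, pos k n lam j i < n := fun j => (h1 k n r lam hS j).2.1
  refine ⟨Fintype.equivOfCardEq ?_⟩
  rw [Fintype.card_subtype, Finset.card_filter, Fintype.sum_sum_type, Fintype.sum_sum_type, Fintype.sum_sum_type]
  have e1 : (∑ p : Fin k × Fin n, if Act k n r lam (Sum.inl p) then 1 else 0) = k * (n - k) := by
    rw [Fintype.sum_prod_type]
    have : ∀ a : Fin k, (∑ b : Fin n, if Act k n r lam (Sum.inl (a, b)) then 1 else 0) = n - k := by
      intro a
      rw [← IDX_.card_ge n k hkn, Finset.card_filter]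
      exact Finset.sum_congr rfl fun b _ => if_congr Iff.rfl rfl rfl
    rw [Finset.sum_congr rfl fun a _ => this a]
    simp
  have e2 : (∑ p : Fin r × Fin n × Fin n, if Act k n r lam (Sum.inr (Sum.inl p)) then 1 else 0) = r * ((n - k) * n) := by
    rw [Fintype.sum_prod_type]
    have : ∀ j : Fin r, (∑ q : Fin n × Fin n, if Act k n r lam (Sum.inr (Sum.inl (j, q))) then 1 else 0) = (n - k) * n := by
      intro j
      rw [Fintype.sum_prod_type]
      rw [← IDX_.card_notJm k n r lam j (hm j) (hn j), Finset.card_filter, Finset.sum_mul]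
      refine Finset.sum_congr rfl fun a _ => ?_
      have : ∀ b : Fin n, (if Act k n r lam (Sum.inr (Sum.inl (j, a, b))) then 1 else 0) =
          (if ¬ Jm k n lam j a then 1 else 0) := fun b => if_congr Iff.rfl rfl rfl
      rw [Finset.sum_congr rfl fun b _ => this b, Finset.sum_const, Finset.card_univ, Fintype.card_fin]
      rw [smul_eq_mul, mul_comm]
    rw [Finset.sum_congr rfl fun a _ => this a]
    simp
  have e3 : (∑ p : Fin r × Fin k × Fin k, if Act k n r lam (Sum.inr (Sum.inr (Sum.inl p))) then 1 else 0) = r * (k * k) := by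
    have : ∀ p : Fin r × Fin k × Fin k, (if Act k n r lam (Sum.inr (Sum.inr (Sum.inl p))) then 1 else 0) = 1 :=
      fun p => if_pos trivial
    rw [Finset.sum_congr rfl fun a _ => this a]
    simp
  have e4 : (∑ p : Fin r × Fin k × Fin n, if Act k n r lam (Sum.inr (Sum.inr (Sum.inr p))) then 1 else 0) + k * (n - k) =
      r * (k * (n - k)) := by
    have hs : k * (n - k) = ∑ j, ∑ i, lam j i := hS.sum.symm
    conv_lhs => rw [hs]
    rw [Fintype.sum_prod_type, ← Finset.sum_add_distrib]
    have : ∀ j : Fin r, (∑ q : Fin k × Fin n, if Act k n r lam (Sum.inr (Sum.inr (Sum.inr (j, q)))) then 1 else 0) +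
        ∑ i, lam j i = k * (n - k) := by
      intro j
      rw [Fintype.sum_prod_type, ← Finset.sum_add_distrib]
      have : ∀ i : Fin k, (∑ b : Fin n, if Act k n r lam (Sum.inr (Sum.inr (Sum.inr (j, i, b)))) then 1 else 0) +
          lam j i = n - k := by
        intro i
        have h5 := IDX_.card_Bf k n r lam j (hm j) (hn j) i
        rw [Finset.card_filter] at h5
        have h6 : (∑ b : Fin n, if Act k n r lam (Sum.inr (Sum.inr (Sum.inr (j, i, b)))) then 1 else 0) =
            ∑ b : Fin n, if Bf k n lam j i b then 1 else 0 :=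
          Finset.sum_congr rfl fun b _ => if_congr Iff.rfl rfl rfl
        rw [h6]
        have h7 : lam j i ≤ n - k := hS.le j i
        unfold pos at h5
        omega
      rw [Finset.sum_congr rfl fun a _ => this a]
      simp
    rw [Finset.sum_congr rfl fun a _ => this a]
    simp
  rw [e1, e2, e3, Fintype.card_prod, Fintype.card_prod, Fintype.card_fin, Fintype.card_fin]
  have e5 : r * ((n - k) * n) + r * (k * k) + r * (k * (n - k)) = r * (n * n) := by
    obtain ⟨m, rfl⟩ := Nat.exists_eq_add_of_le hkn
    rw [Nat.add_sub_cancel_left]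
    ring
  omega

end SCF
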