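import Pool.Agent.SCF.Targets

/-!
# Project SCF (MP_0c25eb_ag, S00015): L1, the pair lemma
-/

set_option autoImplicit false

namespace SCF

open Module

namespace L1_

/-- composition with the inclusion and the quotient map -/
noncomputable def Phi {n : ℕ} (H H' : Submodule ℂ (Fin n → ℂ)) :
    (((Fin n → ℂ) ⧸ H) →ₗ[ℂ] H') →ₗ[ℂ] ((Fin n → ℂ) →ₗ[ℂ] (Fin n → ℂ)) where
  toFun f := H'.subtype ∘ₗ f ∘ₗ H.mkQ
  map_add' f g := by
    ext; simp
  map_smul' c f := by
    ext; simp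

theorem mem_range_Phi {n : ℕ} (H H' : Submodule ℂ (Fin n → ℂ)) (ξ : Module.Dual ℂ (Fin n → ℂ)) (h : Fin n → ℂ)
    (hξ : ∀ v ∈ H, ξ v = 0) (hh : h ∈ H') : ξ.smulRight h ∈ LinearMap.range (Phi H H') := by
  refine ⟨(H.liftQ ξ fun v hv => by simpa using hξ v hv).smulRight ⟨h, hh⟩, ?_⟩
  refine LinearMap.ext fun v => ?_
  simp [Phi]

theorem finrank_Phi {n k : ℕ} (H H' : Submodule ℂ (Fin n → ℂ)) (hH : finrank ℂ H = k) (hH' : finrank ℂ H' = k) :
    finrank ℂ (LinearMap.range (Phi H H')) ≤ (n - k) * k := by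
  refine (LinearMap.finrank_range_le _).trans ?_
  rw [Module.finrank_linearMap, hH']
  have h := Submodule.finrank_quotient_add_finrank H
  rw [hH, Module.finrank_fin_fun] at h
  have h2 : finrank ℂ ((Fin n → ℂ) ⧸ H) = n - k := by omega
  rw [h2]

theorem finrank_Fs {n : ℕ} (g : Fin n → Fin n → ℂ) (m : ℕ) : finrank ℂ (Fs g m) ≤ m := by
  classical
  have h : (g '' {a : Fin n | (a : ℕ) < m}) = ((Finset.univ.filter fun a : Fin n => (a : ℕ) < m).image g : Finset (Fin n → ℂ)) := by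
    ext v
    simp
  unfold Fs
  rw [h]
  refine (finrank_span_finset_le_card _).trans ?_
  refine Finset.card_image_le.trans ?_
  have h2 : (Finset.univ.filter fun a : Fin n => (a : ℕ) < m).card ≤ (Finset.range m).card := by
    refine Finset.card_le_card_of_injOn (fun a => (a : ℕ)) ?_ ?_
    · intro a ha
      simpa using ha
    · intro a _ b _ hab
      exact Fin.ext hab
  rwa [Finset.card_range] at h2

theorem Fs_mono {n : ℕ} (g : Fin n → Fin n → ℂ) {m m' : ℕ} (h : m ≤ m') : Fs g m ≤ Fs g m' := by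
  unfold Fs
  refine Submodule.span_mono (Set.image_mono ?_)
  intro a ha
  exact lt_of_lt_of_le ha h

theorem mem_Fs {n : ℕ} (g : Fin n → Fin n → ℂ) {m : ℕ} (a : Fin n) (h : (a : ℕ) < m) : g a ∈ Fs g m :=
  Submodule.subset_span ⟨a, h, rfl⟩

end L1_

/-- L1 -/
theorem p_L1 (h_GR : T_GR) : T_L1 := by
  classical
  intro k n r lam hSP G hG H hH H' hH' hne
  obtain ⟨hHk, hHs⟩ := hH
  obtain ⟨hHk', hHs'⟩ := hH'
  -- the independent vectors
  have hgr : ∀ j : Fin r, ∃ h : Fin k → Fin n → ℂ, LinearIndependent ℂ h ∧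
      ∀ i : Fin k, h i ∈ H' ⊓ Fs (G j) (n - k + (i : ℕ) + 1 - lam j i) := fun j => h_GR n k _ (hHs' j)
  choose h hind hmem using hgr
  set F : Fin r × Fin k → Submodule ℂ (Fin n → ℂ) := fun p => Fs (G p.1) (n - k + (p.2 : ℕ) + 1 - lam p.1 p.2) with hF
  set X : Fin r × Fin k → Submodule ℂ (Module.Dual ℂ (Fin n → ℂ)) := fun p => (H ⊔ F p).dualAnnihilator with hX
  have hXH : ∀ p (ξ : X p) (v : Fin n → ℂ), v ∈ H → (ξ : Module.Dual ℂ (Fin n → ℂ)) v = 0 := by
    intro p ξ v hv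
    exact (Submodule.mem_dualAnnihilator _).1 ξ.2 v (Submodule.mem_sup_left hv)
  have hXF : ∀ p (ξ : X p) (v : Fin n → ℂ), v ∈ F p → (ξ : Module.Dual ℂ (Fin n → ℂ)) v = 0 := by
    intro p ξ v hv
    exact (Submodule.mem_dualAnnihilator _).1 ξ.2 v (Submodule.mem_sup_right hv)
  have hXdim : ∀ p, lam p.1 p.2 ≤ finrank ℂ (X p) := by
    intro p
    have h1 := Subspace.finrank_add_finrank_dualAnnihilator_eq (H ⊔ F p)
    have h2 := Submodule.finrank_sup_add_finrank_inf_eq H (F p)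
    have h3 : finrank ℂ (F p) ≤ n - k + (p.2 : ℕ) + 1 - lam p.1 p.2 := L1_.finrank_Fs _ _
    have h4 : (p.2 : ℕ) + 1 ≤ finrank ℂ ↥(H ⊓ F p) := hHs p.1 p.2
    rw [Module.finrank_fin_fun] at h1
    have h5 := hSP.le p.1 p.2
    have h6 := hSP.kn
    have h7 : finrank ℂ (X p) = finrank ℂ ↥((H ⊔ F p).dualAnnihilator) := rfl
    omega
  -- the map
  let Psi : ((p : Fin r × Fin k) → X p) →ₗ[ℂ] ((Fin n → ℂ) →ₗ[ℂ] (Fin n → ℂ)) :=
    { toFun := fun ξ => ∑ p, ((ξ p : Module.Dual ℂ (Fin n → ℂ))).smulRight (h p.1 p.2)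
      map_add' := by
        intro ξ ξ'
        rw [← Finset.sum_add_distrib]
        refine Finset.sum_congr rfl fun p _ => ?_
        refine LinearMap.ext fun v => ?_
        simp [add_smul]
      map_smul' := by
        intro c ξ
        rw [RingHom.id_apply, Finset.smul_sum]
        refine Finset.sum_congr rfl fun p _ => ?_
        refine LinearMap.ext fun v => ?_
        simp [mul_smul] }
  have hPsi : ∀ ξ, Psi ξ = ∑ p, ((ξ p : Module.Dual ℂ (Fin n → ℂ))).smulRight (h p.1 p.2) := fun _ => rfl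
  have hle : LinearMap.range Psi ≤ LinearMap.range (L1_.Phi H H') := by
    rintro _ ⟨ξ, rfl⟩
    rw [hPsi]
    refine Submodule.sum_mem _ fun p _ => ?_
    exact L1_.mem_range_Phi H H' _ _ (fun v hv => hXH p (ξ p) v hv) (hmem p.1 p.2).1
  have htr : ∀ ξ : Module.Dual ℂ (Fin n → ℂ), ∀ v : Fin n → ℂ, LinearMap.trace ℂ (Fin n → ℂ) (ξ.smulRight v) = ξ v := by
    intro ξ v
    exact LinearMap.trace_smulRight ξ v
  have htr0 : ∀ ξ, LinearMap.trace ℂ (Fin n → ℂ) (Psi ξ) = 0 := by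
    intro ξ
    rw [hPsi, map_sum]
    refine Finset.sum_eq_zero fun p _ => ?_
    rw [htr]
    exact hXF p (ξ p) _ (hmem p.1 p.2).2
  have hlt : finrank ℂ (LinearMap.range Psi) < finrank ℂ (LinearMap.range (L1_.Phi H H')) := by
    refine Submodule.finrank_lt_finrank_of_lt (lt_of_le_of_ne hle ?_)
    intro heq
    have hnle : ¬ H' ≤ H := by
      intro hle'
      exact hne (Submodule.eq_of_le_of_finrank_eq hle' (by rw [hHk, hHk'])).symm
    obtain ⟨v0, hv0, hv0'⟩ := Set.not_subset.1 hnle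
    obtain ⟨ξ0, hξ0, hξ0'⟩ := Submodule.exists_dual_map_eq_bot_of_notMem hv0' inferInstance
    have hz : ∀ v ∈ H, ξ0 v = 0 := by
      intro v hv
      have h1 : ξ0 v ∈ H.map ξ0 := Submodule.mem_map_of_mem hv
      rw [hξ0'] at h1
      simpa using h1
    have h1 := L1_.mem_range_Phi H H' ξ0 v0 hz hv0
    rw [← heq] at h1
    obtain ⟨ξ, hξ⟩ := h1
    have h2 := htr0 ξ
    rw [hξ, htr] at h2
    exact hξ0 h2
  have hker : LinearMap.ker Psi ≠ ⊥ := by
    intro hbot
    have h1 := LinearMap.finrank_range_add_finrank_ker Psi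
    rw [hbot, finrank_bot, add_zero, Module.finrank_pi_fintype] at h1
    have h2 : (∑ p : Fin r × Fin k, lam p.1 p.2) ≤ ∑ p : Fin r × Fin k, finrank ℂ (X p) :=
      Finset.sum_le_sum fun p _ => hXdim p
    rw [Fintype.sum_prod_type, hSP.sum] at h2
    have h3 := L1_.finrank_Phi H H' hHk hHk'
    rw [mul_comm] at h3
    omega
  obtain ⟨ξ, hξk, hξ0⟩ := Submodule.exists_mem_ne_zero_of_ne_bot hker
  rw [LinearMap.mem_ker] at hξk
  -- the relation
  set f : Fin r → ((Fin n → ℂ) →ₗ[ℂ] (Fin n → ℂ)) :=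
    fun j => ∑ i, ((ξ (j, i) : Module.Dual ℂ (Fin n → ℂ))).smulRight (h j i) with hf
  have hfv : ∀ j v, f j v = ∑ i, (ξ (j, i) : Module.Dual ℂ (Fin n → ℂ)) v • h j i := by
    intro j v
    simp [hf, LinearMap.sum_apply]
  have hBv : ∀ j v, (LinearMap.toMatrix' (f j)).mulVec v = f j v := fun j v => LinearMap.toMatrix'_mulVec _ _
  refine ⟨fun j => LinearMap.toMatrix' (f j), ⟨?_, ?_, ?_, ?_⟩, ?_⟩
  · intro j v hv
    rw [hBv, hfv]
    refine Finset.sum_eq_zero fun i _ => ?_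
    rw [hXH (j, i) (ξ (j, i)) v hv, zero_smul]
  · intro j v
    rw [hBv, hfv]
    exact Submodule.sum_mem _ fun i _ => Submodule.smul_mem _ _ (hmem j i).1
  · intro j a
    rw [hBv, hfv]
    refine Submodule.sum_mem _ fun i _ => ?_
    by_cases ha : (a : ℕ) < n - k + (i : ℕ) + 1 - lam j i
    · rw [hXF (j, i) (ξ (j, i)) (G j a) (L1_.mem_Fs (G j) a ha), zero_smul]
      exact Submodule.zero_mem _
    · exact Submodule.smul_mem _ _ (L1_.Fs_mono (G j) (not_lt.1 ha) (hmem j i).2)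
  · show ∑ j, LinearMap.toMatrix' (f j) = 0
    rw [← map_sum]
    have h1 : ∑ j, f j = Psi ξ := by
      rw [hPsi, Fintype.sum_prod_type]
    rw [h1, hξk, map_zero]
  · intro hB
    refine hξ0 ?_
    funext p
    obtain ⟨j, i⟩ := p
    refine Subtype.ext (LinearMap.ext fun v => ?_)
    have h1 : f j v = 0 := by
      rw [← hBv]
      have h2 := congrFun hB j
      simp only [Pi.zero_apply] at h2
      rw [h2, Matrix.zero_mulVec]
    rw [hfv] at h1
    have h2 := Fintype.linearIndependent_iff.1 (hind j) _ h1 i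
    simpa using h2

end SCF
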