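import Pool.Agent.SCF.Targets

set_option autoImplicit false

namespace SCF

open Module Filter Topology Matrix
open scoped ComplexConjugate

namespace L2_

theorem mem_cj {n : ℕ} (H : Submodule ℂ (Fin n → ℂ)) (w : Fin n → ℂ) :
    w ∈ cj H ↔ (fun b => conj (w b)) ∈ H := by
  rfl

theorem ev_conj {n : ℕ} (v : Fin n → ℂ) (x : ℝ) :
    ev (fun b => conj (v b)) (x : ℂ) = conj (ev v (x : ℂ)) := by
  simp [ev, map_sum]

theorem ev_dot {n : ℕ} (v : Fin n → ℂ) (x : ℂ) :
    v ⬝ᵥ (fun b : Fin n => x ^ (b : ℕ)) = ev v x := rfl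

theorem tt_inj {n r : ℕ} (t : Fin r → Fin n → ℝ) (ht : Sep t) :
    Function.Injective (fun p : Fin r × Fin n => t p.1 p.2) := by
  rintro ⟨j, a⟩ ⟨j', a'⟩ h
  simp only at h
  by_cases hj : j = j'
  · subst hj
    rw [ht.inj j h]
  · exfalso
    rcases ht.sep j j' hj with h' | h'
    · exact absurd h (h' a a').ne
    · exact absurd h.symm (h' a' a).ne

end L2_

open L2_

theorem p_L2 (h1 : T_CORE) (h2 : T_SECI) : T_L2 := by
  intro n r t ht H B hrel
  classical
  -- the matrices
  set Γ : Fin r → Matrix (Fin n) (Fin n) ℂ := fun j => Matrix.of (sec t j) with hΓ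
  have hdet : ∀ j, IsUnit (Γ j).det := by
    intro j
    have := h2 n r t ht j
    rw [← Matrix.isUnit_iff_isUnit_det, ← Matrix.linearIndependent_rows_iff_isUnit]
    exact this
  have hdetT : ∀ j, IsUnit (Γ j)ᵀ.det := by
    intro j; rw [Matrix.det_transpose]; exact hdet j
  set N : Fin r → Matrix (Fin n) (Fin n) ℂ := fun j => ((Γ j)ᵀ)⁻¹ * B j with hN
  have hB : ∀ j, B j = (Γ j)ᵀ * N j := by
    intro j
    rw [hN]
    simp only
    rw [← Matrix.mul_assoc, Matrix.mul_nonsing_inv _ (hdetT j), Matrix.one_mul]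
  set ν : Fin r × Fin n → Fin n → ℂ := fun p c => N p.1 p.2 c with hν
  -- (i)
  have hi : ∀ p : Fin r × Fin n, ∀ v ∈ H, ν p ⬝ᵥ v = 0 := by
    rintro ⟨j, a⟩ v hv
    have h := hrel.ker j v hv
    have h' : (N j).mulVec v = 0 := by
      rw [hN]
      simp only
      rw [← Matrix.mulVec_mulVec, h, Matrix.mulVec_zero]
    have := congrFun h' a
    simpa [Matrix.mulVec] using this
  -- (ii)
  have hii : ∀ e : Fin n → ℂ, (∀ w ∈ cj H, e ⬝ᵥ w = 0) → ∀ (j : Fin r) (c : Fin n),
      ∑ a, ev e (t j a) * ν (j, a) c = 0 := by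
    intro e he j c
    have h := he _ (hrel.im j (Pi.single c 1))
    rw [hB j, ← Matrix.mulVec_mulVec, Matrix.dotProduct_mulVec] at h
    rw [← h]
    simp only [dotProduct, Matrix.vecMul, Matrix.mulVec_single_one, Matrix.col_apply]
    refine Finset.sum_congr rfl fun a _ => ?_
    rfl
  -- (iii)
  have hiii : ∀ (j : Fin r) (a l : Fin n), l ≤ a → ev (ν (j, a)) (t j l) = 0 := by
    intro j a l hla
    have h := hrel.tri j l
    have key : ∀ w ∈ Fs (sec t j) (l : ℕ), (((Γ j)ᵀ)⁻¹).mulVec w a = 0 := by
      intro w hw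
      unfold Fs at hw
      induction hw using Submodule.span_induction with
      | mem x hx =>
        obtain ⟨b, hb, rfl⟩ := hx
        have hb' : (b : ℕ) < l := hb
        have e1 : sec t j b = (Γ j)ᵀ.mulVec (Pi.single b 1) := by
          ext c
          simp [hΓ]
        rw [e1, Matrix.mulVec_mulVec, Matrix.nonsing_inv_mul _ (hdetT j), Matrix.one_mulVec]
        apply Pi.single_eq_of_ne
        intro hab
        rw [← hab] at hb'
        exact absurd hla (not_le.mpr hb')
      | zero => simp
      | add x y _ _ hx hy => rw [Matrix.mulVec_add, Pi.add_apply, hx, hy, add_zero]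
      | smul c x _ hx => rw [Matrix.mulVec_smul, Pi.smul_apply, hx, smul_zero]
    have h3 := key _ h
    rw [Matrix.mulVec_mulVec] at h3
    exact h3
  -- (iv)
  have hiv : ∀ c b : Fin n, ∑ p : Fin r × Fin n, ν p c * ((t p.1 p.2 : ℂ)) ^ (b : ℕ) = 0 := by
    intro c b
    have h := congrFun (congrFun hrel.sum b) c
    rw [Matrix.sum_apply] at h
    rw [Fintype.sum_prod_type]
    rw [Matrix.zero_apply] at h
    rw [← h]
    refine Finset.sum_congr rfl fun j _ => ?_
    rw [hB j, Matrix.mul_apply]
    refine Finset.sum_congr rfl fun a _ => ?_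
    simp only [hν, hΓ, Matrix.transpose_apply, Matrix.of_apply, sec]
    ring
  -- the core
  have hcore := h1 (Fin r × Fin n) n r (fun p => t p.1 p.2) (tt_inj t ht) (fun p => p.1)
    (by
      intro j j' hjj'
      rcases ht.sep j j' hjj' with h | h
      · left
        rintro ⟨i, a⟩ ⟨i', a'⟩ hi hi'
        simp only at hi hi'
        subst hi; subst hi'
        exact h a a'
      · right
        rintro ⟨i, a⟩ ⟨i', a'⟩ hi hi'
        simp only at hi hi'
        subst hi; subst hi'
        exact h a' a)
    ν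
    (by
      rintro ⟨j, a⟩ ⟨j', l⟩ hj
      simp only at hj
      subst hj
      rcases le_total l a with hla | hla
      · rw [hiii j a l hla, zero_mul]
      · rw [hiii j l a hla, map_zero, mul_zero])
    (by
      intro p j
      have e1 : ∑ q : Fin r × Fin n with q.1 = j, ev (ν p) (t q.1 q.2) * conj (ev (ν q) (t p.1 p.2)) =
          ∑ a, ev (ν p) (t j a) * conj (ev (ν (j, a)) (t p.1 p.2)) := by
        rw [Finset.sum_filter, Fintype.sum_prod_type]
        rw [Finset.sum_eq_single j]
        · simp
        · intro i _ hij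
          simp [hij]
        · simp
      rw [e1]
      have h5 := hii (fun b => conj (ν p b)) (by
        intro w hw
        rw [mem_cj] at hw
        have := hi p _ hw
        have h6 : (fun b => conj (ν p b)) ⬝ᵥ w = conj (ν p ⬝ᵥ fun b => conj (w b)) := by
          simp [dotProduct, map_sum]
        rw [h6, this, map_zero]) j
      have h7 : ∑ a, ev (fun b => conj (ν p b)) (t j a) * ev (ν (j, a)) (t p.1 p.2) = 0 := by
        calc ∑ a, ev (fun b => conj (ν p b)) (t j a) * ev (ν (j, a)) (t p.1 p.2)
            = ∑ c : Fin n, (∑ a, ev (fun b => conj (ν p b)) (t j a) * ν (j, a) c) *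
                ((t p.1 p.2 : ℂ)) ^ (c : ℕ) := by
              simp only [Finset.sum_mul]
              rw [Finset.sum_comm]
              refine Finset.sum_congr rfl fun a _ => ?_
              conv_lhs => rw [show ev (ν (j, a)) (t p.1 p.2) =
                ∑ c, ν (j, a) c * ((t p.1 p.2 : ℂ)) ^ (c : ℕ) from rfl]
              rw [Finset.mul_sum]
              refine Finset.sum_congr rfl fun c _ => ?_
              ring
          _ = 0 := by
              refine Finset.sum_eq_zero fun c _ => ?_
              rw [h5 c, zero_mul]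
      have h8 := congrArg conj h7
      rw [map_sum, map_zero] at h8
      rw [← h8]
      refine Finset.sum_congr rfl fun a _ => ?_
      rw [map_mul, ev_conj, Complex.conj_conj])
    hiv
  funext j
  rw [hB j]
  have : N j = 0 := by
    ext a c
    exact congrFun (congrFun hcore (j, a)) c
  rw [this, Matrix.mul_zero]
  rfl

end SCF
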