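import Pool.Agent.SCF.Targets
import Pool.Agent.SCF.TargetsTop

/-!
# Project SCF: target LCL (local constancy on the set of generic points)
-/

set_option autoImplicit false

namespace SCF

open Module Filter Topology

theorem p_LCL (h1 : T_GDG) (h2 : T_GEQ) (h3 : T_GIN) (h4 : T_PERS) (h5 : T_NEAR) : T_LCL := by
  intro k n r lam hSP s hs1 hs2 U W hU hW hd G hG hUW
  have hI : Ind G := h3 n r G hG
  obtain ⟨hgood, -, -⟩ := h1 k n r lam hSP s hs1 hs2 G hG
  by_cases h : ∃ H ∈ Sch k lam G, pr H ∈ U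
  · obtain ⟨H, hH, hHU⟩ := h
    filter_upwards [h4 k n r lam hSP G hI hgood H hH U (hU.mem_nhds hHU)] with G' hG' hgen
    have e := (h2 k n r lam G G' hG hgen).1
    exact ⟨fun _ => ⟨H, hH, hHU⟩, fun _ => hG' (by rw [e])⟩
  · have hW' : ∀ H ∈ Sch k lam G, pr H ∈ W := by
      intro H hH
      rcases hUW H hH with h6 | h6
      · exact absurd ⟨H, hH, h6⟩ h
      · exact h6
    filter_upwards [h5 k n r lam G hI W hW hW'] with G' hG' _
    refine ⟨?_, fun hh => absurd hh h⟩
    rintro ⟨H, hH, hHU⟩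
    exact absurd (hG' H hH) (Set.disjoint_left.1 hd hHU)

end SCF
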