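import Pool.Agent.SCF.Targets

/-!
# Project SCF: target LD (lower bounds of the dimensions of intersections pass to the limit)
-/

set_option autoImplicit false

namespace SCF

open Module Filter Topology

namespace LD_

/-- orthonormal vectors in a subspace -/
theorem exists_on {n i : ℕ} (K : Submodule ℂ (Fin n → ℂ)) (hK : i ≤ finrank ℂ K) :
    ∃ w : Fin i → EuclideanSpace ℂ (Fin n), Orthonormal ℂ w ∧ ∀ l, WithLp.ofLp (w l) ∈ K := by
  let e : (Fin n → ℂ) ≃ₗ[ℂ] EuclideanSpace ℂ (Fin n) := (WithLp.linearEquiv 2 ℂ (Fin n → ℂ)).symm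
  let K' : Submodule ℂ (EuclideanSpace ℂ (Fin n)) := K.map e.toLinearMap
  have hf : finrank ℂ K' = finrank ℂ K := LinearEquiv.finrank_map_eq e K
  let b := stdOrthonormalBasis ℂ K'
  have hle : i ≤ finrank ℂ K' := by rw [hf]; exact hK
  refine ⟨fun l => (b (Fin.castLE hle l) : EuclideanSpace ℂ (Fin n)), ?_, ?_⟩
  · have h3 : Orthonormal ℂ (fun j => ((b j : K') : EuclideanSpace ℂ (Fin n))) :=
      b.orthonormal.comp_linearIsometry K'.subtypeₗᵢ
    exact h3.comp _ (Fin.castLE_injective hle)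
  · intro l
    have h4 := (b (Fin.castLE hle l)).2
    obtain ⟨v, hv, hv'⟩ := Submodule.mem_map.1 h4
    have h5 : WithLp.ofLp ((b (Fin.castLE hle l) : K') : EuclideanSpace ℂ (Fin n)) = v := by
      rw [← hv']
      rfl
    show WithLp.ofLp ((b (Fin.castLE hle l) : K') : EuclideanSpace ℂ (Fin n)) ∈ K
    rw [h5]
    exact hv

end LD_

theorem p_LD (h1 : T_PR) (h2 : T_LV) : T_LD := by
  intro n g g0 hg0 hg H H0 hH m i hi
  choose w hw1 hw2 using fun ν => LD_.exists_on (H ν ⊓ Fs (g ν) m) (hi ν)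
  have hball : ∀ ν, w ν ∈ Metric.closedBall (0 : Fin i → EuclideanSpace ℂ (Fin n)) 1 := by
    intro ν
    rw [mem_closedBall_zero_iff, pi_norm_le_iff_of_nonneg zero_le_one]
    intro l
    rw [(hw1 ν).1 l]
  obtain ⟨w0, -, φ, hφ, ht⟩ := (isCompact_closedBall _ _).tendsto_subseq hball
  have htl : ∀ l, Tendsto (fun ν => w (φ ν) l) atTop (𝓝 (w0 l)) := by
    intro l
    exact ((continuous_apply l).tendsto w0).comp ht
  have hlp : ∀ l, Tendsto (fun ν => WithLp.ofLp (w (φ ν) l)) atTop (𝓝 (WithLp.ofLp (w0 l))) := by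
    intro l
    exact ((PiLp.continuous_ofLp 2 (fun _ : Fin n => ℂ)).tendsto (w0 l)).comp (htl l)
  -- the limit is orthonormal
  have hon : Orthonormal ℂ w0 := by
    rw [orthonormal_iff_ite]
    intro l l'
    have h3 : Tendsto (fun ν => inner ℂ (w (φ ν) l) (w (φ ν) l')) atTop (𝓝 (inner ℂ (w0 l) (w0 l'))) :=
      (htl l).inner (htl l')
    have h4 : (fun ν => inner ℂ (w (φ ν) l) (w (φ ν) l')) = fun _ => if l = l' then (1 : ℂ) else 0 := by
      funext ν
      exact orthonormal_iff_ite.1 (hw1 (φ ν)) l l'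
    rw [h4] at h3
    exact tendsto_nhds_unique h3 tendsto_const_nhds
  have hmem : ∀ l, WithLp.ofLp (w0 l) ∈ H0 ⊓ Fs g0 m := by
    intro l
    refine Submodule.mem_inf.2 ⟨?_, ?_⟩
    · rw [(h1 n H0).1.mem]
      have h3 : Tendsto (fun ν => (pr (H (φ ν))).mulVec (WithLp.ofLp (w (φ ν) l))) atTop
          (𝓝 ((pr H0).mulVec (WithLp.ofLp (w0 l)))) := by
        have hc : Continuous (fun p : Matrix (Fin n) (Fin n) ℂ × (Fin n → ℂ) => p.1.mulVec p.2) :=
          continuous_fst.matrix_mulVec continuous_snd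
        have h5 : Tendsto (fun ν => (pr (H (φ ν)), WithLp.ofLp (w (φ ν) l))) atTop
            (𝓝 (pr H0, WithLp.ofLp (w0 l))) :=
          (hH.comp hφ.tendsto_atTop).prodMk_nhds (hlp l)
        exact (hc.tendsto _).comp h5
      have h4 : (fun ν => (pr (H (φ ν))).mulVec (WithLp.ofLp (w (φ ν) l))) =
          fun ν => WithLp.ofLp (w (φ ν) l) := by
        funext ν
        exact ((h1 n (H (φ ν))).1.mem _).1 (Submodule.mem_inf.1 (hw2 (φ ν) l)).1
      rw [h4] at h3
      exact tendsto_nhds_unique h3 (hlp l)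
    · exact h2 n (fun ν => g (φ ν)) g0 hg0 (hg.comp hφ.tendsto_atTop)
        (fun ν => WithLp.ofLp (w (φ ν) l)) _ (hlp l) m
        fun ν => (Submodule.mem_inf.1 (hw2 (φ ν) l)).2
  have hli : LinearIndependent ℂ (fun l => (⟨WithLp.ofLp (w0 l), hmem l⟩ : ↥(H0 ⊓ Fs g0 m))) := by
    have h3 : LinearIndependent ℂ (fun l => WithLp.ofLp (w0 l)) :=
      hon.linearIndependent.map' ((WithLp.linearEquiv 2 ℂ (Fin n → ℂ)).toLinearMap)
        (LinearEquiv.ker _)
    exact LinearIndependent.of_comp (H0 ⊓ Fs g0 m).subtype h3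
  have h6 := hli.fintype_card_le_finrank
  rwa [Fintype.card_fin] at h6

end SCF
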