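import Pool.Agent.SCF.TargetsTop

/-!
# SCF-LNE: transport along a complex line
-/

set_option autoImplicit false

namespace SCF

open Module Filter Topology

namespace LNE_

/-- the complex line through `A` and `C` -/
def ln {n r : ℕ} (A C : Fl n r) (z : ℂ) : Fl n r := A + z • (C - A)

lemma ln_zero {n r : ℕ} (A C : Fl n r) : ln A C 0 = A := by
  unfold ln
  rw [zero_smul, add_zero]

lemma ln_one {n r : ℕ} (A C : Fl n r) : ln A C 1 = C := by
  unfold ln
  rw [one_smul, add_sub_cancel]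

lemma ln_cont {n r : ℕ} (A C : Fl n r) : Continuous (ln A C) := by
  unfold ln
  fun_prop

lemma isOpen_om {n r : ℕ} (A C G0 : Fl n r) (ε : ℝ) : IsOpen {z : ℂ | ‖ln A C z - G0‖ < ε} :=
  isOpen_lt ((ln_cont A C).sub continuous_const).norm continuous_const

lemma convex_om {n r : ℕ} (A C G0 : Fl n r) (ε : ℝ) :
    Convex ℝ {z : ℂ | ‖ln A C z - G0‖ < ε} := by
  intro x hx y hy a b ha hb hab
  have hx' : ‖ln A C x - G0‖ < ε := hx
  have hy' : ‖ln A C y - G0‖ < ε := hy
  show ‖ln A C (a • x + b • y) - G0‖ < ε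
  have h1 : ln A C (a • x + b • y) - G0 =
      (a : ℂ) • (ln A C x - G0) + (b : ℂ) • (ln A C y - G0) := by
    have hab' : (a : ℂ) + b = 1 := by exact_mod_cast hab
    unfold ln
    funext j c e
    simp only [Pi.add_apply, Pi.sub_apply, Pi.smul_apply, smul_eq_mul, Complex.real_smul]
    linear_combination (G0 j c e - A j c e) * hab'
  rw [h1]
  have h2 : ‖(a : ℂ) • (ln A C x - G0)‖ = a * ‖ln A C x - G0‖ := by
    rw [norm_smul, Complex.norm_real, Real.norm_of_nonneg ha]
  have h3 : ‖(b : ℂ) • (ln A C y - G0)‖ = b * ‖ln A C y - G0‖ := by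
    rw [norm_smul, Complex.norm_real, Real.norm_of_nonneg hb]
  refine (norm_add_le _ _).trans_lt ?_
  rw [h2, h3]
  rcases eq_or_lt_of_le ha with h | h
  · have hb1 : b = 1 := by linarith
    rw [← h, hb1]
    linarith
  · have e1 : a * ‖ln A C x - G0‖ < a * ε := mul_lt_mul_of_pos_left hx' h
    have e2 : b * ‖ln A C y - G0‖ ≤ b * ε := mul_le_mul_of_nonneg_left hy'.le hb
    have e3 : a * ε + b * ε = ε := by rw [← add_mul, hab, one_mul]
    linarith

end LNE_

open LNE_ in
open Classical in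
/-- transport along a complex line; the last two hypotheses are the targets `T_FT5` and `T_CVX`
of the field theory package, written out -/
theorem p_LNE (h_LCL : T_LCL)
    (h_FT5 : ∀ (ι : Type) [Fintype ι] (a c : ι → ℂ), AlgebraicIndependent ℚ a →
      {z : ℂ | ¬ AlgebraicIndependent ℚ (fun i => a i + z * (c i - a i))}.Countable)
    (h_CVX : ∀ Ω : Set ℂ, IsOpen Ω → Convex ℝ Ω → ∀ S : Set ℂ, S.Countable →
      IsPreconnected (Ω \ S)) : T_LNE := by
  intro k n r lam hSP s hs hg U W hU hW hUW G0 ε hG0 A C hA hC hAe hCe hHA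
  set S : Set ℂ := {z : ℂ | ¬ Gen (ln A C z)} with hS
  have hScount : S.Countable := h_FT5 (Fin r × Fin n × Fin n) (fun p => A p.1 p.2.1 p.2.2)
    (fun p => C p.1 p.2.1 p.2.2) hA
  have hcon := h_CVX {z : ℂ | ‖ln A C z - G0‖ < ε} (isOpen_om A C G0 ε)
    (convex_om A C G0 ε) S hScount
  set f : ℂ → ℕ := fun z => if ∃ H ∈ Sch k lam (ln A C z), pr H ∈ U then 1 else 0 with hf
  have hcont : ContinuousOn f ({z : ℂ | ‖ln A C z - G0‖ < ε} \ S) := by
    intro z hz
    have hz1 : ‖ln A C z - G0‖ < ε := hz.1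
    have hz2 : Gen (ln A C z) := by
      by_contra hc
      exact hz.2 hc
    have h1 := h_LCL k n r lam hSP s hs hg U W hU hW hUW (ln A C z) hz2 (hG0 _ hz1)
    have h2 : ∀ᶠ z' in 𝓝 z, Gen (ln A C z') →
        ((∃ H ∈ Sch k lam (ln A C z'), pr H ∈ U) ↔ ∃ H ∈ Sch k lam (ln A C z), pr H ∈ U) :=
      (ln_cont A C).continuousAt.eventually h1
    have h3 : f =ᶠ[𝓝[{z : ℂ | ‖ln A C z - G0‖ < ε} \ S] z] fun _ => f z := by
      filter_upwards [nhdsWithin_le_nhds h2, self_mem_nhdsWithin] with z' hz' hz''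
      have hz3 : Gen (ln A C z') := by
        by_contra hc
        exact hz''.2 hc
      have h4 := hz' hz3
      show (if ∃ H ∈ Sch k lam (ln A C z'), pr H ∈ U then 1 else 0) =
        if ∃ H ∈ Sch k lam (ln A C z), pr H ∈ U then 1 else 0
      by_cases h5 : ∃ H ∈ Sch k lam (ln A C z), pr H ∈ U
      · rw [if_pos h5, if_pos (h4.2 h5)]
      · rw [if_neg h5, if_neg fun h6 => h5 (h4.1 h6)]
    exact continuousWithinAt_const.congr_of_eventuallyEq h3 rfl
  have h0 : (0 : ℂ) ∈ {z : ℂ | ‖ln A C z - G0‖ < ε} \ S := by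
    refine ⟨?_, ?_⟩
    · show ‖ln A C 0 - G0‖ < ε
      rw [ln_zero]
      exact hAe
    · intro hc
      apply hc
      rw [ln_zero]
      exact hA
  have h1 : (1 : ℂ) ∈ {z : ℂ | ‖ln A C z - G0‖ < ε} \ S := by
    refine ⟨?_, ?_⟩
    · show ‖ln A C 1 - G0‖ < ε
      rw [ln_one]
      exact hCe
    · intro hc
      apply hc
      rw [ln_one]
      exact hC
  have h2 := hcon.constant hcont h0 h1
  by_contra hcc
  have e0 : f 0 = 1 := by
    show (if ∃ H ∈ Sch k lam (ln A C 0), pr H ∈ U then 1 else 0) = 1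
    rw [ln_zero, if_pos hHA]
  have e1 : f 1 = 0 := by
    show (if ∃ H ∈ Sch k lam (ln A C 1), pr H ∈ U then 1 else 0) = 0
    rw [ln_one, if_neg hcc]
  rw [e0, e1] at h2
  exact one_ne_zero h2

end SCF
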