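import Pool.Agent.SCF.Targets

/-!
# Project SCF: target LR (limits of relations)
-/

set_option autoImplicit false

namespace SCF

open Module Filter Topology

namespace LR_

theorem mv {n : ℕ} {A : ℕ → Matrix (Fin n) (Fin n) ℂ} {A0 : Matrix (Fin n) (Fin n) ℂ}
    {v : ℕ → Fin n → ℂ} {v0 : Fin n → ℂ} (hA : Tendsto A atTop (𝓝 A0))
    (hv : Tendsto v atTop (𝓝 v0)) :
    Tendsto (fun ν => (A ν).mulVec (v ν)) atTop (𝓝 (A0.mulVec v0)) := by
  have h : Continuous fun p : Matrix (Fin n) (Fin n) ℂ × (Fin n → ℂ) => p.1.mulVec p.2 :=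
    continuous_fst.matrix_mulVec continuous_snd
  exact (h.tendsto (A0, v0)).comp (hA.prodMk_nhds hv)

theorem smul_rel {n r : ℕ} {G : Fl n r} {H H' : Submodule ℂ (Fin n → ℂ)}
    {B : Fin r → Matrix (Fin n) (Fin n) ℂ} (h : IsRel G H H' B) (c : ℂ) :
    IsRel G H H' (fun j => c • B j) := by
  refine ⟨fun j v hv => ?_, fun j v => ?_, fun j a => ?_, ?_⟩
  · rw [Matrix.smul_mulVec, h.ker j v hv, smul_zero]
  · rw [Matrix.smul_mulVec]
    exact H'.smul_mem c (h.im j v)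
  · rw [Matrix.smul_mulVec]
    exact Submodule.smul_mem _ c (h.tri j a)
  · rw [← Finset.smul_sum, h.sum, smul_zero]

/-- normalisation -/
theorem norm_one {n r : ℕ} (B : Fin r → Matrix (Fin n) (Fin n) ℂ) (hB : B ≠ 0) :
    ∃ c : ℂ, ‖(fun j a b => c * B j a b : Fin r → Fin n → Fin n → ℂ)‖ = 1 := by
  let C : Fin r → Fin n → Fin n → ℂ := fun j a b => B j a b
  have hC : C ≠ 0 := by
    intro h
    apply hB
    funext j
    ext a b
    have h1 := congrFun (congrFun (congrFun h j) a) b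
    exact h1
  have hn : ‖C‖ ≠ 0 := norm_ne_zero_iff.2 hC
  refine ⟨((‖C‖⁻¹ : ℝ) : ℂ), ?_⟩
  have h1 : (fun j a b => ((‖C‖⁻¹ : ℝ) : ℂ) * B j a b : Fin r → Fin n → Fin n → ℂ) =
      ((‖C‖⁻¹ : ℝ) : ℂ) • C := by
    funext j a b
    rfl
  rw [h1, norm_smul, Complex.norm_real, norm_inv, norm_norm, inv_mul_cancel₀ hn]

end LR_

theorem p_LR (h1 : T_PR) (h2 : T_LV) : T_LR := by
  intro n r G G0 hI hG H H' H0 H0' hH hH' B hB
  have hc : ∀ ν, ∃ c : ℂ, ‖(fun j a b => c * B ν j a b : Fin r → Fin n → Fin n → ℂ)‖ = 1 :=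
    fun ν => LR_.norm_one (B ν) (hB ν).2
  choose c hc using hc
  let D : ℕ → Fin r → Fin n → Fin n → ℂ := fun ν j a b => c ν * B ν j a b
  have hD : ∀ ν, D ν ∈ Metric.sphere (0 : Fin r → Fin n → Fin n → ℂ) 1 := by
    intro ν
    rw [mem_sphere_zero_iff_norm]
    exact hc ν
  obtain ⟨D0, hD0, φ, hφ, hlim⟩ := (isCompact_sphere (0 : Fin r → Fin n → Fin n → ℂ) 1).tendsto_subseq hD
  have hD0n : ‖D0‖ = 1 := mem_sphere_zero_iff_norm.1 hD0
  have hrel : ∀ ν, IsRel (G ν) (H ν) (H' ν) (fun j => (Matrix.of (D ν j))) := by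
    intro ν
    have h := LR_.smul_rel (hB ν).1 (c ν)
    exact h
  have hDj : ∀ j, Tendsto (fun ν => (Matrix.of (D (φ ν) j) : Matrix (Fin n) (Fin n) ℂ)) atTop
      (𝓝 (Matrix.of (D0 j))) := by
    intro j
    have h3 := tendsto_pi_nhds.1 hlim j
    exact h3
  have hG' : Tendsto (fun ν => G (φ ν)) atTop (𝓝 G0) := hG.comp hφ.tendsto_atTop
  have hH1 : Tendsto (fun ν => pr (H (φ ν))) atTop (𝓝 (pr H0)) := hH.comp hφ.tendsto_atTop
  have hH1' : Tendsto (fun ν => pr (H' (φ ν))) atTop (𝓝 (pr H0')) := hH'.comp hφ.tendsto_atTop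
  refine ⟨fun j => Matrix.of (D0 j), ⟨fun j v hv => ?_, fun j v => ?_, fun j a => ?_, ?_⟩, ?_⟩
  · have hv0 : (pr H0).mulVec v = v := ((h1 n H0).1.mem v).1 hv
    have h4 : Tendsto (fun ν => (pr (H (φ ν))).mulVec v) atTop (𝓝 v) := by
      have h5 := LR_.mv hH1 (tendsto_const_nhds (x := v))
      rw [hv0] at h5
      exact h5
    have h6 := LR_.mv (hDj j) h4
    have h7 : ∀ ν, (Matrix.of (D (φ ν) j)).mulVec ((pr (H (φ ν))).mulVec v) = 0 := by
      intro ν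
      apply (hrel (φ ν)).ker j
      rw [(h1 n (H (φ ν))).1.mem, Matrix.mulVec_mulVec, (h1 n (H (φ ν))).1.idem]
    simp only [h7] at h6
    exact tendsto_nhds_unique h6 tendsto_const_nhds
  · rw [(h1 n H0').1.mem]
    have h4 := LR_.mv (hDj j) (tendsto_const_nhds (x := v))
    have h5 := LR_.mv hH1' h4
    have h6 : ∀ ν, (pr (H' (φ ν))).mulVec ((Matrix.of (D (φ ν) j)).mulVec v) =
        (Matrix.of (D (φ ν) j)).mulVec v := by
      intro ν
      exact ((h1 n (H' (φ ν))).1.mem _).1 ((hrel (φ ν)).im j v)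
    simp only [h6] at h5
    exact tendsto_nhds_unique h5 h4
  · have hGj : Tendsto (fun ν => G (φ ν) j) atTop (𝓝 (G0 j)) := tendsto_pi_nhds.1 hG' j
    have hGja : Tendsto (fun ν => G (φ ν) j a) atTop (𝓝 (G0 j a)) := tendsto_pi_nhds.1 hGj a
    exact h2 n (fun ν => G (φ ν) j) (G0 j) (hI j) hGj _ _ (LR_.mv (hDj j) hGja) (a : ℕ)
      (fun ν => (hrel (φ ν)).tri j a)
  · have h4 : Tendsto (fun ν => ∑ j, (Matrix.of (D (φ ν) j) : Matrix (Fin n) (Fin n) ℂ)) atTop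
        (𝓝 (∑ j, (Matrix.of (D0 j) : Matrix (Fin n) (Fin n) ℂ))) :=
      tendsto_finsetSum _ fun j _ => hDj j
    have h5 : ∀ ν, ∑ j, (Matrix.of (D (φ ν) j) : Matrix (Fin n) (Fin n) ℂ) = 0 :=
      fun ν => (hrel (φ ν)).sum
    simp only [h5] at h4
    exact tendsto_nhds_unique h4 tendsto_const_nhds
  · intro h
    have h4 : D0 = 0 := by
      funext j a b
      have h5 := congrFun h j
      have h6 := congrFun (congrFun h5 a) b
      exact h6
    rw [h4, norm_zero] at hD0n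
    exact zero_ne_one hD0n

end SCF
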