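import Pool.Agent.SCF.Targets

/-!
# Project SCF: target LV (limits of vectors of the flags)
-/

set_option autoImplicit false

namespace SCF

open Module Filter Topology

namespace LV_

/-- determinant with the `a`-th row replaced by `v`, as a linear function of `v` -/
noncomputable def D {n : ℕ} (g : Fin n → Fin n → ℂ) (a : Fin n) : (Fin n → ℂ) →ₗ[ℂ] ℂ :=
  (Matrix.detRowAlternating (n := Fin n) (R := ℂ)).toMultilinearMap.toLinearMap g a

lemma D_apply {n : ℕ} (g : Fin n → Fin n → ℂ) (a : Fin n) (v : Fin n → ℂ) :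
    D g a v = Matrix.det (Matrix.of (Function.update g a v)) := rfl

lemma D_ne {n : ℕ} (g : Fin n → Fin n → ℂ) (a b : Fin n) (h : b ≠ a) : D g a (g b) = 0 := by
  rw [D_apply]
  apply Matrix.det_zero_of_row_eq h
  funext c
  simp [Function.update_of_ne h]

lemma D_self {n : ℕ} (g : Fin n → Fin n → ℂ) (a : Fin n) :
    D g a (g a) = Matrix.det (Matrix.of g) := by
  rw [D_apply, Function.update_eq_self]

lemma D_span {n : ℕ} (g : Fin n → Fin n → ℂ) (m : ℕ) (a : Fin n) (ha : m ≤ (a : ℕ))
    (v : Fin n → ℂ) (hv : v ∈ Fs g m) : D g a v = 0 := by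
  have h : Fs g m ≤ LinearMap.ker (D g a) := by
    unfold Fs
    rw [Submodule.span_le]
    rintro w ⟨b, hb, rfl⟩
    have hb' : (b : ℕ) < m := hb
    have hne : b ≠ a := by
      intro e
      rw [e] at hb'
      omega
    exact D_ne g a b hne
  exact h hv

lemma D_cont {n : ℕ} (a : Fin n) :
    Continuous fun p : (Fin n → Fin n → ℂ) × (Fin n → ℂ) => D p.1 a p.2 := by
  have : (fun p : (Fin n → Fin n → ℂ) × (Fin n → ℂ) => D p.1 a p.2) =
      fun p => Matrix.det (Matrix.of (Function.update p.1 a p.2)) := rfl
  rw [this]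
  apply Continuous.matrix_det
  exact continuous_fst.update a continuous_snd

end LV_

open LV_

theorem p_LV : T_LV := by
  intro n g g0 hg0 hg v v0 hv m hmem
  have hdet : Matrix.det (Matrix.of g0) ≠ 0 := by
    have h : IsUnit (Matrix.of g0) := by
      rw [← Matrix.linearIndependent_rows_iff_isUnit]
      exact hg0
    exact ((Matrix.isUnit_iff_isUnit_det _).1 h).ne_zero
  have hz : ∀ a : Fin n, m ≤ (a : ℕ) → D g0 a v0 = 0 := by
    intro a ha
    have ht : Tendsto (fun ν => D (g ν) a (v ν)) atTop (𝓝 (D g0 a v0)) :=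
      ((D_cont a).tendsto (g0, v0)).comp (hg.prodMk_nhds hv)
    have he : (fun ν => D (g ν) a (v ν)) = fun _ => (0 : ℂ) := by
      funext ν
      exact D_span (g ν) m a ha (v ν) (hmem ν)
    rw [he] at ht
    exact (tendsto_nhds_unique ht tendsto_const_nhds)
  have hcard : Fintype.card (Fin n) = finrank ℂ (Fin n → ℂ) := by simp
  by_cases hn : Nonempty (Fin n)
  · let b := basisOfLinearIndependentOfCardEqFinrank hg0 hcard
    have hb : ∀ a, b a = g0 a := fun a => by
      simp [b]
    have hsum : v0 = ∑ a, b.repr v0 a • g0 a := by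
      have h := b.sum_repr v0
      simp only [hb] at h
      exact h.symm
    have hc : ∀ a : Fin n, m ≤ (a : ℕ) → b.repr v0 a = 0 := by
      intro a ha
      have h1 := hz a ha
      rw [hsum, map_sum] at h1
      have h2 : ∑ x, D g0 a (b.repr v0 x • g0 x) = b.repr v0 a * Matrix.det (Matrix.of g0) := by
        rw [Finset.sum_eq_single a]
        · rw [map_smul, D_self, smul_eq_mul]
        · intro x _ hx
          rw [map_smul, D_ne g0 a x hx, smul_zero]
        · intro h
          exact absurd (Finset.mem_univ a) h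
      rw [h2] at h1
      rcases mul_eq_zero.1 h1 with h3 | h3
      · exact h3
      · exact absurd h3 hdet
    rw [hsum]
    apply Submodule.sum_mem
    intro a _
    by_cases ha : (a : ℕ) < m
    · apply Submodule.smul_mem
      exact Submodule.subset_span ⟨a, ha, rfl⟩
    · rw [hc a (by omega), zero_smul]
      exact Submodule.zero_mem _
  · have : v0 = 0 := by
      funext a
      exact absurd ⟨a⟩ hn
    rw [this]
    exact Submodule.zero_mem _

end SCF
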