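import Pool.Agent.SCF.TargetsChart

/-!
# Project SCF: target MEM (membership of the chart points)
-/

set_option autoImplicit false

namespace SCF

open Module Filter Topology

namespace MEM_

open Classical in
theorem card_bf (k n r : ℕ) (lam : Fin r → Fin k → ℕ) (j : Fin r)
    (hmono : StrictMono (pos k n lam j)) (hlt : ∀ i, pos k n lam j i < n) (i : Fin k) :
    (Finset.univ.filter fun b : Fin n => Bf k n lam j i b).card + (i : ℕ) ≤ pos k n lam j i := by
  set S : Finset (Fin n) := Finset.univ.filter fun b : Fin n => Bf k n lam j i b with hS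
  let f : Fin (i : ℕ) → Fin n := fun l => ⟨pos k n lam j ⟨l, by omega⟩, hlt _⟩
  have hf : Function.Injective f := by
    intro l l' h
    have h1 : pos k n lam j ⟨l, by omega⟩ = pos k n lam j ⟨l', by omega⟩ := congrArg Fin.val h
    have h2 := hmono.injective h1
    have h3 := congrArg Fin.val h2
    exact Fin.ext h3
  set P : Finset (Fin n) := Finset.univ.image f with hP
  have hPc : P.card = (i : ℕ) := by
    rw [hP, Finset.card_image_of_injective _ hf, Finset.card_univ, Fintype.card_fin]
  have hdisj : Disjoint S P := by
    rw [Finset.disjoint_left]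
    intro b hb hb'
    rw [hS, Finset.mem_filter] at hb
    rw [hP, Finset.mem_image] at hb'
    obtain ⟨l, _, rfl⟩ := hb'
    exact hb.2.2 ⟨⟨l, by omega⟩, rfl⟩
  have hcard : (S ∪ P).card ≤ pos k n lam j i := by
    have h1 : (S ∪ P).card ≤ (Finset.range (pos k n lam j i)).card := by
      refine Finset.card_le_card_of_injOn (fun b : Fin n => (b : ℕ)) ?_ ?_
      · intro b hb
        rw [Finset.mem_coe, Finset.mem_union] at hb
        rw [Finset.mem_coe, Finset.mem_range]
        rcases hb with hb | hb
        · rw [hS, Finset.mem_filter] at hb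
          exact hb.2.1
        · rw [hP, Finset.mem_image] at hb
          obtain ⟨l, _, rfl⟩ := hb
          apply hmono
          exact l.isLt
      · intro b _ b' _ h
        exact Fin.ext h
    rwa [Finset.card_range] at h1
  rw [Finset.card_union_of_disjoint hdisj, hPc] at hcard
  exact hcard

end MEM_

theorem p_MEM (h1 : T_POS) : T_MEM := by
  classical
  intro k n r lam hSP G M C E hG hM hF
  set H : Submodule ℂ (Fin n → ℂ) := Submodule.span ℂ (Set.range M) with hH
  have hHk : finrank ℂ H = k := by
    rw [hH, finrank_span_eq_card hM, Fintype.card_fin]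
  refine ⟨hHk, fun j i => ?_⟩
  obtain ⟨hmono, hlt, hle, hidx⟩ := h1 k n r lam hSP j
  rw [hidx i]
  set m := pos k n lam j i with hm
  have hmn : m + 1 ≤ n := hlt i
  set F := Fs (G j) (m + 1) with hFdef
  set S : Finset (Fin n) := Finset.univ.filter fun b : Fin n => Bf k n lam j i b with hS
  have hcard : S.card + (i : ℕ) ≤ m := MEM_.card_bf k n r lam j hmono hlt i
  -- the dimension of F
  have hFd : m + 1 ≤ finrank ℂ F := by
    have h2 : LinearIndependent ℂ (fun b : Fin (m + 1) => G j (Fin.castLE hmn b)) :=
      (hG j).comp _ (Fin.castLE_injective hmn)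
    have h3 := finrank_span_eq_card h2
    rw [Fintype.card_fin] at h3
    rw [← h3]
    apply Submodule.finrank_mono
    rw [Submodule.span_le]
    rintro v ⟨b, rfl⟩
    exact Submodule.subset_span ⟨Fin.castLE hmn b, b.isLt, rfl⟩
  -- the sum
  set K : Submodule ℂ (Fin n → ℂ) := Submodule.span ℂ ((S.image (G j) : Finset (Fin n → ℂ)) : Set (Fin n → ℂ)) with hK
  have hKd : finrank ℂ K ≤ S.card :=
    (finrank_span_finset_le_card (S.image (G j))).trans Finset.card_image_le
  have hmem : ∀ b : Fin n, Bf k n lam j i b → G j b ∈ K := by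
    intro b hb
    apply Submodule.subset_span
    rw [Finset.mem_coe, Finset.mem_image]
    exact ⟨b, by rw [hS, Finset.mem_filter]; exact ⟨Finset.mem_univ _, hb⟩, rfl⟩
  have hFK : F ≤ H ⊔ K := by
    rw [hFdef, Fs, Submodule.span_le]
    rintro v ⟨b, hb, rfl⟩
    have hb' : (b : ℕ) < m + 1 := hb
    by_cases hJ : Jm k n lam j b
    · obtain ⟨l, hl⟩ := hJ
      have hli : l ≤ i := by
        rw [← hmono.le_iff_le]
        omega
      have hform := hF j l b hl
      rw [SetLike.mem_coe, hform]
      apply Submodule.add_mem
      · apply Submodule.mem_sup_left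
        exact Submodule.sum_mem _ fun l' _ => Submodule.smul_mem _ _ (Submodule.subset_span ⟨l', rfl⟩)
      · apply Submodule.mem_sup_right
        refine Submodule.sum_mem _ fun b' _ => ?_
        by_cases hb2 : Bf k n lam j l b'
        · apply Submodule.smul_mem
          apply hmem
          exact ⟨lt_of_lt_of_le hb2.1 (hmono.monotone hli), hb2.2⟩
        · rw [if_neg hb2, zero_smul]
          exact Submodule.zero_mem _
    · apply Submodule.mem_sup_right
      apply hmem
      refine ⟨?_, hJ⟩
      have hne : (b : ℕ) ≠ m := fun h => hJ ⟨i, h⟩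
      omega
  have hsup : finrank ℂ ↥(H ⊔ F) ≤ k + S.card := by
    have h2 : H ⊔ F ≤ H ⊔ K := sup_le le_sup_left hFK
    have h3 := Submodule.finrank_mono h2
    have h4 := Submodule.finrank_add_le_finrank_add_finrank H K
    omega
  have h5 := Submodule.finrank_sup_add_finrank_inf_eq H F
  omega

end SCF
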