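import Pool.Agent.SCF.Targets

/-!
# SCF: target MONO (a monotone function with equal limits)
-/

set_option autoImplicit false

namespace SCF

open Filter Topology

namespace MONO_

/-- one term of the function `F` -/
theorem term_deriv {d Y : ℝ} (hd : 0 ≤ d) (hY : 0 < Y) :
    HasDerivAt (fun Y : ℝ => d * Real.arctan (Y / d)) (d ^ 2 / (Y ^ 2 + d ^ 2)) Y := by
  rcases hd.eq_or_lt with h | h
  · rw [← h]
    have h1 : (fun Y : ℝ => (0 : ℝ) * Real.arctan (Y / 0)) = fun _ => 0 := by
      funext y
      ring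
    rw [h1]
    have h2 : (0 : ℝ) ^ 2 / (Y ^ 2 + 0 ^ 2) = 0 := by
      norm_num
    rw [h2]
    exact hasDerivAt_const Y (0 : ℝ)
  · have h1 : HasDerivAt (fun Y : ℝ => Y / d) (1 / d) Y := (hasDerivAt_id Y).div_const d
    have h2 := (h1.arctan).const_mul d
    refine h2.congr_deriv ?_
    have h3 : (0 : ℝ) < Y ^ 2 + d ^ 2 := by positivity
    have h4 : (0 : ℝ) < 1 + (Y / d) ^ 2 := by positivity
    field_simp
    ring

theorem term_cont (d : ℝ) : Continuous (fun Y : ℝ => d * Real.arctan (Y / d)) := by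
  have h1 : Continuous fun Y : ℝ => Y / d := continuous_id.div_const d
  exact continuous_const.mul (Real.continuous_arctan.comp h1)

theorem term_lim {d : ℝ} (hd : 0 ≤ d) :
    Tendsto (fun Y : ℝ => d * Real.arctan (Y / d)) atTop (𝓝 (d * (Real.pi / 2))) := by
  rcases hd.eq_or_lt with h | h
  · rw [← h]
    have h1 : (fun Y : ℝ => (0 : ℝ) * Real.arctan (Y / 0)) = fun _ => 0 := by
      funext y
      ring
    rw [h1, zero_mul]
    exact tendsto_const_nhds
  · have h1 : Tendsto (fun Y : ℝ => Y / d) atTop atTop := tendsto_id.atTop_div_const h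
    have h2 : Tendsto Real.arctan atTop (𝓝 (Real.pi / 2)) :=
      Real.tendsto_arctan_atTop.mono_right nhdsWithin_le_nhds
    exact (h2.comp h1).const_mul d

end MONO_

open MONO_ in
theorem p_MONO : T_MONO := by
  intro ι _ a d hd ha had hG η hη
  set F : ℝ → ℝ := fun Y => -∑ m, a m * (d m * Real.arctan (Y / d m)) with hF
  have hder : ∀ Y : ℝ, 0 < Y → HasDerivAt F (∑ m, a m * Y ^ 2 / (Y ^ 2 + d m ^ 2)) Y := by
    intro Y hY
    have h1 : HasDerivAt F (-∑ m, a m * (d m ^ 2 / (Y ^ 2 + d m ^ 2))) Y := by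
      refine HasDerivAt.neg ?_
      have := HasDerivAt.fun_sum (u := Finset.univ) (A := fun m Y => a m * (d m * Real.arctan (Y / d m)))
        (A' := fun m => a m * (d m ^ 2 / (Y ^ 2 + d m ^ 2))) (x := Y)
        fun m _ => (term_deriv (hd m) hY).const_mul (a m)
      exact this
    refine h1.congr_deriv ?_
    have h2 : ∑ m, a m * Y ^ 2 / (Y ^ 2 + d m ^ 2) =
        ∑ m, a m + -∑ m, a m * (d m ^ 2 / (Y ^ 2 + d m ^ 2)) := by
      rw [← Finset.sum_neg_distrib, ← Finset.sum_add_distrib]
      refine Finset.sum_congr rfl fun m _ => ?_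
      have h3 : (0 : ℝ) < Y ^ 2 + d m ^ 2 := by positivity
      field_simp
      ring
    rw [h2, ha, zero_add]
  have hcont : Continuous F := by
    refine Continuous.neg (continuous_finsetSum _ fun m _ => ?_)
    exact continuous_const.mul (term_cont (d m))
  have hlim : Tendsto F atTop (𝓝 0) := by
    have h1 : Tendsto F atTop (𝓝 (-∑ m, a m * (d m * (Real.pi / 2)))) := by
      refine Tendsto.neg (tendsto_finsetSum _ fun m _ => ?_)
      exact (term_lim (hd m)).const_mul (a m)
    have h2 : ∑ m, a m * (d m * (Real.pi / 2)) = (∑ m, a m * d m) * (Real.pi / 2) := by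
      rw [Finset.sum_mul]
      exact Finset.sum_congr rfl fun m _ => by ring
    rw [h2, had, zero_mul, neg_zero] at h1
    exact h1
  have hmono : MonotoneOn F (Set.Ici 0) := by
    refine monotoneOn_of_deriv_nonneg (convex_Ici 0) hcont.continuousOn ?_ ?_
    · intro Y hY
      rw [interior_Ici] at hY
      exact (hder Y hY).differentiableAt.differentiableWithinAt
    · intro Y hY
      rw [interior_Ici] at hY
      rw [(hder Y hY).deriv]
      exact hG Y hY
  have h0 : F 0 = 0 := by
    rw [hF]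
    simp
  have hzero : ∀ Y : ℝ, 0 < Y → F Y = 0 := by
    intro Y hY
    apply le_antisymm
    · refine ge_of_tendsto hlim ?_
      filter_upwards [eventually_ge_atTop Y] with Z hZ
      exact hmono (Set.mem_Ici.2 hY.le) (Set.mem_Ici.2 (hY.le.trans hZ)) hZ
    · rw [← h0]
      exact hmono (Set.mem_Ici.2 le_rfl) (Set.mem_Ici.2 hY.le) hY.le
  have h1 : F =ᶠ[𝓝 η] fun _ => 0 := by
    filter_upwards [lt_mem_nhds hη] with Y hY
    exact hzero Y hY
  have h2 : HasDerivAt F 0 η := (hasDerivAt_const η (0 : ℝ)).congr_of_eventuallyEq h1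
  exact (hder η hη).unique h2

end SCF
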