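import Pool.Agent.SCF.TargetsTop

/-!
# SCF-MXC: maximality in the chart
-/

set_option autoImplicit false

namespace SCF

open Module Filter Topology

theorem p_MXC (hSPN : T_SPN) (hGNR : T_GNR) (hLNE : T_LNE) (hGDG : T_GDG) : T_MXC := by
  intro k n r lam hSP s hs hgood G0 hG0 hfin hcht
  by_cases hne : (Sch k lam G0).Nonempty
  · obtain ⟨H1, hH1⟩ := hne
    obtain ⟨U, hU1, hU2, hU3⟩ := hSPN k n r lam G0 hG0 hfin
    rw [Metric.eventually_nhds_iff] at hU3
    obtain ⟨ε, hε, hU4⟩ := hU3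
    set W : Submodule ℂ (Fin n → ℂ) → Set (Matrix (Fin n) (Fin n) ℂ) :=
      fun H => ⋃ H' ∈ {H' | H' ∈ Sch k lam G0 ∧ H' ≠ H}, U H' with hW
    have hWopen : ∀ H, IsOpen (W H) := by
      intro H
      exact isOpen_biUnion fun H' hH' => (hU1 H' hH'.1).1
    have hWdisj : ∀ H ∈ Sch k lam G0, Disjoint (U H) (W H) := by
      intro H hH
      rw [Set.disjoint_left]
      intro x hx hx'
      rw [hW, Set.mem_iUnion₂] at hx'
      obtain ⟨H', hH', hx'⟩ := hx'
      exact (Set.disjoint_left.1 (hU2 H hH H' hH'.1 (Ne.symm hH'.2))) hx hx'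
    have hcov : ∀ H ∈ Sch k lam G0, ∀ G : Fl n r, ‖G - G0‖ < ε → ∀ K ∈ Sch k lam G, pr K ∈ U H ∪ W H := by
      intro H hH G hG K hK
      rw [← dist_eq_norm] at hG
      obtain ⟨H', hH', hx⟩ := hU4 hG K hK
      by_cases he : H' = H
      · left
        rw [← he]
        exact hx
      · right
        rw [hW, Set.mem_iUnion₂]
        exact ⟨H', ⟨hH', he⟩, hx⟩
    have hV : {G : Fl n r | ‖G - G0‖ < ε} ∈ 𝓝 G0 := by
      filter_upwards [Metric.ball_mem_nhds G0 hε] with G hG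
      rw [Metric.mem_ball, dist_eq_norm] at hG
      exact hG
    have hex : ∀ H ∈ Sch k lam G0, ∃ G : Fl n r, ‖G - G0‖ < ε ∧ Gen G ∧ ∃ K ∈ Sch k lam G, pr K ∈ U H := by
      intro H hH
      obtain ⟨G, hGV, hGen, K, hK, hKU⟩ :=
        hGNR k n r lam hSP G0 hG0 hcht H hH (U H) ((hU1 H hH).1.mem_nhds (hU1 H hH).2) _ hV
      exact ⟨G, hGV, hGen, K, hK, hKU⟩
    obtain ⟨C, hC1, hC2, _⟩ := hex H1 hH1
    have hex2 : ∀ H ∈ Sch k lam G0, ∃ K ∈ Sch k lam C, pr K ∈ U H := by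
      intro H hH
      obtain ⟨A, hA1, hA2, hA3⟩ := hex H hH
      exact hLNE k n r lam hSP s hs hgood (U H) (W H) (hU1 H hH).1 (hWopen H) (hWdisj H hH) G0 ε
        (hcov H hH) A C hA2 hC2 hA1 hC1 hA3
    choose! K hK1 hK2 using hex2
    obtain ⟨_, hCfin, hCle⟩ := hGDG k n r lam hSP s hs hgood C hC2
    refine (Set.ncard_le_ncard_of_injOn K hK1 ?_ hCfin).trans hCle
    intro H hH H' hH' heq
    by_contra hne
    have h1 := hK2 H hH
    have h2 := hK2 H' hH'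
    rw [heq] at h1
    exact (Set.disjoint_left.1 (hU2 H hH H' hH' hne)) h1 h2
  · rw [Set.not_nonempty_iff_eq_empty] at hne
    rw [hne, Set.ncard_empty]
    exact Nat.zero_le _

end SCF
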