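import Pool.Agent.SCF.TargetsTop

/-!
# Project SCF, target MXF: the maximality clause for all flags
-/

set_option autoImplicit false

namespace SCF

open Module Filter Topology

theorem p_MXF (hMXC : T_MXC) (hCCP : T_CCP) (hGLS : T_GLS) : T_MXF := by
  intro k n r lam hSP s hs hgs G0 hG0 hfin
  obtain ⟨g, hg⟩ := hCCP k n (Sch k lam G0) hfin (fun H hH => hH.1)
  obtain ⟨h1, h2, h3, h4⟩ := hGLS k n r lam G0 g
  rw [← h2]
  apply hMXC k n r lam hSP s hs hgs _ (h4 hG0) (h3 hfin)
  intro H hH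
  rw [h1] at hH
  obtain ⟨H', hH', rfl⟩ := hH
  exact hg H' hH'

end SCF
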