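import Pool.Agent.SCF.P_CARD

set_option autoImplicit false

namespace SCF

open Module Filter Topology Matrix

theorem p_PERS (h1 : T_FIN) (h2 : T_NEAR) (h3 : T_UNI) : T_PERS := by
  classical
  intro k n r lam hS G0 hI hg H0 hH0 U hU
  have hfin := h1 k n r lam hS G0 hI hg
  filter_upwards [CARD_.main h1 h2 h3 k n r lam hS G0 hI hg
    (fun H => if H = H0 then U else Set.univ)
    (fun H _ => by
      by_cases h : H = H0
      · subst h; simpa using hU
      · simp [h])] with G hG hcard
  obtain ⟨f, hf1, hf2⟩ := hG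
  have hmaps : Set.MapsTo f (Sch k lam G) (Sch k lam G0) := fun H hH => (hf1 H hH).1
  have hfinG : (Sch k lam G).Finite := Set.Finite.of_injOn hmaps hf2 hfin
  -- `f` is onto
  have himg : f '' (Sch k lam G) = Sch k lam G0 := by
    apply Set.eq_of_subset_of_ncard_le (Set.image_subset_iff.mpr hmaps) _ hfin
    rw [hf2.ncard_image]
    exact hcard
  rw [← himg] at hH0
  obtain ⟨H, hH, hHH0⟩ := hH0
  refine ⟨H, hH, ?_⟩
  have := (hf1 H hH).2
  rw [hHH0] at this
  simpa using this

end SCF
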