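import Pool.Agent.SCF.TargetsChart

set_option autoImplicit false

/-!
# SCF, target POS: leading positions
-/

namespace SCF

open Module Filter Topology

theorem p_POS : T_POS := by
  intro k n r lam hS j
  have hkn := hS.kn
  refine ⟨?_, ?_, ?_, ?_⟩
  · intro i i' hii
    have h1 : lam j i' ≤ lam j i := hS.anti j hii.le
    have h2 : lam j i ≤ n - k := hS.le j i
    have h3 : (i : ℕ) < (i' : ℕ) := hii
    unfold pos
    omega
  · intro i
    have h2 : lam j i ≤ n - k := hS.le j i
    have h3 : (i : ℕ) < k := i.2
    unfold pos
    omega
  · intro i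
    have h2 : lam j i ≤ n - k := hS.le j i
    unfold pos
    omega
  · intro i
    have h2 : lam j i ≤ n - k := hS.le j i
    unfold pos
    omega

end SCF
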