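import Pool.Agent.SCF.Targets

/-!
# Project SCF, target PR: matrices of orthogonal projections
-/

set_option autoImplicit false

namespace SCF

open Module Filter Topology
open scoped ComplexConjugate

namespace PR_

/-- the standard identification -/
noncomputable def e (n : ℕ) : EuclideanSpace ℂ (Fin n) ≃ₗ[ℂ] (Fin n → ℂ) :=
  WithLp.linearEquiv 2 ℂ (Fin n → ℂ)

/-- existence -/
theorem exists_isPr {n : ℕ} (H : Submodule ℂ (Fin n → ℂ)) :
    ∃ P : Matrix (Fin n) (Fin n) ℂ, IsPr P H := by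
  classical
  let K : Submodule ℂ (EuclideanSpace ℂ (Fin n)) := H.comap (e n).toLinearMap
  let T : EuclideanSpace ℂ (Fin n) →ₗ[ℂ] EuclideanSpace ℂ (Fin n) :=
    (K.starProjection : EuclideanSpace ℂ (Fin n) →L[ℂ] EuclideanSpace ℂ (Fin n)).toLinearMap
  let L : (Fin n → ℂ) →ₗ[ℂ] (Fin n → ℂ) := (e n).toLinearMap ∘ₗ T ∘ₗ (e n).symm.toLinearMap
  have hT : ∀ x, T x = x ↔ x ∈ K := by
    intro x
    exact Submodule.starProjection_eq_self_iff
  have hTm : ∀ x, T x ∈ K := by
    intro x
    exact Submodule.starProjection_apply_mem K x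
  have hTT : ∀ x, T (T x) = T x := fun x => (hT (T x)).mpr (hTm x)
  have hL : ∀ v, L v = e n (T ((e n).symm v)) := fun v => rfl
  have hsymm : ∀ x y, inner ℂ (T x) y = inner ℂ x (T y) := by
    intro x y
    exact Submodule.starProjection_isSymmetric K x y
  refine ⟨LinearMap.toMatrix' L, ⟨?_, ?_, ?_⟩⟩
  · ext a b
    rw [Matrix.conjTranspose_apply, LinearMap.toMatrix'_apply, LinearMap.toMatrix'_apply, hL, hL]
    have h1 : ∀ (c : Fin n) (x : EuclideanSpace ℂ (Fin n)),
        (e n x) c = inner ℂ ((e n).symm (Pi.single c 1)) x := by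
      intro c x
      have : (e n).symm (Pi.single c 1) = EuclideanSpace.single c (1 : ℂ) := rfl
      rw [this, EuclideanSpace.inner_single_left]
      simp
      rfl
    rw [h1, h1, ← hsymm, ← inner_conj_symm]
    simp
  · rw [← LinearMap.toMatrix'_mul]
    congr 1
    apply LinearMap.ext
    intro v
    rw [Module.End.mul_apply, hL, hL, LinearEquiv.symm_apply_apply, hTT]
  · intro v
    rw [LinearMap.toMatrix'_mulVec, hL]
    constructor
    · intro hv
      have : (e n).symm v ∈ K := by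
        show e n ((e n).symm v) ∈ H
        rw [LinearEquiv.apply_symm_apply]
        exact hv
      rw [(hT _).mpr this, LinearEquiv.apply_symm_apply]
    · intro hv
      have h2 : e n (T ((e n).symm v)) ∈ H := hTm _
      rw [hv] at h2
      exact h2

theorem mul_eq {n : ℕ} {H : Submodule ℂ (Fin n → ℂ)} {P P' : Matrix (Fin n) (Fin n) ℂ}
    (h : IsPr P H) (h' : IsPr P' H) : P' * P = P := by
  apply Matrix.toLin'.injective
  apply LinearMap.ext
  intro v
  rw [Matrix.toLin'_mul, LinearMap.comp_apply, Matrix.toLin'_apply, Matrix.toLin'_apply]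
  apply (h'.mem _).mp
  rw [h.mem, Matrix.mulVec_mulVec, h.idem]

theorem unique {n : ℕ} {H : Submodule ℂ (Fin n → ℂ)} {P P' : Matrix (Fin n) (Fin n) ℂ}
    (h : IsPr P H) (h' : IsPr P' H) : P = P' := by
  have h1 := mul_eq h h'
  have h2 := mul_eq h' h
  have h3 := congrArg Matrix.conjTranspose h1
  rw [Matrix.conjTranspose_mul, h.herm, h'.herm, h2] at h3
  exact h3.symm

theorem bound {n : ℕ} {H : Submodule ℂ (Fin n → ℂ)} {P : Matrix (Fin n) (Fin n) ℂ}
    (h : IsPr P H) (a b : Fin n) : ‖P a b‖ ≤ 1 := by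
  have h1 : ∀ a b, conj (P a b) = P b a := by
    intro a b
    have := congrFun (congrFun h.herm b) a
    rw [Matrix.conjTranspose_apply] at this
    exact this
  have h2 : P a a = ((∑ c, ‖P a c‖ ^ 2 : ℝ) : ℂ) := by
    have := congrFun (congrFun h.idem a) a
    rw [← this, Matrix.mul_apply]
    push_cast
    apply Finset.sum_congr rfl
    intro c _
    rw [← h1 a c, Complex.mul_conj, Complex.normSq_eq_norm_sq]
    push_cast
    rfl
  have h0 : 0 ≤ ∑ c, ‖P a c‖ ^ 2 := Finset.sum_nonneg (fun c _ => sq_nonneg _)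
  have h3 : ‖P a a‖ = ∑ c, ‖P a c‖ ^ 2 := by
    rw [h2, Complex.norm_real, Real.norm_of_nonneg h0]
  have h4 : ∀ c, ‖P a c‖ ^ 2 ≤ ∑ c, ‖P a c‖ ^ 2 := fun c =>
    Finset.single_le_sum (f := fun c => ‖P a c‖ ^ 2) (fun c _ => sq_nonneg _) (Finset.mem_univ c)
  have h5 := h4 a
  have h6 := h4 b
  rw [← h3] at h5 h6
  have h7 : ‖P a a‖ ≤ 1 := by
    by_contra hlt
    rw [not_le] at hlt
    nlinarith [norm_nonneg (P a a)]
  nlinarith [norm_nonneg (P a b)]

end PR_

theorem p_PR : T_PR := by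
  intro n H
  have hex := PR_.exists_isPr H
  have h : IsPr (pr H) H := by
    unfold pr
    rw [dif_pos hex]
    exact hex.choose_spec
  exact ⟨h, fun P hP => PR_.unique hP h, fun a b => PR_.bound h a b⟩

end SCF
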