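import Pool.Agent.SCF.Targets

/-!
# Project SCF, job PRC: continuity of the projection onto a span
-/

set_option autoImplicit false

namespace SCF

namespace PRC_

open Module Filter Topology

/-- the vectors of the family as the columns of a matrix -/
def cols {k n : ℕ} (U : Fin k → Fin n → ℂ) : Matrix (Fin n) (Fin k) ℂ :=
  Matrix.of fun b a => U a b

/-- the Gram matrix -/
def gram {k n : ℕ} (U : Fin k → Fin n → ℂ) : Matrix (Fin k) (Fin k) ℂ :=
  (cols U).conjTranspose * cols U

/-- explicit formula for the projection -/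
noncomputable def fpr {k n : ℕ} (U : Fin k → Fin n → ℂ) : Matrix (Fin n) (Fin n) ℂ :=
  cols U * (gram U)⁻¹ * (cols U).conjTranspose

theorem mulVec_cols {k n : ℕ} (U : Fin k → Fin n → ℂ) (x : Fin k → ℂ) :
    (cols U).mulVec x = ∑ a, x a • U a := by
  funext b
  simp [cols, Matrix.mulVec, dotProduct, mul_comm]

theorem inj_cols {k n : ℕ} (U : Fin k → Fin n → ℂ) (hU : LinearIndependent ℂ U) :
    Function.Injective (cols U).mulVec := by
  intro x y h
  have h2 : ∑ a, (x a - y a) • U a = 0 := by
    have h3 := h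
    rw [mulVec_cols, mulVec_cols] at h3
    simp only [sub_smul, Finset.sum_sub_distrib]
    rw [h3, sub_self]
  funext a
  have := (Fintype.linearIndependent_iff.mp hU) (fun a => x a - y a) h2 a
  exact sub_eq_zero.mp this

open scoped ComplexOrder in
theorem det_gram_ne {k n : ℕ} (U : Fin k → Fin n → ℂ) (hU : LinearIndependent ℂ U) :
    (gram U).det ≠ 0 := by
  have h := (Matrix.PosDef.conjTranspose_mul_self (cols U) (inj_cols U hU)).isUnit
  have h2 := (Matrix.isUnit_iff_isUnit_det _).mp h
  exact h2.ne_zero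

theorem isPr_fpr {k n : ℕ} (U : Fin k → Fin n → ℂ) (hU : (gram U).det ≠ 0) :
    IsPr (fpr U) (Submodule.span ℂ (Set.range U)) := by
  have hu : IsUnit (gram U).det := isUnit_iff_ne_zero.mpr hU
  have hg : (gram U).conjTranspose = gram U := by
    simp [gram, Matrix.conjTranspose_mul]
  have hmul : fpr U * cols U = cols U := by
    have : fpr U * cols U = cols U * ((gram U)⁻¹ * gram U) := by
      simp only [fpr, gram, Matrix.mul_assoc]
    rw [this, Matrix.nonsing_inv_mul _ hu, Matrix.mul_one]
  refine ⟨?_, ?_, ?_⟩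
  · simp only [fpr, Matrix.conjTranspose_mul, Matrix.conjTranspose_conjTranspose,
      Matrix.conjTranspose_nonsing_inv, hg, Matrix.mul_assoc]
  · have : fpr U * fpr U = (fpr U * cols U) * (gram U)⁻¹ * (cols U).conjTranspose := by
      conv_lhs => rw [show fpr U * fpr U = fpr U * (cols U * (gram U)⁻¹ * (cols U).conjTranspose)
        from rfl]
      simp only [Matrix.mul_assoc]
    rw [this, hmul]
    rfl
  · intro v
    constructor
    · intro hv
      obtain ⟨c, hc⟩ := (Submodule.mem_span_range_iff_exists_fun ℂ).mp hv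
      have : v = (cols U).mulVec c := by rw [mulVec_cols]; exact hc.symm
      rw [this, Matrix.mulVec_mulVec, hmul]
    · intro hv
      rw [← hv]
      have : (fpr U).mulVec v = (cols U).mulVec
          (((gram U)⁻¹ * (cols U).conjTranspose).mulVec v) := by
        rw [Matrix.mulVec_mulVec, fpr, Matrix.mul_assoc]
      rw [this, mulVec_cols]
      exact Submodule.sum_mem _ fun a _ =>
        Submodule.smul_mem _ _ (Submodule.subset_span ⟨a, rfl⟩)

theorem cont_cols {k n : ℕ} : Continuous (fun U : Fin k → Fin n → ℂ => cols U) := by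
  refine continuous_matrix ?_
  intro i j
  exact (continuous_apply i).comp (continuous_apply j)

theorem cont_gram {k n : ℕ} : Continuous (fun U : Fin k → Fin n → ℂ => gram U) :=
  (cont_cols.matrix_conjTranspose).matrix_mul cont_cols

theorem tendsto_fpr {k n : ℕ} (U0 : Fin k → Fin n → ℂ) (h0 : (gram U0).det ≠ 0) :
    Tendsto (fun U : Fin k → Fin n → ℂ => fpr U) (𝓝 U0) (𝓝 (fpr U0)) := by
  have hinv : ContinuousAt (fun U : Fin k → Fin n → ℂ => (gram U)⁻¹) U0 := by
    have he : (fun U : Fin k → Fin n → ℂ => (gram U)⁻¹) =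
        fun U => ((gram U).det)⁻¹ • (gram U).adjugate := by
      funext U
      rw [Matrix.inv_def, Ring.inverse_eq_inv']
    rw [he]
    exact ((cont_gram.matrix_det.continuousAt).inv₀ h0).smul
      (cont_gram.matrix_adjugate.continuousAt)
  have hm1 : Continuous (fun p : Matrix (Fin n) (Fin k) ℂ × Matrix (Fin k) (Fin k) ℂ =>
      p.1 * p.2) := continuous_fst.matrix_mul continuous_snd
  have hm2 : Continuous (fun p : Matrix (Fin n) (Fin k) ℂ × Matrix (Fin k) (Fin n) ℂ =>
      p.1 * p.2) := continuous_fst.matrix_mul continuous_snd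
  have hA : ContinuousAt (fun U : Fin k → Fin n → ℂ => cols U * (gram U)⁻¹) U0 :=
    ContinuousAt.comp (f := fun U : Fin k → Fin n → ℂ => (cols U, (gram U)⁻¹))
      hm1.continuousAt (cont_cols.continuousAt.prodMk hinv)
  have hB : ContinuousAt (fun U : Fin k → Fin n → ℂ =>
      cols U * (gram U)⁻¹ * (cols U).conjTranspose) U0 :=
    ContinuousAt.comp (f := fun U : Fin k → Fin n → ℂ =>
      (cols U * (gram U)⁻¹, (cols U).conjTranspose))
      hm2.continuousAt (hA.prodMk cont_cols.matrix_conjTranspose.continuousAt)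
  exact hB

end PRC_

open Module Filter Topology in
theorem p_PRC (h1 : T_PR) : T_PRC := by
  intro k n U0 hU0 W hW
  have h0 := PRC_.det_gram_ne U0 hU0
  have hev : ∀ᶠ U in 𝓝 U0, (PRC_.gram U).det ≠ 0 :=
    (PRC_.cont_gram.matrix_det.continuousAt).eventually_ne h0
  have hpr : ∀ U : Fin k → Fin n → ℂ, (PRC_.gram U).det ≠ 0 →
      PRC_.fpr U = pr (Submodule.span ℂ (Set.range U)) := fun U hU =>
    (h1 n (Submodule.span ℂ (Set.range U))).2.1 _ (PRC_.isPr_fpr U hU)
  have ht := PRC_.tendsto_fpr U0 h0
  rw [hpr U0 h0] at ht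
  filter_upwards [hev, ht.eventually hW] with U hU hW2
  rw [← hpr U hU]
  exact hW2

end SCF
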