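import Pool.Agent.SCF.Targets

/-!
# SCF-PSD: the Cauchy kernel is positive definite
-/

set_option autoImplicit false

namespace SCF

open MeasureTheory Set
open scoped ComplexConjugate

namespace PSD_

noncomputable section

variable {ι : Type} [Fintype ι]

/-- the exponential sum -/
def hh (t : ι → ℝ) (g : ι → ℂ) (η : ℝ) (u : ℝ) : ℂ :=
  ∑ p, g p * Complex.exp (-((η : ℂ) / 2 + Complex.I * t p) * u)

theorem hh_cont (t : ι → ℝ) (g : ι → ℂ) (η : ℝ) : Continuous (hh t g η) := by
  unfold hh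
  fun_prop

theorem normSq_hh (t : ι → ℝ) (g : ι → ℂ) (η u : ℝ) :
    ((‖hh t g η u‖ ^ 2 : ℝ) : ℂ) = ∑ p, ∑ q, g p * conj (g q) *
      Complex.exp (-((η : ℂ) + Complex.I * (t p - t q)) * u) := by
  have h1 : ((‖hh t g η u‖ ^ 2 : ℝ) : ℂ) = hh t g η u * conj (hh t g η u) := by
    rw [Complex.mul_conj, Complex.normSq_eq_norm_sq]
  rw [h1]
  unfold hh
  rw [map_sum, Finset.sum_mul_sum]
  refine Finset.sum_congr rfl fun p _ => Finset.sum_congr rfl fun q _ => ?_
  rw [map_mul, ← Complex.exp_conj]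
  have h2 : conj (-((η : ℂ) / 2 + Complex.I * t q) * u) =
      -((η : ℂ) / 2 - Complex.I * t q) * u := by
    simp only [map_mul, map_neg, map_add, map_div₀, Complex.conj_ofReal, Complex.conj_I,
      map_ofNat]
    ring
  rw [h2]
  have h3 : -((η : ℂ) + Complex.I * (t p - t q)) * u =
      -((η : ℂ) / 2 + Complex.I * t p) * u + -((η : ℂ) / 2 - Complex.I * t q) * u := by
    ring
  rw [h3, Complex.exp_add]
  ring

theorem re_neg (η a b : ℝ) (hη : 0 < η) : (-((η : ℂ) + Complex.I * (a - b))).re < 0 := by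
  simp [hη]

theorem int_one (η a b : ℝ) (hη : 0 < η) :
    ∫ u : ℝ in Ioi 0, Complex.exp (-((η : ℂ) + Complex.I * (a - b)) * u) =
      1 / ((η : ℂ) + Complex.I * (a - b)) := by
  rw [integral_exp_mul_complex_Ioi (re_neg η a b hη), Complex.ofReal_zero, mul_zero,
    Complex.exp_zero, div_neg, neg_div, neg_neg]

theorem integrable_one (η a b : ℝ) (hη : 0 < η) :
    IntegrableOn (fun u : ℝ => Complex.exp (-((η : ℂ) + Complex.I * (a - b)) * u)) (Ioi 0) :=
  integrableOn_exp_mul_complex_Ioi (re_neg η a b hη) 0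

theorem integrable_sum (t : ι → ℝ) (g : ι → ℂ) (η : ℝ) (hη : 0 < η) :
    IntegrableOn (fun u : ℝ => ((‖hh t g η u‖ ^ 2 : ℝ) : ℂ)) (Ioi 0) := by
  simp only [normSq_hh]
  refine integrable_finsetSum _ fun p _ => integrable_finsetSum _ fun q _ => ?_
  exact (integrable_one η (t p) (t q) hη).const_mul _

theorem int_sum (t : ι → ℝ) (g : ι → ℂ) (η : ℝ) (hη : 0 < η) :
    ((∫ u : ℝ in Ioi 0, ‖hh t g η u‖ ^ 2 : ℝ) : ℂ) =
      ∑ p, ∑ q, g p * conj (g q) / (η + Complex.I * (t p - t q)) := by
  rw [← integral_complex_ofReal]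
  simp only [normSq_hh]
  rw [integral_finsetSum]
  · refine Finset.sum_congr rfl fun p _ => ?_
    rw [integral_finsetSum]
    · refine Finset.sum_congr rfl fun q _ => ?_
      rw [integral_const_mul, int_one η (t p) (t q) hη]
      ring
    · intro q _
      exact (integrable_one η (t p) (t q) hη).const_mul _
  · intro p _
    refine integrable_finsetSum _ fun q _ => ?_
    exact (integrable_one η (t p) (t q) hη).const_mul _

/-- independence -/
theorem indep (t : ι → ℝ) (ht : Function.Injective t) (g : ι → ℂ) (η : ℝ)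
    (h : ∀ u : ℝ, 0 < u → hh t g η u = 0) : g = 0 := by
  classical
  set δ : ℝ := 1 / (1 + ∑ p, ∑ q, |t p - t q|) with hδ
  have hS : 0 ≤ ∑ p, ∑ q, |t p - t q| :=
    Finset.sum_nonneg fun p _ => Finset.sum_nonneg fun q _ => abs_nonneg _
  have hδ0 : 0 < δ := by positivity
  have hδ1 : ∀ p q, |t p - t q| * δ < 1 := by
    intro p q
    have h1 : |t p - t q| ≤ ∑ p, ∑ q, |t p - t q| := by
      refine (Finset.single_le_sum (f := fun q => |t p - t q|) (fun q _ => abs_nonneg _)
        (Finset.mem_univ q)).trans ?_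
      exact Finset.single_le_sum (f := fun p => ∑ q, |t p - t q|)
        (fun p _ => Finset.sum_nonneg fun q _ => abs_nonneg _) (Finset.mem_univ p)
    rw [hδ, mul_one_div, div_lt_one (by positivity)]
    linarith
  let x : ι → ℂ := fun p => Complex.exp (-((η : ℂ) / 2 + Complex.I * t p) * δ)
  have hx : Function.Injective x := by
    intro p q hpq
    have h1 : Complex.exp (-((η : ℂ) / 2 + Complex.I * t p) * δ) =
      Complex.exp (-((η : ℂ) / 2 + Complex.I * t q) * δ) := hpq
    rw [Complex.exp_eq_exp_iff_exists_int] at h1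
    obtain ⟨n, hn⟩ := h1
    have h2 : (((t q - t p) * δ : ℝ) : ℂ) = ((n * (2 * Real.pi) : ℝ) : ℂ) := by
      have h3 : Complex.I * (((t q - t p) * δ : ℝ) : ℂ) =
          Complex.I * ((n * (2 * Real.pi) : ℝ) : ℂ) := by
        push_cast
        linear_combination hn
      exact mul_left_cancel₀ Complex.I_ne_zero h3
    have h4 : (t q - t p) * δ = n * (2 * Real.pi) := Complex.ofReal_injective h2
    have h5 : |(n : ℝ) * (2 * Real.pi)| < 1 := by
      rw [← h4, abs_mul, abs_of_pos hδ0]
      exact hδ1 q p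
    have h6 : n = 0 := by
      by_contra hn0
      have h7 : (1 : ℝ) ≤ |(n : ℝ)| := by
        have : 1 ≤ |n| := Int.one_le_abs hn0
        exact_mod_cast this
      rw [abs_mul, abs_of_pos (by positivity : 0 < 2 * Real.pi)] at h5
      nlinarith [Real.pi_gt_three, Real.pi_pos]
    rw [h6] at h4
    have h8 : t q - t p = 0 := by
      rcases mul_eq_zero.1 (h4.trans (by simp)) with h | h
      · exact h
      · exact absurd h hδ0.ne'
    exact ht (by linarith)
  have hxn : ∀ p, x p ≠ 0 := fun p => Complex.exp_ne_zero _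
  have hsum : ∀ n : ℕ, ∑ p, (g p * x p) * x p ^ n = 0 := by
    intro n
    have h1 := h ((n + 1) * δ) (by positivity)
    unfold hh at h1
    rw [← h1]
    refine Finset.sum_congr rfl fun p _ => ?_
    have h2 : Complex.exp (-((η : ℂ) / 2 + Complex.I * t p) * (((n + 1) * δ : ℝ) : ℂ)) =
        x p ^ (n + 1) := by
      show _ = Complex.exp _ ^ (n + 1)
      rw [← Complex.exp_nat_mul]
      congr 1
      push_cast
      ring
    rw [h2, pow_succ']
    ring
  have hpoly : ∀ P : Polynomial ℂ, ∑ p, (g p * x p) * P.eval (x p) = 0 := by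
    intro P
    have h1 : ∀ p, (g p * x p) * P.eval (x p) =
        ∑ n ∈ Finset.range (P.natDegree + 1), P.coeff n * ((g p * x p) * x p ^ n) := by
      intro p
      rw [Polynomial.eval_eq_sum_range, Finset.mul_sum]
      exact Finset.sum_congr rfl fun n _ => by ring
    rw [Finset.sum_congr rfl fun p _ => h1 p, Finset.sum_comm]
    refine Finset.sum_eq_zero fun n _ => ?_
    rw [← Finset.mul_sum, hsum n, mul_zero]
  funext p
  have h1 := hpoly (Lagrange.basis Finset.univ x p)
  rw [Finset.sum_eq_single p] at h1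
  · rw [Lagrange.eval_basis_self (fun a _ b _ hab => hx hab) (Finset.mem_univ p), mul_one] at h1
    exact (mul_eq_zero.1 h1).resolve_right (hxn p)
  · intro q _ hq
    rw [Lagrange.eval_basis_of_ne (fun h => hq h.symm) (Finset.mem_univ q), mul_zero]
  · intro hp
    exact absurd (Finset.mem_univ p) hp

end

end PSD_

theorem p_PSD : T_PSD := by
  intro ι _ t ht g η hη
  have h1 := PSD_.int_sum t g η hη
  have h2 : (∑ p, ∑ q, g p * conj (g q) / (η + Complex.I * (t p - t q))).re =
      ∫ u : ℝ in Ioi 0, ‖PSD_.hh t g η u‖ ^ 2 := by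
    rw [← h1, Complex.ofReal_re]
  have h3 : ∀ u : ℝ, 0 ≤ ‖PSD_.hh t g η u‖ ^ 2 := fun u => sq_nonneg _
  refine ⟨?_, ?_⟩
  · rw [h2]
    exact integral_nonneg h3
  · intro h4
    rw [h2] at h4
    have hint : IntegrableOn (fun u : ℝ => ‖PSD_.hh t g η u‖ ^ 2) (Ioi 0) := by
      have h5 := (PSD_.integrable_sum t g η hη).re
      exact h5
    rw [setIntegral_eq_zero_iff_of_nonneg_ae (Filter.Eventually.of_forall h3) hint] at h4
    have h5 : EqOn (fun u : ℝ => ‖PSD_.hh t g η u‖ ^ 2) 0 (Ioi 0) := by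
      refine Measure.eqOn_open_of_ae_eq h4 isOpen_Ioi ?_ continuousOn_const
      exact ((PSD_.hh_cont t g η).norm.pow 2).continuousOn
    refine PSD_.indep t ht g η fun u hu => ?_
    have h6 : ‖PSD_.hh t g η u‖ ^ 2 = 0 := h5 hu
    have h7 : ‖PSD_.hh t g η u‖ = 0 := by
      simpa using h6
    exact norm_eq_zero.1 h7

end SCF
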