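import Pool.Agent.SCF.TargetsChart
import Pool.Agent.SCF.Targets

/-!
# Project SCF: target T_PTB (perturbation of the chart parameters)
-/

set_option autoImplicit false

namespace SCF

open Module Filter Topology

open Classical in
/-- the flags given by the parameters -/
noncomputable def PTB_Phi (k n r : ℕ) (lam : Fin r → Fin k → ℕ)
    (p : Fl n r × (Fin k → Fin n → ℂ) × (Fin r → Fin k → Fin k → ℂ) × (Fin r → Fin k → Fin n → ℂ)) :
    Fl n r := fun j a =>
  if h : ∃ i : Fin k, (a : ℕ) = pos k n lam j i then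
    (∑ l, p.2.2.1 j h.choose l • p.2.1 l) +
      ∑ b, (if Bf k n lam j h.choose b then p.2.2.2 j h.choose b else 0) • p.1 j b
  else p.1 j a

theorem PTB_cont (k n r : ℕ) (lam : Fin r → Fin k → ℕ) : Continuous (PTB_Phi k n r lam) := by
  classical
  refine continuous_pi fun j => continuous_pi fun a => ?_
  by_cases h : ∃ i : Fin k, (a : ℕ) = pos k n lam j i
  · have e : (fun p => PTB_Phi k n r lam p j a) = fun p => (∑ l, p.2.2.1 j h.choose l • p.2.1 l) +
      ∑ b, (if Bf k n lam j h.choose b then p.2.2.2 j h.choose b else 0) • p.1 j b := by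
      funext p
      simp only [PTB_Phi, dif_pos h]
    rw [e]
    refine continuous_pi fun c => ?_
    simp only [Pi.add_apply, Finset.sum_apply, Pi.smul_apply, smul_eq_mul]
    refine Continuous.add (continuous_finsetSum _ fun l _ => ?_) (continuous_finsetSum _ fun b _ => ?_)
    · fun_prop
    · refine Continuous.mul ?_ ?_
      · by_cases hb : Bf k n lam j h.choose b
        · simp only [if_pos hb]; fun_prop
        · simp only [if_neg hb]; fun_prop
      · fun_prop
  · have e : (fun p => PTB_Phi k n r lam p j a) = fun p => p.1 j a := by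
      funext p
      simp only [PTB_Phi, dif_neg h]
    rw [e]
    fun_prop

theorem PTB_eqJ (k n r : ℕ) (lam : Fin r → Fin k → ℕ) (h0 : ∀ j, Function.Injective (pos k n lam j))
    (p : Fl n r × (Fin k → Fin n → ℂ) × (Fin r → Fin k → Fin k → ℂ) × (Fin r → Fin k → Fin n → ℂ))
    (j : Fin r) (i : Fin k) (a : Fin n) (ha : (a : ℕ) = pos k n lam j i) :
    PTB_Phi k n r lam p j a = (∑ l, p.2.2.1 j i l • p.2.1 l) +
      ∑ b, (open Classical in if Bf k n lam j i b then p.2.2.2 j i b else 0) • p.1 j b := by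
  classical
  have h : ∃ i : Fin k, (a : ℕ) = pos k n lam j i := ⟨i, ha⟩
  have e : h.choose = i := h0 j (h.choose_spec.symm.trans ha)
  simp only [PTB_Phi, dif_pos h, e]

theorem PTB_eqN (k n r : ℕ) (lam : Fin r → Fin k → ℕ)
    (p : Fl n r × (Fin k → Fin n → ℂ) × (Fin r → Fin k → Fin k → ℂ) × (Fin r → Fin k → Fin n → ℂ))
    (j : Fin r) (a : Fin n) (ha : ¬ Jm k n lam j a) :
    PTB_Phi k n r lam p j a = p.1 j a := by
  classical
  have h : ¬ ∃ i : Fin k, (a : ℕ) = pos k n lam j i := ha
  simp only [PTB_Phi, dif_neg h]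

theorem p_PTB (hPOS : T_POS) (hINDO : T_INDO) : T_PTB := by
  classical
  intro k n r lam hSP G1 M1 C1 E1 hI hF ε hε
  have hinj : ∀ j, Function.Injective (pos k n lam j) := fun j => (hPOS k n r lam hSP j).1.injective
  let Q := Fl n r × (Fin k → Fin n → ℂ) × (Fin r → Fin k → Fin k → ℂ) × (Fin r → Fin k → Fin n → ℂ)
  let p1 : Q := (G1, M1, C1, E1)
  have e1 : PTB_Phi k n r lam p1 = G1 := by
    funext j a
    by_cases ha : Jm k n lam j a
    · obtain ⟨i, hi⟩ := ha
      rw [PTB_eqJ k n r lam hinj p1 j i a hi, hF j i a hi]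
    · rw [PTB_eqN k n r lam p1 j a ha]
  have hT : Tendsto (PTB_Phi k n r lam) (𝓝 p1) (𝓝 G1) := by
    have := (PTB_cont k n r lam).tendsto p1
    rwa [e1] at this
  have hev1 : ∀ᶠ G in 𝓝 G1, Ind G := hINDO n r G1 hI
  have hev2 : ∀ᶠ G : Fl n r in 𝓝 G1, ∀ j a b, ‖G j a b - G1 j a b‖ < ε := by
    rw [Filter.eventually_all]; intro j
    rw [Filter.eventually_all]; intro a
    rw [Filter.eventually_all]; intro b
    have hc : Continuous fun G : Fl n r => ‖G j a b - G1 j a b‖ := by fun_prop
    have h2 := hc.tendsto G1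
    simp only [sub_self, norm_zero] at h2
    exact h2.eventually (gt_mem_nhds hε)
  have hev := hT.eventually (hev1.and hev2)
  rw [Metric.eventually_nhds_iff] at hev
  obtain ⟨δ, hδ, hδ2⟩ := hev
  refine ⟨δ, hδ, ?_⟩
  intro G' M C E hG' hM hC hE
  let G2 : Fl n r := fun j a => if Jm k n lam j a then G1 j a else G' j a
  let E2 : Fin r → Fin k → Fin n → ℂ := fun j i b => if Bf k n lam j i b then E j i b else E1 j i b
  let p : Q := (G2, M, C, E2)
  have hd : dist p p1 < δ := by
    have hG2 : dist G2 G1 < δ := by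
      rw [dist_pi_lt_iff hδ]; intro j
      rw [dist_pi_lt_iff hδ]; intro a
      rw [dist_pi_lt_iff hδ]; intro b
      rw [dist_eq_norm]
      by_cases ha : Jm k n lam j a
      · simpa [G2, ha] using hδ
      · simpa [G2, ha] using hG' j a b ha
    have hM2 : dist M M1 < δ := by
      rw [dist_pi_lt_iff hδ]; intro a
      rw [dist_pi_lt_iff hδ]; intro b
      rw [dist_eq_norm]
      exact hM a b
    have hC2 : dist C C1 < δ := by
      rw [dist_pi_lt_iff hδ]; intro j
      rw [dist_pi_lt_iff hδ]; intro i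
      rw [dist_pi_lt_iff hδ]; intro l
      rw [dist_eq_norm]
      exact hC j i l
    have hE2 : dist E2 E1 < δ := by
      rw [dist_pi_lt_iff hδ]; intro j
      rw [dist_pi_lt_iff hδ]; intro i
      rw [dist_pi_lt_iff hδ]; intro b
      rw [dist_eq_norm]
      by_cases hb : Bf k n lam j i b
      · simpa [E2, hb] using hE j i b hb
      · simpa [E2, hb] using hδ
    exact max_lt hG2 (max_lt hM2 (max_lt hC2 hE2))
  obtain ⟨hInd, hnear⟩ := hδ2 hd
  have hN : ∀ j a, ¬ Jm k n lam j a → PTB_Phi k n r lam p j a = G' j a := by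
    intro j a ha
    rw [PTB_eqN k n r lam p j a ha]
    simp [p, G2, ha]
  refine ⟨PTB_Phi k n r lam p, hN, ?_, hInd, hnear⟩
  intro j i a ha
  rw [PTB_eqJ k n r lam hinj p j i a ha]
  congr 1
  refine Finset.sum_congr rfl fun b _ => ?_
  by_cases hb : Bf k n lam j i b
  · have hb2 : ¬ Jm k n lam j b := hb.2
    rw [hN j b hb2]
    simp [p, G2, E2, hb, hb2]
  · simp [hb]

end SCF
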