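import Pool.Agent.SCF.Targets

set_option autoImplicit false

namespace SCF

open Module Filter Topology
open scoped ComplexConjugate

namespace REAL_

theorem sgF_sec {n r : ℕ} (t : Fin r → Fin n → ℝ) : sgF cjσ (sec t) = sec t := by
  funext j a b
  show cjσ (((t j a : ℂ)) ^ (b : ℕ)) = ((t j a : ℂ)) ^ (b : ℕ)
  rw [map_pow]
  congr 1
  show conj ((t j a : ℂ)) = (t j a : ℂ)
  exact Complex.conj_ofReal _

end REAL_

open REAL_

theorem p_REAL (h1 : T_SGS) (h2 : T_L1) (h3 : T_L2) (h4 : T_SECI) : T_REAL := by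
  intro k n r lam hsp t ht H hH
  have hcj : cj H ∈ Sch k lam (sec t) := by
    have h := h1 k n r lam cjσ (sec t)
    rw [sgF_sec] at h
    rw [h]
    exact ⟨H, hH, rfl⟩
  by_contra hne
  obtain ⟨B, hB, hB0⟩ := h2 k n r lam hsp (sec t) (h4 n r t ht) H hH (cj H) hcj
    (fun h => hne h.symm)
  exact hB0 (h3 n r t ht H B hB)

theorem p_GSEC (h1 : T_REAL) (h2 : T_L2) : T_GSEC := by
  intro k n r lam hsp t ht H hH B hB
  have hcj := h1 k n r lam hsp t ht H hH
  refine h2 n r t ht H B ?_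
  rw [hcj]
  exact hB

end SCF
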