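import Pool.Agent.SCF.Targets

set_option autoImplicit false

namespace SCF

open Module Filter Topology Matrix

theorem p_SECI : T_SECI := by
  intro n r t ht j
  have h : (Matrix.vandermonde (fun a => (t j a : ℂ))).det ≠ 0 := by
    rw [Matrix.det_vandermonde_ne_zero_iff]
    intro a b hab
    exact ht.inj j (Complex.ofReal_injective hab)
  have h2 := Matrix.linearIndependent_rows_of_det_ne_zero h
  exact h2

end SCF
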