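import Pool.Agent.SCF.Targets

/-!
# SCF-SGB: basic properties of `sg` (MP_0c25eb_ag, S00015), helper66
-/

set_option autoImplicit false

namespace SCF

open Module Filter Topology

namespace SGB_

/-- the semilinear equivalence -/
def eqv {n : ℕ} (σ : ℂ ≃+* ℂ) (H : Submodule ℂ (Fin n → ℂ)) : H ≃+ sg σ H where
  toFun v := ⟨fun b => σ (v.1 b), by
    rw [mem_sg]
    simp only [RingEquiv.symm_apply_apply]
    exact v.2⟩
  invFun v := ⟨fun b => σ.symm (v.1 b), v.2⟩
  left_inv v := by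
    apply Subtype.ext
    funext b
    simp
  right_inv v := by
    apply Subtype.ext
    funext b
    simp
  map_add' v w := by
    apply Subtype.ext
    funext b
    simp

theorem rk {n : ℕ} (σ : ℂ ≃+* ℂ) (H : Submodule ℂ (Fin n → ℂ)) :
    finrank ℂ (sg σ H) = finrank ℂ H := by
  have h : Module.rank ℂ H = Module.rank ℂ (sg σ H) := by
    apply rank_eq_of_equiv_equiv (fun c : ℂ => σ c) (eqv σ H) σ.bijective
    intro c v
    apply Subtype.ext
    funext b
    simp [eqv]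
  unfold Module.finrank
  rw [h]

theorem symm1 {n : ℕ} (σ : ℂ ≃+* ℂ) (H : Submodule ℂ (Fin n → ℂ)) :
    sg σ.symm (sg σ H) = H := by
  ext v
  rw [mem_sg, mem_sg]
  simp

theorem symm2 {n : ℕ} (σ : ℂ ≃+* ℂ) (H : Submodule ℂ (Fin n → ℂ)) :
    sg σ (sg σ.symm H) = H := by
  ext v
  rw [mem_sg, mem_sg]
  simp

theorem le1 {n : ℕ} (σ : ℂ ≃+* ℂ) (g : Fin n → Fin n → ℂ) (m : ℕ) :
    Fs (fun a b => σ (g a b)) m ≤ sg σ (Fs g m) := by
  unfold Fs
  rw [Submodule.span_le]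
  rintro _ ⟨a, ha, rfl⟩
  change _ ∈ sg σ _
  rw [mem_sg]
  simp only [RingEquiv.symm_apply_apply]
  exact Submodule.subset_span ⟨a, ha, rfl⟩

theorem fsg {n : ℕ} (σ : ℂ ≃+* ℂ) (g : Fin n → Fin n → ℂ) (m : ℕ) :
    sg σ (Fs g m) = Fs (fun a b => σ (g a b)) m := by
  apply le_antisymm _ (le1 σ g m)
  have h := le1 σ.symm (fun a b => σ (g a b)) m
  simp only [RingEquiv.symm_apply_apply] at h
  intro v hv
  rw [mem_sg] at hv
  have h1 := h hv
  rw [mem_sg] at h1
  simpa using h1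

end SGB_

open SGB_ in
theorem p_SGB : T_SGB := by
  intro n r σ
  refine ⟨rk σ, fun H K => rfl, symm1 σ, symm2 σ, ?_, fsg σ⟩
  intro G
  funext j a b
  simp [sgF]

end SCF
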