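import Pool.Agent.SCF.Targets

/-!
# SCF, target SGG: goodness is invariant under field automorphisms
-/

set_option autoImplicit false

namespace SCF

open Module Filter Topology

theorem SGG_mulVec {n : ℕ} (σ : ℂ ≃+* ℂ) (M : Matrix (Fin n) (Fin n) ℂ) (v : Fin n → ℂ) :
    (M.map σ.symm).mulVec v = fun b => σ.symm (M.mulVec (fun c => σ (v c)) b) := by
  funext b
  simp only [Matrix.mulVec, dotProduct, Matrix.map_apply, map_sum, map_mul,
    RingEquiv.symm_apply_apply]

theorem SGG_mem {n : ℕ} (σ : ℂ ≃+* ℂ) (H : Submodule ℂ (Fin n → ℂ)) (v : Fin n → ℂ) (hv : v ∈ H) :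
    (fun c => σ (v c)) ∈ sg σ H := by
  rw [mem_sg]
  have e : (fun b => σ.symm (σ (v b))) = v := by
    funext b
    exact σ.symm_apply_apply _
  show (fun b => σ.symm (σ (v b))) ∈ H
  rw [e]
  exact hv

theorem SGG_rel {n r : ℕ} (h1 : T_SGB) (σ : ℂ ≃+* ℂ) (G : Fl n r) (H : Submodule ℂ (Fin n → ℂ))
    (B : Fin r → Matrix (Fin n) (Fin n) ℂ) (hB : IsRel (sgF σ G) (sg σ H) (sg σ H) B) :
    IsRel G H H (fun j => (B j).map σ.symm) := by
  refine ⟨?_, ?_, ?_, ?_⟩
  · intro j v hv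
    have h := hB.ker j _ (SGG_mem σ H v hv)
    show ((B j).map σ.symm).mulVec v = 0
    rw [SGG_mulVec, h]
    funext b
    simp
  · intro j v
    have h := hB.im j (fun c => σ (v c))
    rw [mem_sg] at h
    show ((B j).map σ.symm).mulVec v ∈ H
    rw [SGG_mulVec]
    exact h
  · intro j a
    have h := hB.tri j a
    have h6 := (h1 n r σ).2.2.2.2.2 (G j) (a : ℕ)
    have h7 : (B j).mulVec (sgF σ G j a) ∈ sg σ (Fs (G j) (a : ℕ)) := by
      rw [h6]
      exact h
    rw [mem_sg] at h7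
    show ((B j).map σ.symm).mulVec (G j a) ∈ Fs (G j) (a : ℕ)
    rw [SGG_mulVec]
    exact h7
  · have h := hB.sum
    ext a b
    have h2 : (∑ j, B j) a b = 0 := by
      rw [h]
      rfl
    rw [Matrix.sum_apply] at h2
    rw [Matrix.sum_apply]
    simp only [Matrix.map_apply, Matrix.zero_apply]
    rw [← map_sum, h2, map_zero]

theorem p_SGG (h1 : T_SGB) (h2 : T_SGS) : T_SGG := by
  intro k n r lam σ G hG H' hH' B hB
  rw [h2 k n r lam σ G] at hH'
  obtain ⟨H, hH, rfl⟩ := hH'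
  have h := hG H hH _ (SGG_rel h1 σ G H B hB)
  funext j
  ext a b
  have h3 : ((B j).map σ.symm) a b = 0 := by
    have := congrFun h j
    have h4 : (B j).map σ.symm = 0 := this
    rw [h4]
    rfl
  rw [Matrix.map_apply] at h3
  exact (map_eq_zero_iff σ.symm σ.symm.injective).mp h3

end SCF
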