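import Pool.Agent.SCF.Targets

set_option autoImplicit false

namespace SCF

open Module Filter Topology
open scoped ComplexConjugate

namespace SGS_

theorem fwd (h : T_SGB) (k n r : ℕ) (lam : Fin r → Fin k → ℕ) (σ : ℂ ≃+* ℂ) (G : Fl n r)
    (H : Submodule ℂ (Fin n → ℂ)) (hH : H ∈ Sch k lam G) : sg σ H ∈ Sch k lam (sgF σ G) := by
  obtain ⟨h1, h2, -, -, -, h6⟩ := h n r σ
  obtain ⟨hr, hc⟩ := hH
  refine ⟨(h1 H).trans hr, ?_⟩
  intro j i
  have e : Fs (sgF σ G j) (n - k + (i : ℕ) + 1 - lam j i) =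
      sg σ (Fs (G j) (n - k + (i : ℕ) + 1 - lam j i)) := (h6 (G j) _).symm
  rw [e, ← h2, h1]
  exact hc j i

end SGS_

theorem p_SGS (h : T_SGB) : T_SGS := by
  intro k n r lam σ G
  obtain ⟨-, -, -, h4, h5, -⟩ := h n r σ
  ext H
  constructor
  · intro hH
    refine ⟨sg σ.symm H, ?_, h4 H⟩
    have := SGS_.fwd h k n r lam σ.symm (sgF σ G) H hH
    rwa [h5] at this
  · rintro ⟨K, hK, rfl⟩
    exact SGS_.fwd h k n r lam σ G K hK

theorem p_SGI : T_SGI := by
  intro n r σ G hG j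
  rw [Fintype.linearIndependent_iff]
  intro c hc a
  have h0 := (Fintype.linearIndependent_iff.mp (hG j)) (fun a => σ.symm (c a)) ?_ a
  · exact (map_eq_zero_iff σ.symm σ.symm.injective).mp h0
  · funext b
    have := congrArg σ.symm (congrFun hc b)
    simpa [sgF, Finset.sum_apply, Pi.smul_apply, map_sum, map_mul] using this

end SCF
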