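import Pool.Agent.SCF.TargetsTop

/-!
# Project SCF: target SPG (automorphisms and spans)
-/

set_option autoImplicit false

namespace SCF

open Module Filter Topology

theorem p_SPG : T_SPG := by
  intro k n σ M
  constructor
  · apply le_antisymm
    · intro v hv
      rw [mem_sg, Submodule.mem_span_range_iff_exists_fun] at hv
      obtain ⟨c, hc⟩ := hv
      rw [Submodule.mem_span_range_iff_exists_fun]
      refine ⟨fun a => σ (c a), ?_⟩
      funext b
      have h1 := congrFun hc b
      have h2 := congrArg σ h1
      rw [σ.apply_symm_apply] at h2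
      rw [← h2, Finset.sum_apply, Finset.sum_apply, map_sum]
      refine Finset.sum_congr rfl fun a _ => ?_
      rw [Pi.smul_apply, Pi.smul_apply, smul_eq_mul, smul_eq_mul, map_mul]
    · rw [Submodule.span_le]
      rintro v ⟨a, rfl⟩
      show (fun b => σ.symm (σ (M a b))) ∈ Submodule.span ℂ (Set.range M)
      have h1 : (fun b => σ.symm (σ (M a b))) = M a := by
        funext b
        exact σ.symm_apply_apply _
      rw [h1]
      exact Submodule.subset_span ⟨a, rfl⟩
  · intro hM a b hb
    show σ (M a b) = _
    rw [hM a b hb]
    by_cases h : (b : ℕ) = (a : ℕ)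
    · rw [if_pos h, map_one]
    · rw [if_neg h, map_zero]

end SCF
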