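import Pool.Agent.SCF.TargetsTop
import Pool.Agent.SCF.Targets

set_option autoImplicit false

namespace SCF

open Module Filter Topology

namespace SPN_

theorem pr_inj (h : T_PR) {n : ℕ} {H H' : Submodule ℂ (Fin n → ℂ)} (e : pr H = pr H') : H = H' := by
  ext v
  rw [(h n H).1.mem v, (h n H').1.mem v, e]

end SPN_

theorem p_SPN (hPR : T_PR) (hNEAR : T_NEAR) : T_SPN := by
  intro k n r lam G0 hG0 hfin
  obtain ⟨U, hU, hd⟩ := (hfin.image pr).t2_separation
  refine ⟨fun H => U (pr H), fun H _ => ⟨(hU _).2, (hU _).1⟩, ?_, ?_⟩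
  · intro H hH H' hH' hne
    exact hd (Set.mem_image_of_mem pr hH) (Set.mem_image_of_mem pr hH')
      (fun e => hne (SPN_.pr_inj hPR e))
  · have := hNEAR k n r lam G0 hG0 (⋃ H ∈ Sch k lam G0, U (pr H))
      (isOpen_biUnion fun H _ => (hU _).2)
      (fun H hH => Set.mem_biUnion hH (hU _).1)
    filter_upwards [this] with G hG K hK
    obtain ⟨H, hH, hK'⟩ := Set.mem_iUnion₂.mp (hG K hK)
    exact ⟨H, hH, hK'⟩

end SCF
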