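import Pool.Agent.SCF.TargetsTop

set_option autoImplicit false

/-!
# SCF, target STD: standard form of a subspace
-/

namespace SCF

open Module Filter Topology

namespace STD_

theorem indep {k n : ℕ} (hkn : k ≤ n) {M : Fin k → Fin n → ℂ} (hM : Std M) :
    LinearIndependent ℂ M := by
  rw [Fintype.linearIndependent_iff]
  intro c hc b
  have h := congrFun hc (Fin.castLE hkn b)
  rw [Finset.sum_apply] at h
  have h2 : ∀ a : Fin k, (c a • M a) (Fin.castLE hkn b) = if b = a then c a else 0 := by
    intro a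
    rw [Pi.smul_apply, hM a (Fin.castLE hkn b) (by simp)]
    by_cases hab : b = a
    · subst hab
      simp
    · have h3 : ¬ ((Fin.castLE hkn b : Fin n) : ℕ) = (a : ℕ) := by
        intro h4
        apply hab
        apply Fin.ext
        simpa using h4
      rw [if_neg h3, if_neg hab, smul_zero]
  rw [Finset.sum_congr rfl (fun a _ => h2 a)] at h
  simpa using h

end STD_

theorem p_STD : T_STD := by
  intro k n H hkn hH hC
  let f : H →ₗ[ℂ] (Fin k → ℂ) := (LinearMap.funLeft ℂ ℂ (Fin.castLE hkn)).comp H.subtype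
  have hf : ∀ (v : H) (a : Fin k), f v a = (v : Fin n → ℂ) (Fin.castLE hkn a) := fun v a => rfl
  have hinj : Function.Injective f := by
    rw [← LinearMap.ker_eq_bot, LinearMap.ker_eq_bot']
    intro v hv
    apply Subtype.ext
    apply hC v v.2
    intro c hc
    have h := congrFun hv ⟨c, hc⟩
    rw [hf] at h
    exact h
  have hfr : finrank ℂ H = finrank ℂ (Fin k → ℂ) := by
    rw [hH]
    simp
  have hsurj : Function.Surjective f :=
    (LinearMap.injective_iff_surjective_of_finrank_eq_finrank hfr).1 hinj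
  choose g hg using hsurj
  have hStd : Std (fun a : Fin k => ((g (Pi.single a 1) : H) : Fin n → ℂ)) := by
    intro a b hb
    have h := congrFun (hg (Pi.single a 1)) ⟨b, hb⟩
    rw [hf] at h
    have h2 : ((g (Pi.single a 1) : H) : Fin n → ℂ) b = (Pi.single a (1 : ℂ) : Fin k → ℂ) ⟨b, hb⟩ := h
    show ((g (Pi.single a 1) : H) : Fin n → ℂ) b = _
    rw [h2, Pi.single_apply]
    by_cases hab : (b : ℕ) = (a : ℕ)
    · rw [if_pos hab, if_pos (Fin.ext hab)]
    · rw [if_neg hab, if_neg (fun h3 => hab (congrArg Fin.val h3))]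
  refine ⟨fun a : Fin k => ((g (Pi.single a 1) : H) : Fin n → ℂ), hStd, ?_⟩
  apply Submodule.eq_of_le_of_finrank_eq
  · rw [Submodule.span_le]
    rintro _ ⟨a, rfl⟩
    exact (g (Pi.single a 1)).2
  · rw [finrank_span_eq_card (STD_.indep hkn hStd), hH]
    simp

end SCF
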