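import Pool.Agent.SCF.Targets

/-!
# SCF-TRK: the trace of the orthogonal projection is the dimension
-/

set_option autoImplicit false

namespace SCF

open Module Filter Topology

namespace TRK_

lemma isProj {n : ℕ} {P : Matrix (Fin n) (Fin n) ℂ} {H : Submodule ℂ (Fin n → ℂ)} (h : IsPr P H) :
    LinearMap.IsProj H (Matrix.toLin' P) := by
  constructor
  · intro v
    rw [Matrix.toLin'_apply, h.mem, Matrix.mulVec_mulVec, h.idem]
  · intro v hv
    rw [Matrix.toLin'_apply]
    exact (h.mem v).mp hv

end TRK_

theorem p_TRK (h : T_PR) : T_TRK := by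
  intro n H
  have hP := (h n H).1
  have h1 := (TRK_.isProj hP).trace
  rw [← h1, Matrix.trace_toLin'_eq]

end SCF
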