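import Pool.Agent.SCF.Targets

set_option autoImplicit false

/-!
# SCF: local uniqueness
-/

namespace SCF

open Module Filter Topology

namespace UNI_

theorem basisM (n : ℕ) (P : Matrix (Fin n) (Fin n) ℂ) :
    ∃ U : ℕ → Set (Matrix (Fin n) (Fin n) ℂ), (𝓝 P).HasAntitoneBasis U := by
  have : FirstCountableTopology (Matrix (Fin n) (Fin n) ℂ) :=
    inferInstanceAs (FirstCountableTopology (Fin n → Fin n → ℂ))
  exact (𝓝 P).exists_antitone_basis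

theorem basisG (n r : ℕ) (G : Fl n r) : ∃ U : ℕ → Set (Fl n r), (𝓝 G).HasAntitoneBasis U := by
  have : FirstCountableTopology (Fl n r) :=
    inferInstanceAs (FirstCountableTopology (Fin r → Fin n → Fin n → ℂ))
  exact (𝓝 G).exists_antitone_basis

end UNI_

open UNI_ in
theorem p_UNI (h1 : T_L1) (h2 : T_LR) (h3 : T_INDO) : T_UNI := by
  intro k n r lam hSP G0 hG0 hgood H0 hH0
  by_contra hc
  push Not at hc
  obtain ⟨U, hU⟩ := basisM n (pr H0)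
  obtain ⟨V, hV⟩ := basisG n r G0
  have hind : ∀ᶠ G in 𝓝 G0, Ind G := h3 n r G0 hG0
  have hex : ∀ ν : ℕ, ∃ G : Fl n r, G ∈ V ν ∧ Ind G ∧ ∃ H ∈ Sch k lam G, ∃ H' ∈ Sch k lam G,
      pr H ∈ U ν ∧ pr H' ∈ U ν ∧ H ≠ H' := by
    intro ν
    have hf := hc (U ν) (hU.mem ν)
    obtain ⟨G, ⟨⟨H, hH, H', hH', ha, hb, hne⟩, hi⟩, hv⟩ :=
      ((hf.and_eventually hind).and_eventually (hV.mem ν)).exists
    exact ⟨G, hv, hi, H, hH, H', hH', ha, hb, hne⟩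
  choose G hGV hGI H hH H' hH' hHU hHU' hne using hex
  have hGt : Tendsto G atTop (𝓝 G0) := hV.tendsto hGV
  have hHt : Tendsto (fun ν => pr (H ν)) atTop (𝓝 (pr H0)) := hU.tendsto hHU
  have hHt' : Tendsto (fun ν => pr (H' ν)) atTop (𝓝 (pr H0)) := hU.tendsto hHU'
  have hB : ∀ ν, ∃ B, IsRel (G ν) (H ν) (H' ν) B ∧ B ≠ 0 := fun ν =>
    h1 k n r lam hSP (G ν) (hGI ν) (H ν) (hH ν) (H' ν) (hH' ν) (hne ν)
  choose B hB using hB
  obtain ⟨B0, hB0, hB0ne⟩ := h2 n r G G0 hG0 hGt H H' H0 H0 hHt hHt' B hB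
  exact hB0ne (hgood H0 hH0 B0 hB0)

end SCF
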