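import Pool.Agent.SCF.Asm
import Pool.Agent.SCF.P_CARD
import Pool.Agent.SCF.P_CORE
import Pool.Agent.SCF.P_CPT
import Pool.Agent.SCF.P_FIN
import Pool.Agent.SCF.P_GO
import Pool.Agent.SCF.P_GR
import Pool.Agent.SCF.P_ID
import Pool.Agent.SCF.P_INDO
import Pool.Agent.SCF.P_L1
import Pool.Agent.SCF.P_L2
import Pool.Agent.SCF.P_LD
import Pool.Agent.SCF.P_LR
import Pool.Agent.SCF.P_LV
import Pool.Agent.SCF.P_MONO
import Pool.Agent.SCF.P_PERS
import Pool.Agent.SCF.P_PR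
import Pool.Agent.SCF.P_PRC
import Pool.Agent.SCF.P_PSD
import Pool.Agent.SCF.P_REAL
import Pool.Agent.SCF.P_SECI
import Pool.Agent.SCF.P_SGB
import Pool.Agent.SCF.P_SGG
import Pool.Agent.SCF.P_SGS
import Pool.Agent.SCF.P_TRK
import Pool.Agent.SCF.P_UNI

/-!
# Project SCF (MP_0c25eb_ag, S00015): Part I, all targets without hypotheses
-/

set_option autoImplicit false

namespace SCF

theorem q_L1 : T_L1 := p_L1 p_GR
theorem q_CORE : T_CORE := p_CORE p_PSD p_ID p_MONO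
theorem q_L2 : T_L2 := p_L2 q_CORE p_SECI
theorem q_SGS : T_SGS := p_SGS p_SGB
theorem q_SGG : T_SGG := p_SGG p_SGB q_SGS
theorem q_REAL : T_REAL := p_REAL q_SGS q_L1 q_L2 p_SECI
theorem q_GSEC : T_GSEC := p_GSEC q_REAL q_L2
theorem q_TRK : T_TRK := p_TRK p_PR
theorem q_LD : T_LD := p_LD p_PR p_LV
theorem q_CPT : T_CPT := p_CPT p_PR q_TRK q_LD
theorem q_LR : T_LR := p_LR p_PR p_LV
theorem q_FIN : T_FIN := p_FIN q_L1 q_CPT q_LR
theorem q_GO : T_GO := p_GO q_CPT q_LR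
theorem q_NEAR : T_NEAR := p_NEAR q_CPT
theorem q_UNI : T_UNI := p_UNI q_L1 q_LR p_INDO
theorem q_CARD : T_CARD := p_CARD q_FIN q_NEAR q_UNI
theorem q_PERS : T_PERS := p_PERS q_FIN q_NEAR q_UNI
theorem q_PRC : T_PRC := p_PRC p_PR

/-- finiteness for the secant flags -/
theorem q_SF (k n r : ℕ) (lam : Fin r → Fin k → ℕ) (h : SP k n r lam)
    (t : Fin r → Fin n → ℝ) (ht : Sep t) : (Sch k lam (sec t)).Finite :=
  q_FIN k n r lam h (sec t) (p_SECI n r t ht) (q_GSEC k n r lam h t ht)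

end SCF
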