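import Pool.Agent.SCF.PartI
import Pool.Agent.SCF.FinMax
import Pool.Agent.SCF.P_BND
import Pool.Agent.SCF.P_CCP
import Pool.Agent.SCF.P_DET
import Pool.Agent.SCF.P_GDG
import Pool.Agent.SCF.P_GEQ
import Pool.Agent.SCF.P_GIN
import Pool.Agent.SCF.P_GLS
import Pool.Agent.SCF.P_GNR
import Pool.Agent.SCF.P_LCL
import Pool.Agent.SCF.P_LNE
import Pool.Agent.SCF.P_MXC
import Pool.Agent.SCF.P_MXF
import Pool.Agent.SCF.P_SPG
import Pool.Agent.SCF.P_SPN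
import Pool.Agent.SCF.P_STD
import Pool.Agent.SCF.P_STU

/-!
# Project SCF (MP_0c25eb_ag, S00015): Part II, the maximality clause from field theory and the chart
-/

set_option autoImplicit false

namespace SCF

theorem q_BND : T_BND := p_BND p_PR q_CPT
theorem q_SPN : T_SPN := p_SPN p_PR q_NEAR

/-- The maximality clause from the field theory targets (FT2, FTB, FTF, FT4, FT5, GDN, CVX, written
out) and from the chart target. -/
theorem q_MXF_of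
    (hFT2 : ∀ (ι : Type) [Fintype ι] (x y : ι → ℂ), AlgebraicIndependent ℚ x →
      AlgebraicIndependent ℚ y → ∃ σ : ℂ ≃+* ℂ, ∀ i, σ (x i) = y i)
    (hFTB : ∀ (ι : Type) [Fintype ι] (y : ι → ℂ) (z : ℂ) (R : ℝ),
      (∀ σ : ℂ ≃+* ℂ, (∀ i, σ (y i) = y i) → ‖σ z‖ ≤ R) →
      IsAlgebraic (IntermediateField.adjoin ℚ (Set.range y)) z)
    (hFTF : ∀ (ι : Type) [Fintype ι] (y : ι → ℂ) (z : ℂ),
      IsAlgebraic (IntermediateField.adjoin ℚ (Set.range y)) z →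
      {w : ℂ | ∃ σ : ℂ ≃+* ℂ, (∀ i, σ (y i) = y i) ∧ w = σ z}.Finite)
    (hFT4 : ∀ (ι κ : Type) [Fintype ι] [Fintype κ] (x : ι → ℂ) (y : κ → ℂ),
      AlgebraicIndependent ℚ x →
      (∀ i, IsAlgebraic (IntermediateField.adjoin ℚ (Set.range y)) (x i)) →
      Fintype.card κ ≤ Fintype.card ι → AlgebraicIndependent ℚ y)
    (hFT5 : ∀ (ι : Type) [Fintype ι] (a c : ι → ℂ), AlgebraicIndependent ℚ a →
      {z : ℂ | ¬ AlgebraicIndependent ℚ (fun i => a i + z * (c i - a i))}.Countable)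
    (hGDN : ∀ (ι : Type) [Fintype ι] (a : ι → ℂ) (ε : ℝ), 0 < ε →
      ∃ b : ι → ℂ, AlgebraicIndependent ℚ b ∧ ∀ i, ‖b i - a i‖ < ε)
    (hCVX : ∀ Ω : Set ℂ, IsOpen Ω → Convex ℝ Ω → ∀ S : Set ℂ, S.Countable →
      IsPreconnected (Ω \ S))
    (hCHT : T_CHT) : T_MXF := by
  have hGEQ : T_GEQ := p_GEQ hFT2 q_SGS q_SGG p_SGB
  have hGDG : T_GDG := p_GDG hGDN p_GIN hGEQ q_GO q_CARD q_FIN
  have hDET : T_DET := p_DET hFTB hFTF hFT4
  have hGNR : T_GNR := p_GNR hCHT hDET q_BND q_PRC p_STD p_STU q_SGS p_SPG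
  have hLCL : T_LCL := p_LCL hGDG hGEQ p_GIN q_PERS q_NEAR
  have hLNE : T_LNE := p_LNE hLCL hFT5 hCVX
  exact p_MXF (p_MXC q_SPN hGNR hLNE hGDG) p_CCP p_GLS

end SCF
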