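import Mathlib

/-!
# Project SCF (MP_0c25eb_ag, S00015), Part II, package AUT: field automorphisms of `ℂ`, generic points, lines

Every target has its complete proof in the docstring. The word uses lists the targets that may be taken as hypotheses.
-/

set_option autoImplicit false

namespace SCF

open Cardinal

/-- SCF-CEB. Automorphism from two transcendence bases. PROOF. Let `A = Algebra.adjoin F (range v)`,
`B = Algebra.adjoin F (range w)`; `hv.1.aevalEquiv : MvPolynomial ι F ≃ₐ[F] A` maps `X i` to `v i`, the same for `w`, and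
`MvPolynomial.renameEquiv F e`. So there is `ψ : A ≃+* B` (even over `F`) with `ψ (v i) = w (e i)`. `ℂ` is an algebraic closure of
`A` and of `B` (`IsAlgClosed.isAlgClosure_of_transcendence_basis`), and `σ = IsAlgClosure.equivOfEquiv ℂ ℂ ψ` extends `ψ`
(`IsAlgClosure.equivOfEquiv_algebraMap`). On `F` and on the `v i` it is `ψ`. (Look at the proof of
`IsAlgClosed.equivOfTranscendenceBasis` in Mathlib, FieldTheory/IsAlgClosed/Classification.) -/
def T_CEB : Prop := ∀ (F : Type) [Field F] [Algebra F ℂ] (ι κ : Type) (v : ι → ℂ) (w : κ → ℂ) (e : ι ≃ κ),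
  IsTranscendenceBasis F v → IsTranscendenceBasis F w →
  ∃ σ : ℂ ≃+* ℂ, (∀ c : F, σ (algebraMap F ℂ c) = algebraMap F ℂ c) ∧ ∀ i, σ (v i) = w (e i)

/-- SCF-CMP. Cardinality of the rest of a transcendence basis. PROOF. `exists_isTranscendenceBasis_superset` for the range of
`x` (`AlgebraicIndependent.to_subtype_range` or `range`) gives a set `t` containing the range, a transcendence basis. By
`IsAlgClosed.cardinal_eq_cardinal_transcendence_basis_of_aleph0_lt'` (`F` countable, `ℂ` uncountable,
`Cardinal.mk_complex`): `#t = 𝔠`. The range of `x` is finite, so the complement `t \ range x` has cardinality `𝔠`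
(`Cardinal.mk_diff_eq_left` or `mk_compl_eq_mk_compl_infinite`). -/
def T_CMP : Prop := ∀ (F : Type) [Field F] [Algebra F ℂ] [Countable F] (ι : Type) [Finite ι] (x : ι → ℂ),
  AlgebraicIndependent F x → ∃ t : Set ℂ, Set.range x ⊆ t ∧ IsTranscendenceBasis F ((↑) : t → ℂ) ∧
    #(t \ Set.range x : Set ℂ) = Cardinal.continuum

/-- SCF-FTE (uses T_CEB, T_CMP). PROOF. T_CMP for `x` and `y` gives `t`, `u`. `x` and `y` are injective
(`AlgebraicIndependent.injective`), so `x i ↦ y i` is a bijection of the ranges, and the complements `t \ range x`, `u \ range y`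
have the same cardinality. Together: `e : t ≃ u` with `e (x i) = y i` (`Equiv.Set.union`, `Equiv.sumCongr`, or build the
function by cases). T_CEB. -/
def T_FTE : Prop := ∀ (F : Type) [Field F] [Algebra F ℂ] [Countable F] (ι : Type) [Finite ι] (x y : ι → ℂ),
  AlgebraicIndependent F x → AlgebraicIndependent F y →
  ∃ σ : ℂ ≃+* ℂ, (∀ c : F, σ (algebraMap F ℂ c) = algebraMap F ℂ c) ∧ ∀ i, σ (x i) = y i

/-- SCF-FT2 (uses T_FTE). PROOF. T_FTE with `F = ℚ`. -/
def T_FT2 : Prop := ∀ (ι : Type) [Fintype ι] (x y : ι → ℂ), AlgebraicIndependent ℚ x → AlgebraicIndependent ℚ y →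
  ∃ σ : ℂ ≃+* ℂ, ∀ i, σ (x i) = y i

/-- SCF-FTB (uses T_FTE). Bounded orbit implies algebraic. PROOF. `F = IntermediateField.adjoin ℚ (range y)` is countable (an
algebraic extension argument or: `F` is the fraction field of the image of `MvPolynomial ι ℚ`; Mathlib:
`IntermediateField.adjoin` of a finite or countable set, for example `Cardinal.mk_adjoin_le`-like lemmas, or every
element of `F` is a quotient of two values of polynomials, `IntermediateField.mem_adjoin_range_iff`). Suppose `z` is not
algebraic over `F`: transcendental. The elements of `ℂ` algebraic over `F` are countable (`Algebraic.countable`), the set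
`{w | ‖w‖ > R}` is not countable (it contains an uncountable set of reals; or `Cardinal` of an open nonempty set,
`Set.Countable.dense_compl`), so there is `w` transcendental over `F` with `‖w‖ > R`. T_FTE for `ι = Unit` (or `Fin 1`),
`x = z`, `y = w` (`algebraicIndependent_unique_type_iff` / `algebraicIndependent_singleton_iff`): `σ` fixes `F`, so all the `y i`
(they are in `F`), and `σ z = w`, against the bound. -/
def T_FTB : Prop := ∀ (ι : Type) [Fintype ι] (y : ι → ℂ) (z : ℂ) (R : ℝ),
  (∀ σ : ℂ ≃+* ℂ, (∀ i, σ (y i) = y i) → ‖σ z‖ ≤ R) → IsAlgebraic (IntermediateField.adjoin ℚ (Set.range y)) z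

/-- SCF-FTF. Finite orbit. PROOF. `F = IntermediateField.adjoin ℚ (range y)`. A ring automorphism `σ` fixing all the `y i` fixes
`ℚ` (`map_ratCast`) and so all of `F` (`IntermediateField.adjoin_induction`: sums, products, inverses). If `p ≠ 0` in `F[X]` has
`p(z) = 0` then `p(σ z) = σ (p(z)) = 0` (coefficients are fixed), so the set is contained in the finite root set of
`p` (`Polynomial.rootSet_finite` / `Polynomial.mem_rootSet`). -/
def T_FTF : Prop := ∀ (ι : Type) [Fintype ι] (y : ι → ℂ) (z : ℂ),
  IsAlgebraic (IntermediateField.adjoin ℚ (Set.range y)) z →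
  {w : ℂ | ∃ σ : ℂ ≃+* ℂ, (∀ i, σ (y i) = y i) ∧ w = σ z}.Finite

/-- SCF-FT4. Transcendence degree. PROOF. Let `L` be the algebraic closure of `ℚ(y) = IntermediateField.adjoin ℚ (range y)` in
`ℂ` (`algebraicClosure`), or `L = IntermediateField.adjoin ℚ (range x ∪ range y)`, or work in `ℂ` with the algebraic matroid
over `ℚ` (`AlgebraicIndependent.matroid`). In `L` (over `ℚ`): `x` is algebraically independent, so `card ι ≤ trdeg`
(`AlgebraicIndependent.lift_cardinalMk_le_trdeg`); `L` is algebraic over `ℚ(y)`, hence over
`Algebra.adjoin ℚ (range y)`, so `trdeg ≤ card κ` and with `card κ ≤ card ι ≤ trdeg` the family `y` is a transcendence basis of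
`L` (`Algebra.IsAlgebraic.isTranscendenceBasis_of_le_trdeg_of_finite`), in particular algebraically independent; transfer
to `ℂ` (`AlgebraicIndependent.map'` along the injective inclusion, `algHom_comp..`). Matroid form: the closure of `range y`
contains the independent set `range x` of size `card ι ≥ card κ`, so `range y` has rank `card κ`, it is independent and `y`
is injective. -/
def T_FT4 : Prop := ∀ (ι κ : Type) [Fintype ι] [Fintype κ] (x : ι → ℂ) (y : κ → ℂ), AlgebraicIndependent ℚ x →
  (∀ i, IsAlgebraic (IntermediateField.adjoin ℚ (Set.range y)) (x i)) → Fintype.card κ ≤ Fintype.card ι →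
  AlgebraicIndependent ℚ y

/-- SCF-FT5. Lines. PROOF. If the family `ℓ z` (`ℓ z i = a i + z * (c i - a i)`) is not algebraically independent there is a nonzero
`P : MvPolynomial ι ℚ` with `aeval (ℓ z) P = 0` (`algebraicIndependent_iff`). For a fixed nonzero `P` the function
`z ↦ aeval (ℓ z) P` is the evaluation at `z` of the polynomial `Q = aeval (fun i => C (a i) + X * C (c i - a i)) P` in `ℂ[X]`, and
`Q(0) = aeval a P ≠ 0`, so it has finitely many zeros. `MvPolynomial ι ℚ` is countable: a countable union of finite
sets. -/
def T_FT5 : Prop := ∀ (ι : Type) [Fintype ι] (a c : ι → ℂ), AlgebraicIndependent ℚ a →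
  {z : ℂ | ¬ AlgebraicIndependent ℚ (fun i => a i + z * (c i - a i))}.Countable

/-- SCF-GDN (uses T_FT5, T_CMP). Generic points are dense. PROOF. There is an algebraically independent family `g : ι → ℂ`: a
transcendence basis of `ℂ` over `ℚ` has cardinality `𝔠` (T_CMP with the empty family), so `ι` embeds into it. By T_FT5
(line from `g` to `a`) all but countably many `z` give an algebraically independent family `g + z (a - g)`; the set of the
`z` with `|z - 1| * max ‖a i - g i‖ < ε` is a nonempty open set of `ℂ`, so not countable; take such a `z`: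
`b = g + z (a - g)`, `b - a = (z - 1)(a - g)`. -/
def T_GDN : Prop := ∀ (ι : Type) [Fintype ι] (a : ι → ℂ) (ε : ℝ), 0 < ε →
  ∃ b : ι → ℂ, AlgebraicIndependent ℚ b ∧ ∀ i, ‖b i - a i‖ < ε

/-- SCF-CVX. PROOF. Let `a, b ∈ Ω \ S`, `a ≠ b`. Let `c t = (a + b) / 2 + t * I * (b - a)` for real `t`; for small `|t|` it is in
`Ω`. For `t ≠ t'` the segments `[a, c t]` and `[a, c t']` meet only in `a`, the same for `b`. So every point of `S` (not
equal to `a`, `b`) lies on at most one of the segments `[a, c t]` and at most one of the `[c t, b]`: only countably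
many `t` are bad. For a good small `t` the union of the two segments is a connected subset of `Ω \ S` (convexity of `Ω`)
containing `a` and `b`. So any two points of `Ω \ S` lie in a preconnected subset: `isPreconnected_of_forall_pair`. (Compare
`Set.Countable.isPathConnected_compl_of_one_lt_rank` in Mathlib, the case `Ω = ℂ`, whose proof can be copied.) -/
def T_CVX : Prop := ∀ Ω : Set ℂ, IsOpen Ω → Convex ℝ Ω → ∀ S : Set ℂ, S.Countable → IsPreconnected (Ω \ S)

end SCF
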