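import Pool.Agent.SCF.Defs
import Pool.Agent.SCF.DefsB

/-!
# Project SCF (MP_0c25eb_ag, S00015), Part II, package CHART: proof of T_CHT (ideas row 1818, S5; row 1819)

Every target has its complete proof in the docstring. The word uses lists the targets that may be taken as hypotheses.
-/

set_option autoImplicit false

namespace SCF

open Module Filter Topology

/-- the 0-based leading positions: the condition for `i` concerns the first `pos + 1` vectors -/
def pos (k n : ℕ) {r : ℕ} (lam : Fin r → Fin k → ℕ) (j : Fin r) (i : Fin k) : ℕ := n - k + (i : ℕ) - lam j i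

/-- `a` is a leading position of the `j`-th flag -/
def Jm (k n : ℕ) {r : ℕ} (lam : Fin r → Fin k → ℕ) (j : Fin r) (a : Fin n) : Prop :=
  ∃ i : Fin k, (a : ℕ) = pos k n lam j i

/-- `b` is not a leading position and stands before the `i`-th one -/
def Bf (k n : ℕ) {r : ℕ} (lam : Fin r → Fin k → ℕ) (j : Fin r) (i : Fin k) (b : Fin n) : Prop :=
  (b : ℕ) < pos k n lam j i ∧ ¬ Jm k n lam j b

open Classical in
/-- the chart formula: the vectors at the leading positions are combinations of the rows of `M` and of the earlier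
vectors at the other positions -/
def Frm (k n r : ℕ) (lam : Fin r → Fin k → ℕ) (G : Fl n r) (M : Fin k → Fin n → ℂ)
    (C : Fin r → Fin k → Fin k → ℂ) (E : Fin r → Fin k → Fin n → ℂ) : Prop :=
  ∀ (j : Fin r) (i : Fin k) (a : Fin n), (a : ℕ) = pos k n lam j i →
    G j a = (∑ l, C j i l • M l) + ∑ b, (if Bf k n lam j i b then E j i b else 0) • G j b

/-- the possible parameters: entries of `M`, entries of `G`, entries of `C`, entries of `E` -/
abbrev PX (k n r : ℕ) : Type :=
  (Fin k × Fin n) ⊕ (Fin r × Fin n × Fin n) ⊕ (Fin r × Fin k × Fin k) ⊕ (Fin r × Fin k × Fin n)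

/-- the free parameters -/
def Act (k n r : ℕ) (lam : Fin r → Fin k → ℕ) : PX k n r → Prop
  | Sum.inl p => k ≤ (p.2 : ℕ)
  | Sum.inr (Sum.inl p) => ¬ Jm k n lam p.1 p.2.1
  | Sum.inr (Sum.inr (Sum.inl _)) => True
  | Sum.inr (Sum.inr (Sum.inr p)) => Bf k n lam p.1 p.2.1 p.2.2

/-- SCF-POS. PROOF. `lam j i' ≤ lam j i ≤ n - k` for `i < i'`, `omega`. In particular `i ↦ pos j i` is injective with values
`< n`, and `n - k + i + 1 - lam j i = pos j i + 1`. -/
def T_POS : Prop := ∀ (k n r : ℕ) (lam : Fin r → Fin k → ℕ), SP k n r lam → ∀ j,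
  StrictMono (pos k n lam j) ∧ (∀ i, pos k n lam j i < n) ∧ (∀ i : Fin k, (i : ℕ) ≤ pos k n lam j i) ∧
  ∀ i : Fin k, n - k + (i : ℕ) + 1 - lam j i = pos k n lam j i + 1

/-- SCF-OPC (helper96; uses T_GR). Open cell density. PROOF. Treat the `j` separately. Write `g = G0 j`, `H = span M0`,
`m i = pos j i`. By T_GR there are independent `h i ∈ H ⊓ Fs g (m i + 1)`, a basis of `H`. Let `T` be a linear map with
`T (h i) = g (m i)`. For small `ε1 ≠ 0` let `g' a = (1 + ε1 T)⁻¹ (g a)` (close to `g`, independent). Then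
`h i = (1 + ε1 T)⁻¹ (h i + ε1 g (m i))`, and `h i + ε1 g (m i) = ∑_{b ≤ m i} c b • g b` with `c (m i) = (coefficient of h i) + ε1`,
nonzero for all but finitely many `ε1`. So `h i = ∑_{b ≤ m i} c b • g' b`; divide `h i` by `c (m i)`. -/
def T_OPC : Prop := ∀ (k n r : ℕ) (lam : Fin r → Fin k → ℕ), SP k n r lam →
  ∀ G0 : Fl n r, Ind G0 → ∀ M0 : Fin k → Fin n → ℂ, LinearIndependent ℂ M0 →
  Submodule.span ℂ (Set.range M0) ∈ Sch k lam G0 → ∀ ε : ℝ, 0 < ε →
  ∃ G : Fl n r, Ind G ∧ (∀ j a b, ‖G j a b - G0 j a b‖ < ε) ∧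
    ∀ j, ∃ h : Fin k → Fin n → ℂ, (∀ i, h i ∈ Submodule.span ℂ (Set.range M0)) ∧
      ∀ (i : Fin k) (a : Fin n), (a : ℕ) = pos k n lam j i → h i - G j a ∈ Fs (G j) (pos k n lam j i)

/-- SCF-ELM (uses T_POS). Elimination. PROOF. Fix `j`, `H = span (range M)`, `g = G j`, `m i = pos j i`. Claim: for all `i` and
`a = m i`: `g a ∈ H ⊔ span {g b | Bf j i b}`. Strong induction on `i`: `g a = h i - (element of Fs g (m i))`, and every
`g b` with `b < m i` is either of the second kind (`b` not a leading position: `Bf j i b`) or `b = m l` with `l < i` (T_POS), and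
then `g b ∈ H ⊔ span {g b' | Bf j l b'}`, and `Bf j l b'` implies `Bf j i b'`. Then write the element as
`∑ l, C l • M l + ∑ b, (if Bf .. then E b else 0) • g b` (`Submodule.mem_sup`, `Submodule.mem_span_range_iff_exists_fun`,
`Finsupp.mem_span_image_iff_linearCombination` or induction) and choose. -/
def T_ELM : Prop := ∀ (k n r : ℕ) (lam : Fin r → Fin k → ℕ), SP k n r lam →
  ∀ (G : Fl n r) (M : Fin k → Fin n → ℂ),
  (∀ j, ∃ h : Fin k → Fin n → ℂ, (∀ i, h i ∈ Submodule.span ℂ (Set.range M)) ∧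
      ∀ (i : Fin k) (a : Fin n), (a : ℕ) = pos k n lam j i → h i - G j a ∈ Fs (G j) (pos k n lam j i)) →
  ∃ (C : Fin r → Fin k → Fin k → ℂ) (E : Fin r → Fin k → Fin n → ℂ), Frm k n r lam G M C E

/-- SCF-MEM (uses T_POS). Membership. PROOF. `H = span (range M)`, `finrank H = k`. Fix `j, i`, `g = G j`, `m = pos j i`,
`F = Fs g (m + 1)`, `finrank F = m + 1` (`Ind`, `m < n`). `F ⊔ H` is contained in (equal to) `H ⊔ span {g b | Bf j i b}`:
for `b ≤ m` either `b` is not a leading position, then `b < m` and `Bf j i b`, or `b = pos j l` with `l ≤ i`, and the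
formula shows `g b ∈ H ⊔ span {g b' | Bf j l b'}`. The number of the `b` with `Bf j i b` is `m - i` (the leading positions
`< m` are the `i` numbers `pos j l`, `l < i`). So `finrank (F ⊔ H) ≤ k + m - i`, and
`finrank (H ⊓ F) = k + (m + 1) - finrank (F ⊔ H) ≥ i + 1` (`Submodule.finrank_sup_add_finrank_inf_eq`). The index in `Sch` is
`n - k + i + 1 - lam j i = m + 1`. -/
def T_MEM : Prop := ∀ (k n r : ℕ) (lam : Fin r → Fin k → ℕ), SP k n r lam →
  ∀ (G : Fl n r) (M : Fin k → Fin n → ℂ) (C : Fin r → Fin k → Fin k → ℂ) (E : Fin r → Fin k → Fin n → ℂ),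
  Ind G → LinearIndependent ℂ M → Frm k n r lam G M C E → Submodule.span ℂ (Set.range M) ∈ Sch k lam G

/-- SCF-BAS (uses T_POS). Uniqueness. PROOF. Fix `j`. The `k + (n - k) = n` vectors `M l` and `G j b`, `b` not a leading position,
span `ℂ ^ n`: their span contains all `G j b` (formula), which are `n` independent vectors. So they are independent
(`linearIndependent_of_top_le_span_of_card_eq_finrank` for the index type `Fin k ⊕ {b // ¬ Jm k n lam j b}`, whose cardinality is `n`
since `pos j` is injective). The difference of the two sides is a vanishing combination of them. -/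
def T_BAS : Prop := ∀ (k n r : ℕ) (lam : Fin r → Fin k → ℕ), SP k n r lam →
  ∀ (G : Fl n r) (M : Fin k → Fin n → ℂ) (C : Fin r → Fin k → Fin k → ℂ) (E : Fin r → Fin k → Fin n → ℂ),
  Ind G → Frm k n r lam G M C E → ∀ (j : Fin r) (c c' : Fin k → ℂ) (e e' : Fin n → ℂ),
  (∀ b, Jm k n lam j b → e b = 0 ∧ e' b = 0) →
  (∑ l, c l • M l) + ∑ b, e b • G j b = (∑ l, c' l • M l) + ∑ b, e' b • G j b → c = c' ∧ e = e'

/-- SCF-PTB (uses T_POS, T_INDO). Perturbation. PROOF. For parameters `(M, G', C, E)` let `Φ (M, G', C, E)` be the flags with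
`G j a = G' j a` if `a` is not a leading position and `G j a = ∑ C j i l • M l + ∑_{Bf j i b} E j i b • G' j b` if
`a = pos j i` (`i` is unique by T_POS). Since `Bf` only involves positions that are not leading, `Frm` holds for
`(Φ .., M, C, E)`. `Φ` is continuous (finite sums of products; for each `j, a` it is one of the two formulas) and `Φ (M1, G1, C1, E1) = G1`
by `Frm`. T_INDO and continuity at `(M1, G1, C1, E1)` (product topology, `Metric` or `dist_pi_lt_iff`) give `δ`. -/
def T_PTB : Prop := ∀ (k n r : ℕ) (lam : Fin r → Fin k → ℕ), SP k n r lam →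
  ∀ (G1 : Fl n r) (M1 : Fin k → Fin n → ℂ) (C1 : Fin r → Fin k → Fin k → ℂ) (E1 : Fin r → Fin k → Fin n → ℂ),
  Ind G1 → Frm k n r lam G1 M1 C1 E1 → ∀ ε : ℝ, 0 < ε →
  ∃ δ : ℝ, 0 < δ ∧ ∀ (G' : Fl n r) (M : Fin k → Fin n → ℂ) (C : Fin r → Fin k → Fin k → ℂ)
    (E : Fin r → Fin k → Fin n → ℂ),
    (∀ j a b, ¬ Jm k n lam j a → ‖G' j a b - G1 j a b‖ < δ) → (∀ a b, ‖M a b - M1 a b‖ < δ) →
    (∀ j i l, ‖C j i l - C1 j i l‖ < δ) → (∀ j i b, Bf k n lam j i b → ‖E j i b - E1 j i b‖ < δ) →
    ∃ G : Fl n r, (∀ j a, ¬ Jm k n lam j a → G j a = G' j a) ∧ Frm k n r lam G M C E ∧ Ind G ∧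
      ∀ j a b, ‖G j a b - G1 j a b‖ < ε

/-- SCF-IDX (uses T_POS). The count. PROOF. The number of the free parameters is
`k (n - k) + ∑ j ((n - k) n + k k + ∑ i (pos j i - i))`: for `M`: the `b` with `k ≤ b`; for `G`: the rows which are not leading
positions (`n - k` of them since `pos j` is injective); for `E`: the number of the `b` with `Bf j i b` is `pos j i - i`
(T_POS: the leading positions before `pos j i` are the `pos j l`, `l < i`). `∑ i (pos j i - i) = k (n - k) - ∑ i lam j i`, and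
`∑ j ∑ i lam j i = k (n - k)`. So the total is `r (n (n - k) + k k + k (n - k)) = r n n`. `Fintype.card_congr` and
`Fintype.equivOfCardEq` (classical decidability; `Fintype.card_sum`, `Fintype.card_subtype`; the subtype of a sum:
`Equiv.subtypeSum`). -/
def T_IDX : Prop := ∀ (k n r : ℕ) (lam : Fin r → Fin k → ℕ), SP k n r lam →
  Nonempty ((Fin r × Fin n × Fin n) ≃ {p : PX k n r // Act k n r lam p})

end SCF
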